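import Pool.Agent.Lib.MP_2619d0_ag.NP.A11

/-!
Row A12: the relation (R1).
-/

set_option autoImplicit false

namespace MP2619.NP

universe u

open IntermediateField MP2619.R MP2619.W

variable {k M : Type u} [Field k] [Field M] [Algebra k M] {n : ℕ}

private theorem A12_one {N : Type u} [Field N] [Algebra k N] {a b c i0 : Fin n} (x : Fin n → N) :
    Phi (0 : k) a b c (rs {i0} x) = x i0 ^ 3 := by
  rw [Phi_zero, Finset.sum_eq_single i0]
  · simp [rs]
  · intro j _ hj
    simp [rs, hj]
  · intro h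
    exact absurd (Finset.mem_univ _) h

/-- `g = 0`, `a, b, c` any three indices, `A = {i0}` (`Comp` because `g = 0`). Suppose the count is odd. If
`x i0 ≠ 0`: `JL_data` (`Φ(rs A x) = x_{i0}³`) gives data `Dt` with `x i0 = 0`; otherwise all three fields are the
same and `Dt x y`. So `Dt x y`, `x i0 = 0`. Then `y i0 ≠ 0` (`u_{i0} = y_{i0}`) and `k((w^j y_{i0}, ..) + x)` is
obtained from `x + y` by multiplying the coordinate `i0` by `w^j` (`pr_diag`, `R/G1.lean`):
`cnt w {i0} y x = 3` (`cnt_of_all`). `JL_data` with `x`, `y` exchanged: data with both coordinates `i0` zero, but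
`x + y` is algebraically independent. -/
theorem r1c (h2 : (2 : k) = 0) (hn : 3 ≤ n) (w : k) (hw : w ^ 2 + w + 1 = 0) (x y : Fin n → M)
    (hx : ∑ i, x i ^ 3 = 0) (hy : ∑ i, y i ^ 3 = 0) (i0 : Fin n) : Even (cnt w {i0} x y) := by
  classical
  obtain ⟨a, b, c, hd⟩ : ∃ a b c : Fin n, Dist a b c :=
    ⟨⟨0, by omega⟩, ⟨1, by omega⟩, ⟨2, by omega⟩, by simp [Dist]⟩
  have hb : Base k (0 : k) := ⟨h2, ⟨w, hw⟩, Or.inl rfl⟩
  have hc : Comp (0 : k) a b c ({i0} : Finset (Fin n)) := Or.inl rfl
  have hw0 : w ≠ 0 := by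
    rintro rfl
    simp at hw
  rw [← Nat.not_odd_iff_even]
  intro hodd
  obtain ⟨N, iN, iA, x', y', hD, hx0⟩ : ∃ (N : Type u) (_ : Field N) (_ : Algebra k N)
      (x' y' : Fin n → N), Dt (0 : k) a b c x' y' ∧ x' i0 = 0 := by
    by_cases h0 : x i0 = 0
    · obtain ⟨j, -, hpr⟩ := exists_of_cnt hodd
      refine ⟨M, inferInstance, inferInstance, x, y, ⟨?_, ?_, ?_⟩, h0⟩
      · have h1 : (fun i => tw {i0} (algebraMap k M w ^ j) x i + y i) = fun i => x i + y i := by
          funext i
          unfold tw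
          by_cases hi : i = i0
          · subst hi
            simp [h0]
          · rw [if_neg (by simpa using hi)]
        rw [h1] at hpr
        exact hpr
      · rw [Phi_zero]
        exact hx
      · rw [Phi_zero]
        exact hy
    · obtain ⟨N, iN, iA, x', y', hD, hA, -, -, -⟩ := JL_data hb hd w hw hc x y
        (by rw [A12_one]; exact pow_ne_zero _ h0) (by rw [Phi_zero]; exact hx)
        (by rw [Phi_zero]; exact hy) hodd
      refine ⟨N, iN, iA, x', y', hD, ?_⟩
      rw [A12_one] at hA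
      exact pow_eq_zero_iff (by norm_num) |>.mp hA
  have hy0 : y' i0 ≠ 0 := by
    have h1 := hD.pr.1.ne_zero i0
    rwa [hx0, zero_add] at h1
  have hcnt : cnt w {i0} y' x' = 3 := by
    refine cnt_of_all fun j _ => ?_
    have h1 := pr_diag (fun i => x' i + y' i) (fun i => if i = i0 then w ^ j else 1)
      (fun i => by split_ifs; exacts [pow_ne_zero _ hw0, one_ne_zero]) hD.pr
    have h3 : (fun i => tw {i0} (algebraMap k N w ^ j) y' i + x' i) =
        fun i => algebraMap k N (if i = i0 then w ^ j else 1) * (x' i + y' i) := by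
      funext i
      unfold tw
      by_cases hi : i = i0
      · subst hi
        simp [hx0]
      · rw [if_neg (by simpa using hi), if_neg hi, map_one, one_mul, add_comm]
    rw [h3]
    exact h1
  obtain ⟨N', iN', iA', x'', y'', hD', hA', -, -, h5⟩ := JL_data hb hd w hw hc y' x'
    (by rw [A12_one]; exact pow_ne_zero _ hy0) hD.Py hD.Px (by rw [hcnt]; decide)
  have h6 := h5 i0 hx0
  rw [A12_one] at hA'
  have h7 : x'' i0 = 0 := pow_eq_zero_iff (by norm_num) |>.mp hA'
  have h8 := hD'.pr.1.ne_zero i0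
  rw [h6, h7, add_zero] at h8
  exact h8 rfl

end MP2619.NP
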