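import Pool.Agent.Lib.MP_2619d0_ag.NP.A7

/-!
Row A13: the relation (Sc).
-/

set_option autoImplicit false

namespace MP2619.NP

universe u

open IntermediateField MP2619.R MP2619.W

variable {k M : Type u} [Field k] [Field M] [Algebra k M] {n : ℕ}

private theorem A13_one (h2 : (2 : k) = 0) (hw : ∃ w : k, w ^ 2 + w + 1 = 0) (hn : 3 ≤ n)
    (x y : Fin n → M) (hx : ∑ i, x i ^ 3 = 0) (hy : ∑ i, y i ^ 3 = 0) (c0 : k) (h0 : c0 ≠ 0)
    (h : Pr k (fun i => x i + y i)) : Pr k (fun i => algebraMap k M c0 * x i + y i) := by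
  have hb : Base k (0 : k) := ⟨h2, hw, Or.inl rfl⟩
  have hd : Dist (⟨0, by omega⟩ : Fin n) ⟨1, by omega⟩ ⟨2, by omega⟩ :=
    ⟨by simp [Fin.ext_iff], by simp [Fin.ext_iff], by simp [Fin.ext_iff]⟩
  have hD : Dt (0 : k) (⟨0, by omega⟩ : Fin n) ⟨1, by omega⟩ ⟨2, by omega⟩ x y :=
    ⟨h, by simp [Phi, hx], by simp [Phi, hy]⟩
  have h1 := (sc_c hb hd (A := Finset.univ) (Or.inl rfl) hD (by simp [Phi, rs, hx]) c0 h0).pr
  have e : (fun i => tw Finset.univ (algebraMap k M c0) x i + y i) =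
      fun i => algebraMap k M c0 * x i + y i := by
    funext i; simp [tw]
  rwa [e] at h1

/-- `sc_c` with `g = 0`, `A = univ` and `c0`, then with `c0⁻¹` -/
theorem scc (h2 : (2 : k) = 0) (hw : ∃ w : k, w ^ 2 + w + 1 = 0) (hn : 3 ≤ n) (x y : Fin n → M)
    (hx : ∑ i, x i ^ 3 = 0) (hy : ∑ i, y i ^ 3 = 0) (c0 : k) (h0 : c0 ≠ 0) :
    Pr k (fun i => x i + y i) ↔ Pr k (fun i => algebraMap k M c0 * x i + y i) := by
  refine ⟨A13_one h2 hw hn x y hx hy c0 h0, fun h => ?_⟩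
  have hx' : ∑ i, (algebraMap k M c0 * x i) ^ 3 = 0 := by
    have e : ∀ i, (algebraMap k M c0 * x i) ^ 3 = algebraMap k M c0 ^ 3 * x i ^ 3 := fun i =>
      mul_pow _ _ _
    simp only [e]
    rw [← Finset.mul_sum, hx, mul_zero]
  have h1 := A13_one h2 hw hn (fun i => algebraMap k M c0 * x i) y hx' hy c0⁻¹ (inv_ne_zero h0) h
  have e : (fun i => algebraMap k M c0⁻¹ * (algebraMap k M c0 * x i) + y i) =
      fun i => x i + y i := by
    funext i
    rw [← mul_assoc, ← map_mul, inv_mul_cancel₀ h0, map_one, one_mul]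
  rwa [e] at h1

end MP2619.NP
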