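import Pool.Agent.Lib.MP_2619d0_ag.NP.A1
import Pool.Agent.Lib.MP_2619d0_ag.W.W2

/-!
Row A10: data from a place.
-/

set_option autoImplicit false

namespace MP2619.NP

universe u

open IntermediateField MP2619.R MP2619.W

variable {k M : Type u} [Field k] [Field M] [Algebra k M] {n : ℕ} {g : k} {a b c : Fin n}

private theorem A10_pass {X Y : Fin n → M} {O : ValuationSubring M} (h : Pl k X Y O) :
    letI : Algebra k (IsLocalRing.ResidueField O) := (rc (cst_of_tower h.op.cst)).toAlgebra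
    Pr k (fun i => IsLocalRing.residue O ⟨X i, h.X_mem i⟩ +
      IsLocalRing.residue O ⟨Y i, h.Y_mem i⟩) := by
  have hP' := pass (fun i => X i + Y i) h.ind O h.op
    (fun i => (⟨X i, h.X_mem i⟩ + ⟨Y i, h.Y_mem i⟩ : O)) (fun i => rfl)
  let inst : Algebra k (IsLocalRing.ResidueField O) := (rc (cst_of_tower h.op.cst)).toAlgebra
  have e : (fun i => IsLocalRing.residue O (⟨X i, h.X_mem i⟩ + ⟨Y i, h.Y_mem i⟩ : O)) =
    (fun i => IsLocalRing.residue O ⟨X i, h.X_mem i⟩ + IsLocalRing.residue O ⟨Y i, h.Y_mem i⟩) :=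
    funext fun i => map_add _ _ _
  rw [← e]
  exact hP'

private theorem A10_Phi {O : ValuationSubring M} (hc : Cst k O) {X : Fin n → M}
    (hm : ∀ i, X i ∈ O) (hX : O.valuation (Phi g a b c X) < 1) :
    letI : Algebra k (IsLocalRing.ResidueField O) := (rc hc).toAlgebra
    Phi g a b c (fun i => IsLocalRing.residue O ⟨X i, hm i⟩) = 0 := by
  let inst : Algebra k (IsLocalRing.ResidueField O) := (rc hc).toAlgebra
  obtain ⟨hm', e⟩ := Phi_res (g := g) (a := a) (b := b) (c := c) hc (fun i => ⟨X i, hm i⟩)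
  rw [e, IsLocalRing.residue_eq_zero_iff, ValuationSubring.valuation_lt_one_iff]
  exact hX

private theorem A10_rs {O : ValuationSubring M} (hc : Cst k O) {X : Fin n → M}
    (hm : ∀ i, X i ∈ O) (A : Finset (Fin n)) (hX : O.valuation (Phi g a b c (rs A X)) < 1) :
    letI : Algebra k (IsLocalRing.ResidueField O) := (rc hc).toAlgebra
    Phi g a b c (rs A (fun i => IsLocalRing.residue O ⟨X i, hm i⟩)) = 0 := by
  let inst : Algebra k (IsLocalRing.ResidueField O) := (rc hc).toAlgebra
  have hm' : ∀ i, rs A X i ∈ O := by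
    intro i
    unfold rs
    split_ifs
    · exact hm i
    · exact O.zero_mem
  have h := A10_Phi (g := g) (a := a) (b := b) (c := c) hc hm' hX
  have e : rs A (fun i => IsLocalRing.residue O ⟨X i, hm i⟩) =
      fun i => IsLocalRing.residue O ⟨rs A X i, hm' i⟩ := by
    funext i
    by_cases hi : i ∈ A
    · have h1 : (⟨rs A X i, hm' i⟩ : O) = ⟨X i, hm i⟩ := Subtype.ext (by simp [rs, hi])
      rw [h1]
      simp [rs, hi]
    · have h1 : (⟨rs A X i, hm' i⟩ : O) = 0 := Subtype.ext (by simp [rs, hi])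
      rw [h1, map_zero]
      simp [rs, hi]
  rw [e]
  exact h

/-- The residues (`pass`, `R/A9.lean`, and `Phi_res`). The last statement is for the transcendence degree:
every element of the field generated by residues of elements of `E` is the residue of an element of `E`
(`res_adjoin`, `trdeg_lt_res` in `W/W2.lean`). -/
theorem Pl_data {X Y : Fin n → M} {O : ValuationSubring M} (h : Pl k X Y O)
    (hX : O.valuation (Phi g a b c X) < 1) (hY : O.valuation (Phi g a b c Y) < 1) :
    ∃ (N : Type u) (_ : Field N) (_ : Algebra k N) (φ : O →+* N) (x y : Fin n → N),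
      (∀ z : O, φ z = 0 ↔ O.valuation (z : M) < 1) ∧
      (∀ i, x i = φ ⟨X i, h.X_mem i⟩) ∧ (∀ i, y i = φ ⟨Y i, h.Y_mem i⟩) ∧
      Dt g a b c x y ∧
      (∀ A : Finset (Fin n), O.valuation (Phi g a b c (rs A X)) < 1 → Phi g a b c (rs A x) = 0) ∧
      (∀ A : Finset (Fin n), O.valuation (Phi g a b c (rs A Y)) < 1 → Phi g a b c (rs A y) = 0) ∧
      (∀ (E : IntermediateField k M) (S : Set N) (e : ℕ), (∀ z ∈ S, ∃ a : O, (a : M) ∈ E ∧ φ a = z) →
        Algebra.trdeg k E < e → Algebra.trdeg k (adjoin k S) < e) ∧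
      (∀ (E : IntermediateField k M) (S : Set N) (e : ℕ), (∀ z ∈ S, ∃ a : O, (a : M) ∈ E ∧ φ a = z) →
        Algebra.trdeg k E < (e + 1 : ℕ) → (∃ p ∈ E, p ≠ 0 ∧ O.valuation p < 1) →
        Algebra.trdeg k (adjoin k S) < e) := by
  have hc : Cst k O := cst_of_tower h.op.cst
  let inst : Algebra k (IsLocalRing.ResidueField O) := (rc hc).toAlgebra
  refine ⟨IsLocalRing.ResidueField O, inferInstance, inst, IsLocalRing.residue O,
    fun i => IsLocalRing.residue O ⟨X i, h.X_mem i⟩, fun i => IsLocalRing.residue O ⟨Y i, h.Y_mem i⟩,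
    ?_, fun i => rfl, fun i => rfl, ⟨A10_pass h, A10_Phi hc h.X_mem hX, A10_Phi hc h.Y_mem hY⟩,
    fun A hA => A10_rs hc h.X_mem A hA, fun A hA => A10_rs hc h.Y_mem A hA, ?_, ?_⟩
  · intro z
    rw [IsLocalRing.residue_eq_zero_iff, ValuationSubring.valuation_lt_one_iff]
  · intro E S e hS hE
    exact trdeg_lt_res hc E e hE (adjoin k S) (res_adjoin hc E S hS)
  · intro E S e hS hE hp
    obtain ⟨p, hpE, hp0, hp1⟩ := hp
    exact trdeg_lt_res_lt hc E e hE p hpE hp0 hp1 (adjoin k S) (res_adjoin hc E S hS)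

end MP2619.NP
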