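import Pool.Agent.Lib.MP_2619d0_ag.NP.A8
import Pool.Agent.Lib.MP_2619d0_ag.NP.A10

/-!
Row A11: the splitting lemma, in terms of data.
-/

set_option autoImplicit false

namespace MP2619.NP

universe u

open IntermediateField MP2619.R MP2619.W

variable {k M : Type u} [Field k] [Field M] [Algebra k M] {n : ℕ} {g : k} {a b c : Fin n}

private theorem A11_rs_map {M' : Type u} [Field M'] [Algebra M M'] (B : Finset (Fin n))
    (x : Fin n → M) :
    rs B (fun i => algebraMap M M' (x i)) = fun i => algebraMap M M' (rs B x i) := by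
  funext i
  unfold rs
  split_ifs <;> simp

/-- `JL` and `Pl_data`. `Φ(X) = (t³ + 1) E` has value `< 1`; `Φ(rs A X) = t³ E`. Splittings of `y`, zero
coordinates of `x` and of `y` are kept. -/
theorem JL_data (hb : Base k g) (hd : Dist a b c) (w : k) (hw : w ^ 2 + w + 1 = 0)
    {A : Finset (Fin n)} (hc : Comp g a b c A) (x y : Fin n → M)
    (hE : Phi g a b c (rs A x) ≠ 0) (hx : Phi g a b c x = 0) (hy : Phi g a b c y = 0)
    (hodd : Odd (cnt w A x y)) :
    ∃ (N : Type u) (_ : Field N) (_ : Algebra k N) (x' y' : Fin n → N), Dt g a b c x' y' ∧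
      Phi g a b c (rs A x') = 0 ∧
      (∀ B : Finset (Fin n), Phi g a b c (rs B y) = 0 → Phi g a b c (rs B y') = 0) ∧
      (∀ i, x i = 0 → x' i = 0) ∧ (∀ i, y i = 0 → y' i = 0) := by
  obtain ⟨M', _, _, _, _, t, O, ht, hPl, hO1, hO2⟩ := JL hb hd w hw hc x y hE hx hy hodd
  have hPX : Phi g a b c (tw A t (fun i => algebraMap M M' (x i)))
      = t ^ 3 * algebraMap M M' (Phi g a b c (rs A x)) - algebraMap M M' (Phi g a b c (rs A x)) := by
    rw [Phi_tw hc, A11_rs_map, A11_rs_map, Phi_map, Phi_map]
    have h := Phi_split hc x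
    rw [hx] at h
    have h2 : Phi g a b c (rs Aᶜ x) = - Phi g a b c (rs A x) := by linear_combination -h
    rw [h2, map_neg]
    ring
  have hX : O.valuation (Phi g a b c (tw A t (fun i => algebraMap M M' (x i)))) < 1 := by
    rw [hPX]
    exact lt_of_le_of_lt (Valuation.map_sub _ _ _) (max_lt hO2 hO1)
  have hY : O.valuation (Phi g a b c (fun i => algebraMap M M' (y i))) < 1 := by
    rw [Phi_map, hy, map_zero, map_zero]
    exact zero_lt_one
  obtain ⟨N, _, _, φ, x', y', hφ, hx', hy', hD, hAX, hAY, -, -⟩ := Pl_data hPl hX hY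
  refine ⟨N, inferInstance, inferInstance, x', y', hD, ?_, ?_, ?_, ?_⟩
  · apply hAX
    rw [rs_tw, Phi_smul, A11_rs_map, Phi_map]
    exact hO2
  · intro B hB
    apply hAY
    rw [A11_rs_map, Phi_map, hB, map_zero, map_zero]
    exact zero_lt_one
  · intro i hi
    rw [hx', hφ]
    have : tw A t (fun i => algebraMap M M' (x i)) i = 0 := by
      unfold tw
      simp [hi]
    change O.valuation (tw A t (fun i => algebraMap M M' (x i)) i) < 1
    rw [this, map_zero]
    exact zero_lt_one
  · intro i hi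
    rw [hy', hφ]
    change O.valuation (algebraMap M M' (y i)) < 1
    rw [hi, map_zero, map_zero]
    exact zero_lt_one

end MP2619.NP
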