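import Pool.Agent.Lib.MP_2619d0_ag.NP.A1

/-!
Row D0: nonzero coordinates.
-/

set_option autoImplicit false

namespace MP2619.NP

universe u

open IntermediateField MP2619.R MP2619.W

variable {k M : Type u} [Field k] [Field M] [Algebra k M] {n : ℕ} {g : k} {a b c : Fin n}

/-- `Φ(rs C u) ≠ 0` if `u` is algebraically independent -/
private theorem D0_rel {u : Fin n → M} (hu : AlgebraicIndependent k u) (hd : Dist a b c)
    {C : Finset (Fin n)} (hC : C.Nonempty) : Phi g a b c (rs C u) ≠ 0 := by
  classical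
  intro h
  obtain ⟨i0, hi0⟩ := hC
  obtain ⟨p, hp⟩ : ∃ p : Fin n → MvPolynomial (Fin n) k,
      p = fun i => if i ∈ C then MvPolynomial.X i else 0 := ⟨_, rfl⟩
  obtain ⟨P, hP⟩ : ∃ P : MvPolynomial (Fin n) k,
      P = ∑ i, p i ^ 3 + MvPolynomial.C g * (p a * p b * p c) := ⟨_, rfl⟩
  have e1 : ∀ i, MvPolynomial.aeval u (p i) = rs C u i := by
    intro i
    simp only [hp, rs]
    split_ifs
    · exact MvPolynomial.aeval_X _ _
    · exact map_zero _
  have h1 : MvPolynomial.aeval u P = Phi g a b c (rs C u) := by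
    rw [hP, Phi, map_add, map_sum, map_mul, map_mul, map_mul, MvPolynomial.aeval_C, e1, e1, e1]
    simp only [map_pow, e1]
  have h2 : P = 0 := by
    apply hu
    rw [h1, h, map_zero]
  have e2 : ∀ i, MvPolynomial.eval (Pi.single i0 (1 : k)) (p i) = if i = i0 then 1 else 0 := by
    intro i
    simp only [hp]
    by_cases hi : i = i0
    · subst hi
      simp [hi0]
    · split_ifs with h3
      · rw [MvPolynomial.eval_X, Pi.single_eq_of_ne hi]
      · exact map_zero _
  have h3 : MvPolynomial.eval (Pi.single i0 (1 : k)) P = 1 := by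
    rw [hP, map_add, map_sum, map_mul, map_mul, map_mul, e2, e2, e2]
    have e3 : (if a = i0 then (1 : k) else 0) * (if b = i0 then 1 else 0) *
        (if c = i0 then 1 else 0) = 0 := by
      by_cases ha : a = i0
      · have hb : b ≠ i0 := fun hb => hd.1 (ha.trans hb.symm)
        rw [if_neg hb, mul_zero, zero_mul]
      · rw [if_neg ha, zero_mul, zero_mul]
    rw [e3, mul_zero, add_zero]
    simp only [map_pow, e2]
    simp
  rw [h2, map_zero] at h3
  exact zero_ne_one h3

/-- Otherwise `Φ(rs C (x + y)) = Φ(rs C x) = 0`: a relation between the `x i + y i`, `i ∈ C`; as a polynomial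
`∑_{i ∈ C} X_i³ + ..` it is not zero. -/
theorem exists_ne {x y : Fin n → M} (hd : Dist a b c) (hD : Dt g a b c x y) {C : Finset (Fin n)}
    (hC : C.Nonempty) (hx : Phi g a b c (rs C x) = 0) : ∃ i ∈ C, y i ≠ 0 := by
  by_contra h
  push Not at h
  apply D0_rel (g := g) hD.pr.1 hd hC
  have e : rs C (fun i => x i + y i) = rs C x := by
    funext i
    simp only [rs]
    split_ifs with hi
    · rw [h i hi, add_zero]
    · rfl
  rw [e, hx]

/-- `C = {a, b, c}`: `x` and `y` are not proportional on `C`: otherwise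
`Φ(rs C (x + y)) = 0` (`Phi_smul`), a relation as before. -/
theorem not_prop {x y : Fin n → M} (hd : Dist a b c) (hD : Dt g a b c x y)
    (hx : Phi g a b c (rs {a, b, c} x) = 0) (hy : Phi g a b c (rs {a, b, c} y) = 0) :
    ∃ i ∈ ({a, b, c} : Finset (Fin n)), ∃ j ∈ ({a, b, c} : Finset (Fin n)),
      x i * y j ≠ x j * y i := by
  have hC : ({a, b, c} : Finset (Fin n)).Nonempty := ⟨a, by simp⟩
  obtain ⟨j, hj, hyj⟩ := exists_ne hd hD hC hx
  by_contra h
  push Not at h
  apply D0_rel (g := g) hD.pr.1 hd hC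
  have e : rs {a, b, c} (fun i => x i + y i) =
      fun i => (x j / y j + 1) * rs {a, b, c} y i := by
    funext i
    simp only [rs]
    split_ifs with hi
    · have h1 := h i hi j hj
      field_simp
      linear_combination h1
    · rw [mul_zero]
  rw [e, Phi_smul, hy, mul_zero]

end MP2619.NP
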