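import Pool.Agent.Lib.MP_2619d0_ag.NP.D3
import Pool.Agent.Lib.MP_2619d0_ag.W.V13

/-!
Row D4: Weierstrass form of `X³ + Y³ + Z³ + g X Y Z = 0`; a flex not on a given line.
-/

set_option autoImplicit false

namespace MP2619.NP

universe u

open IntermediateField MP2619.R MP2619.W

private theorem D4_id {M : Type*} [Field M] (h2 : (2 : M) = 0) (W G C x y z : M)
    (hW : W ^ 2 + W + 1 = 0) (hC : C * G ^ 3 = G ^ 3 + 1)
    (hz : x ^ 3 + y ^ 3 + z ^ 3 + G * (x * y * z) = 0) :
    (C * (W * x + W ^ 2 * y) + C * (C + 1) * (x + y + G * z)) ^ 2 * (x + y + G * z) +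
      (C * (x + y)) * (C * (W * x + W ^ 2 * y) + C * (C + 1) * (x + y + G * z)) * (x + y + G * z) =
      (C * (x + y)) ^ 3 + C * (C * (x + y)) ^ 2 * (x + y + G * z) +
      C ^ 3 * (C + 1) * (x + y + G * z) ^ 3 := by
  grind

private theorem D4_add {k M : Type u} [Field k] [Field M] [Algebra k M]
    (A : Matrix (Fin 3) (Fin 3) k) (x y : Fin 3 → M) (i : Fin 3) :
    lin A (fun j => x j + y j) i = lin A x i + lin A y i := by
  unfold lin
  rw [← Finset.sum_add_distrib]
  exact Finset.sum_congr rfl fun j _ => mul_add _ _ _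

private theorem D4_lin_mem {k M : Type u} [Field k] [Field M] [Algebra k M]
    (A : Matrix (Fin 3) (Fin 3) k) (z : Fin 3 → M) (F : IntermediateField k M)
    (h : ∀ j, z j ∈ F) (i : Fin 3) : lin A z i ∈ F := by
  unfold lin
  exact sum_mem fun j _ => mul_mem (IntermediateField.algebraMap_mem F _) (h j)

private theorem D4_comp {k M : Type u} [Field k] [Field M] [Algebra k M]
    (A B : Matrix (Fin 3) (Fin 3) k) (z : Fin 3 → M) (i : Fin 3) :
    lin B (lin A z) i = lin (B * A) z i := by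
  unfold lin
  simp only [Matrix.mul_apply, map_sum, map_mul, Finset.mul_sum, Finset.sum_mul]
  rw [Finset.sum_comm]
  refine Finset.sum_congr rfl fun j _ => Finset.sum_congr rfl fun l _ => ?_
  ring

private theorem D4_one {k M : Type u} [Field k] [Field M] [Algebra k M]
    (z : Fin 3 → M) (i : Fin 3) : lin (1 : Matrix (Fin 3) (Fin 3) k) z i = z i := by
  unfold lin
  rw [Finset.sum_eq_single i]
  · simp
  · intro j _ hj
    rw [Matrix.one_apply_ne hj.symm]; simp
  · intro h; exact absurd (Finset.mem_univ i) h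

private theorem D4_quot {k M : Type u} [Field k] [Field M] [Algebra k M]
    (A : Matrix (Fin 3) (Fin 3) k) (x : Fin 3 → M) (s : Fin 3) (i : Fin 3) :
    lin A x i / x s ∈ adjoin k {z : M | ∃ i j, z = x i / x j} := by
  unfold lin
  rw [Finset.sum_div]
  refine sum_mem fun j _ => ?_
  rw [mul_div_assoc]
  exact mul_mem (IntermediateField.algebraMap_mem _ _) (subset_adjoin _ _ ⟨j, s, rfl⟩)

private theorem D4_div {k M : Type u} [Field k] [Field M] [Algebra k M]
    (A : Matrix (Fin 3) (Fin 3) k) (x : Fin 3 → M) (s : Fin 3) (hs : x s ≠ 0) (i j : Fin 3) :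
    lin A x i / lin A x j ∈ adjoin k {z : M | ∃ i j, z = x i / x j} := by
  have h := div_mem (D4_quot A x s i) (D4_quot A x s j)
  rwa [div_div_div_cancel_right₀ hs] at h

private theorem D4_mem {k M : Type u} [Field k] [Field M] [Algebra k M]
    (A : Matrix (Fin 3) (Fin 3) k) (hA : IsUnit A.det) (x : Fin 3 → M) (h0 : lin A x 0 ≠ 0) (i : Fin 3) :
    x i ∈ adjoin (adjoin k {z : M | ∃ i j, z = x i / x j}) ({lin A x 0} : Set M) := by
  have hxs : ∃ s, x s ≠ 0 := by
    by_contra h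
    push Not at h
    apply h0
    unfold lin
    exact Finset.sum_eq_zero fun j _ => by rw [h j, mul_zero]
  obtain ⟨s, hs⟩ := hxs
  have h1 : x i = lin A⁻¹ (lin A x) i := by
    rw [D4_comp, Matrix.nonsing_inv_mul A hA, D4_one]
  have h4 : ∀ j, lin A x j / lin A x 0 ∈ adjoin k {z : M | ∃ i j, z = x i / x j} :=
    fun j => D4_div A x s hs j 0
  generalize adjoin k {z : M | ∃ i j, z = x i / x j} = F at h4 ⊢
  have h2 : ∀ j, lin A x j ∈ adjoin F ({lin A x 0} : Set M) := by
    intro j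
    have h3 : lin A x j = lin A x j / lin A x 0 * lin A x 0 := (div_mul_cancel₀ _ h0).symm
    rw [h3]
    exact mul_mem ((adjoin F ({lin A x 0} : Set M)).algebraMap_mem ⟨_, h4 j⟩)
      (mem_adjoin_simple_self _ _)
  have h5 := D4_lin_mem A⁻¹ (lin A x) ((adjoin F ({lin A x 0} : Set M)).restrictScalars k)
    (fun j => (mem_restrictScalars k).mpr (h2 j)) i
  rw [← h1] at h5
  exact (mem_restrictScalars k).mp h5

/-- the flex `(1 : 1 : 0)` -/
private theorem D4_aux {k M : Type u} [Field k] [Field M] [Algebra k M] (h2 : (2 : k) = 0) (w : k)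
    (hw : w ^ 2 + w + 1 = 0) (g : k) (hg : g ≠ 0) (hg3 : 1 + g ^ 3 ≠ 0) (x y : Fin 3 → M)
    (hxy : (x 2 * y 0 - x 0 * y 2) + (x 2 * y 1 - x 1 * y 2) ≠ 0) :
    ∃ A : Matrix (Fin 3) (Fin 3) k, IsUnit A.det ∧
      (∀ z : Fin 3 → M, Phi g 0 1 2 z = 0 →
        lin A z 2 ^ 2 * lin A z 0 + lin A z 1 * lin A z 2 * lin A z 0 =
          lin A z 1 ^ 3 + algebraMap k M (ca2 g) * lin A z 1 ^ 2 * lin A z 0 +
            algebraMap k M (ca6 g) * lin A z 0 ^ 3) ∧
      lin A x 0 * lin A y 1 ≠ lin A x 1 * lin A y 0 := by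
  have h2M : (2 : M) = 0 := by
    have h := congrArg (algebraMap k M) h2
    rw [map_zero, map_ofNat] at h
    exact h
  have hwM : (algebraMap k M w) ^ 2 + algebraMap k M w + 1 = 0 := by
    have := congrArg (algebraMap k M) hw
    simpa using this
  have hc : ca2 g * g ^ 3 = g ^ 3 + 1 := by
    unfold ca2
    field_simp
  have hc0 : ca2 g ≠ 0 := by
    intro h
    rw [h, zero_mul] at hc
    exact hg3 (by rw [add_comm]; exact hc.symm)
  have hcM : algebraMap k M (ca2 g) * algebraMap k M g ^ 3 = algebraMap k M g ^ 3 + 1 := by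
    have := congrArg (algebraMap k M) hc
    simpa using this
  have hw1 : w - 1 ≠ 0 := by
    intro h1
    have h3 : w = 1 := sub_eq_zero.mp h1
    rw [h3] at hw
    have : (1 : k) = 0 := by linear_combination hw - h2
    exact one_ne_zero this
  have hw0 : w ≠ 0 := by
    intro h0
    rw [h0] at hw
    simp at hw
  set c := ca2 g with hcdef
  refine ⟨!![1, 1, g; c, c, 0; c * w + c * (c + 1), c * w ^ 2 + c * (c + 1), c * (c + 1) * g],
    ?_, ?_, ?_⟩
  · rw [isUnit_iff_ne_zero, Matrix.det_fin_three]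
    simp only [Matrix.of_apply, Matrix.cons_val', Matrix.cons_val_zero, Matrix.cons_val_one,
      Matrix.cons_val, Matrix.cons_val_fin_one]
    have e1 : 1 * c * (c * (c + 1) * g) - 1 * 0 * (c * w ^ 2 + c * (c + 1)) -
        1 * c * (c * (c + 1) * g) + 1 * 0 * (c * w + c * (c + 1)) +
        g * c * (c * w ^ 2 + c * (c + 1)) - g * c * (c * w + c * (c + 1)) =
        g * c * c * w * (w - 1) := by ring
    rw [e1]
    exact mul_ne_zero (mul_ne_zero (mul_ne_zero (mul_ne_zero hg hc0) hc0) hw0) hw1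
  · intro z hz
    have hz' : z 0 ^ 3 + z 1 ^ 3 + z 2 ^ 3 + algebraMap k M g * (z 0 * z 1 * z 2) = 0 := by
      rw [← hz, Phi, Fin.sum_univ_three]
    have h6 : algebraMap k M (ca6 g) = algebraMap k M c ^ 3 * (algebraMap k M c + 1) := by
      simp [ca6, hcdef]
    rw [h6]
    simp only [lin, Fin.sum_univ_three, Matrix.of_apply, Matrix.cons_val', Matrix.cons_val_zero,
      Matrix.cons_val_one, Matrix.cons_val, Matrix.cons_val_fin_one, map_mul, map_pow, map_one,
      map_zero, map_add]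
    have h7 := D4_id h2M _ _ _ _ _ _ hwM hcM hz'
    linear_combination h7
  · simp only [lin, Fin.sum_univ_three, Matrix.of_apply, Matrix.cons_val', Matrix.cons_val_zero,
      Matrix.cons_val_one, Matrix.cons_val, Matrix.cons_val_fin_one, map_one, map_zero]
    intro hh
    apply hxy
    have hgc : algebraMap k M g * algebraMap k M c ≠ 0 :=
      mul_ne_zero ((map_ne_zero _).mpr hg) ((map_ne_zero _).mpr hc0)
    apply mul_left_cancel₀ hgc
    linear_combination hh

/-- transport along a matrix preserving `Φ` -/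
private theorem D4_tr {k M : Type u} [Field k] [Field M] [Algebra k M] (g : k) (x y : Fin 3 → M)
    (T : Matrix (Fin 3) (Fin 3) k) (hT : IsUnit T.det)
    (hP : ∀ z : Fin 3 → M, Phi g 0 1 2 z = 0 → Phi g 0 1 2 (lin T z) = 0)
    (h : ∃ A : Matrix (Fin 3) (Fin 3) k, IsUnit A.det ∧
      (∀ z : Fin 3 → M, Phi g 0 1 2 z = 0 →
        lin A z 2 ^ 2 * lin A z 0 + lin A z 1 * lin A z 2 * lin A z 0 =
          lin A z 1 ^ 3 + algebraMap k M (ca2 g) * lin A z 1 ^ 2 * lin A z 0 +
            algebraMap k M (ca6 g) * lin A z 0 ^ 3) ∧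
      lin A (lin T x) 0 * lin A (lin T y) 1 ≠ lin A (lin T x) 1 * lin A (lin T y) 0) :
    ∃ A : Matrix (Fin 3) (Fin 3) k, IsUnit A.det ∧
      (∀ z : Fin 3 → M, Phi g 0 1 2 z = 0 →
        lin A z 2 ^ 2 * lin A z 0 + lin A z 1 * lin A z 2 * lin A z 0 =
          lin A z 1 ^ 3 + algebraMap k M (ca2 g) * lin A z 1 ^ 2 * lin A z 0 +
            algebraMap k M (ca6 g) * lin A z 0 ^ 3) ∧
      lin A x 0 * lin A y 1 ≠ lin A x 1 * lin A y 0 := by
  obtain ⟨A, hA, heq, hm⟩ := h
  refine ⟨A * T, ?_, ?_, ?_⟩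
  · rw [Matrix.det_mul]
    exact hA.mul hT
  · intro z hz
    have h1 := heq (lin T z) (hP z hz)
    rw [D4_comp, D4_comp, D4_comp] at h1
    exact h1
  · rw [D4_comp, D4_comp, D4_comp, D4_comp] at hm
    exact hm

/-- the flexes `(1 : w^j : 0)` -/
private theorem D4_aux2 {k M : Type u} [Field k] [Field M] [Algebra k M] (h2 : (2 : k) = 0) (w : k)
    (hw : w ^ 2 + w + 1 = 0) (g : k) (hg : g ≠ 0) (hg3 : 1 + g ^ 3 ≠ 0) (x y : Fin 3 → M)
    (hxy : ¬ (x 2 * y 0 - x 0 * y 2 = 0 ∧ x 2 * y 1 - x 1 * y 2 = 0)) :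
    ∃ A : Matrix (Fin 3) (Fin 3) k, IsUnit A.det ∧
      (∀ z : Fin 3 → M, Phi g 0 1 2 z = 0 →
        lin A z 2 ^ 2 * lin A z 0 + lin A z 1 * lin A z 2 * lin A z 0 =
          lin A z 1 ^ 3 + algebraMap k M (ca2 g) * lin A z 1 ^ 2 * lin A z 0 +
            algebraMap k M (ca6 g) * lin A z 0 ^ 3) ∧
      lin A x 0 * lin A y 1 ≠ lin A x 1 * lin A y 0 := by
  by_cases c1 : (x 2 * y 0 - x 0 * y 2) + (x 2 * y 1 - x 1 * y 2) = 0
  swap
  · exact D4_aux h2 w hw g hg hg3 x y c1
  have hwM : (algebraMap k M w) ^ 2 + algebraMap k M w + 1 = 0 := by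
    have := congrArg (algebraMap k M) hw
    simpa using this
  have hw1 : w - 1 ≠ 0 := by
    intro h1
    have h3 : w = 1 := sub_eq_zero.mp h1
    rw [h3] at hw
    have : (1 : k) = 0 := by linear_combination hw - h2
    exact one_ne_zero this
  have hw0 : w ≠ 0 := by
    intro h0
    rw [h0] at hw
    simp at hw
  have hW1 : algebraMap k M w - 1 ≠ 0 := by
    have h := (map_ne_zero (algebraMap k M)).mpr hw1
    simpa using h
  have hW0 : algebraMap k M w ≠ 0 := (map_ne_zero (algebraMap k M)).mpr hw0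
  have el : ∀ z : Fin 3 → M, lin !![1, 0, 0; 0, w, 0; 0, 0, w ^ 2] z =
      ![z 0, algebraMap k M w * z 1, algebraMap k M w ^ 2 * z 2] := by
    intro z
    funext i
    fin_cases i <;> simp [lin, Fin.sum_univ_three]
  refine D4_tr g x y !![1, 0, 0; 0, w, 0; 0, 0, w ^ 2] ?_ ?_ ?_
  · rw [isUnit_iff_ne_zero, Matrix.det_fin_three]
    simp [hw0]
  · intro z hz
    rw [el z, Phi, Fin.sum_univ_three]
    rw [Phi, Fin.sum_univ_three] at hz
    simp only [Matrix.cons_val_zero, Matrix.cons_val_one, Matrix.cons_val]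
    have h3 : algebraMap k M w ^ 3 = 1 := by linear_combination (algebraMap k M w - 1) * hwM
    linear_combination hz + (z 1 ^ 3 + (algebraMap k M w ^ 3 + 1) * z 2 ^ 3 +
      algebraMap k M g * (z 0 * z 1 * z 2)) * h3
  · refine D4_aux h2 w hw g hg hg3 _ _ ?_
    rw [el x, el y]
    simp only [Matrix.cons_val_zero, Matrix.cons_val_one, Matrix.cons_val]
    intro hh
    apply hxy
    have h3 : algebraMap k M w ^ 2 * (algebraMap k M w - 1) * (x 2 * y 1 - x 1 * y 2) = 0 := by
      linear_combination hh - algebraMap k M w ^ 2 * c1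
    have h4 : x 2 * y 1 - x 1 * y 2 = 0 :=
      (mul_eq_zero.mp h3).resolve_left (mul_ne_zero (pow_ne_zero 2 hW0) hW1)
    exact ⟨by linear_combination c1 - h4, h4⟩

/-- As `flex` (`W/V13.lean`). `p = w X + w² Y`, `q = X + Y`, `l = q + g Z`:
`Φ = l p² + l² p + g p Z l + (1 + g³) Z³ + g Z l²` (characteristic two), and with `c = ca2 g` the linear forms
`z0 = l`, `z1 = c (l + g Z)`, `z2 = c p + c (c + 1) l` satisfy
`z2² z0 + z1 z2 z0 = z1³ + c z1² z0 + c³ (c + 1) z0³` if `Φ = 0`. The flex is `(1 : 1 : 0)` (`z0 = z1 = 0`). The other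
eight flexes are its images under the diagonal matrices `(1, w^j, w^{2j})` and cyclic permutations, which
preserve `Φ`; `(1 : w^j : 0)` lies on the line `x y` iff `m_{YZ} + w^j m_{ZX} = 0` (minors of `x`, `y`). Not all nine lie
on the line, since some minor is not zero. -/
theorem flex2 {k M : Type u} [Field k] [Field M] [Algebra k M] (h2 : (2 : k) = 0) (w : k)
    (hw : w ^ 2 + w + 1 = 0) (g : k) (hg : g ≠ 0) (hg3 : 1 + g ^ 3 ≠ 0) (x y : Fin 3 → M)
    (hxy : ∃ i j, x i * y j ≠ x j * y i) :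
    ∃ A : Matrix (Fin 3) (Fin 3) k, IsUnit A.det ∧
      (∀ z : Fin 3 → M, Phi g 0 1 2 z = 0 →
        lin A z 2 ^ 2 * lin A z 0 + lin A z 1 * lin A z 2 * lin A z 0 =
          lin A z 1 ^ 3 + algebraMap k M (ca2 g) * lin A z 1 ^ 2 * lin A z 0 +
            algebraMap k M (ca6 g) * lin A z 0 ^ 3) ∧
      lin A x 0 * lin A y 1 ≠ lin A x 1 * lin A y 0 := by
  by_cases c1 : x 2 * y 0 - x 0 * y 2 = 0 ∧ x 2 * y 1 - x 1 * y 2 = 0
  swap
  · exact D4_aux2 h2 w hw g hg hg3 x y c1
  obtain ⟨m0, m1⟩ := c1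
  have el : ∀ z : Fin 3 → M, lin (!![0, 1, 0; 0, 0, 1; 1, 0, 0] : Matrix (Fin 3) (Fin 3) k) z =
      ![z 1, z 2, z 0] := by
    intro z
    funext i
    fin_cases i <;> simp [lin, Fin.sum_univ_three]
  refine D4_tr g x y !![0, 1, 0; 0, 0, 1; 1, 0, 0] ?_ ?_ ?_
  · rw [isUnit_iff_ne_zero, Matrix.det_fin_three]
    simp
  · intro z hz
    rw [el z, Phi, Fin.sum_univ_three]
    rw [Phi, Fin.sum_univ_three] at hz
    simp only [Matrix.cons_val_zero, Matrix.cons_val_one, Matrix.cons_val]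
    linear_combination hz
  · refine D4_aux2 h2 w hw g hg hg3 _ _ ?_
    rw [el x, el y]
    simp only [Matrix.cons_val_zero, Matrix.cons_val_one, Matrix.cons_val]
    rintro ⟨m2, -⟩
    obtain ⟨i, j, hij⟩ := hxy
    apply hij
    have e02 : x 2 * y 0 = x 0 * y 2 := sub_eq_zero.mp m0
    have e12 : x 2 * y 1 = x 1 * y 2 := sub_eq_zero.mp m1
    have e01 : x 0 * y 1 = x 1 * y 0 := sub_eq_zero.mp m2
    fin_cases i <;> fin_cases j <;> simp_all

/-- As `norm_block` (`W/V14a.lean`): `flex2`; `al = lin A x 0`, `be = lin A y 0` (not zero: `lin A x 0 = 0`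
implies `lin A x 1 = 0` by the equation), `e 0 = lin A x 1 / al`, `f 0 = lin A x 2 / al`, `e 1`, `f 1` for `y`. -/
theorem norm_block2 {k M : Type u} [Field k] [Field M] [Algebra k M] (h2 : (2 : k) = 0) (w : k)
    (hw : w ^ 2 + w + 1 = 0) (g : k) (hg : g ≠ 0) (hg3 : 1 + g ^ 3 ≠ 0) (x y : Fin 3 → M)
    (hx : Phi g 0 1 2 x = 0) (hy : Phi g 0 1 2 y = 0) (hxy : ∃ i j, x i * y j ≠ x j * y i) :
    ∃ (al be : M) (e f : Fin 2 → M), al ≠ 0 ∧ be ≠ 0 ∧
      (∀ i, f i ^ 2 + e i * f i = e i ^ 3 + algebraMap k M (ca2 g) * e i ^ 2 +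
        algebraMap k M (ca6 g)) ∧ e 0 ≠ e 1 ∧
      (e 0 ∈ adjoin k {z : M | ∃ i j, z = x i / x j}) ∧
      (f 0 ∈ adjoin k {z : M | ∃ i j, z = x i / x j}) ∧
      (e 1 ∈ adjoin k {z : M | ∃ i j, z = y i / y j}) ∧
      (f 1 ∈ adjoin k {z : M | ∃ i j, z = y i / y j}) ∧
      (∀ i, x i ∈ adjoin (adjoin k {z : M | ∃ i j, z = x i / x j}) ({al} : Set M)) ∧
      (∀ i, y i ∈ adjoin (adjoin k {z : M | ∃ i j, z = y i / y j}) ({be} : Set M)) ∧
      ∀ S : Set M, adjoin k (S ∪ Set.range fun i => x i + y i) =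
        adjoin k (S ∪ {al + be, al * e 0 + be * e 1, al * f 0 + be * f 1} : Set M) := by
  obtain ⟨A, hA, heq, hm⟩ := flex2 h2 w hw g hg hg3 x y hxy
  have hX := heq x hx
  have hY := heq y hy
  have hal : lin A x 0 ≠ 0 := by
    intro h0
    rw [h0] at hX hm
    have h1 : lin A x 1 = 0 := by
      have : lin A x 1 ^ 3 = 0 := by linear_combination -hX
      exact pow_eq_zero_iff (by norm_num) |>.mp this
    rw [h1] at hm
    exact hm (by ring)
  have hbe : lin A y 0 ≠ 0 := by
    intro h0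
    rw [h0] at hY hm
    have h1 : lin A y 1 = 0 := by
      have : lin A y 1 ^ 3 = 0 := by linear_combination -hY
      exact pow_eq_zero_iff (by norm_num) |>.mp this
    rw [h1] at hm
    exact hm (by ring)
  have hxs : ∃ s, x s ≠ 0 := by
    by_contra h
    push Not at h
    apply hal
    unfold lin
    exact Finset.sum_eq_zero fun j _ => by rw [h j, mul_zero]
  have hys : ∃ s, y s ≠ 0 := by
    by_contra h
    push Not at h
    apply hbe
    unfold lin
    exact Finset.sum_eq_zero fun j _ => by rw [h j, mul_zero]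
  obtain ⟨s, hs⟩ := hxs
  obtain ⟨t, ht⟩ := hys
  refine ⟨lin A x 0, lin A y 0, ![lin A x 1 / lin A x 0, lin A y 1 / lin A y 0],
    ![lin A x 2 / lin A x 0, lin A y 2 / lin A y 0], hal, hbe, ?_, ?_, ?_, ?_, ?_, ?_,
    D4_mem A hA x hal, D4_mem A hA y hbe, ?_⟩
  · intro i
    fin_cases i
    · show (lin A x 2 / lin A x 0) ^ 2 + lin A x 1 / lin A x 0 * (lin A x 2 / lin A x 0) =
        (lin A x 1 / lin A x 0) ^ 3 + algebraMap k M (ca2 g) * (lin A x 1 / lin A x 0) ^ 2 +
          algebraMap k M (ca6 g)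
      field_simp
      linear_combination hX
    · show (lin A y 2 / lin A y 0) ^ 2 + lin A y 1 / lin A y 0 * (lin A y 2 / lin A y 0) =
        (lin A y 1 / lin A y 0) ^ 3 + algebraMap k M (ca2 g) * (lin A y 1 / lin A y 0) ^ 2 +
          algebraMap k M (ca6 g)
      field_simp
      linear_combination hY
  · simp only [Matrix.cons_val_zero, Matrix.cons_val_one]
    intro h
    rw [div_eq_div_iff hal hbe] at h
    apply hm
    linear_combination -h
  · exact D4_div A x s hs 1 0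
  · exact D4_div A x s hs 2 0
  · exact D4_div A y t ht 1 0
  · exact D4_div A y t ht 2 0
  · intro S
    simp only [Matrix.cons_val_zero, Matrix.cons_val_one]
    rw [mul_div_cancel₀ _ hal, mul_div_cancel₀ _ hbe, mul_div_cancel₀ _ hal,
      mul_div_cancel₀ _ hbe, ← D4_add A x y 0, ← D4_add A x y 1, ← D4_add A x y 2]
    set u : Fin 3 → M := fun j => x j + y j with hu
    apply le_antisymm
    · rw [adjoin_le_iff]
      rintro z (hz | ⟨i, rfl⟩)
      · exact subset_adjoin _ _ (Or.inl hz)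
      have h1 : u i = lin A⁻¹ (lin A u) i := by
        rw [D4_comp, Matrix.nonsing_inv_mul A hA, D4_one]
      show u i ∈ _
      rw [h1]
      apply D4_lin_mem
      intro j
      fin_cases j
      · exact subset_adjoin _ _ (Or.inr (by simp))
      · exact subset_adjoin _ _ (Or.inr (by simp))
      · exact subset_adjoin _ _ (Or.inr (by simp))
    · rw [adjoin_le_iff]
      have h1 : ∀ i, lin A u i ∈ adjoin k (S ∪ Set.range u) := fun i =>
        D4_lin_mem A u _ (fun j => subset_adjoin k _ (Or.inr (Set.mem_range_self j))) i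
      rintro z (hz | hz')
      · exact subset_adjoin _ _ (Or.inl hz)
      rcases hz' with rfl | rfl | rfl
      · exact h1 0
      · exact h1 1
      · exact h1 2

end MP2619.NP
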