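import Pool.Agent.Lib.MP_2619d0_ag.NP.D3

/-!
Row D5: the tower `K ⊂ κ ⊂ N`.
-/

set_option autoImplicit false

namespace MP2619.NP

universe u

open IntermediateField MP2619.R MP2619.W

private theorem D5_T {k K κ : Type u} [Field k] [Field K] [Field κ] [Algebra k K] [Algebra K κ]
    [Algebra k κ] [IsScalarTower k K κ] (hess : Algebra.EssFiniteType k κ)
    (h1 : Algebra.trdeg K κ = 1) :
    ∃ T : κ, Transcendental K T ∧ Module.finrank (adjoin K ({T} : Set κ)) κ ≠ 0 := by
  have hf : FaithfulSMul K κ :=
    (faithfulSMul_iff_algebraMap_injective K κ).mpr (algebraMap K κ).injective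
  obtain ⟨s, hs⟩ := exists_isTranscendenceBasis K κ
  have hc : Cardinal.mk s = 1 := by rw [hs.cardinalMk_eq_trdeg, h1]
  obtain ⟨h3, ⟨T, hT⟩⟩ := Cardinal.eq_one_iff_unique.mp hc
  have hsT : Set.range (Subtype.val : s → κ) = {T} := by
    rw [Subtype.range_coe]
    ext x
    constructor
    · intro hx
      have := h3.elim ⟨x, hx⟩ ⟨T, hT⟩
      exact congrArg Subtype.val this
    · intro hx
      rw [Set.mem_singleton_iff] at hx
      rw [hx]
      exact hT
  refine ⟨T, hs.1.transcendental ⟨T, hT⟩, ?_⟩
  have halg := hs.isAlgebraic_field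
  rw [hsT] at halg
  have e1 : Algebra.EssFiniteType K κ := Algebra.EssFiniteType.of_comp k K κ
  have e2 : Algebra.EssFiniteType (adjoin K ({T} : Set κ)) κ :=
    Algebra.EssFiniteType.of_comp K (adjoin K ({T} : Set κ)) κ
  have e3 : Module.Finite (adjoin K ({T} : Set κ)) κ :=
    Algebra.finite_of_essFiniteType_of_isAlgebraic
  exact Module.finrank_pos.ne'

/-- See `E_norm` (`W/V14b.lean`). `K = k(z)`, `N = κ(al, be)` as intermediate fields of `M/k`. `k(z, v) ⊂ N ⊂ M`,
`[N : k(z, v)]` divides `[M : k(z, v)]`, odd. Let `ι` have `m` elements: `m + 3 = trdeg k(z, v) ≤ trdeg N ≤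
trdeg κ + 2` and `trdeg κ ≤ m + 1`: so `trdeg k κ = m + 1` and `al`, `be` are algebraically independent over `κ`;
`trdeg k K = m`, so `κ/K` has transcendence degree one; it is finitely generated. `not_sq`. -/
theorem tower {k M : Type u} [Field k] [Field M] [Algebra k M] {ι : Type} [Fintype ι] (z : ι → M)
    (v : Fin 3 → M) (hind : AlgebraicIndependent k (Sum.elim z v))
    (hodd : Odd (Module.finrank (adjoin k (Set.range z ∪ Set.range v)) M))
    (κ : IntermediateField k M) (hfg : κ.FG) (hz : ∀ i, z i ∈ κ)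
    (htr : Algebra.trdeg k κ < (Fintype.card ι + 2 : ℕ)) (al be : M)
    (hv : ∀ i, v i ∈ adjoin κ ({al, be} : Set M)) :
    ∃ (K N : Type u) (_ : Field K) (_ : Field N) (_ : Algebra K κ) (_ : Algebra κ N)
      (_ : Algebra K N) (_ : IsScalarTower K κ N) (_ : Algebra k K) (_ : IsScalarTower k K κ)
      (φ : N →+* M) (al' be' : N), (∀ c : κ, φ (algebraMap κ N c) = c) ∧
      φ al' = al ∧ φ be' = be ∧ AlgebraicIndependent κ ![al', be'] ∧
      adjoin κ ({al', be'} : Set N) = ⊤ ∧
      (∃ T : κ, Transcendental K T ∧ Module.finrank (adjoin K ({T} : Set κ)) κ ≠ 0) ∧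
      (∀ h : k, (∀ r : k, r ^ 2 ≠ h) → ∀ r : K, r ^ 2 ≠ algebraMap k K h) ∧
      ∀ S : Set N, adjoin k (Set.range z ∪ φ '' S) = adjoin k (Set.range z ∪ Set.range v) →
        Odd (Module.finrank (adjoin K S) N) := by
  classical
  set K : IntermediateField k M := adjoin k (Set.range z) with hKd
  have hKκ : K ≤ κ := by
    rw [hKd, adjoin_le_iff]
    rintro _ ⟨i, rfl⟩
    exact hz i
  set N : IntermediateField κ M := adjoin κ ({al, be} : Set M) with hN
  let algKκ : Algebra K κ := (inclusion hKκ).toRingHom.toAlgebra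
  let algKN : Algebra K N := ((algebraMap κ N).comp (algebraMap K κ)).toAlgebra
  have tKκN : IsScalarTower K κ N := IsScalarTower.of_algebraMap_eq fun _ => rfl
  have tkKκ : IsScalarTower k K κ := IsScalarTower.of_algebraMap_eq fun _ => rfl
  have tkκN : IsScalarTower k κ N := IsScalarTower.of_algebraMap_eq fun _ => rfl
  have tkKN : IsScalarTower k K N := IsScalarTower.of_algebraMap_eq fun _ => rfl
  have hal : al ∈ N := subset_adjoin κ _ (Or.inl rfl)
  have hbe : be ∈ N := subset_adjoin κ _ (Or.inr rfl)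
  let alN : N := ⟨al, hal⟩
  let beN : N := ⟨be, hbe⟩
  have hgen : adjoin κ ({alN, beN} : Set N) = ⊤ := by
    apply IntermediateField.map_injective N.val
    rw [adjoin_map, Set.image_pair]
    have : N = IntermediateField.map N.val ⊤ := by
      rw [← AlgHom.fieldRange_eq_map, fieldRange_val]
    rw [← this]
    rfl
  have htopN : (⊤ : IntermediateField k N).map (N.val.restrictScalars k) = N.restrictScalars k := by
    rw [← AlgHom.fieldRange_eq_map]
    ext z
    constructor
    · rintro ⟨z, rfl⟩
      exact z.2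
    · intro hz
      exact ⟨⟨z, hz⟩, rfl⟩
  set F0 : IntermediateField k M := adjoin k (Set.range z ∪ Set.range v) with hF0
  have hzN : ∀ i, z i ∈ N := fun i => N.algebraMap_mem (⟨z i, hz i⟩ : κ)
  have hFN : F0 ≤ N.restrictScalars k := by
    rw [hF0, adjoin_le_iff]
    rintro x (⟨i, rfl⟩ | ⟨i, rfl⟩)
    · exact hzN i
    · exact hv i
  have hKF : K ≤ F0 := adjoin.mono k _ _ Set.subset_union_left
  -- transcendence degrees
  have htN : ((Fintype.card ι + 3 : ℕ) : Cardinal.{u}) ≤ Algebra.trdeg k N := by
    let u' : ι ⊕ Fin 3 → N := Sum.elim (fun i => ⟨z i, hzN i⟩) (fun i => ⟨v i, hv i⟩)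
    have hind' : AlgebraicIndependent k u' := by
      refine ((N.val.restrictScalars k).algebraicIndependent_iff
        (N.val.restrictScalars k).injective).mp ?_
      convert hind using 1
      funext s
      rcases s with s | s <;> rfl
    have := hind'.lift_cardinalMk_le_trdeg
    simpa using this
  have hfs : FaithfulSMul κ N :=
    (faithfulSMul_iff_algebraMap_injective κ N).mpr (algebraMap κ N).injective
  have hfs2 : FaithfulSMul K κ :=
    (faithfulSMul_iff_algebraMap_injective K κ).mpr (algebraMap K κ).injective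
  have hadd : Algebra.trdeg k κ + Algebra.trdeg κ N = Algebra.trdeg k N := trdeg_add_eq k κ (A := N)
  have hadd2 : Algebra.trdeg k K + Algebra.trdeg K κ = Algebra.trdeg k κ :=
    trdeg_add_eq k K (A := κ)
  obtain ⟨p, hp⟩ := Cardinal.lt_aleph0.mp (lt_trans htr Cardinal.natCast_lt_aleph0)
  have hp' : Algebra.trdeg k κ = p := hp
  have hpr : p < Fintype.card ι + 2 := by
    have := htr
    rw [hp'] at this
    exact_mod_cast this
  have h2r : ((2 : ℕ) : Cardinal.{u}) ≤ Algebra.trdeg κ N := by
    rcases lt_or_ge (Algebra.trdeg κ N) Cardinal.aleph0 with h | h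
    · obtain ⟨q, hq⟩ := Cardinal.lt_aleph0.mp h
      rw [← hadd, hp', hq] at htN
      rw [hq]
      have : Fintype.card ι + 3 ≤ p + q := by exact_mod_cast htN
      have : 2 ≤ q := by omega
      exact_mod_cast this
    · exact le_trans Cardinal.natCast_lt_aleph0.le h
  have hrange : Set.range ![alN, beN] = ({alN, beN} : Set N) := by
    rw [Matrix.range_cons, Matrix.range_cons, Matrix.range_empty, Set.union_empty]
    rfl
  have halg : Algebra.IsAlgebraic (Algebra.adjoin κ (Set.range ![alN, beN])) N := by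
    rw [← isAlgebraic_adjoin_iff_top, hrange, hgen]
    exact ⟨fun z => isAlgebraic_algebraMap (⟨z, mem_top⟩ : (⊤ : IntermediateField κ N))⟩
  have hbas : IsTranscendenceBasis κ ![alN, beN] := by
    apply Algebra.IsAlgebraic.isTranscendenceBasis_of_lift_le_trdeg_of_finite
    simpa using h2r
  have htr2 : Algebra.trdeg κ N = (2 : ℕ) := by
    have := hbas.lift_cardinalMk_eq_trdeg
    rw [Cardinal.lift_id'] at this
    rw [← this]
    simp
  have hpr2 : p = Fintype.card ι + 1 := by
    rw [← hadd, hp', htr2] at htN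
    have : Fintype.card ι + 3 ≤ p + 2 := by exact_mod_cast htN
    omega
  have hzind : AlgebraicIndependent k z := hind.comp Sum.inl Sum.inl_injective
  have htK : Algebra.trdeg k K = (Fintype.card ι : ℕ) := by
    let z' : ι → K := fun i => ⟨z i, subset_adjoin k _ ⟨i, rfl⟩⟩
    have hz'ind : AlgebraicIndependent k z' :=
      (K.val.algebraicIndependent_iff K.val.injective).mp hzind
    have hz'top : adjoin k (Set.range z') = ⊤ := by
      apply IntermediateField.map_injective K.val
      rw [adjoin_map, ← Set.range_comp, ← AlgHom.fieldRange_eq_map, fieldRange_val]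
      rfl
    have halg' : Algebra.IsAlgebraic (Algebra.adjoin k (Set.range z')) K := by
      rw [← isAlgebraic_adjoin_iff_top, hz'top]
      exact ⟨fun z => isAlgebraic_algebraMap (⟨z, mem_top⟩ : (⊤ : IntermediateField k K))⟩
    have hb : IsTranscendenceBasis k z' := hz'ind.isTranscendenceBasis_iff_isAlgebraic.mpr halg'
    have := hb.lift_cardinalMk_eq_trdeg
    rw [Cardinal.lift_id'] at this
    rw [← this]
    simp
  have htKκ : Algebra.trdeg K κ = 1 := by
    rw [htK, hp', hpr2] at hadd2
    have hlt : Algebra.trdeg K κ < Cardinal.aleph0 := by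
      refine lt_of_le_of_lt (le_of_le_of_eq (self_le_add_left _ _) hadd2)
        Cardinal.natCast_lt_aleph0
    obtain ⟨q, hq⟩ := Cardinal.lt_aleph0.mp hlt
    rw [hq] at hadd2 ⊢
    have : Fintype.card ι + q = Fintype.card ι + 1 := by exact_mod_cast hadd2
    have : q = 1 := by omega
    rw [this, Nat.cast_one]
  refine ⟨K, N, inferInstance, inferInstance, algKκ, inferInstance, algKN, tKκN, inferInstance,
    tkKκ, algebraMap N M, alN, beN, fun _ => rfl, rfl, rfl, hbas.1, hgen,
    D5_T (essFiniteType_iff.mpr hfg) htKκ, fun h hh r => not_sq z hzind h hh r, ?_⟩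
  intro S hS
  have hmap : ((adjoin K S).restrictScalars k).map (N.val.restrictScalars k) = F0 := by
    apply le_antisymm
    · rintro _ ⟨x, hx, rfl⟩
      have hx' : x ∈ adjoin K S := hx
      clear hx
      show (x : M) ∈ F0
      induction hx' using adjoin_induction with
      | mem x hx =>
        rw [← hS]
        exact subset_adjoin k _ (Or.inr ⟨x, hx, rfl⟩)
      | algebraMap c => exact hKF c.2
      | add x y hx hy h1 h2 => exact F0.add_mem h1 h2
      | inv x hx h1 => exact F0.inv_mem h1
      | mul x y hx hy h1 h2 => exact F0.mul_mem h1 h2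
    · rw [← hS, adjoin_le_iff]
      rintro x (⟨i, rfl⟩ | ⟨s, hs, rfl⟩)
      · exact ⟨algebraMap K N ⟨z i, subset_adjoin k _ ⟨i, rfl⟩⟩, (adjoin K S).algebraMap_mem _, rfl⟩
      · exact ⟨s, subset_adjoin K S hs, rfl⟩
  have hdvd : Module.finrank ((adjoin K S).restrictScalars k) N ∣ Module.finrank F0 M := by
    rw [← relfinrank_top_right, ← relfinrank_map_map _ _ (N.val.restrictScalars k), hmap, htopN]
    exact relfinrank_dvd_finrank_top_of_le hFN
  exact hodd.of_dvd_nat hdvd

end MP2619.NP
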