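import Pool.Agent.Lib.MP_2619d0_ag.NP.B6
import Pool.Agent.Lib.MP_2619d0_ag.NP.D0
import Pool.Agent.Lib.MP_2619d0_ag.NP.D4
import Pool.Agent.Lib.MP_2619d0_ag.NP.D5

/-!
Row D6: one block, both points homogeneous.
-/

set_option autoImplicit false

namespace MP2619.NP

universe u

open IntermediateField MP2619.R MP2619.W

variable {k M : Type u} [Field k] [Field M] [Algebra k M] {n : ℕ} {g : k} {a b c : Fin n}

private theorem D6_sum (hd : Dist a b c) (f : Fin n → M) :
    ∑ i, (if i ∈ ({a, b, c} : Finset (Fin n)) then f i else 0) = f a + f b + f c := by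
  obtain ⟨hab, hbc, hac⟩ := hd
  rw [Finset.sum_ite_mem, Finset.univ_inter, Finset.sum_insert, Finset.sum_insert,
    Finset.sum_singleton, add_assoc]
  · rw [Finset.mem_singleton]; exact hbc
  · rw [Finset.mem_insert, Finset.mem_singleton, not_or]
    exact ⟨hab, hac⟩

private theorem D6_phi (hd : Dist a b c) (x : Fin n → M)
    (hx : Phi g a b c (rs {a, b, c} x) = 0) :
    Phi g 0 1 2 (fun i : Fin 3 => x (![a, b, c] i)) = 0 := by
  rw [← hx]
  unfold Phi
  have h1 : ∑ i, rs {a, b, c} x i ^ 3 = x a ^ 3 + x b ^ 3 + x c ^ 3 := by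
    rw [← D6_sum hd (fun i => x i ^ 3)]
    refine Finset.sum_congr rfl fun i _ => ?_
    unfold rs
    split_ifs with h
    · rfl
    · ring
  have ha : rs {a, b, c} x a = x a := by simp [rs]
  have hb : rs {a, b, c} x b = x b := by simp [rs]
  have hc : rs {a, b, c} x c = x c := by simp [rs]
  rw [h1, ha, hb, hc, Fin.sum_univ_three]
  rfl

/-- `C = {a, b, c}`, `X = (x a, x b, x c)`, `Y = (y a, y b, y c)`, not proportional (`not_prop`); `Φ(X) = Φ(Y) = 0`
as forms in three variables. `norm_block2`: `al`, `be`, `e`, `f`. `κ = fld2 k C x y` (finitely generated),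
contains `e i`, `f i`; `z` = the `x i + y i`, `i ∉ C` (`n - 3` elements), `v` = the `x i + y i`, `i ∈ C`. `tower`, then
`block_even` with `a2 = ca2 g`, `a6 = ca6 g = h^(2^s)` (`exists_h`); the last clause of `tower` for
`S = {al + be, ..}` (last clause of `norm_block2`): odd and even. -/
theorem D_final (hE : E5.{u}) (hb : Base k g) (hg : g ≠ 0) (hd : Dist a b c) {x y : Fin n → M}
    (hD : Dt g a b c x y) (hx : Phi g a b c (rs {a, b, c} x) = 0)
    (hy : Phi g a b c (rs {a, b, c} y) = 0)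
    (ht : Algebra.trdeg k (fld2 k {a, b, c} x y) < (n - 1 : ℕ)) : False := by
  classical
  obtain ⟨w, hw⟩ := hb.om
  obtain ⟨hg3, -⟩ := ca2_ne hb hg
  obtain ⟨C, hC⟩ : ∃ C : Finset (Fin n), C = {a, b, c} := ⟨_, rfl⟩
  obtain ⟨X, hX⟩ : ∃ X : Fin 3 → M, X = fun i => x (![a, b, c] i) := ⟨_, rfl⟩
  obtain ⟨Y, hY⟩ : ∃ Y : Fin 3 → M, Y = fun i => y (![a, b, c] i) := ⟨_, rfl⟩
  have hPX : Phi g 0 1 2 X = 0 := by rw [hX]; exact D6_phi hd x hx
  have hPY : Phi g 0 1 2 Y = 0 := by rw [hY]; exact D6_phi hd y hy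
  have hsurj : ∀ i ∈ ({a, b, c} : Finset (Fin n)), ∃ i' : Fin 3, ![a, b, c] i' = i := by
    intro i hi
    rw [Finset.mem_insert, Finset.mem_insert, Finset.mem_singleton] at hi
    rcases hi with rfl | rfl | rfl
    · exact ⟨0, rfl⟩
    · exact ⟨1, rfl⟩
    · exact ⟨2, rfl⟩
  have hmemC : ∀ i' : Fin 3, ![a, b, c] i' ∈ C := by
    intro i'
    rw [hC]
    fin_cases i' <;> simp
  have hinj : Function.Injective (![a, b, c] : Fin 3 → Fin n) := by
    obtain ⟨hab, hbc, hac⟩ := hd
    intro i j hij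
    fin_cases i <;> fin_cases j <;> simp_all
  have hprop : ∃ i j, X i * Y j ≠ X j * Y i := by
    obtain ⟨i, hi, j, hj, hne⟩ := not_prop hd hD hx hy
    obtain ⟨i', rfl⟩ := hsurj i hi
    obtain ⟨j', rfl⟩ := hsurj j hj
    refine ⟨i', j', ?_⟩
    rw [hX, hY]
    exact hne
  obtain ⟨al, be, e, f, hal, hbe, hcur, hne, he0, hf0, he1, hf1, hxal, hybe, hS⟩ :=
    norm_block2 hb.two w hw g hg hg3 X Y hPX hPY hprop
  rw [← hC] at ht
  -- the field of the ratios
  obtain ⟨κ, hκ⟩ : ∃ κ : IntermediateField k M, κ = fld2 k C x y := ⟨_, rfl⟩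
  have hκX : adjoin k {z : M | ∃ i j, z = X i / X j} ≤ κ := by
    rw [adjoin_le_iff, hκ]
    rintro _ ⟨i, j, rfl⟩
    refine subset_adjoin k _ (Or.inl (Or.inl ⟨_, hmemC i, _, hmemC j, ?_⟩))
    rw [hX]
  have hκY : adjoin k {z : M | ∃ i j, z = Y i / Y j} ≤ κ := by
    rw [adjoin_le_iff, hκ]
    rintro _ ⟨i, j, rfl⟩
    refine subset_adjoin k _ (Or.inl (Or.inr ⟨_, hmemC i, _, hmemC j, ?_⟩))
    rw [hY]
  have hκx : ∀ i ∉ C, x i ∈ κ := by
    intro i hi
    rw [hκ]
    exact subset_adjoin k _ (Or.inr ⟨i, hi, Or.inl rfl⟩)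
  have hκy : ∀ i ∉ C, y i ∈ κ := by
    intro i hi
    rw [hκ]
    exact subset_adjoin k _ (Or.inr ⟨i, hi, Or.inr rfl⟩)
  have hfg : κ.FG := by
    rw [hκ]
    refine IntermediateField.fg_adjoin_of_finite ?_
    refine Set.Finite.union (Set.Finite.union ?_ ?_) ?_
    · refine (Set.finite_range (fun ij : Fin n × Fin n => x ij.1 / x ij.2)).subset ?_
      rintro _ ⟨i, -, j, -, rfl⟩
      exact ⟨(i, j), rfl⟩
    · refine (Set.finite_range (fun ij : Fin n × Fin n => y ij.1 / y ij.2)).subset ?_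
      rintro _ ⟨i, -, j, -, rfl⟩
      exact ⟨(i, j), rfl⟩
    · refine ((Set.finite_range x).union (Set.finite_range y)).subset ?_
      rintro _ ⟨i, -, rfl | rfl⟩
      · exact Or.inl ⟨i, rfl⟩
      · exact Or.inr ⟨i, rfl⟩
  -- the two parts of `x + y`
  obtain ⟨z, hz⟩ : ∃ z : {i : Fin n // i ∉ C} → M, z = fun i => x i.1 + y i.1 := ⟨_, rfl⟩
  obtain ⟨v, hv⟩ : ∃ v : Fin 3 → M, v = fun i => X i + Y i := ⟨_, rfl⟩
  let r : {i : Fin n // i ∉ C} ⊕ Fin 3 → Fin n := Sum.elim Subtype.val ![a, b, c]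
  have hr : Function.Injective r := by
    rintro (i | i) (j | j) hij
    · exact congrArg _ (Subtype.ext hij)
    · exfalso
      apply i.2
      have h3 : (i : Fin n) = ![a, b, c] j := hij
      rw [h3]
      exact hmemC j
    · exfalso
      apply j.2
      have h3 : ![a, b, c] i = (j : Fin n) := hij
      rw [← h3]
      exact hmemC i
    · exact congrArg _ (hinj hij)
  have hcomp : Sum.elim z v = (fun i => x i + y i) ∘ r := by
    funext i
    rcases i with i | i
    · rw [hz]; rfl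
    · rw [hv, hX, hY]; rfl
  have hind : AlgebraicIndependent k (Sum.elim z v) := by
    rw [hcomp]
    exact hD.pr.1.comp r hr
  have hrange : Set.range z ∪ Set.range v = Set.range (fun i => x i + y i) := by
    rw [← Set.Sum.elim_range, hcomp]
    refine Set.Subset.antisymm (Set.range_comp_subset_range _ _) ?_
    rintro _ ⟨i, rfl⟩
    by_cases hi : i ∈ C
    · rw [hC] at hi
      obtain ⟨i', rfl⟩ := hsurj i hi
      exact ⟨Sum.inr i', rfl⟩
    · exact ⟨Sum.inl ⟨i, hi⟩, rfl⟩
  have hodd : Odd (Module.finrank (adjoin k (Set.range z ∪ Set.range v)) M) := by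
    rw [hrange]
    exact hD.pr.2
  have hzκ : ∀ i, z i ∈ κ := by
    intro i
    rw [hz]
    exact add_mem (hκx _ i.2) (hκy _ i.2)
  have hcard : Fintype.card {i : Fin n // i ∉ C} + 2 = n - 1 := by
    have hC3 : C.card = 3 := by
      rw [hC]
      obtain ⟨hab, hbc, hac⟩ := hd
      rw [Finset.card_insert_of_notMem, Finset.card_insert_of_notMem, Finset.card_singleton]
      · rw [Finset.mem_singleton]; exact hbc
      · rw [Finset.mem_insert, Finset.mem_singleton, not_or]
        exact ⟨hab, hac⟩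
    have h4 : Fintype.card {i : Fin n // i ∉ C} = n - C.card := by
      rw [Fintype.card_subtype_compl, Fintype.card_fin, Fintype.card_coe]
    have h5 : C.card ≤ n := by
      have := Finset.card_le_univ C
      rwa [Fintype.card_fin] at this
    rw [h4]
    omega
  have htr : Algebra.trdeg k κ < (Fintype.card {i : Fin n // i ∉ C} + 2 : ℕ) := by
    rw [hcard, hκ]
    exact ht
  have hup : ∀ (S : Set M) (t : M), adjoin k S ≤ κ → t ∈ ({al, be} : Set M) →
      ∀ m : M, m ∈ adjoin (adjoin k S) ({t} : Set M) → m ∈ adjoin κ ({al, be} : Set M) := by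
    intro S t hSκ ht' m hm
    have h1 : m ∈ (adjoin (adjoin k S) ({t} : Set M)).restrictScalars k := hm
    rw [IntermediateField.adjoin_adjoin_left] at h1
    have h2 : adjoin k (S ∪ {t}) ≤ (adjoin κ ({al, be} : Set M)).restrictScalars k := by
      rw [adjoin_le_iff]
      rintro s (hs | hs)
      · have h3 : s ∈ κ := hSκ (subset_adjoin k _ hs)
        exact IntermediateField.algebraMap_mem (adjoin κ ({al, be} : Set M)) (⟨s, h3⟩ : κ)
      · rw [Set.mem_singleton_iff] at hs
        rw [hs]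
        exact subset_adjoin κ _ ht'
    exact h2 h1
  have hvκ : ∀ i, v i ∈ adjoin κ ({al, be} : Set M) := by
    intro i
    rw [hv]
    exact add_mem (hup _ al hκX (by simp) _ (hxal i)) (hup _ be hκY (by simp) _ (hybe i))
  obtain ⟨K, N, iK, iN, i1, i2, i3, i4, i5, i6, φ, al', be', hφ, hφa, hφb, hind', hgen', hT, hsq, hlast⟩ :=
    tower z v hind hodd κ hfg hzκ htr al be hvκ
  obtain ⟨s, h, hh, hhs⟩ := exists_h hb hg
  have h2K : (2 : K) = 0 := by
    have := congrArg (algebraMap k K) hb.two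
    rwa [map_ofNat, map_zero] at this
  have hmm : ∀ r : k, ((algebraMap K κ (algebraMap k K r) : κ) : M) = algebraMap k M r := by
    intro r
    rw [← IsScalarTower.algebraMap_apply k K κ]
    rfl
  have heven := block_even hE (K := K) (L := κ) (N := N) h2K (algebraMap k K (ca2 g))
    (algebraMap k K (ca6 g)) (algebraMap k K h) s (by rw [hh, map_pow]) (hsq h hhs) hT al' be'
    hind' hgen' (x1 := ⟨e 0, hκX he0⟩) (y1 := ⟨f 0, hκX hf0⟩) (x2 := ⟨e 1, hκY he1⟩)
    (y2 := ⟨f 1, hκY hf1⟩)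
    (by
      apply Subtype.ext
      have h3 := hcur 0
      rw [← hmm, ← hmm] at h3
      exact h3)
    (by
      apply Subtype.ext
      have h3 := hcur 1
      rw [← hmm, ← hmm] at h3
      exact h3)
    (fun h3 => hne (congrArg Subtype.val h3))
  have hodd' := hlast ({al' + be', al' * algebraMap κ N ⟨e 0, hκX he0⟩ +
      be' * algebraMap κ N ⟨e 1, hκY he1⟩, al' * algebraMap κ N ⟨f 0, hκX hf0⟩ +
      be' * algebraMap κ N ⟨f 1, hκY hf1⟩} : Set N) (by
    rw [hv, hS (Set.range z), Set.image_insert_eq, Set.image_insert_eq, Set.image_singleton,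
      map_add, map_add, map_add, map_mul, map_mul, map_mul, map_mul, hφ, hφ, hφ, hφ, hφa, hφb])
  exact (Nat.not_even_iff_odd.2 hodd') heven

end MP2619.NP
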