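import Pool.Agent.Lib.MP_2619d0_ag.NP.D1
import Pool.Agent.Lib.MP_2619d0_ag.NP.D6

/-!
Row D7: Theorem D, both points split.
-/

set_option autoImplicit false

namespace MP2619.NP

universe u

open IntermediateField MP2619.R MP2619.W

variable {k M : Type u} [Field k] [Field M] [Algebra k M] {n : ℕ} {g : k} {a b c : Fin n}

/-- `step1`, `step2` with `e + 1 = n`, `D_final` -/
theorem thmD (hE : E5.{u}) (hb : Base k g) (hg : g ≠ 0) (hd : Dist a b c) {x y : Fin n → M}
    (hD : Dt g a b c x y) (hx : Phi g a b c (rs {a, b, c} x) = 0)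
    (hy : Phi g a b c (rs {a, b, c} y) = 0) : False := by
  obtain ⟨e, he⟩ : ∃ e, n = e + 1 := ⟨n - 1, by have := a.2; omega⟩
  have hC : ({a, b, c} : Finset (Fin n)).Nonempty := ⟨a, by simp⟩
  have hc : Comp g a b c ({a, b, c} : Finset (Fin n)) := Or.inr (Or.inl ⟨by simp, by simp, by simp⟩)
  obtain ⟨N, iN, iA, x', y', hD', hx', hy', ht⟩ := step1 hb hd hC hc hD hx hy
  have ht' : Algebra.trdeg k (fld1 k {a, b, c} x' y') < ((e + 1 : ℕ) : Cardinal) := by
    rw [← he]
    exact ht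
  obtain ⟨N', iN', iA', x'', y'', hD'', hx'', hy'', ht''⟩ :=
    step2 hb hd hC hc hD' hx' hy' e ht'
  refine D_final hE hb hg hd hD'' hx'' hy'' ?_
  have h1 : n - 1 = e := by omega
  rw [h1]
  exact ht''

end MP2619.NP
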