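import Pool.Agent.Lib.MP_2619d0_ag.NP.A7
import Pool.Agent.Lib.MP_2619d0_ag.NP.A11
import Pool.Agent.Lib.MP_2619d0_ag.NP.D7

/-!
Row A14: the star relation.
-/

set_option autoImplicit false

namespace MP2619.NP

universe u

open IntermediateField MP2619.R MP2619.W

private theorem A14_split {k M : Type u} [Field k] [Field M] [Algebra k M] {n : ℕ} {g : k}
    {a b c : Fin n} {A : Finset (Fin n)} (hc : Comp g a b c A) (t : M) (x : Fin n → M)
    (hx : Phi g a b c x = 0) (hA : Phi g a b c (rs A x) = 0) :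
    Phi g a b c (tw A t x) = 0 ∧ Phi g a b c (rs A (tw A t x)) = 0 := by
  have h1 : Phi g a b c (rs Aᶜ x) = 0 := by
    have := Phi_split hc x
    rw [hx, hA, zero_add] at this
    exact this.symm
  constructor
  · rw [Phi_tw hc, hA, h1, mul_zero, add_zero]
  · rw [rs_tw, Phi_smul, hA, mul_zero]

private theorem A14_comp {k : Type u} [Field k] {n : ℕ} (g : k) (a b c : Fin n) :
    Comp g a b c {a, b, c} := by
  refine Or.inr (Or.inl ⟨?_, ?_, ?_⟩) <;> simp

/-- from the twists of `x` to the twists of `y` -/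
private theorem A14_swap {k M : Type u} [Field k] [Field M] [Algebra k M] {n : ℕ} (A : Finset (Fin n))
    (c0 : k) (h0 : c0 ≠ 0) (x y : Fin n → M)
    (h : Pr k (fun i => tw A (algebraMap k M c0⁻¹) x i + y i)) :
    Pr k (fun i => tw A (algebraMap k M c0) y i + x i) := by
  classical
  have h1 := pr_diag _ (fun i => if i ∈ A then c0 else 1) (by intro i; split_ifs <;> simp [h0]) h
  convert h1 using 2 with i
  by_cases hi : i ∈ A
  · have h2 : algebraMap k M c0 * algebraMap k M c0⁻¹ = 1 := by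
      rw [← map_mul, mul_inv_cancel₀ h0, map_one]
    simp only [tw, hi, if_true]
    linear_combination (-(x i)) * h2
  · simp only [tw, hi, if_false, map_one]
    ring

/-- `C = {a, b, c}`. Suppose the count is odd. If `Φ(rs C x) ≠ 0`: `JL_data` gives `Dt` with `x` split
(`Φ(rs C x) = 0`). Otherwise some `j` has `Pr` (`exists_of_cnt`), replace `x` by `tw C (w^j) x`: `Dt`, `x` split. If
`y` is split: `thmD`. Otherwise `exists_RF`, `scA` with `c0 = w^j`: over `k' = k(t)` (`base_RF`), with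
`X = tw C t x`, `Y = y`: `Pr k' (tw C (w^j) X + Y)`, and, multiplying the coordinates in `C` by `w^{-j}`
(`pr_diag`, `R/G1.lean`), `Pr k' (tw C (w^j) Y + X)` for all `j`: `cnt w C Y X = 3` (`cnt_of_all`).
`JL_data` for `Y`, `X` (`Phi_base`): data over `k'` with both points split: `thmD`. -/
theorem starc {k M : Type u} [Field k] [Field M] [Algebra k M] {n : ℕ} {g : k} {a b c : Fin n}
    (hE : E5.{u}) (hb : Base k g) (hg : g ≠ 0) (hd : Dist a b c) (w : k)
    (hw : w ^ 2 + w + 1 = 0) (x y : Fin n → M) (hx : Phi g a b c x = 0)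
    (hy : Phi g a b c y = 0) : Even (cnt w {a, b, c} x y) := by
  classical
  by_contra hne
  have hodd : Odd (cnt w {a, b, c} x y) := Nat.not_even_iff_odd.1 hne
  have hc := A14_comp g a b c
  have hw0 : w ≠ 0 := by
    rintro rfl
    simp at hw
  -- step 1: `x` split
  obtain ⟨N, _, _, x1, y1, hD1, hs1⟩ : ∃ (N : Type u) (_ : Field N) (_ : Algebra k N)
      (x1 y1 : Fin n → N), Dt g a b c x1 y1 ∧ Phi g a b c (rs {a, b, c} x1) = 0 := by
    by_cases hE0 : Phi g a b c (rs {a, b, c} x) = 0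
    · obtain ⟨j, -, hj⟩ := exists_of_cnt hodd
      obtain ⟨h1, h2⟩ := A14_split hc (algebraMap k M w ^ j) x hx hE0
      exact ⟨M, _, _, tw {a, b, c} (algebraMap k M w ^ j) x, y, ⟨hj, h1, hy⟩, h2⟩
    · obtain ⟨N, i1, i2, x', y', hD, h1, -⟩ := JL_data hb hd w hw hc x y hE0 hx hy hodd
      exact ⟨N, i1, i2, x', y', hD, h1⟩
  by_cases hE1 : Phi g a b c (rs {a, b, c} y1) = 0
  · exact thmD hE hb hg hd hD1 hs1 hE1
  · have hall : ∀ j < 3, Pr k (fun i => tw {a, b, c} (algebraMap k N w ^ j) y1 i + x1 i) := by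
      intro j _
      have h1 := sc_c hb hd hc hD1 hs1 ((w ^ j)⁻¹) (inv_ne_zero (pow_ne_zero j hw0))
      have h2 := A14_swap {a, b, c} (w ^ j) (pow_ne_zero j hw0) x1 y1 h1.pr
      rwa [map_pow] at h2
    have hodd2 : Odd (cnt w {a, b, c} y1 x1) := by
      rw [cnt_of_all hall]
      decide
    obtain ⟨N', i1, i2, y2, x2, hD2, h3, h4, -⟩ := JL_data hb hd w hw hc y1 x1 hE1 hD1.Py hD1.Px hodd2
    exact thmD hE hb hg hd hD2 h3 (h4 {a, b, c} hs1)

end MP2619.NP
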