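import Mathlib

/-!
Row E8a: degrees of a rational function `A/B` which is the first coordinate of an odd morphism.
Pure polynomial algebra.
-/

set_option autoImplicit false

namespace MP2619.NP

universe u

open Polynomial

variable {K : Type u} [Field K] {a : K}

private theorem E8a_sq (ha : ∀ z : K, z ^ 2 ≠ a) {c e : K} (h : c ^ 2 = a * e ^ 2) :
    e = 0 ∧ c = 0 := by
  by_cases he : e = 0
  · subst he
    refine ⟨rfl, ?_⟩
    simpa using h
  · exfalso
    apply ha (c / e)
    rw [div_pow, h]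
    field_simp

/-- a polynomial all of whose irreducible factors have even degree has even degree -/
theorem even_natDegree (p : K[X]) (hp : p ≠ 0)
    (h : ∀ π : K[X], Irreducible π → π ∣ p → Even π.natDegree) : Even p.natDegree := by
  induction p using WfDvdMonoid.induction_on_irreducible with
  | zero => exact absurd rfl hp
  | unit u hu =>
    rw [natDegree_eq_zero_of_isUnit hu]
    exact Even.zero
  | mul b i hb hi ih =>
    rw [natDegree_mul hi.ne_zero hb]
    exact (h i hi (dvd_mul_right _ _)).add (ih hb fun π hπ hd => h π hπ (hd.mul_left _))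

/-- if `a` is not a square in `K` but a square modulo `π`, then `π` has even degree
(`K ⊂ K(√a) ⊂ K[X]/π`) -/
theorem even_of_sq (ha : ∀ z : K, z ^ 2 ≠ a) (π C E : K[X]) (hπ : Irreducible π)
    (hE : ¬ π ∣ E) (h : π ∣ C ^ 2 - Polynomial.C a * E ^ 2) : Even π.natDegree := by
  haveI : Fact (Irreducible π) := ⟨hπ⟩
  have hE0 : AdjoinRoot.mk π E ≠ 0 := by
    rw [Ne, AdjoinRoot.mk_eq_zero]
    exact hE
  have h1 : (AdjoinRoot.mk π C) ^ 2 = algebraMap K (AdjoinRoot π) a * (AdjoinRoot.mk π E) ^ 2 := by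
    have h2 : AdjoinRoot.mk π (C ^ 2 - Polynomial.C a * E ^ 2) = 0 := AdjoinRoot.mk_eq_zero.2 h
    rw [map_sub, map_mul, map_pow, map_pow, sub_eq_zero, AdjoinRoot.mk_C] at h2
    exact h2
  set s : AdjoinRoot π := AdjoinRoot.mk π C / AdjoinRoot.mk π E with hs
  have hs2 : s ^ 2 = algebraMap K (AdjoinRoot π) a := by
    rw [hs, div_pow, h1]
    field_simp
  have hirr : Irreducible (X ^ 2 - Polynomial.C a : K[X]) :=
    X_pow_sub_C_irreducible_of_prime Nat.prime_two ha
  have hmon : (X ^ 2 - Polynomial.C a : K[X]).Monic := monic_X_pow_sub_C a two_ne_zero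
  have hroot : aeval s (X ^ 2 - Polynomial.C a : K[X]) = 0 := by
    rw [map_sub, map_pow, aeval_X, aeval_C, hs2, sub_self]
  have hmin : X ^ 2 - Polynomial.C a = minpoly K s := minpoly.eq_of_irreducible_of_monic hirr hroot hmon
  haveI : FiniteDimensional K (AdjoinRoot π) := (AdjoinRoot.powerBasis hπ.ne_zero).finite
  have hdeg : (minpoly K s).natDegree ∣ Module.finrank K (AdjoinRoot π) :=
    minpoly.degree_dvd (Algebra.IsIntegral.isIntegral s)
  have hfr : Module.finrank K (AdjoinRoot π) = π.natDegree := by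
    rw [(AdjoinRoot.powerBasis hπ.ne_zero).finrank, AdjoinRoot.powerBasis_dim]
  rw [hfr, ← hmin, natDegree_X_pow_sub_C] at hdeg
  exact even_iff_two_dvd.2 hdeg

/-- the numerator is not zero -/
private theorem E8a_ne (ha : ∀ z : K, z ^ 2 ≠ a) (B C E : K[X]) (hB : B ≠ 0) (hE : E ≠ 0)
    (h : C * (C * B) * X ^ 2 * B ^ 2 =
      E ^ 2 * (X * B) * (Polynomial.C a * B * (X * B))) : False := by
  have h1 : (X ^ 2 * B ^ 3) * (C ^ 2 - Polynomial.C a * E ^ 2) = 0 := by
    linear_combination h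
  have h2 : X ^ 2 * B ^ 3 ≠ 0 := mul_ne_zero (pow_ne_zero _ X_ne_zero) (pow_ne_zero _ hB)
  have h3 : C ^ 2 = Polynomial.C a * E ^ 2 := by
    have := (mul_eq_zero.1 h1).resolve_left h2
    exact sub_eq_zero.1 this
  have h4 := congrArg leadingCoeff h3
  rw [leadingCoeff_pow, leadingCoeff_mul, leadingCoeff_C, leadingCoeff_pow] at h4
  exact leadingCoeff_ne_zero.2 hE (E8a_sq ha h4).1

private theorem E8a_max (C E : K[X]) (hE : E ≠ 0) :
    ∃ m : ℕ, C.natDegree ≤ m ∧ E.natDegree ≤ m ∧ (E.coeff m = 0 → C.coeff m = 0 → False) ∧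
      (E.coeff m = 0 → E.natDegree < m) := by
  by_cases h : C.natDegree ≤ E.natDegree
  · exact ⟨E.natDegree, h, le_rfl, fun h1 _ => hE (leadingCoeff_eq_zero.1 h1),
      fun h1 => absurd (leadingCoeff_eq_zero.1 h1) hE⟩
  · push Not at h
    refine ⟨C.natDegree, le_rfl, h.le, fun _ h2 => ?_, fun _ => h⟩
    have h3 : C = 0 := leadingCoeff_eq_zero.1 h2
    rw [h3] at h
    simp at h

/-- the value at infinity is not zero -/
private theorem E8a_deg (ha : ∀ z : K, z ^ 2 ≠ a) (A B C E : K[X]) (hB : B ≠ 0) (hE : E ≠ 0)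
    (h : C * (C * B + A * E) * X ^ 2 * B ^ 2 =
      E ^ 2 * (A + X * B) * (A ^ 2 * X ^ 2 + Polynomial.C a * B * (A + X * B))) :
    B.natDegree ≤ A.natDegree := by
  by_contra hlt
  push Not at hlt
  obtain ⟨m, hC, hEm, hne, -⟩ := E8a_max C E hE
  set b := B.natDegree with hb
  have hAb : A.coeff b = 0 := coeff_eq_zero_of_natDegree_lt hlt
  have hB0 : B.coeff b ≠ 0 := leadingCoeff_ne_zero.2 hB
  -- degrees
  have d1 : (C * B + A * E).natDegree ≤ m + b := by
    refine (natDegree_add_le _ _).trans (max_le ?_ ?_)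
    · exact natDegree_mul_le.trans (by omega)
    · exact natDegree_mul_le.trans (by omega)
  have c1 : (C * B + A * E).coeff (m + b) = C.coeff m * B.coeff b := by
    rw [coeff_add, coeff_mul_add_eq_of_natDegree_le hC le_rfl, add_comm m b,
      coeff_mul_add_eq_of_natDegree_le hlt.le hEm, hAb, zero_mul, add_zero]
  have d2 : (C * (C * B + A * E)).natDegree ≤ m + (m + b) := natDegree_mul_le.trans (by omega)
  have d3 : (C * (C * B + A * E) * X ^ 2).natDegree ≤ m + (m + b) + 2 :=
    natDegree_mul_le.trans (by rw [natDegree_X_pow]; omega)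
  have d4 : (B ^ 2).natDegree ≤ 2 * b := natDegree_pow_le
  have cL : (C * (C * B + A * E) * X ^ 2 * B ^ 2).coeff (m + (m + b) + 2 + 2 * b) =
      C.coeff m * (C.coeff m * B.coeff b) * B.coeff b ^ 2 := by
    rw [coeff_mul_add_eq_of_natDegree_le d3 d4,
      coeff_mul_add_eq_of_natDegree_le d2 (natDegree_X_pow_le 2),
      coeff_mul_add_eq_of_natDegree_le hC d1, c1, coeff_X_pow_self, mul_one,
      coeff_pow_of_natDegree_le le_rfl]
  have e1 : (X * B).natDegree ≤ 1 + b := natDegree_mul_le.trans (by rw [natDegree_X])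
  have e2 : (A + X * B).natDegree ≤ 1 + b :=
    (natDegree_add_le _ _).trans (max_le (by omega) e1)
  have c2 : (A + X * B).coeff (1 + b) = B.coeff b := by
    rw [coeff_add, coeff_eq_zero_of_natDegree_lt (by omega : A.natDegree < 1 + b), zero_add,
      coeff_mul_add_eq_of_natDegree_le natDegree_X_le le_rfl, coeff_X_one, one_mul]
  have e3 : (Polynomial.C a * B).natDegree ≤ b := natDegree_C_mul_le a B
  have e4 : (A ^ 2 * X ^ 2).natDegree < b + (1 + b) := by
    refine lt_of_le_of_lt natDegree_mul_le ?_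
    rw [natDegree_X_pow, natDegree_pow]
    omega
  have e5 : (A ^ 2 * X ^ 2 + Polynomial.C a * B * (A + X * B)).natDegree ≤ b + (1 + b) :=
    (natDegree_add_le _ _).trans (max_le e4.le (natDegree_mul_le.trans (by omega)))
  have c3 : (A ^ 2 * X ^ 2 + Polynomial.C a * B * (A + X * B)).coeff (b + (1 + b)) =
      a * B.coeff b * B.coeff b := by
    rw [coeff_add, coeff_eq_zero_of_natDegree_lt e4, zero_add,
      coeff_mul_add_eq_of_natDegree_le e3 e2, c2, coeff_C_mul]
  have e6 : (E ^ 2).natDegree ≤ 2 * m := natDegree_pow_le_of_le 2 hEm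
  have e7 : (E ^ 2 * (A + X * B)).natDegree ≤ 2 * m + (1 + b) := natDegree_mul_le.trans (by omega)
  have cR : (E ^ 2 * (A + X * B) *
      (A ^ 2 * X ^ 2 + Polynomial.C a * B * (A + X * B))).coeff (2 * m + (1 + b) + (b + (1 + b))) =
      E.coeff m ^ 2 * B.coeff b * (a * B.coeff b * B.coeff b) := by
    rw [coeff_mul_add_eq_of_natDegree_le e7 e5, c3, coeff_mul_add_eq_of_natDegree_le e6 e2, c2,
      coeff_pow_of_natDegree_le hEm]
  have hn : m + (m + b) + 2 + 2 * b = 2 * m + (1 + b) + (b + (1 + b)) := by omega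
  rw [h, hn, cR] at cL
  have h5 : B.coeff b ^ 3 * (C.coeff m ^ 2 - a * E.coeff m ^ 2) = 0 := by
    linear_combination -cL
  have h6 : C.coeff m ^ 2 = a * E.coeff m ^ 2 :=
    sub_eq_zero.1 ((mul_eq_zero.1 h5).resolve_left (pow_ne_zero _ hB0))
  obtain ⟨h7, h8⟩ := E8a_sq ha h6
  exact hne h7 h8

/-- the numerator is not constant -/
private theorem E8a_const (α β : K) (C E : K[X]) (hα : α ≠ 0) (hβ : β ≠ 0) (hE : E ≠ 0)
    (h : C * (C * Polynomial.C β + Polynomial.C α * E) * X ^ 2 * Polynomial.C β ^ 2 =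
      E ^ 2 * (Polynomial.C α + X * Polynomial.C β) * (Polynomial.C α ^ 2 * X ^ 2 +
        Polynomial.C a * Polynomial.C β * (Polynomial.C α + X * Polynomial.C β))) : False := by
  obtain ⟨m, hC, hEm, hne, hlt⟩ := E8a_max C E hE
  have d1 : (C * Polynomial.C β + Polynomial.C α * E).natDegree ≤ m := by
    refine (natDegree_add_le _ _).trans (max_le ?_ ?_)
    · exact (natDegree_mul_C_le _ _).trans hC
    · exact (natDegree_C_mul_le _ _).trans hEm
  have d2 : (C * (C * Polynomial.C β + Polynomial.C α * E)).natDegree ≤ m + m :=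
    natDegree_mul_le.trans (by omega)
  have d3 : (C * (C * Polynomial.C β + Polynomial.C α * E) * X ^ 2).natDegree ≤ m + m + 2 :=
    natDegree_mul_le.trans (by rw [natDegree_X_pow]; omega)
  have d4 : (Polynomial.C β ^ 2).natDegree ≤ 0 := by
    rw [← C_pow]
    exact (natDegree_C _).le
  have d5 : (C * (C * Polynomial.C β + Polynomial.C α * E) * X ^ 2 *
      Polynomial.C β ^ 2).natDegree ≤ m + m + 2 := natDegree_mul_le.trans (by omega)
  have cL : (C * (C * Polynomial.C β + Polynomial.C α * E) * X ^ 2 *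
      Polynomial.C β ^ 2).coeff (m + m + 2 + 0) =
      C.coeff m * (C.coeff m * β + α * E.coeff m) * β ^ 2 := by
    rw [coeff_mul_add_eq_of_natDegree_le d3 d4,
      coeff_mul_add_eq_of_natDegree_le d2 (natDegree_X_pow_le 2),
      coeff_mul_add_eq_of_natDegree_le hC d1, coeff_X_pow_self, mul_one, coeff_add, coeff_mul_C,
      coeff_C_mul, ← C_pow, coeff_C_zero]
  have e1 : (Polynomial.C α + X * Polynomial.C β).natDegree ≤ 1 := by
    refine (natDegree_add_le _ _).trans (max_le (by rw [natDegree_C]; omega) ?_)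
    exact (natDegree_mul_C_le _ _).trans natDegree_X_le
  have c1 : (Polynomial.C α + X * Polynomial.C β).coeff 1 = β := by
    rw [coeff_add, coeff_mul_C, coeff_X_one, one_mul, coeff_C_ne_zero one_ne_zero, zero_add]
  have e2 : (Polynomial.C a * Polynomial.C β *
      (Polynomial.C α + X * Polynomial.C β)).natDegree ≤ 1 := by
    rw [← C_mul]
    exact (natDegree_C_mul_le _ _).trans e1
  have e3 : (Polynomial.C α ^ 2 * X ^ 2 : K[X]).natDegree ≤ 2 := by
    rw [← C_pow]
    exact (natDegree_C_mul_le _ _).trans (natDegree_X_pow_le 2)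
  have e4 : (Polynomial.C α ^ 2 * X ^ 2 + Polynomial.C a * Polynomial.C β *
      (Polynomial.C α + X * Polynomial.C β)).natDegree ≤ 2 :=
    (natDegree_add_le _ _).trans (max_le e3 (by omega))
  have c2 : (Polynomial.C α ^ 2 * X ^ 2 + Polynomial.C a * Polynomial.C β *
      (Polynomial.C α + X * Polynomial.C β)).coeff 2 = α ^ 2 := by
    rw [coeff_add, coeff_eq_zero_of_natDegree_lt (lt_of_le_of_lt e2 one_lt_two), add_zero,
      ← C_pow, coeff_C_mul, coeff_X_pow_self, mul_one]
  have key : ∀ k : ℕ, E.natDegree ≤ k → (E ^ 2 * (Polynomial.C α + X * Polynomial.C β) *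
      (Polynomial.C α ^ 2 * X ^ 2 + Polynomial.C a * Polynomial.C β *
        (Polynomial.C α + X * Polynomial.C β))).natDegree ≤ 2 * k + 1 + 2 := by
    intro k hk
    have g1 : (E ^ 2).natDegree ≤ 2 * k := natDegree_pow_le_of_le 2 hk
    have g2 : (E ^ 2 * (Polynomial.C α + X * Polynomial.C β)).natDegree ≤ 2 * k + 1 :=
      natDegree_mul_le.trans (by omega)
    exact natDegree_mul_le.trans (by omega)
  have g1 : (E ^ 2).natDegree ≤ 2 * m := natDegree_pow_le_of_le 2 hEm
  have g2 : (E ^ 2 * (Polynomial.C α + X * Polynomial.C β)).natDegree ≤ 2 * m + 1 :=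
    natDegree_mul_le.trans (by omega)
  have cR : (E ^ 2 * (Polynomial.C α + X * Polynomial.C β) *
      (Polynomial.C α ^ 2 * X ^ 2 + Polynomial.C a * Polynomial.C β *
        (Polynomial.C α + X * Polynomial.C β))).coeff (2 * m + 1 + 2) =
      E.coeff m ^ 2 * β * α ^ 2 := by
    rw [coeff_mul_add_eq_of_natDegree_le g2 e4, c2, coeff_mul_add_eq_of_natDegree_le g1 e1, c1,
      coeff_pow_of_natDegree_le hEm]
  rw [← h, coeff_eq_zero_of_natDegree_lt (lt_of_le_of_lt d5 (by omega))] at cR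
  have hE0 : E.coeff m = 0 := by
    have h1 : E.coeff m ^ 2 * (β * α ^ 2) = 0 := by linear_combination -cR
    have h2 : β * α ^ 2 ≠ 0 := mul_ne_zero hβ (pow_ne_zero _ hα)
    exact pow_eq_zero_iff two_ne_zero |>.1 ((mul_eq_zero.1 h1).resolve_right h2)
  have hlt' := hlt hE0
  have h3 := key (m - 1) (by omega)
  rw [h, coeff_eq_zero_of_natDegree_lt (lt_of_le_of_lt h3 (by omega)), hE0, mul_zero,
    add_zero] at cL
  have h4 : C.coeff m ^ 2 * β ^ 3 = 0 := by linear_combination -cL
  have h5 : C.coeff m = 0 :=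
    pow_eq_zero_iff two_ne_zero |>.1 ((mul_eq_zero.1 h4).resolve_right (pow_ne_zero _ hβ))
  exact hne hE0 h5

/-- irreducible factors of the numerator -/
private theorem E8a_factor (ha : ∀ z : K, z ^ 2 ≠ a) (A B C E : K[X])
    (hAB : IsCoprime A B) (hCE : IsCoprime C E)
    (h : C * (C * B + A * E) * X ^ 2 * B ^ 2 =
      E ^ 2 * (A + X * B) * (A ^ 2 * X ^ 2 + Polynomial.C a * B * (A + X * B)))
    (π : K[X]) (hπ : Irreducible π) (hA : π ∣ A) (hX : ¬ π ∣ X) : Even π.natDegree := by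
  have hp : Prime π := hπ.prime
  have hB : ¬ π ∣ B := fun hB => hp.not_unit (hAB.isUnit_of_dvd' hA hB)
  have h1 : π ∣ X ^ 2 * B ^ 3 * (C ^ 2 - Polynomial.C a * E ^ 2) := by
    obtain ⟨Q, rfl⟩ := hA
    refine ⟨Q * (- C * E * X ^ 2 * B ^ 2 + E ^ 2 * ((π * Q + X * B) * (π * Q * X ^ 2) +
      Polynomial.C a * B * (π * Q + 2 * X * B))), ?_⟩
    linear_combination h
  have h2 : π ∣ C ^ 2 - Polynomial.C a * E ^ 2 := by
    rcases hp.dvd_or_dvd h1 with h3 | h3
    · exfalso
      rcases hp.dvd_or_dvd h3 with h4 | h4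
      · exact hX (hp.dvd_of_dvd_pow h4)
      · exact hB (hp.dvd_of_dvd_pow h4)
    · exact h3
  refine even_of_sq ha π C E hπ ?_ h2
  intro hE
  have h3 : π ∣ C ^ 2 := by
    have h4 := dvd_add h2 ((dvd_pow hE two_ne_zero).mul_left (Polynomial.C a))
    rwa [sub_add_cancel] at h4
  exact hp.not_unit (hCE.isUnit_of_dvd' (hp.dvd_of_dvd_pow h3) hE)

private theorem E8a_dvd_X {π : K[X]} (hπ : Irreducible π) (h : π ∣ X) (p : K[X]) (hp : π ∣ p) :
    p.eval 0 = 0 := by
  have h1 : Associated π X := (hπ.dvd_irreducible_iff_associated irreducible_X).1 h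
  have h2 : X ∣ p := h1.symm.dvd.trans hp
  obtain ⟨q, rfl⟩ := h2
  simp

private theorem E8a_coprime {p q : K[X]} (h : IsCoprime p q) (hp : p.eval 0 = 0)
    (hq : q.eval 0 = 0) : False := by
  obtain ⟨u, v, huv⟩ := h
  have h1 := congrArg (Polynomial.eval 0) huv
  simp [hp, hq] at h1

/-- Put `f = A/B`, `q = C/E`, `q² + f q = f² (f + X) + a (1 + f/X)²`.
Sketch: `A ≠ 0` (else `C² = a E²`). `deg A < deg B`: compare the leading terms (then `deg C = deg E`
and `a` is a square, or the degrees differ). `deg A = deg B = 0`: the right side has degree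
`2 deg E + 3`, the left side has not. If `π ∣ A` is irreducible, `π` not associated to `X`:
`π ∤ E` and `C² = a E²` mod `π` (`even_of_sq`). If `A = X A₁`: divide the equation by `X²` and
evaluate at `0`: `C² B² = a E² (A₁ + B)²`, so `A₁(0) = B(0) ≠ 0`, `X ∤ A₁`. So `deg A₁` or `deg A`
is even by `even_natDegree`. -/
theorem os_poly (h2 : (2 : K) = 0) (ha : ∀ z : K, z ^ 2 ≠ a) (A B C E : K[X])
    (hAB : IsCoprime A B) (hCE : IsCoprime C E) (hB : B ≠ 0) (hE : E ≠ 0)
    (h : C * (C * B + A * E) * X ^ 2 * B ^ 2 =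
      E ^ 2 * (A + X * B) * (A ^ 2 * X ^ 2 + Polynomial.C a * B * (A + X * B))) :
    0 < A.natDegree ∧ B.natDegree ≤ A.natDegree ∧ (Odd A.natDegree ↔ A.eval 0 = 0) := by
  have hA : A ≠ 0 := by
    rintro rfl
    refine E8a_ne ha B C E hB hE ?_
    linear_combination h
  have hdeg := E8a_deg ha A B C E hB hE h
  refine ⟨?_, hdeg, ?_⟩
  · rw [Nat.pos_iff_ne_zero]
    intro h0
    have hB0 : B.natDegree = 0 := by omega
    obtain ⟨α, hα⟩ := natDegree_eq_zero.1 h0
    obtain ⟨β, hβ⟩ := natDegree_eq_zero.1 hB0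
    subst hα
    subst hβ
    refine E8a_const (a := a) α β C E ?_ ?_ hE h
    · rintro rfl
      exact hA (map_zero _)
    · rintro rfl
      exact hB (map_zero _)
  · constructor
    · intro hodd
      by_contra hA0
      refine (Nat.not_even_iff_odd.2 hodd) (even_natDegree A hA fun π hπ hd => ?_)
      refine E8a_factor ha A B C E hAB hCE h π hπ hd fun hX => hA0 ?_
      exact E8a_dvd_X hπ hX A hd
    · intro hA0
      obtain ⟨A₁, rfl⟩ : X ∣ A := by
        rw [X_dvd_iff, coeff_zero_eq_eval_zero]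
        exact hA0
      have hA1 : A₁ ≠ 0 := right_ne_zero_of_mul hA
      have hB0 : B.eval 0 ≠ 0 := fun h3 => E8a_coprime hAB (by simp) h3
      have h4 : X ^ 2 * (C * (C * B + X * A₁ * E) * B ^ 2) =
          X ^ 2 * (E ^ 2 * (A₁ + B) * (A₁ ^ 2 * X ^ 3 + Polynomial.C a * B * (A₁ + B))) := by
        linear_combination h
      have h5 := mul_left_cancel₀ (pow_ne_zero 2 X_ne_zero) h4
      have h6 := congrArg (Polynomial.eval 0) h5
      simp only [eval_mul, eval_add, eval_pow, eval_X, eval_C, zero_mul, add_zero] at h6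
      have h7 : B.eval 0 * ((C.eval 0 * B.eval 0) ^ 2 -
          a * (E.eval 0 * (A₁.eval 0 + B.eval 0)) ^ 2) = 0 := by
        linear_combination h6
      have h8 := sub_eq_zero.1 ((mul_eq_zero.1 h7).resolve_left hB0)
      obtain ⟨h9, h10⟩ := E8a_sq ha h8
      have hC0 : C.eval 0 = 0 := (mul_eq_zero.1 h10).resolve_right hB0
      have hE0 : E.eval 0 ≠ 0 := fun h3 => E8a_coprime hCE hC0 h3
      have h11 : A₁.eval 0 ≠ 0 := by
        intro h3
        have h12 := (mul_eq_zero.1 h9).resolve_left hE0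
        rw [h3, zero_add] at h12
        exact hB0 h12
      rw [natDegree_X_mul hA1]
      refine Even.add_one (even_natDegree A₁ hA1 fun π hπ hd => ?_)
      refine E8a_factor ha _ B C E hAB hCE h π hπ (hd.mul_left _) fun hX => h11 ?_
      exact E8a_dvd_X hπ hX A₁ hd

/-- evaluate at `0` -/
theorem os_zero (ha : ∀ z : K, z ^ 2 ≠ a) (h2 : (2 : K) = 0) (A B G H : K[X])
    (hAB : IsCoprime A B) (hGH : IsCoprime G H)
    (h : (X ^ 2 * B ^ 2 + A ^ 2) * G ^ 2 + A * X * G * B * H + A ^ 2 * X ^ 2 * H ^ 2 +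
      Polynomial.C a * B ^ 2 * H ^ 2 = 0) : A.eval 0 = 0 ↔ ¬ G.eval 0 = 0 := by
  have h1 := congrArg (Polynomial.eval 0) h
  simp only [eval_mul, eval_add, eval_pow, eval_X, eval_C, eval_zero] at h1
  have h3 : (A.eval 0 * G.eval 0) ^ 2 = a * (B.eval 0 * H.eval 0) ^ 2 := by
    linear_combination h1 - a * B.eval 0 ^ 2 * H.eval 0 ^ 2 * h2
  obtain ⟨h4, h5⟩ := E8a_sq ha h3
  constructor
  · intro hA hG
    have hB : B.eval 0 ≠ 0 := fun h6 => E8a_coprime hAB hA h6
    have hH : H.eval 0 = 0 := (mul_eq_zero.1 h4).resolve_left hB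
    exact E8a_coprime hGH hG hH
  · intro hG
    exact (mul_eq_zero.1 h5).resolve_right hG

end MP2619.NP
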