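import Pool.Agent.Lib.MP_2619d0_ag.NP.B5

/-!
The parallelogram law on `Y² + XY = X³ + a₂X² + a₆` is in `B5.lean`.
-/
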