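import Pool.Agent.Lib.MP_2619d0_ag.NP.E3
import Pool.Agent.Lib.MP_2619d0_ag.NP.E8a
import Pool.Agent.Lib.MP_2619d0_ag.NP.EB

/-!
Row E8: points `c` with `c(-P) = -c(P)`, when `a` is not a square in `K`.
-/

set_option autoImplicit false

namespace MP2619.NP

universe u

open IntermediateField WeierstrassCurve Polynomial

variable {K L : Type u} [Field K] [Field L] [Algebra K L] {a2 a : K}

private theorem E8_ne {x : L} (hx : Transcendental K x) {p : K[X]} (hp : p ≠ 0) :
    aeval x p ≠ 0 := fun h => hp ((transcendental_iff.1 hx) p h)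

private theorem E8_frac {x : L} (hx : Transcendental K x) {z : L} (hz : z ∈ adjoin K {x}) :
    ∃ A B : K[X], IsCoprime A B ∧ B ≠ 0 ∧ z * aeval x B = aeval x A := by
  let u : RatFunc K := (RatFunc.algEquivOfTranscendental x hx).symm ⟨z, hz⟩
  refine ⟨u.num, u.denom, u.isCoprime_num_denom, u.denom_ne_zero, ?_⟩
  have h := RatFunc.algEquivOfTranscendental_apply x hx u
  have h2 : RatFunc.algEquivOfTranscendental x hx u = ⟨z, hz⟩ := AlgEquiv.apply_symm_apply _ _
  rw [h2] at h
  have h3 := E8_ne hx u.denom_ne_zero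
  change z = _ at h
  rw [h]
  field_simp

private theorem E8_genx (h2 : (2 : K) = 0) {x y : L}
    (h : WeierstrassCurve.Affine.Nonsingular ((Wo a2 a)⁄L) x y)
    (hP : IsGen (Affine.Point.some x y h : Pt a2 a L)) :
    Transcendental K x ∧ adjoin K {x, y} = ⊤ := by
  obtain ⟨x1, y1, h1, he, hx, ht⟩ := gen_some h2 _ hP
  simp only [Affine.Point.some.injEq] at he
  obtain ⟨rfl, rfl⟩ := he
  exact ⟨hx, ht⟩

private theorem E8_two0 (h2 : (2 : K) = 0) {x y : L}
    (h : WeierstrassCurve.Affine.Nonsingular ((Wo a2 a)⁄L) x y) (hx : Transcendental K x) :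
    y ∉ adjoin K {x} := by
  intro hy
  obtain ⟨C, E, hc, hE, hy⟩ := E8_frac hx hy
  have e1 := eqn h2 h
  have key : C * (C + X * E) = E ^ 2 * (X ^ 3 + Polynomial.C a2 * X ^ 2 + Polynomial.C a) := by
    refine (transcendental_iff_injective.1 hx) ?_
    simp only [map_mul, map_add, map_pow, aeval_X, aeval_C]
    rw [← hy]
    linear_combination (aeval x E) ^ 2 * e1
  have hu : IsUnit E := by
    have h1 : E ∣ C * (C + X * E) := by
      rw [key, pow_two]
      exact Dvd.intro _ (mul_assoc _ _ _).symm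
    have h3 : IsCoprime E C := hc.symm
    have h4 : IsCoprime E (C + X * E) := by
      rw [mul_comm X E]
      exact (IsCoprime.add_mul_left_right_iff (z := X)).2 h3
    exact (IsCoprime.mul_right h3 h4).isUnit_of_dvd' dvd_rfl h1
  obtain ⟨e, he, rfl⟩ := Polynomial.isUnit_iff.1 hu
  have he0 : e ≠ 0 := he.ne_zero
  have hR : (Polynomial.C e ^ 2 * (X ^ 3 + Polynomial.C a2 * X ^ 2 + Polynomial.C a)).natDegree
      = 3 := by
    rw [← map_pow, natDegree_C_mul (pow_ne_zero 2 he0)]
    compute_degree!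
  have hL : (C * (C + X * Polynomial.C e)).natDegree = 3 := by rw [key, hR]
  have hX : (X * Polynomial.C e).natDegree = 1 := by
    rw [natDegree_mul_C he0, natDegree_X]
  rcases le_or_gt C.natDegree 1 with hC | hC
  · have h3 : (C + X * Polynomial.C e).natDegree ≤ 1 := by
      refine (natDegree_add_le _ _).trans ?_
      rw [hX]
      exact max_le hC le_rfl
    have h4 := (natDegree_mul_le (p := C) (q := C + X * Polynomial.C e)).trans
      (Nat.add_le_add hC h3)
    omega
  · have h3 : (C + X * Polynomial.C e).natDegree = C.natDegree := by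
      rw [natDegree_add_eq_left_of_natDegree_lt]
      omega
    have hC0 : C ≠ 0 := by
      rintro rfl
      simp at hC
    have hC1 : C + X * Polynomial.C e ≠ 0 := by
      intro h0
      rw [h0, natDegree_zero] at h3
      omega
    rw [natDegree_mul hC0 hC1, h3] at hL
    omega

private theorem E8_two (h2 : (2 : K) = 0) {x y : L}
    (h : WeierstrassCurve.Affine.Nonsingular ((Wo a2 a)⁄L) x y) (hx : Transcendental K x) :
    Module.finrank (adjoin K {x}) L = 2 * Module.finrank (adjoin K {x, y}) L := by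
  have hle : adjoin K {x} ≤ adjoin K {x, y} :=
    adjoin.mono K _ _ (by intro z hz; exact Or.inl hz)
  rw [← relfinrank_mul_finrank_top hle]
  congr 1
  rw [relfinrank_eq_finrank_of_le hle, extendScalars_adjoin hle]
  have hxm : x ∈ adjoin K {x} := mem_adjoin_simple_self K x
  have h1 : adjoin (adjoin K {x}) ({x, y} : Set L) = adjoin (adjoin K {x}) {y} := by
    apply le_antisymm
    · rw [adjoin_le_iff]
      rintro z (rfl | hz)
      · exact (IntermediateField.algebraMap_mem _ (⟨z, hxm⟩ : adjoin K {z}))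
      · exact subset_adjoin _ _ hz
    · exact adjoin.mono _ _ _ (by intro z hz; exact Or.inr hz)
  rw [h1]
  let x0 : adjoin K {x} := ⟨x, hxm⟩
  let p : (adjoin K {x})[X] := X ^ 2 + (Polynomial.C x0 * X -
    Polynomial.C (x0 ^ 3 + algebraMap K _ a2 * x0 ^ 2 + algebraMap K _ a))
  have hpd : (Polynomial.C x0 * X -
    Polynomial.C (x0 ^ 3 + algebraMap K _ a2 * x0 ^ 2 + algebraMap K _ a)).degree < 2 := by
    refine lt_of_le_of_lt (degree_sub_le _ _) (max_lt ?_ ?_)
    · exact lt_of_le_of_lt (degree_C_mul_X_le _) (by norm_num)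
    · exact lt_of_le_of_lt degree_C_le (by norm_num)
  have hpm : p.Monic := monic_X_pow_add hpd
  have hpn : p.natDegree = 2 := by
    apply Polynomial.natDegree_eq_of_degree_eq_some
    rw [degree_add_eq_left_of_degree_lt, degree_X_pow]
    rw [degree_X_pow]
    exact hpd
  have hroot : aeval y p = 0 := by
    have e1 := eqn h2 h
    simp only [p, map_add, map_sub, map_mul, map_pow, aeval_X, aeval_C, ← IsScalarTower.algebraMap_apply]
    change y ^ 2 + (x * y - (x ^ 3 + algebraMap K L a2 * x ^ 2 + algebraMap K L a)) = 0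
    linear_combination e1
  have hint : IsIntegral (adjoin K {x}) y := ⟨p, hpm, hroot⟩
  rw [adjoin.finrank hint]
  apply le_antisymm
  · rw [← hpn]
    exact natDegree_le_of_dvd (minpoly.dvd _ _ hroot) hpm.ne_zero
  · rw [minpoly.two_le_natDegree_iff hint]
    rintro ⟨z, hz⟩
    apply E8_two0 h2 h hx
    rw [← hz]
    exact z.2

private theorem E8_natDeg (A B : K[X]) (hAB : IsCoprime A B) (hB : B ≠ 0) (f : RatFunc K)
    (hf : f * algebraMap K[X] (RatFunc K) B = algebraMap K[X] (RatFunc K) A) :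
    f.num.natDegree = A.natDegree ∧ f.denom.natDegree = B.natDegree := by
  have hB' : algebraMap K[X] (RatFunc K) B ≠ 0 := by
    simpa using hB
  have h1 : f = algebraMap K[X] (RatFunc K) A / algebraMap K[X] (RatFunc K) B := by
    rw [← hf]
    field_simp
  have h2 : f.num * B = A * f.denom := (RatFunc.num_mul_eq_mul_denom_iff hB).2 h1
  have hc := f.isCoprime_num_denom
  have a1 : f.num ∣ A := by
    refine hc.dvd_of_dvd_mul_right ?_
    rw [← h2]
    exact dvd_mul_right _ _
  have a2 : A ∣ f.num := by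
    refine hAB.dvd_of_dvd_mul_right ?_
    rw [h2]
    exact dvd_mul_right _ _
  have b1 : f.denom ∣ B := by
    refine hc.symm.dvd_of_dvd_mul_left ?_
    rw [h2]
    exact dvd_mul_left _ _
  have b2 : B ∣ f.denom := by
    refine hAB.symm.dvd_of_dvd_mul_left ?_
    rw [← h2]
    exact dvd_mul_left _ _
  exact ⟨natDegree_eq_of_degree_eq (degree_eq_degree_of_associated (associated_of_dvd_dvd a1 a2)),
    natDegree_eq_of_degree_eq (degree_eq_degree_of_associated (associated_of_dvd_dvd b1 b2))⟩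

private theorem E8_max {x x' : L} (hx : Transcendental K x) (A B : K[X]) (hAB : IsCoprime A B)
    (hB : B ≠ 0) (hx' : x' * aeval x B = aeval x A) (hd : 0 < max A.natDegree B.natDegree) :
    Transcendental K x' ∧ Module.finrank (adjoin K {x'}) L =
      max A.natDegree B.natDegree * Module.finrank (adjoin K {x}) L := by
  let φ : RatFunc K →ₐ[K] L :=
    (adjoin K {x}).val.comp (RatFunc.algEquivOfTranscendental x hx).toAlgHom
  have hφ : Function.Injective φ := φ.toRingHom.injective
  have hrange : φ.fieldRange = adjoin K {x} := by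
    apply le_antisymm
    · rintro z ⟨w, rfl⟩
      exact (RatFunc.algEquivOfTranscendental x hx w).2
    · intro z hz
      refine ⟨(RatFunc.algEquivOfTranscendental x hx).symm ⟨z, hz⟩, ?_⟩
      change ((RatFunc.algEquivOfTranscendental x hx)
        ((RatFunc.algEquivOfTranscendental x hx).symm ⟨z, hz⟩) : L) = z
      rw [AlgEquiv.apply_symm_apply]
  have hφp : ∀ p : K[X], φ (algebraMap K[X] (RatFunc K) p) = aeval x p := by
    intro p
    change ((RatFunc.algEquivOfTranscendental x hx) (algebraMap K[X] (RatFunc K) p) : L) = _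
    rw [RatFunc.algEquivOfTranscendental_algebraMap]
    change (adjoin K {x}).val (aeval (AdjoinSimple.gen K x) p) = _
    rw [← aeval_algHom_apply]
    rfl
  have hB' : algebraMap K[X] (RatFunc K) B ≠ 0 := by
    simpa using hB
  have hBx : aeval x B ≠ 0 := E8_ne hx hB
  let f : RatFunc K := algebraMap K[X] (RatFunc K) A / algebraMap K[X] (RatFunc K) B
  have hf : f * algebraMap K[X] (RatFunc K) B = algebraMap K[X] (RatFunc K) A := by
    simp only [f]
    field_simp
  have hfx : φ f = x' := by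
    have h1 := congrArg φ hf
    rw [map_mul, hφp, hφp, ← hx'] at h1
    exact mul_right_cancel₀ hBx h1
  obtain ⟨n1, n2⟩ := E8_natDeg A B hAB hB f hf
  have hC : ¬ ∃ c, f = RatFunc.C c := by
    rw [f.eq_C_iff, n1, n2]
    omega
  have ht := f.transcendental_of_ne_C hC
  refine ⟨?_, ?_⟩
  · rw [← hfx]
    intro h1
    exact ht ((isAlgebraic_algHom_iff φ hφ).1 h1)
  · have h1 : (adjoin K {f}).map φ = adjoin K {x'} := by
      rw [adjoin_map, Set.image_singleton, hfx]
    have h3 : Module.finrank (adjoin K {f}) (RatFunc K) = relfinrank (adjoin K {x'}) (adjoin K {x}) := by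
      rw [← hrange, ← finrank_comap, ← h1, comap_map]
    have hle : adjoin K {x'} ≤ adjoin K {x} := by
      rw [← hrange, adjoin_simple_le_iff]
      exact ⟨f, hfx⟩
    rw [← relfinrank_mul_finrank_top hle, ← h3, f.finrank_eq_max_natDegree, n1, n2]

/-- Let `P = (x, y)` and `c = (x', y')`, `σ c = -c`. Then `x' = A(x)/B(x)` and the equation of
`os_poly` holds for suitable `C, E`. Sketch: `σ x' = x'`, so `x' ∈ K(x)` (`fix_neg`),
`y' = (x'/x) y + q` with `σ q = q`; the equation of the curve for `c` gives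
`q² + x' q = x'² (x' + x) + a (1 + x'/x)²`. (`RatFunc K ≃ K(x)` for transcendental `x`, or
`IntermediateField.mem_adjoin_simple_iff`.) -/
theorem odd_coord [DecidableEq L] (h2 : (2 : K) = 0) {x y x' y' : L}
    (h : WeierstrassCurve.Affine.Nonsingular ((Wo a2 a)⁄L) x y)
    (h' : WeierstrassCurve.Affine.Nonsingular ((Wo a2 a)⁄L) x' y')
    (hP : IsGen (Affine.Point.some x y h : Pt a2 a L)) (σ : L →ₐ[K] L)
    (hσ : mp σ (Affine.Point.some x y h : Pt a2 a L) = -Affine.Point.some x y h)
    (hc : mp σ (Affine.Point.some x' y' h' : Pt a2 a L) = -Affine.Point.some x' y' h') :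
    ∃ A B C E : K[X], IsCoprime A B ∧ IsCoprime C E ∧ B ≠ 0 ∧ E ≠ 0 ∧
      x' * aeval x B = aeval x A ∧
      C * (C * B + A * E) * X ^ 2 * B ^ 2 =
        E ^ 2 * (A + X * B) * (A ^ 2 * X ^ 2 + Polynomial.C a * B * (A + X * B)) := by
  have h2L : (2 : L) = 0 := by
    have h3 := congrArg (algebraMap K L) h2
    rwa [map_ofNat, map_zero] at h3
  obtain ⟨hx, ht⟩ := E8_genx h2 h hP
  have hx0 : x ≠ 0 := by
    rintro rfl
    exact hx isAlgebraic_zero
  obtain ⟨s1, s2, s3⟩ := fix_neg h2 h hP σ hσ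
  obtain ⟨hn, hn'⟩ := neg_f h2 h'
  rw [hn'] at hc
  have hc' : σ x' = x' ∧ σ y' = x' + y' := by
    rw [mp, WeierstrassCurve.Affine.Point.map_some] at hc
    simp only [Affine.Point.some.injEq] at hc
    exact hc
  obtain ⟨s4, s5⟩ := hc'
  have hq : σ (y' + x' / x * y) = y' + x' / x * y := by
    rw [map_add, map_mul, map_div₀, s1, s2, s4, s5]
    field_simp
    linear_combination x' * x * h2L
  obtain ⟨A, B, hAB, hB, hx'⟩ := E8_frac hx (s3 _ s4)
  obtain ⟨C, E, hCE, hE, hq'⟩ := E8_frac hx (s3 _ hq)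
  refine ⟨A, B, C, E, hAB, hCE, hB, hE, hx', ?_⟩
  generalize hqq : y' + x' / x * y = q at hq'
  have hq2 : x * q = x * y' + x' * y := by
    rw [← hqq]
    field_simp
  have e1 := eqn h2 h
  have e2 := eqn h2 h'
  have key : x ^ 2 * (q ^ 2 + x' * q) = x ^ 2 * x' ^ 2 * (x' + x) + algebraMap K L a * (x + x') ^ 2 := by
    linear_combination (x * q + x * y' + x' * y + x * x') * hq2 + x ^ 2 * e2 + x' ^ 2 * e1 +
      (x * x' * y * y' + algebraMap K L a2 * x ^ 2 * x' ^ 2 - algebraMap K L a * x * x') * h2L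
  refine (transcendental_iff_injective.1 hx) ?_
  simp only [map_mul, map_add, map_pow, aeval_X, aeval_C]
  rw [← hq', ← hx']
  linear_combination (aeval x E ^ 2 * aeval x B ^ 3) * key

/-- `pdeg c = [K(x) : K(x')] = max (deg A) (deg B)` (`RatFunc.finrank_eq_max_natDegree`):
`[L : K(x')] = 2 pdeg c = 2 [K(x) : K(x')]`. Assume that `c` is not algebraic. -/
theorem odd_pdeg [DecidableEq L] (h2 : (2 : K) = 0) {x y x' y' : L}
    (h : WeierstrassCurve.Affine.Nonsingular ((Wo a2 a)⁄L) x y)
    (h' : WeierstrassCurve.Affine.Nonsingular ((Wo a2 a)⁄L) x' y')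
    (hP : IsGen (Affine.Point.some x y h : Pt a2 a L)) (A B : K[X]) (hAB : IsCoprime A B)
    (hB : B ≠ 0) (hx' : x' * aeval x B = aeval x A) (hd : 0 < max A.natDegree B.natDegree) :
    pdeg K (Affine.Point.some x' y' h' : Pt a2 a L) = max A.natDegree B.natDegree := by
  obtain ⟨hx, ht⟩ := E8_genx h2 h hP
  obtain ⟨hxt, h1⟩ := E8_max hx A B hAB hB hx' hd
  have h3 := E8_two h2 h hx
  have h4 := E8_two h2 h' hxt
  rw [ht, IntermediateField.finrank_top] at h3
  rw [h4, h3] at h1
  change Module.finrank (adjoin K {x', y'}) L = _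
  omega

/-- Sketch: `c = 0`, `c = -P`: clear. Otherwise `c = (x', y')`, `c + P = (x'', y'')`,
`x' = A/B`, `x'' = G/H` (`odd_coord`), `pdeg c = deg A`, `pdeg (c + P) = deg G` (`os_poly`,
`odd_pdeg`), and `os_zero` with `sum_rel`. -/
theorem os [DecidableEq K] [DecidableEq L] (h2 : (2 : K) = 0) (ha : ∀ z : K, z ^ 2 ≠ a)
    (P c : Pt a2 a L) (hP : IsGen P) (σ : L →ₐ[K] L) (hσ : mp σ P = -P) (hc : mp σ c = -c) :
    Even (pdeg K c + pdeg K P + pdeg K (c + P)) := by
  have h1 : pdeg K P = 1 := pdeg_gen P hP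
  have hz : pdeg K (0 : Pt a2 a L) = 0 := pdeg_zero hP.nalg
  have hs : mp σ (c + P) = -(c + P) := by
    rw [map_add, hσ, hc]
    abel
  generalize hQ : c + P = Q at hs
  rcases c with _ | ⟨x', y', h'⟩
  · change (0 : Pt a2 a L) + P = Q at hQ
    rw [zero_add] at hQ
    change Even (pdeg K (0 : Pt a2 a L) + pdeg K P + pdeg K Q)
    rw [← hQ, hz, h1]
    decide
  rcases Q with _ | ⟨x3, y3, h3⟩
  · change (Affine.Point.some x' y' h' + P : Pt a2 a L) = 0 at hQ
    have h5 : (Affine.Point.some x' y' h' : Pt a2 a L) = -P := eq_neg_of_add_eq_zero_left hQ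
    rw [h5, pdeg_neg h2, h1]
    change Even (1 + 1 + pdeg K (0 : Pt a2 a L))
    rw [hz]
    decide
  rcases P with _ | ⟨x, y, h⟩
  · change pdeg K (0 : Pt a2 a L) = 1 at h1
    rw [hz] at h1
    exact absurd h1 (by norm_num)
  obtain ⟨A, B, C, E, hAB, hCE, hB, hE, hx', hp⟩ := odd_coord h2 h h' hP σ hσ hc
  obtain ⟨G, H, C1, E1, hGH, hCE1, hH, hE1, hx3, hp1⟩ := odd_coord h2 h h3 hP σ hσ hs
  obtain ⟨d1, d2, d3⟩ := os_poly h2 ha A B C E hAB hCE hB hE hp
  obtain ⟨d4, d5, d6⟩ := os_poly h2 ha G H C1 E1 hGH hCE1 hH hE1 hp1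
  have m1 : max A.natDegree B.natDegree = A.natDegree := max_eq_left d2
  have m2 : max G.natDegree H.natDegree = G.natDegree := max_eq_left d5
  have p1 := odd_pdeg h2 h h' hP A B hAB hB hx' (by omega)
  have p2 := odd_pdeg h2 h h3 hP G H hGH hH hx3 (by omega)
  obtain ⟨hx, ht⟩ := E8_genx h2 h hP
  have hrel := sum_rel h2 h' h h3 hQ
  have hz0 := os_zero ha h2 A B G H hAB hGH (by
    refine (transcendental_iff_injective.1 hx) ?_
    simp only [map_mul, map_add, map_pow, aeval_X, aeval_C, map_zero]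
    rw [← hx', ← hx3]
    linear_combination (aeval x B ^ 2 * aeval x H ^ 2) * hrel)
  rw [p1, p2, h1, m1, m2]
  rw [← d3] at hz0
  have hz1 : Odd A.natDegree ↔ ¬ Odd G.natDegree := by
    rw [d6]
    exact hz0
  rw [Nat.not_odd_iff_even] at hz1
  rcases Nat.even_or_odd A.natDegree with e | o
  · have o2 : Odd G.natDegree := by
      rw [← Nat.not_even_iff_odd, ← hz1, Nat.not_odd_iff_even]
      exact e
    obtain ⟨i, hi⟩ := e
    obtain ⟨j, hj⟩ := o2
    exact ⟨i + j + 1, by omega⟩
  · obtain ⟨j, hj⟩ := hz1.1 o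
    obtain ⟨i, hi⟩ := o
    exact ⟨i + j + 1, by omega⟩

end MP2619.NP
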