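import Pool.Agent.Lib.MP_2619d0_ag.NP.E2
import Pool.Agent.Lib.MP_2619d0_ag.NP.EB

/-!
Row E9: the trace to the field of a generic point.
-/

set_option autoImplicit false

namespace MP2619.NP

universe u

open IntermediateField WeierstrassCurve

variable {K L : Type u} [Field K] [Field L] [Algebra K L] {a2 a6 : K}

/-- an extension of odd degree in characteristic two is separable -/
private theorem E9_sep {K L : Type u} [Field K] [Field L] [Algebra K L] (h2 : (2 : K) = 0)
    (hodd : Odd (Module.finrank K L)) : Algebra.IsSeparable K L := by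
  have : CharP K 2 := CharTwo.of_one_ne_zero_of_two_eq_zero one_ne_zero h2
  have : ExpChar K 2 := ExpChar.prime Nat.prime_two
  have hfin : FiniteDimensional K L := by
    refine Module.finite_of_finrank_pos ?_
    exact hodd.pos
  rw [← Field.finSepDegree_eq_finrank_iff]
  have h1 := Field.finSepDegree_mul_finInsepDegree K L
  obtain ⟨n, hn⟩ := finInsepDegree_eq_pow K L 2
  rw [hn] at h1
  have h3 : n = 0 := by
    by_contra hne
    have h4 : Even (2 ^ n) := (Nat.even_pow.2 ⟨even_two, hne⟩)
    have h5 : Even (Module.finrank K L) := by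
      rw [← h1]
      exact h4.mul_left _
    exact (Nat.not_even_iff_odd.2 hodd) h5
  rw [h3, pow_zero, mul_one] at h1
  exact h1

/-- a finite Galois extension containing a finite separable one -/
private theorem E9_exists_galois (L0 L : Type u) [Field L0] [Field L] [Algebra L0 L]
    [FiniteDimensional L0 L] [Algebra.IsSeparable L0 L] :
    ∃ (M : Type u) (_ : Field M) (_ : Algebra L0 M) (_ : Algebra L M) (_ : IsScalarTower L0 L M),
      FiniteDimensional L0 M ∧ IsGalois L0 M := by
  let Ω := AlgebraicClosure L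
  have : Algebra.IsAlgebraic L0 Ω := Algebra.IsAlgebraic.trans L0 L Ω
  have : IsAlgClosure L0 Ω := ⟨inferInstance, inferInstance⟩
  have : Normal L0 Ω := IsAlgClosure.normal L0 Ω
  refine ⟨normalClosure L0 L Ω, inferInstance, inferInstance, inferInstance, inferInstance,
    inferInstance, ?_⟩
  have hs : Algebra.IsSeparable L0 (normalClosure L0 L Ω) := by
    rw [normalClosure_def]
    have : ∀ f : L →ₐ[L0] Ω, Algebra.IsSeparable L0 f.fieldRange := fun f =>
      Algebra.IsSeparable.of_algHom L0 L (AlgEquiv.ofInjectiveField f).symm.toAlgHom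
    exact IntermediateField.isSeparable_iSup L0 Ω
  exact { }

/-- the pairing of two points -/
private noncomputable def E9_B (K : Type u) {L : Type u} [Field K] [Field L] [Algebra K L]
    [DecidableEq L] {a2 a6 : K} (P Q : Pt a2 a6 L) : ℤ :=
  (pdeg K (Q + P) : ℤ) - pdeg K Q - pdeg K P

private theorem E9_B_add [DecidableEq L] (h2 : (2 : K) = 0) (h6 : a6 ≠ 0)
    (hL : ¬ Algebra.IsAlgebraic K L) (P Q R : Pt a2 a6 L) :
    E9_B K P (Q + R) = E9_B K P Q + E9_B K P R := by
  have h1 := pdeg_par h2 h6 hL (P + Q) R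
  have h3 := pdeg_par h2 h6 hL (P + R) Q
  have h4 := pdeg_par h2 h6 hL P (Q - R)
  have h5 := pdeg_par h2 h6 hL Q R
  have e1 : P + R + Q = P + Q + R := by abel
  have e2 : P + (Q - R) = P + Q - R := by abel
  have e3 : P - (Q - R) = P + R - Q := by abel
  have e4 : Q + R + P = P + Q + R := by abel
  rw [e1] at h3
  rw [e2, e3] at h4
  unfold E9_B
  rw [e4, add_comm Q P, add_comm R P]
  zify at h1 h3 h4 h5
  linarith

private theorem E9_B_sum [DecidableEq L] (h2 : (2 : K) = 0) (h6 : a6 ≠ 0)
    (hL : ¬ Algebra.IsAlgebraic K L) (P : Pt a2 a6 L) {ι : Type u} (s : Finset ι)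
    (Q : ι → Pt a2 a6 L) : E9_B K P (∑ i ∈ s, Q i) = ∑ i ∈ s, E9_B K P (Q i) := by
  let f : Pt a2 a6 L →+ ℤ := AddMonoidHom.mk' (fun Q => E9_B K P Q)
    (fun Q R => E9_B_add h2 h6 hL P Q R)
  exact map_sum f Q s

/-- the pairing after a homomorphism -/
private theorem E9_B_mp {M : Type u} [Field M] [Algebra K M] [DecidableEq L] [DecidableEq M]
    (φ : L →ₐ[K] M) (P Q : Pt a2 a6 L) :
    E9_B K (mp φ P) (mp φ Q) = Module.finrank φ.fieldRange M * E9_B K P Q := by
  unfold E9_B
  rw [← map_add, pdeg_mp, pdeg_mp, pdeg_mp]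
  push_cast
  ring

private theorem E9_descend {L0 M : Type u} [Field L0] [Field M] [Algebra K L0] [Algebra K M]
    [DecidableEq L0] [DecidableEq M] (φ : L0 →ₐ[K] M) (c : Pt a2 a6 M)
    (hc : ∀ z ∈ pf c, z ∈ Set.range φ) : ∃ c0 : Pt a2 a6 L0, mp φ c0 = c := by
  rcases c with _ | ⟨x, y, h⟩
  · exact ⟨0, rfl⟩
  · obtain ⟨x0, rfl⟩ := hc x (by simp [pf])
    obtain ⟨y0, rfl⟩ := hc y (by simp [pf])
    exact ⟨.some x0 y0 (((Wo a2 a6).baseChange_nonsingular φ.injective ..).mp h), rfl⟩

private theorem E9_finrank_range {L0 M : Type u} [Field L0] [Field M] [Algebra K L0] [Algebra K M]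
    [Algebra L0 M] [IsScalarTower K L0 M] :
    Module.finrank (IsScalarTower.toAlgHom K L0 M).fieldRange M = Module.finrank L0 M := by
  symm
  refine Algebra.finrank_eq_of_equiv_equiv
    (AlgEquiv.ofInjectiveField (IsScalarTower.toAlgHom K L0 M)).toRingEquiv (RingEquiv.refl M) ?_
  ext x
  rfl

/-- the trace -/
private theorem E9_core {L0 M : Type u} [Field L0] [Field M] [Algebra K L0] [Algebra K M]
    [Algebra L0 L] [Algebra L0 M] [Algebra L M] [IsScalarTower K L0 L] [IsScalarTower K L M]
    [IsScalarTower K L0 M] [IsScalarTower L0 L M] [FiniteDimensional L0 M] [IsGalois L0 M]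
    [DecidableEq L0] [DecidableEq L] [DecidableEq M] (h2 : (2 : K) = 0) (h6 : a6 ≠ 0)
    (hM : ¬ Algebra.IsAlgebraic K M) (P0 : Pt a2 a6 L0) (Q : Pt a2 a6 L) :
    ∃ c : Pt a2 a6 L0, E9_B K P0 c = E9_B K (mp (IsScalarTower.toAlgHom K L0 L) P0) Q := by
  have : FiniteDimensional L0 L := FiniteDimensional.left L0 L M
  have : Algebra.IsSeparable L0 L := Algebra.isSeparable_tower_bot_of_isSeparable L0 L M
  set φL := IsScalarTower.toAlgHom K L M with hφL
  set φ0 := IsScalarTower.toAlgHom K L0 M with hφ0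
  set P := mp φ0 P0 with hP
  set c' : Pt a2 a6 M := ∑ τ : L →ₐ[L0] M, mp (τ.restrictScalars K) Q with hc'
  -- each summand has the same pairing with `P`
  have hB : ∀ τ : L →ₐ[L0] M, E9_B K P (mp (τ.restrictScalars K) Q) = E9_B K P (mp φL Q) := by
    intro τ
    set g : M →ₐ[L0] M := τ.liftNormal M with hg
    have hg1 : ∀ x : L, g (algebraMap L M x) = τ x := fun x => by
      rw [hg, AlgHom.liftNormal_commutes]; rfl
    have hbij : Function.Bijective g := AlgHom.normal_bijective L0 M M g
    have e1 : mp (g.restrictScalars K) (mp φL Q) = mp (τ.restrictScalars K) Q := by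
      have : (g.restrictScalars K).comp φL = τ.restrictScalars K := by
        ext x
        exact hg1 x
      rw [Affine.Point.map_map, this]
    have e2 : mp (g.restrictScalars K) P = P := by
      have : (g.restrictScalars K).comp φ0 = φ0 := by
        ext x
        exact g.commutes x
      rw [hP, Affine.Point.map_map, this]
    have e3 := E9_B_mp (g.restrictScalars K) P (mp φL Q)
    have e4 : (g.restrictScalars K).fieldRange = ⊤ := by
      rw [AlgHom.fieldRange_eq_top]
      exact hbij.2
    rw [e1, e2, e4, IntermediateField.finrank_top] at e3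
    simpa using e3
  -- the sum is invariant
  have hinv : ∀ f : Gal(M/L0), mp (f.toAlgHom.restrictScalars K) c' = c' := by
    intro f
    rw [hc', map_sum]
    refine Fintype.sum_bijective (fun τ => f.toAlgHom.comp τ) ?_ _ _ ?_
    · constructor
      · intro τ τ' h
        ext x
        have := DFunLike.congr_fun h x
        exact f.injective this
      · intro τ
        refine ⟨f.symm.toAlgHom.comp τ, ?_⟩
        ext x
        simp
    · intro τ
      rw [Affine.Point.map_map]
      rfl
  obtain ⟨c, hc⟩ : ∃ c : Pt a2 a6 L0, mp φ0 c = c' := by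
    refine E9_descend φ0 c' ?_
    intro z hz
    have : z ∈ Set.range (algebraMap L0 M) := by
      rw [IsGalois.mem_range_algebraMap_iff_fixed]
      intro f
      have h1 := hinv f
      revert hz h1
      rcases c' with _ | ⟨x, y, h⟩
      · intro hz; exact absurd hz (Set.notMem_empty z)
      · intro hz h1
        rw [Affine.Point.map_some, Affine.Point.some.injEq] at h1
        rcases hz with rfl | hz
        · exact h1.1
        · rw [Set.mem_singleton_iff] at hz
          subst hz
          exact h1.2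
    exact this
  refine ⟨c, ?_⟩
  have e1 := E9_B_sum h2 h6 hM P Finset.univ (fun τ : L →ₐ[L0] M => mp (τ.restrictScalars K) Q)
  rw [Finset.sum_congr rfl (fun τ _ => hB τ), Finset.sum_const, Finset.card_univ, ← hc'] at e1
  have hcard : Fintype.card (L →ₐ[L0] M) = Module.finrank L0 L := by
    apply AlgHom.card_of_splits
    intro x
    have := Normal.splits (inferInstance : Normal L0 M) (algebraMap L M x)
    rwa [minpoly.algebraMap_eq (algebraMap L M).injective] at this
  have e2 := E9_B_mp φ0 P0 c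
  have e3 := E9_B_mp φL (mp (IsScalarTower.toAlgHom K L0 L) P0) Q
  have e4 : mp φL (mp (IsScalarTower.toAlgHom K L0 L) P0) = P := by
    have : φL.comp (IsScalarTower.toAlgHom K L0 L) = φ0 := by
      ext x
      exact (IsScalarTower.algebraMap_apply L0 L M x).symm
    rw [hP, Affine.Point.map_map, this]
  have r0 : Module.finrank φ0.fieldRange M = Module.finrank L0 M := E9_finrank_range
  have rL : Module.finrank φL.fieldRange M = Module.finrank L M := E9_finrank_range
  rw [hc, r0] at e2
  rw [e4, rL] at e3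
  rw [e2, e3, hcard, nsmul_eq_mul, ← mul_assoc, ← Nat.cast_mul,
    Module.finrank_mul_finrank L0 L M] at e1
  have hpos : (0 : ℤ) < Module.finrank L0 M := by exact_mod_cast Module.finrank_pos
  exact mul_left_cancel₀ hpos.ne' e1

private theorem E9_abs {L0 : Type u} [Field L0] [Algebra K L0]
    [Algebra L0 L] [IsScalarTower K L0 L] [DecidableEq L0] [DecidableEq L]
    (h2 : (2 : K) = 0) (h6 : a6 ≠ 0) (hL : ¬ Algebra.IsAlgebraic K L)
    (hodd : Odd (Module.finrank L0 L)) (P0 : Pt a2 a6 L0) (Q : Pt a2 a6 L) :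
    ∃ c : Pt a2 a6 L0, E9_B K P0 c = E9_B K (mp (IsScalarTower.toAlgHom K L0 L) P0) Q := by
  classical
  have h20 : (2 : L0) = 0 := by
    have := congrArg (algebraMap K L0) h2
    rwa [map_ofNat, map_zero] at this
  have : Algebra.IsSeparable L0 L := E9_sep h20 hodd
  have : FiniteDimensional L0 L := Module.finite_of_finrank_pos hodd.pos
  obtain ⟨M, _, _, _, _, _, _⟩ := E9_exists_galois L0 L
  let _ : Algebra K M := ((algebraMap L M).comp (algebraMap K L)).toAlgebra
  have : IsScalarTower K L M := IsScalarTower.of_algebraMap_eq fun _ => rfl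
  have : IsScalarTower K L0 M :=
    IsScalarTower.of_algebraMap_eq fun x => by
      rw [IsScalarTower.algebraMap_apply L0 L M, ← IsScalarTower.algebraMap_apply K L0 L]
      rfl
  have hM : ¬ Algebra.IsAlgebraic K M := fun h => hL (Algebra.IsAlgebraic.tower_bot K L M)
  exact E9_core (M := M) h2 h6 hM P0 Q

/-- Sketch: `L₀ = K(P)`, `L/L₀` has odd degree, so it is separable. `M` = normal closure of `L`
over `L₀` (finite Galois), `c' = ∑ τ Q` over the embeddings `τ : L → M` over `L₀`; `c'` is invariant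
under `Gal(M/L₀)`, so `c' = c` over `L₀`. `<P, Q> = pdeg (P+Q) - pdeg P - pdeg Q` is biadditive
(`pdeg_par`, `par_quad`); `<P, τ Q>_M = <P, Q>_M` (extend `τ` to an automorphism of `M` over `L₀`),
so `[M:L₀] <P, c>_{L₀} = <P, c'>_M = [L:L₀] <P, Q>_M = [L:L₀] [M:L] <P, Q>_L` (`pdeg_mp`), hence
`<P, c>_{L₀} = <P, Q>_L`. -/
theorem trace_step [DecidableEq L] (h2 : (2 : K) = 0) (h6 : a6 ≠ 0)
    (hL : ¬ Algebra.IsAlgebraic K L)
    (hgen : ∀ (L0 : Type u) [Field L0] [Algebra K L0] [DecidableEq L0] (P c : Pt a2 a6 L0),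
      IsGen P → Even (pdeg K c + pdeg K P + pdeg K (c + P)))
    (P Q : Pt a2 a6 L) (hodd : Odd (pdeg K P)) :
    Even (pdeg K Q + pdeg K P + pdeg K (Q + P)) := by
  have h0 : ¬ Algebra.IsAlgebraic K (adjoin K (pf P)) := fun h => by
    have : FiniteDimensional (adjoin K (pf P)) L := Module.finite_of_finrank_pos hodd.pos
    exact hL (Algebra.IsAlgebraic.trans K (adjoin K (pf P)) L)
  obtain ⟨P0, hP0, hP⟩ := gen_self P h0
  obtain ⟨c, hc⟩ := E9_abs h2 h6 hL hodd P0 Q
  have e1 : mp (IsScalarTower.toAlgHom K (adjoin K (pf P)) L) P0 = P := hP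
  rw [e1] at hc
  have e2 := hgen (adjoin K (pf P)) P0 c hP0
  unfold E9_B at hc
  rw [← Nat.not_odd_iff_even] at e2 ⊢
  intro h3
  apply e2
  rw [← Int.odd_coe_nat] at h3 ⊢
  push_cast at h3 ⊢
  obtain ⟨k, hk⟩ := h3
  refine ⟨k + pdeg K c + pdeg K P0 - pdeg K Q - pdeg K P, ?_⟩
  linarith

end MP2619.NP
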