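import Pool.Agent.Lib.MP_2619d0_ag.NP.E7
import Pool.Agent.Lib.MP_2619d0_ag.NP.E8
import Pool.Agent.Lib.MP_2619d0_ag.NP.E9

/-!
Row E10 (helper45): Theorem E5.
-/

set_option autoImplicit false

namespace MP2619.NP

universe u

open IntermediateField WeierstrassCurve

variable {K L : Type u} [Field K] [Field L] [Algebra K L] {a2 : K}

private theorem E10_nalg {M : Type u} [Field M] [Algebra K M] {b6 : K} (P : Pt a2 b6 M)
    (hP : IsGen P) : ¬ Algebra.IsAlgebraic K (adjoin K (pf P)) := by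
  intro h
  apply hP.nalg
  rw [hP.top] at h
  constructor
  intro x
  have := h.isAlgebraic (⟨x, mem_top⟩ : (⊤ : IntermediateField K M))
  exact (isAlgebraic_algebraMap_iff (A := M)
    (algebraMap (⊤ : IntermediateField K M) M).injective).2 this

theorem gen_zero [DecidableEq K] (h2 : (2 : K) = 0) {a : K} (ha : ∀ z : K, z ^ 2 ≠ a)
    (L0 : Type u) [Field L0] [Algebra K L0] [DecidableEq L0] (P c : Pt a2 a L0) (hP : IsGen P) :
    Even (pdeg K c + pdeg K P + pdeg K (c + P)) := by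
  obtain ⟨σ, hσ⟩ := exists_hom h2 P hP (-P) (by
    rw [pf_neg h2]; exact E10_nalg P hP)
  obtain ⟨c2, hc2, h1, h3⟩ := odd_reduction h2 ha P c hP σ hσ
  rw [← h1, ← h3]
  exact os h2 ha P c2 hP σ hσ hc2

theorem gen_all [DecidableEq K] (h2 : (2 : K) = 0) {h : K} (hh : ∀ z : K, z ^ 2 ≠ h) (s : ℕ)
    (a6 : K) (ha : a6 = h ^ (2 ^ s)) (L0 : Type u) [Field L0] [Algebra K L0] [DecidableEq L0]
    (P c : Pt a2 a6 L0) (hP : IsGen P) : Even (pdeg K c + pdeg K P + pdeg K (c + P)) := by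
  induction s generalizing a6 L0 with
  | zero =>
    have : a6 = h := by simpa using ha
    subst this
    exact gen_zero h2 hh L0 P c hP
  | succ s ih =>
    have hb : a6 = (h ^ (2 ^ s)) ^ 2 := by rw [ha, ← pow_mul, pow_succ]
    subst hb
    have h0 : h ≠ 0 := by
      rintro rfl
      exact hh 0 (by simp)
    obtain ⟨L1, _, _, _, P1, c1, hP1, e1, e2⟩ := V_descent h2 (pow_ne_zero (2 ^ s) h0) P c hP
    have := ih (h ^ (2 ^ s)) rfl L1 P1 c1 hP1
    rw [e1, e2, pdeg_gen P1 hP1] at this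
    rw [pdeg_gen P hP]
    exact this

/-- Theorem E5 -/
theorem E5_all [DecidableEq L] (h2 : (2 : K) = 0) {a6 h : K} {s : ℕ} (ha : a6 = h ^ (2 ^ s))
    (hh : ∀ z : K, z ^ 2 ≠ h) (hL : ¬ Algebra.IsAlgebraic K L) (P Q : Pt a2 a6 L) :
    Even (pdeg K P + pdeg K Q + pdeg K (P + Q)) := by
  classical
  have h0 : h ≠ 0 := by
    rintro rfl
    exact hh 0 (by simp)
  have h6 : a6 ≠ 0 := by rw [ha]; exact pow_ne_zero _ h0
  have hgen : ∀ (L0 : Type u) [Field L0] [Algebra K L0] [DecidableEq L0] (P c : Pt a2 a6 L0),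
      IsGen P → Even (pdeg K c + pdeg K P + pdeg K (c + P)) :=
    fun L0 _ _ _ P c hP => gen_all h2 hh s a6 ha L0 P c hP
  by_cases hp : Odd (pdeg K P)
  · have := trace_step h2 h6 hL hgen P Q hp
    rwa [add_comm (pdeg K Q), add_comm Q P] at this
  by_cases hq : Odd (pdeg K Q)
  · exact trace_step h2 h6 hL hgen Q P hq
  by_cases hr : Odd (pdeg K (P + Q))
  · have := trace_step h2 h6 hL hgen (P + Q) (-P) hr
    rw [pdeg_neg h2, neg_add_cancel_left] at this
    convert this using 1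
    ring
  · rw [Nat.not_odd_iff_even] at hp hq hr
    exact (hp.add hq).add hr

end MP2619.NP
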