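import Pool.Agent.Lib.MP_2619d0_ag.NP.B6
import Pool.Agent.Lib.MP_2619d0_ag.NP.E10

/-!
Theorem E5 in the form used by `B6.lean`.
-/

set_option autoImplicit false

namespace MP2619.NP

universe u

open IntermediateField WeierstrassCurve

theorem E5_holds : E5.{u} := by
  intro K L _ _ _ _ a2 a6 h s h2 ha hh hT P Q
  refine E5_all h2 ha hh ?_ P Q
  obtain ⟨T, hT, -⟩ := hT
  intro hL
  exact hT (hL.isAlgebraic T)

end MP2619.NP
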