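import Pool.Agent.Lib.MP_2619d0_ag.N.A11
import Pool.Agent.Lib.MP_2619d0_ag.NP.A12
import Pool.Agent.Lib.MP_2619d0_ag.NP.A13
import Pool.Agent.Lib.MP_2619d0_ag.NP.A14
import Pool.Agent.Lib.MP_2619d0_ag.NP.E11

/-!
# The three theorems in characteristic two, and Theorem N
-/

set_option autoImplicit false

namespace MP2619.NP

universe u v

open IntermediateField MP2619.R MP2619.W

private theorem Z_card (P : ℕ → Prop) : open Classical in
    Nat.card {j : Fin 3 // P j.val} = ((Finset.range 3).filter P).card := by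
  classical
  rw [Nat.card_eq_fintype_card, Fintype.card_subtype]
  refine Finset.card_bij (fun j _ => j.val) ?_ ?_ ?_
  · intro j hj
    rw [Finset.mem_filter] at hj ⊢
    exact ⟨Finset.mem_range.2 j.isLt, hj.2⟩
  · intro i _ j _ h
    exact Fin.ext h
  · intro j hj
    rw [Finset.mem_filter, Finset.mem_range] at hj
    exact ⟨⟨j, hj.1⟩, by rw [Finset.mem_filter]; exact ⟨Finset.mem_univ _, hj.2⟩, rfl⟩

theorem starC (n : ℕ) (_hn : 3 ≤ n) : MP2619.N.StarC n := by
  classical
  intro k M _ _ _ g w a b c x y h2 hw hk hab hac hbc hx hy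
  obtain ⟨k0, hk0, hfin⟩ := hk
  have hg : g ≠ 0 := by
    rintro rfl
    exact hk0 isAlgebraic_zero
  have h := starc E5_holds ⟨h2, ⟨w, hw⟩, Or.inr ⟨k0, hk0, hfin⟩⟩ hg ⟨hab, hbc, hac⟩ w hw x y hx hy
  unfold cnt at h
  rw [Z_card (fun j => Pr k (fun i => (if i = a ∨ i = b ∨ i = c then
    algebraMap k M w ^ j * x i else x i) + y i))]
  convert h using 3
  rename_i j hj
  have h3 : (fun i => (if i = a ∨ i = b ∨ i = c then algebraMap k M w ^ j * x i else x i) + y i) =
      fun i => tw {a, b, c} (algebraMap k M w ^ j) x i + y i := by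
    funext i
    unfold tw
    simp only [Finset.mem_insert, Finset.mem_singleton]
  rw [h3]

theorem r1C (n : ℕ) (hn : 3 ≤ n) : MP2619.N.R1C n := by
  classical
  intro k M _ _ _ w a x y h2 hw hx hy
  have h := r1c h2 hn w hw x y hx hy a
  unfold cnt at h
  rw [Z_card (fun j => Pr k (fun i => (if i = a then
    algebraMap k M w ^ j * x i else x i) + y i))]
  convert h using 3
  rename_i j hj
  have h3 : (fun i => (if i = a then algebraMap k M w ^ j * x i else x i) + y i) =
      fun i => tw {a} (algebraMap k M w ^ j) x i + y i := by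
    funext i
    unfold tw
    simp only [Finset.mem_singleton]
  rw [h3]

theorem scC (n : ℕ) (hn : 3 ≤ n) : MP2619.N.ScC n := by
  intro k M _ _ _ w x y h2 hw hx hy
  have hw0 : w ≠ 0 := by
    rintro rfl
    simp at hw
  exact (scc h2 ⟨w, hw⟩ hn x y hx hy w hw0).symm

/-- THEOREM N -/
theorem secant_parity {n : ℕ} (hn : 5 ≤ n) {F : MvPolynomial (Fin n) ℂ}
    (hF : Pool.Agent.Lib.MP_2619d0_ag.T.VG F) {M : Type v} [Field M] [Algebra ℂ M]
    (x y : Fin n → M) (hx : MvPolynomial.aeval x F = 0) (hy : MvPolynomial.aeval y F = 0) :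
    ¬ Pr ℂ (fun i => x i + y i) :=
  MP2619.N.secant_parity hn (starC n (by omega)) (r1C n (by omega)) (scC n (by omega)) hF x y hx hy

end MP2619.NP
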