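import Pool.Agent.Lib.MP_2619d0_ag.NP.Defs

/-!
Row A1: identities for the cubic form `Φ` in characteristic two.
-/

set_option autoImplicit false

namespace MP2619.NP

universe v u

open IntermediateField MP2619.R MP2619.W

variable {k : Type v} {M : Type u} [Field k] [Field M] [Algebra k M] {n : ℕ} {g : k}
  {a b c : Fin n}

theorem Phi_add (h2 : (2 : k) = 0) (x y : Fin n → M) :
    Phi g a b c (fun i => x i + y i) =
      Phi g a b c x + Hf g a b c x y + Hf g a b c y x + Phi g a b c y := by
  have h2' : (2 : M) = 0 := by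
    have := congrArg (algebraMap k M) h2
    rwa [map_ofNat, map_zero] at this
  have h1 : ∑ i, (x i + y i) ^ 3 = ∑ i, x i ^ 3 + ∑ i, x i ^ 2 * y i + ∑ i, y i ^ 2 * x i +
      ∑ i, y i ^ 3 := by
    rw [← Finset.sum_add_distrib, ← Finset.sum_add_distrib, ← Finset.sum_add_distrib]
    refine Finset.sum_congr rfl fun i _ => ?_
    linear_combination (x i ^ 2 * y i + x i * y i ^ 2) * h2'
  unfold Phi Hf
  rw [h1]
  ring

theorem Phi_split {A : Finset (Fin n)} (h : Comp g a b c A) (x : Fin n → M) :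
    Phi g a b c x = Phi g a b c (rs A x) + Phi g a b c (rs Aᶜ x) := by
  have h1 : ∑ i, x i ^ 3 = ∑ i, rs A x i ^ 3 + ∑ i, rs Aᶜ x i ^ 3 := by
    rw [← Finset.sum_add_distrib]
    refine Finset.sum_congr rfl fun i _ => ?_
    by_cases hi : i ∈ A <;> simp [rs, hi]
  have h2 : algebraMap k M g * (x a * x b * x c) =
      algebraMap k M g * (rs A x a * rs A x b * rs A x c) +
      algebraMap k M g * (rs Aᶜ x a * rs Aᶜ x b * rs Aᶜ x c) := by
    rcases h with h | ⟨ha, hb, hc⟩ | ⟨ha, hb, hc⟩
    · simp [h]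
    · simp [rs, ha, hb, hc]
    · simp [rs, ha, hb, hc]
  unfold Phi
  rw [h1, h2]
  ring

theorem Phi_smul (t : M) (x : Fin n → M) :
    Phi g a b c (fun i => t * x i) = t ^ 3 * Phi g a b c x := by
  unfold Phi
  rw [mul_add, Finset.mul_sum]
  congr 1
  · exact Finset.sum_congr rfl fun i _ => by ring
  · ring

theorem rs_tw (A : Finset (Fin n)) (t : M) (x : Fin n → M) :
    rs A (tw A t x) = fun i => t * rs A x i := by
  funext i
  by_cases hi : i ∈ A <;> simp [rs, tw, hi]

theorem rs_compl_tw (A : Finset (Fin n)) (t : M) (x : Fin n → M) :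
    rs Aᶜ (tw A t x) = rs Aᶜ x := by
  funext i
  by_cases hi : i ∈ A <;> simp [rs, tw, hi]

theorem Phi_tw {A : Finset (Fin n)} (h : Comp g a b c A) (t : M) (x : Fin n → M) :
    Phi g a b c (tw A t x) = t ^ 3 * Phi g a b c (rs A x) + Phi g a b c (rs Aᶜ x) := by
  rw [Phi_split h, rs_tw, rs_compl_tw, Phi_smul]

theorem Phi_zero (x : Fin n → M) : Phi (0 : k) a b c x = ∑ i, x i ^ 3 := by
  simp [Phi]

theorem Phi_map {M' : Type u} [Field M'] [Algebra k M'] [Algebra M M'] [IsScalarTower k M M']
    (x : Fin n → M) :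
    Phi g a b c (fun i => algebraMap M M' (x i)) = algebraMap M M' (Phi g a b c x) := by
  unfold Phi
  rw [IsScalarTower.algebraMap_apply k M M']
  simp only [map_add, map_sum, map_pow, map_mul]

/-- a larger ground field -/
theorem Phi_base {k' : Type v} [Field k'] [Algebra k k'] [Algebra k' M] [IsScalarTower k k' M]
    (x : Fin n → M) : Phi (algebraMap k k' g) a b c x = Phi g a b c x := by
  unfold Phi
  rw [← IsScalarTower.algebraMap_apply k k' M]

/-- the residue of `Φ(X)` -/
theorem Phi_res {O : ValuationSubring M} (h : Cst k O) (X : Fin n → O) :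
    letI : Algebra k (IsLocalRing.ResidueField O) := (rc h).toAlgebra
    ∃ hm : Phi g a b c (fun i => (X i : M)) ∈ O,
      Phi g a b c (fun i => IsLocalRing.residue O (X i)) = IsLocalRing.residue O ⟨_, hm⟩ := by
  letI : Algebra k (IsLocalRing.ResidueField O) := (rc h).toAlgebra
  have e : Phi g a b c (fun i => (X i : M)) =
      ((∑ i, X i ^ 3 + ⟨algebraMap k M g, h g⟩ * (X a * X b * X c) : O) : M) := by
    unfold Phi
    push_cast
    rfl
  have hm : Phi g a b c (fun i => (X i : M)) ∈ O := by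
    rw [e]
    exact Subtype.mem _
  refine ⟨hm, ?_⟩
  have e2 : (⟨_, hm⟩ : O) = ∑ i, X i ^ 3 + ⟨algebraMap k M g, h g⟩ * (X a * X b * X c) :=
    Subtype.ext e
  rw [e2]
  unfold Phi
  simp only [map_add, map_sum, map_pow, map_mul]
  rfl

theorem Dt.symm {x y : Fin n → M} (h : Dt g a b c x y) : Dt g a b c y x := by
  refine ⟨?_, h.Py, h.Px⟩
  have := h.pr
  simpa only [add_comm] using this

/-- the count is odd: at least one `j` (and then the data can be twisted) -/
theorem exists_of_cnt {w : k} {A : Finset (Fin n)} {x y : Fin n → M} (h : Odd (cnt w A x y)) :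
    ∃ j < 3, Pr k (fun i => tw A (algebraMap k M w ^ j) x i + y i) := by
  classical
  have hne : cnt w A x y ≠ 0 := by
    intro h0
    rw [h0] at h
    exact absurd h (by decide)
  unfold cnt at hne
  obtain ⟨j, hj⟩ := Finset.card_pos.mp (Nat.pos_of_ne_zero hne)
  rw [Finset.mem_filter, Finset.mem_range] at hj
  exact ⟨j, hj.1, hj.2⟩

theorem cnt_of_all {w : k} {A : Finset (Fin n)} {x y : Fin n → M}
    (h : ∀ j < 3, Pr k (fun i => tw A (algebraMap k M w ^ j) x i + y i)) : cnt w A x y = 3 := by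
  classical
  unfold cnt
  rw [Finset.filter_true_of_mem fun j hj => h j (Finset.mem_range.mp hj), Finset.card_range]

end MP2619.NP
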