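import Pool.Agent.Lib.MP_2619d0_ag.NP.Defs

/-!
Row A2: anisotropy of `H(p, u)` as a quadratic form in `p`, polynomial version.
-/

set_option autoImplicit false

namespace MP2619.NP

universe u

open IntermediateField MP2619.R MP2619.W

/-- `g` transcendental over a subfield: there is a valuation ring of `k` with `g` in its maximal ideal
(extend the `X`-adic valuation of `k0(g)` to `k`, or Chevalley: a maximal local subring dominating `k0[g]` at
`g = 0`). Its residue field has characteristic two. -/
theorem exists_val {k : Type u} [Field k] {g : k} (hb : Base k g) (hg : g ≠ 0) :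
    ∃ O : ValuationSubring k, O.valuation g < 1 := by
  rcases hb.fin with h | ⟨k0, htr, -⟩
  · exact absurd h hg
  · set A : Subring k := (Algebra.adjoin k0 ({g} : Set k)).toSubring with hA
    have hgA : g ∈ A := Algebra.subset_adjoin (Set.mem_singleton g)
    set I : Ideal A := Ideal.span {(⟨g, hgA⟩ : A)} with hI
    have hne : I ≠ ⊤ := by
      intro htop
      have h1 : (1 : A) ∈ I := by rw [htop]; trivial
      rw [hI, Ideal.mem_span_singleton'] at h1
      obtain ⟨⟨q, hq⟩, hq1⟩ := h1
      have hq' : q ∈ Algebra.adjoin k0 ({g} : Set k) := hq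
      rw [Algebra.adjoin_singleton_eq_range_aeval] at hq'
      obtain ⟨f, hf⟩ := hq'
      have h2 : q * g = 1 := by
        have := congrArg (fun z : A => (z : k)) hq1
        simpa using this
      have h3 : Polynomial.aeval g (f * Polynomial.X - 1) = 0 := by
        have hf' : Polynomial.aeval g f = q := hf
        rw [map_sub, map_mul, Polynomial.aeval_X, map_one, hf', h2, sub_self]
      have h4 : f * Polynomial.X - 1 = 0 := by
        rw [transcendental_iff] at htr
        exact htr _ h3
      have h5 := congrArg (fun p => Polynomial.coeff p 0) h4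
      simp at h5
    obtain ⟨O, -, hO⟩ := Ideal.image_subset_nonunits_valuationSubring I hne
    refine ⟨O, ?_⟩
    have h6 : g ∈ O.nonunits := hO ⟨⟨g, hgA⟩, Ideal.mem_span_singleton_self _, rfl⟩
    exact h6

/-- `g = 0`: `diag_anisotropic` (file `Parity.lean`). `g ≠ 0`: if `P ≠ 0` divide by a coefficient of the `P i`
of largest valuation (`exists_val`): all coefficients in `O`, one of them a unit. Reduce modulo the maximal
ideal: `∑ P̄_i² X_i = 0` over the residue field, `P̄ ≠ 0`, contradiction to `diag_anisotropic`. -/
theorem aniso0 {k : Type u} [Field k] {g : k} (hb : Base k g) {n : ℕ} {a b c : Fin n}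
    (hd : Dist a b c) (P : Fin n → MvPolynomial (Fin n) k)
    (h : ∑ i, P i ^ 2 * MvPolynomial.X i + MvPolynomial.C g * (P a * P b * MvPolynomial.X c +
      P a * P c * MvPolynomial.X b + P b * P c * MvPolynomial.X a) = 0) : P = 0 := by
  classical
  by_cases hg : g = 0
  · subst hg
    rw [map_zero, zero_mul, add_zero] at h
    have h1 : ∑ i ∈ (Finset.univ : Finset (Fin n)), MvPolynomial.X i * (P i) ^ 2 = 0 := by
      rw [← h]
      exact Finset.sum_congr rfl (fun i _ => mul_comm _ _)
    funext i
    exact Pool.Agent.Lib.MP_2619d0_ag.diag_anisotropic Finset.univ P h1 i (Finset.mem_univ i)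
  · obtain ⟨O, hO⟩ := exists_val hb hg
    by_contra hP
    obtain ⟨i₀, hi₀⟩ : ∃ i, P i ≠ 0 := by
      by_contra hcon
      push Not at hcon
      exact hP (funext hcon)
    obtain ⟨d₀, hd₀⟩ := MvPolynomial.ne_zero_iff.mp hi₀
    -- the finite set of pairs
    set T : Finset (Fin n × (Fin n →₀ ℕ)) :=
      Finset.univ.biUnion (fun i => (P i).support.image (fun d => (i, d))) with hT
    have hmemT : ∀ i d, MvPolynomial.coeff d (P i) ≠ 0 → (i, d) ∈ T := by
      intro i d hid
      rw [hT, Finset.mem_biUnion]
      exact ⟨i, Finset.mem_univ i, Finset.mem_image.mpr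
        ⟨d, MvPolynomial.mem_support_iff.mpr hid, rfl⟩⟩
    obtain ⟨⟨i₁, d₁⟩, h₁T, hmax⟩ := T.exists_max_image
      (fun p => O.valuation (MvPolynomial.coeff p.2 (P p.1))) ⟨_, hmemT i₀ d₀ hd₀⟩
    set e : k := MvPolynomial.coeff d₁ (P i₁) with he
    have hle : ∀ i d, O.valuation (MvPolynomial.coeff d (P i)) ≤ O.valuation e := by
      intro i d
      by_cases hid : MvPolynomial.coeff d (P i) = 0
      · rw [hid, map_zero]; exact zero_le
      · exact hmax (i, d) (hmemT i d hid)
    have he0 : e ≠ 0 := by
      intro h0
      have h1 := hle i₀ d₀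
      rw [h0, map_zero, le_zero_iff, map_eq_zero] at h1
      exact hd₀ h1
    have hmem : ∀ i d, e⁻¹ * MvPolynomial.coeff d (P i) ∈ O := by
      intro i d
      rw [← O.valuation_le_one_iff, map_mul, map_inv₀]
      have h1 : O.valuation e ≠ 0 := by
        rw [Ne, map_eq_zero]; exact he0
      calc (O.valuation e)⁻¹ * O.valuation (MvPolynomial.coeff d (P i))
          ≤ (O.valuation e)⁻¹ * O.valuation e := by
            gcongr
            exact hle i d
        _ = 1 := inv_mul_cancel₀ h1
    have hgO : g ∈ O := by
      rw [← O.valuation_le_one_iff]; exact hO.le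
    -- lift
    have hlift : ∀ i, ∃ Q : MvPolynomial (Fin n) O,
        MvPolynomial.map (algebraMap O k) Q = MvPolynomial.C e⁻¹ * P i := by
      intro i
      have h1 : MvPolynomial.C e⁻¹ * P i ∈
          Set.range (MvPolynomial.map (σ := Fin n) (algebraMap O k)) := by
        rw [MvPolynomial.mem_range_map_iff_coeffs_subset]
        intro z hz
        rw [Finset.mem_coe, MvPolynomial.mem_coeffs_iff] at hz
        obtain ⟨d, -, rfl⟩ := hz
        rw [MvPolynomial.coeff_C_mul]
        exact ⟨⟨_, hmem i d⟩, rfl⟩
      exact h1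
    choose Q hQ using hlift
    have hinj : Function.Injective (MvPolynomial.map (σ := Fin n) (algebraMap O k)) :=
      MvPolynomial.map_injective _ (IsFractionRing.injective O k)
    have hQeq : ∑ i, Q i ^ 2 * MvPolynomial.X i + MvPolynomial.C (⟨g, hgO⟩ : O) *
        (Q a * Q b * MvPolynomial.X c + Q a * Q c * MvPolynomial.X b +
          Q b * Q c * MvPolynomial.X a) = 0 := by
      apply hinj
      rw [map_zero]
      simp only [map_add, map_sum, map_mul, map_pow, hQ, MvPolynomial.map_X, MvPolynomial.map_C]
      have h1 : (algebraMap O k) ⟨g, hgO⟩ = g := rfl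
      rw [h1]
      have h2 := congrArg (fun z => MvPolynomial.C e⁻¹ ^ 2 * z) h
      simp only [mul_zero, mul_add, Finset.mul_sum] at h2
      rw [← h2]
      congr 1
      · exact Finset.sum_congr rfl (fun i _ => by ring)
      · ring
    have hgm : IsLocalRing.residue O (⟨g, hgO⟩ : O) = 0 := by
      rw [IsLocalRing.residue_eq_zero_iff]
      exact (ValuationSubring.valuation_lt_one_iff O _).mpr hO
    have hres := congrArg (MvPolynomial.map (σ := Fin n) (IsLocalRing.residue O)) hQeq
    rw [map_zero] at hres
    simp only [map_add, map_sum, map_mul, map_pow, MvPolynomial.map_X, MvPolynomial.map_C, hgm,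
      map_zero, zero_mul, add_zero] at hres
    have h3 : ∑ i ∈ (Finset.univ : Finset (Fin n)),
        MvPolynomial.X i * (MvPolynomial.map (IsLocalRing.residue O) (Q i)) ^ 2 = 0 := by
      rw [← hres]
      exact Finset.sum_congr rfl (fun i _ => mul_comm _ _)
    have h4 := Pool.Agent.Lib.MP_2619d0_ag.diag_anisotropic Finset.univ
      (fun i => MvPolynomial.map (IsLocalRing.residue O) (Q i)) h3 i₁ (Finset.mem_univ i₁)
    have h5 := congrArg (MvPolynomial.coeff d₁) h4
    rw [MvPolynomial.coeff_map, MvPolynomial.coeff_zero] at h5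
    have h6 := congrArg (MvPolynomial.coeff d₁) (hQ i₁)
    rw [MvPolynomial.coeff_map, MvPolynomial.coeff_C_mul, ← he, inv_mul_cancel₀ he0] at h6
    have h7 : MvPolynomial.coeff d₁ (Q i₁) = 1 := by
      apply IsFractionRing.injective O k
      rw [h6, map_one]
    rw [h7, map_one] at h5
    exact one_ne_zero h5

end MP2619.NP
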