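import Pool.Agent.Lib.MP_2619d0_ag.NP.A2

/-!
Row A2b: anisotropy over extensions of odd degree of `k(v)`; the order at an odd place.
-/

set_option autoImplicit false

namespace MP2619.NP

universe u

open IntermediateField MP2619.R MP2619.W

variable {k M : Type u} [Field k] [Field M] [Algebra k M] {n : ℕ} {g : k} {a b c : Fin n}

/-- coefficients of the quadratic form `H(p, v)` in `p` -/
private def A2b_q {K : Type u} [Field K] {n : ℕ} (a b c : Fin n) (g : K) (v : Fin n → K)
    (i j : Fin n) : K :=
  (if i = j then v i else 0) + (if i = a then (if j = b then g * v c else 0) else 0) +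
    (if i = a then (if j = c then g * v b else 0) else 0) +
    (if i = b then (if j = c then g * v a else 0) else 0)

private theorem A2b_quad {K L : Type u} [Field K] [Field L] (φ : K →+* L) {n : ℕ} (a b c : Fin n)
    (g : K) (v : Fin n → K) (p : Fin n → L) :
    ∑ i, ∑ j, φ (A2b_q a b c g v i j) * (p i * p j) =
      ∑ i, p i ^ 2 * φ (v i) + φ g * (p a * p b * φ (v c) + p a * p c * φ (v b) +
        p b * p c * φ (v a)) := by
  classical
  have h1 : ∀ i j, φ (A2b_q a b c g v i j) * (p i * p j) =
      (if i = j then φ (v i) * (p i * p j) else 0) +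
        (if i = a then (if j = b then φ g * φ (v c) * (p i * p j) else 0) else 0) +
        (if i = a then (if j = c then φ g * φ (v b) * (p i * p j) else 0) else 0) +
        (if i = b then (if j = c then φ g * φ (v a) * (p i * p j) else 0) else 0) := by
    intro i j
    unfold A2b_q
    simp only [map_add, apply_ite φ, map_zero, map_mul]
    split_ifs <;> ring
  simp only [h1, Finset.sum_add_distrib, Finset.sum_ite_eq, Finset.sum_ite_eq', Finset.mem_univ,
    if_true, Finset.sum_ite_irrel, Finset.sum_const_zero]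
  have h2 : ∑ x, φ (v x) * (p x * p x) = ∑ i, p i ^ 2 * φ (v i) :=
    Finset.sum_congr rfl fun i _ => by ring
  rw [h2]
  ring

/-- `K = k(v)` itself -/
private theorem A2b_base (hb : Base k g) (hd : Dist a b c) (v : Fin n → M)
    (hv : AlgebraicIndependent k v) (p : Fin n → adjoin k (Set.range v))
    (h : ∑ i, p i ^ 2 * (⟨v i, subset_adjoin k _ ⟨i, rfl⟩⟩ : adjoin k (Set.range v)) +
      algebraMap k (adjoin k (Set.range v)) g *
        (p a * p b * ⟨v c, subset_adjoin k _ ⟨c, rfl⟩⟩ +
          p a * p c * ⟨v b, subset_adjoin k _ ⟨b, rfl⟩⟩ +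
          p b * p c * ⟨v a, subset_adjoin k _ ⟨a, rfl⟩⟩) = 0) : p = 0 := by
  classical
  have key : ∀ i, ∃ P Q : MvPolynomial (Fin n) k, MvPolynomial.aeval v Q ≠ 0 ∧
      ((p i : M)) = MvPolynomial.aeval v P / MvPolynomial.aeval v Q := by
    intro i
    obtain ⟨P, Q, hPQ⟩ := (IntermediateField.mem_adjoin_range_iff k v (p i : M)).1 (p i).2
    by_cases hQ : MvPolynomial.aeval v Q = 0
    · refine ⟨0, 1, by simp, ?_⟩
      rw [hPQ, hQ]; simp
    · exact ⟨P, Q, hQ, hPQ⟩
  choose P Q hQ hPQ using key
  have hprod : ∀ i, MvPolynomial.aeval v (P i * ∏ j ∈ Finset.univ.erase i, Q j) =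
      (∏ j, MvPolynomial.aeval v (Q j)) * (p i : M) := by
    intro i
    rw [← Finset.mul_prod_erase Finset.univ (fun j => MvPolynomial.aeval v (Q j)) (Finset.mem_univ i),
      hPQ i, map_mul, map_prod]
    field_simp [hQ i]
  have hsum : ∑ i, (p i : M) ^ 2 * v i + algebraMap k M g *
      ((p a : M) * (p b : M) * v c + (p a : M) * (p c : M) * v b + (p b : M) * (p c : M) * v a) =
        0 := by
    have := congrArg (fun x : adjoin k (Set.range v) => (x : M)) h
    simpa using this
  have h0 : MvPolynomial.aeval v (∑ i, (P i * ∏ j ∈ Finset.univ.erase i, Q j) ^ 2 *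
      MvPolynomial.X i + MvPolynomial.C g *
        ((P a * ∏ j ∈ Finset.univ.erase a, Q j) * (P b * ∏ j ∈ Finset.univ.erase b, Q j) *
            MvPolynomial.X c +
          (P a * ∏ j ∈ Finset.univ.erase a, Q j) * (P c * ∏ j ∈ Finset.univ.erase c, Q j) *
            MvPolynomial.X b +
          (P b * ∏ j ∈ Finset.univ.erase b, Q j) * (P c * ∏ j ∈ Finset.univ.erase c, Q j) *
            MvPolynomial.X a)) = 0 := by
    have e1 : ∀ i, MvPolynomial.aeval v ((P i * ∏ j ∈ Finset.univ.erase i, Q j) ^ 2 *
        MvPolynomial.X i) =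
        (∏ j, MvPolynomial.aeval v (Q j)) ^ 2 * ((p i : M) ^ 2 * v i) := by
      intro i
      rw [map_mul, map_pow, hprod i, MvPolynomial.aeval_X]
      ring
    have e2 : ∀ i j l, MvPolynomial.aeval v ((P i * ∏ j ∈ Finset.univ.erase i, Q j) *
        (P j * ∏ l ∈ Finset.univ.erase j, Q l) * MvPolynomial.X l) =
        (∏ j, MvPolynomial.aeval v (Q j)) ^ 2 * ((p i : M) * (p j : M) * v l) := by
      intro i j l
      rw [map_mul, map_mul, hprod i, hprod j, MvPolynomial.aeval_X]
      ring
    rw [map_add, map_sum, Finset.sum_congr rfl (fun i _ => e1 i), ← Finset.mul_sum, map_mul,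
      map_add, map_add, e2, e2, e2, MvPolynomial.aeval_C]
    linear_combination (∏ j, MvPolynomial.aeval v (Q j)) ^ 2 * hsum
  have hinj := algebraicIndependent_iff_injective_aeval.1 hv
  have hp := hinj (h0.trans (map_zero _).symm)
  have hz := aniso0 hb hd (fun i => P i * ∏ j ∈ Finset.univ.erase i, Q j) hp
  funext i
  have hi := congrFun hz i
  have h1 := hprod i
  have hi' : P i * ∏ j ∈ Finset.univ.erase i, Q j = 0 := hi
  rw [hi', map_zero] at h1
  have h2 : (p i : M) = 0 := by
    rcases mul_eq_zero.1 h1.symm with h | h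
    · exact absurd h (Finset.prod_ne_zero_iff.2 (fun j _ => hQ j))
    · exact h
  exact Subtype.ext h2

/-- `κ` an extension of odd degree of `K = k(v)`. First `κ = K`: clear denominators as in `an_adjoin`
(`R/A4.lean`) and `aniso0`. Then `springer_poly` (file `OddDegree.lean`) for the quadratic form
`q i j` with `∑ q i j p_i p_j = H(p, v)`, exactly as in `an_ext` (`R/A4.lean`). -/
theorem aniso (hb : Base k g) (hd : Dist a b c) (v : Fin n → M) (hv : AlgebraicIndependent k v)
    {κ : Type u} [Field κ] [Algebra (adjoin k (Set.range v)) κ] [Algebra k κ]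
    [IsScalarTower k (adjoin k (Set.range v)) κ]
    (hodd : Odd (Module.finrank (adjoin k (Set.range v)) κ)) (p : Fin n → κ)
    (h : Hf g a b c p (fun i => algebraMap (adjoin k (Set.range v)) κ
      ⟨v i, subset_adjoin k _ ⟨i, rfl⟩⟩) = 0) : p = 0 := by
  classical
  have h2 : (2 : adjoin k (Set.range v)) = 0 := by
    have h3 := congrArg (algebraMap k (adjoin k (Set.range v))) hb.two
    rwa [map_ofNat, map_zero] at h3
  have hfd : FiniteDimensional (adjoin k (Set.range v)) κ := Module.finite_of_finrank_pos hodd.pos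
  have hsep : Algebra.IsSeparable (adjoin k (Set.range v)) κ := MP2619.K.K2_sep h2 hodd
  obtain ⟨x, hx⟩ := Field.exists_primitive_element (adjoin k (Set.range v)) κ
  have hint : IsIntegral (adjoin k (Set.range v)) x := Algebra.IsIntegral.isIntegral x
  have hdeg : (minpoly (adjoin k (Set.range v)) x).natDegree =
      Module.finrank (adjoin k (Set.range v)) κ := by
    rw [← IntermediateField.adjoin.finrank hint, hx]
    exact IntermediateField.finrank_top'
  have hsurj : ∀ y : κ, ∃ f : Polynomial (adjoin k (Set.range v)), Polynomial.aeval x f = y := by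
    intro y
    have hy : y ∈ (⊤ : IntermediateField (adjoin k (Set.range v)) κ) := IntermediateField.mem_top
    rw [← hx, ← IntermediateField.mem_toSubalgebra,
      IntermediateField.adjoin_simple_toSubalgebra_of_isAlgebraic hint.isAlgebraic,
      Algebra.adjoin_singleton_eq_range_aeval] at hy
    exact hy
  choose f hf using fun i => hsurj (p i)
  have hirr := minpoly.irreducible hint
  set vK : Fin n → adjoin k (Set.range v) := fun i => ⟨v i, subset_adjoin k _ ⟨i, rfl⟩⟩ with hvK
  set gK : adjoin k (Set.range v) := algebraMap k (adjoin k (Set.range v)) g with hgK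
  have hall := Pool.Agent.Lib.MP_2619d0_ag.springer_poly
    (fun _ : Fin n => (0 : adjoin k (Set.range v))) (A2b_q a b c gK vK)
    (by
      intro w _ hw
      refine A2b_base hb hd v hv w ?_
      have h3 := A2b_quad (RingHom.id (adjoin k (Set.range v))) a b c gK vK w
      simp only [RingHom.id_apply] at h3
      rw [hw] at h3
      exact h3.symm) _ (minpoly (adjoin k (Set.range v)) x) hirr hdeg hodd f
    (by
      simp)
    (by
      rw [minpoly.dvd_iff]
      have h3 := A2b_quad (algebraMap (adjoin k (Set.range v)) κ) a b c gK vK p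
      have h4 : algebraMap (adjoin k (Set.range v)) κ gK = algebraMap k κ g :=
        (IsScalarTower.algebraMap_apply k (adjoin k (Set.range v)) κ g).symm
      rw [h4] at h3
      have h5 : ∑ i, ∑ j, algebraMap (adjoin k (Set.range v)) κ (A2b_q a b c gK vK i j) *
          (p i * p j) = 0 := by
        rw [h3]
        exact h
      rw [← h5, map_sum]
      refine Finset.sum_congr rfl fun i _ => ?_
      rw [map_sum]
      refine Finset.sum_congr rfl fun j _ => ?_
      rw [map_mul, map_mul, Polynomial.aeval_C, hf i, hf j])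
  funext i
  rw [Pi.zero_apply, ← hf i]
  exact (minpoly.dvd_iff).mp (hall i)

/-- As `ord_an` (`R/A5.lean`): divide by the entry of smallest order; the residue of the quotient is not
zero by `aniso` (algebra structure `(rc hO.cst).toAlgebra` on the residue field, `rdeg_eq`). -/
theorem ord_Hf (hb : Base k g) (hd : Dist a b c) (v : Fin n → M) (hv : AlgebraicIndependent k v)
    {O : ValuationSubring M} (hO : OP (adjoin k (Set.range v)) O) (p : Fin n → M) (hp : p ≠ 0) :
    Hf g a b c p v ≠ 0 ∧ ∃ i, p i ≠ 0 ∧ ord O (Hf g a b c p v) = 2 * ord O (p i) ∧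
      ∀ j, p j ≠ 0 → ord O (p i) ≤ ord O (p j) := by
  classical
  obtain ⟨i0, hi0⟩ : ∃ i, p i ≠ 0 := by
    by_contra hcon
    push Not at hcon
    exact hp (funext hcon)
  obtain ⟨i, hi, hmin⟩ := Finset.exists_min_image (Finset.univ.filter fun i => p i ≠ 0)
    (fun i => ord O (p i)) ⟨i0, by simpa using hi0⟩
  rw [Finset.mem_filter] at hi
  have hgi : p i ≠ 0 := hi.2
  have hmin' : ∀ j, p j ≠ 0 → ord O (p i) ≤ ord O (p j) := fun j hj =>
    hmin j (Finset.mem_filter.mpr ⟨Finset.mem_univ _, hj⟩)
  have hq : ∀ j, p j / p i ∈ O := by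
    intro j
    rcases eq_or_ne (p j) 0 with h0 | h0
    · rw [h0, zero_div]
      exact O.zero_mem
    · rw [mem_iff hO.dv (div_ne_zero h0 hgi), div_eq_mul_inv, ord_mul hO.dv h0 (inv_ne_zero hgi),
        ord_inv hO.dv hgi]
      have := hmin' j h0
      omega
  set q : Fin n → O := fun j => ⟨p j / p i, hq j⟩ with hqdef
  set vK : Fin n → adjoin k (Set.range v) := fun i => ⟨v i, subset_adjoin k _ ⟨i, rfl⟩⟩ with hvK
  set vO : Fin n → O := fun j => ⟨algebraMap (adjoin k (Set.range v)) M (vK j), hO.cst (vK j)⟩
    with hvO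
  set gO : O := ⟨algebraMap (adjoin k (Set.range v)) M (algebraMap k (adjoin k (Set.range v)) g),
    hO.cst _⟩ with hgO
  set E : O := ∑ j, q j ^ 2 * vO j + gO * (q a * q b * vO c + q a * q c * vO b + q b * q c * vO a)
    with hE
  have hEM : (E : M) = Hf g a b c (fun j => p j / p i) v := by
    have h3 : ((∑ j, q j ^ 2 * vO j : O) : M) = ∑ j, ((q j ^ 2 * vO j : O) : M) := by
      exact map_sum O.subtype _ _
    have h4 : (E : M) = ((∑ j, q j ^ 2 * vO j : O) : M) +
        ((gO * (q a * q b * vO c + q a * q c * vO b + q b * q c * vO a) : O) : M) := rfl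
    rw [h4, h3]
    rfl
  have hS : Hf g a b c p v = p i ^ 2 * (E : M) := by
    rw [hEM]
    unfold Hf
    have h5 : ∑ j, p j ^ 2 * v j = p i ^ 2 * ∑ j, (p j / p i) ^ 2 * v j := by
      rw [Finset.mul_sum]
      refine Finset.sum_congr rfl fun j _ => ?_
      field_simp
    rw [h5]
    field_simp
  have hres : IsLocalRing.residue O E ≠ 0 := by
    intro h0
    let i1 : Algebra (adjoin k (Set.range v)) (IsLocalRing.ResidueField O) :=
      (rc hO.cst).toAlgebra
    let i2 : Algebra k (IsLocalRing.ResidueField O) :=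
      ((rc hO.cst).comp (algebraMap k (adjoin k (Set.range v)))).toAlgebra
    have i3 : @IsScalarTower k (adjoin k (Set.range v)) (IsLocalRing.ResidueField O) _
        i1.toSMul i2.toSMul :=
      @IsScalarTower.of_algebraMap_eq k (adjoin k (Set.range v)) (IsLocalRing.ResidueField O)
        _ _ _ _ i1 i2 (fun x => rfl)
    have hodd : Odd (@Module.finrank (adjoin k (Set.range v)) (IsLocalRing.ResidueField O) _ _
        i1.toModule) := by
      have h5 := hO.odd
      rw [← rdeg_eq hO.cst] at h5
      exact h5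
    have hc : @Hf k (IsLocalRing.ResidueField O) _ _ i2 n g a b c
        (fun j => IsLocalRing.residue O (q j))
        (fun j => @algebraMap (adjoin k (Set.range v)) (IsLocalRing.ResidueField O) _ _ i1
          ⟨v j, subset_adjoin k _ ⟨j, rfl⟩⟩) = 0 := by
      rw [← h0, hE, map_add, map_sum]
      unfold Hf
      congr 1
    have h6 := aniso hb hd v hv hodd (fun j => IsLocalRing.residue O (q j)) hc
    have h7 := congrFun h6 i
    have h8 : q i = 1 := Subtype.ext (div_self hgi)
    rw [Pi.zero_apply, h8, map_one] at h7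
    exact one_ne_zero h7
  have hval : O.valuation (E : M) = 1 := by
    refine le_antisymm ((O.valuation_le_one_iff _).mpr E.2) ?_
    by_contra hcon
    rw [not_le] at hcon
    apply hres
    rw [IsLocalRing.residue_eq_zero_iff]
    exact (ValuationSubring.valuation_lt_one_iff O E).mpr hcon
  have hE0 : (E : M) ≠ 0 := by
    intro h0
    rw [h0, map_zero] at hval
    exact zero_ne_one hval
  rw [hS]
  refine ⟨mul_ne_zero (pow_ne_zero _ hgi) hE0, i, hgi, ?_, hmin'⟩
  rw [ord_mul hO.dv (pow_ne_zero _ hgi) hE0, ord_pow hO.dv hgi, (unit_iff hO.dv hE0).mp hval]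
  push_cast
  ring

end MP2619.NP
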