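import Pool.Agent.Lib.MP_2619d0_ag.NP.A1
import Pool.Agent.Lib.MP_2619d0_ag.NP.A2b

/-!
Row A3: integrality at odd places.
-/

set_option autoImplicit false

namespace MP2619.NP

universe u

open IntermediateField MP2619.R MP2619.W

variable {k M : Type u} [Field k] [Field M] [Algebra k M] {n : ℕ} {g : k} {a b c : Fin n}

private theorem A3_cmul {K : Type u} [Field K] [Algebra K M] {O : ValuationSubring M}
    (hO : OP K O) (z : K) {y : M} {e : ℤ} (hy : y = 0 ∨ e ≤ ord O y) :
    algebraMap K M z * y = 0 ∨ e ≤ ord O (algebraMap K M z * y) := by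
  by_cases hz : z = 0
  · left
    rw [hz, map_zero, zero_mul]
  · by_cases hy0 : y = 0
    · left
      rw [hy0, mul_zero]
    · right
      have hz0 : algebraMap K M z ≠ 0 := by
        rw [Ne, FaithfulSMul.algebraMap_eq_zero_iff]
        exact hz
      rw [ord_mul hO.dv hz0 hy0, B1_cst hO.cst hO.dv hz, zero_add]
      exact hy.resolve_left hy0

/-- As `int_alt` (`W/W2b.lean`) and `ord_psi` (`R/B1.lean`): with `U = X + Y`,
`Φ(X) = Φ(U) + H(U, Y) + H(Y, U)` (`Phi_add`, characteristic two, `Φ(Y) = 0`). If `Y` has a pole of order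
`N > 0`: `H(Y, U)` has order `-2 N` (`ord_Hf`), the other summands have order `≥ -N`. -/
theorem int_alt (hb : Base k g) (hd : Dist a b c) (X Y : Fin n → M)
    (hind : AlgebraicIndependent k (fun i => X i + Y i)) (O : ValuationSubring M)
    (hO : OP (adjoin k (Set.range fun i => X i + Y i)) O) (hY : Phi g a b c Y = 0) :
    ((∀ i, X i ∈ O) ∧ ∀ i, Y i ∈ O) ∨
      (Phi g a b c X ≠ 0 ∧ Even (ord O (Phi g a b c X))) := by
  classical
  set v : Fin n → M := fun i => X i + Y i with hv
  let w : Fin n → adjoin k (Set.range v) := fun i => ⟨v i, subset_adjoin k _ ⟨i, rfl⟩⟩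
  have hw : ∀ i, algebraMap (adjoin k (Set.range v)) M (w i) = v i := fun i => rfl
  have hg : algebraMap (adjoin k (Set.range v)) M (algebraMap k (adjoin k (Set.range v)) g) =
      algebraMap k M g := rfl
  have h2M : (2 : M) = 0 := by
    have h8 := congrArg (algebraMap k M) hb.two
    rwa [map_zero, map_ofNat] at h8
  by_cases hcon : ∀ i, Y i ∈ O
  · left
    refine ⟨fun i => ?_, hcon⟩
    have h1 : v i ∈ O := hO.cst (w i)
    have h3 : X i = v i - Y i := by rw [hv]; ring
    rw [h3]
    exact O.sub_mem h1 (hcon i)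
  · right
    push Not at hcon
    obtain ⟨j, hj⟩ := hcon
    have hj0 : Y j ≠ 0 := by
      intro h0
      exact hj (by rw [h0]; exact O.zero_mem)
    have hjn : ord O (Y j) < 0 := by
      rw [mem_iff hO.dv hj0] at hj
      omega
    have hY0 : Y ≠ 0 := fun h0 => hj0 (by rw [h0]; rfl)
    obtain ⟨hC0, i, hi0, hiC, himin⟩ := ord_Hf hb hd v hind hO Y hY0
    have hi : ord O (Y i) < 0 := lt_of_le_of_lt (himin j hj0) hjn
    have hmin : ∀ l, Y l = 0 ∨ ord O (Y i) ≤ ord O (Y l) := by
      intro l
      by_cases hl : Y l = 0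
      · exact Or.inl hl
      · exact Or.inr (himin l hl)
    have hXv : X = fun i => v i + Y i := by
      funext l
      rw [hv]
      linear_combination (-Y l) * h2M
    have h3 : Phi g a b c X = Hf g a b c Y v + (Phi g a b c v + Hf g a b c v Y) := by
      have h4 := Phi_add (g := g) (a := a) (b := b) (c := c) hb.two v Y
      rw [← hXv, hY, add_zero] at h4
      rw [h4]
      ring
    -- the constant part
    have hA : Phi g a b c v = 0 ∨ ord O (Y i) ≤ ord O (Phi g a b c v) := by
      have h5 : Phi g a b c v = algebraMap (adjoin k (Set.range v)) M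
          (∑ i, w i ^ 3 + algebraMap k (adjoin k (Set.range v)) g * (w a * w b * w c)) * 1 := by
        rw [mul_one, map_add, map_sum, map_mul, map_mul, map_mul, hg, hw, hw, hw]
        simp only [map_pow, hw]
        rfl
      rw [h5]
      refine A3_cmul hO _ (Or.inr ?_)
      rw [ord_one hO.dv]
      exact hi.le
    have hB : Hf g a b c v Y = 0 ∨ ord O (Y i) ≤ ord O (Hf g a b c v Y) := by
      have h6 : Hf g a b c v Y = ∑ i, algebraMap (adjoin k (Set.range v)) M (w i ^ 2) * Y i +
          (algebraMap (adjoin k (Set.range v)) M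
            (algebraMap k (adjoin k (Set.range v)) g * (w a * w b)) * Y c +
          (algebraMap (adjoin k (Set.range v)) M
            (algebraMap k (adjoin k (Set.range v)) g * (w a * w c)) * Y b +
          algebraMap (adjoin k (Set.range v)) M
            (algebraMap k (adjoin k (Set.range v)) g * (w b * w c)) * Y a)) := by
        simp only [map_mul, map_pow, hg, hw]
        unfold Hf
        ring
      rw [h6]
      refine B1_add hO.dv (ord_sum hO.dv _ _ _ fun l _ => A3_cmul hO _ (hmin l)) ?_
      exact B1_add hO.dv (A3_cmul hO _ (hmin c))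
        (B1_add hO.dv (A3_cmul hO _ (hmin b)) (A3_cmul hO _ (hmin a)))
    have hAB := B1_add hO.dv hA hB
    have h7 := ord_add_lt hO.dv hC0 (b := Phi g a b c v + Hf g a b c v Y) (by
      rcases hAB with h4 | h4
      · exact Or.inl h4
      · right
        rw [hiC]
        omega)
    rw [h3]
    refine ⟨h7.1, ?_⟩
    rw [h7.2, hiC]
    exact ⟨ord O (Y i), by ring⟩

theorem int_of_zero (hb : Base k g) (hd : Dist a b c) (X Y : Fin n → M)
    (hind : AlgebraicIndependent k (fun i => X i + Y i)) (O : ValuationSubring M)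
    (hO : OP (adjoin k (Set.range fun i => X i + Y i)) O) (hX : Phi g a b c X = 0)
    (hY : Phi g a b c Y = 0) : Pl k X Y O := by
  rcases int_alt hb hd X Y hind O hO hY with h | h
  · exact ⟨hind, hO, h.1, h.2⟩
  · exact absurd hX h.1

end MP2619.NP
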