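import Pool.Agent.Lib.MP_2619d0_ag.NP.A3
import Pool.Agent.Lib.MP_2619d0_ag.W.W4

/-!
Row A5: scaling the coordinates in `A`.
-/

set_option autoImplicit false

namespace MP2619.NP

universe u

open IntermediateField MP2619.R MP2619.W

private theorem A5_rs_map {M M' : Type u} [Field M] [Field M'] [Algebra M M'] {n : ℕ}
    (A : Finset (Fin n)) (x : Fin n → M) :
    rs A (fun i => algebraMap M M' (x i)) = fun i => algebraMap M M' (rs A x i) := by
  funext i
  unfold rs
  dsimp only
  by_cases hi : i ∈ A
  · rw [if_pos hi, if_pos hi]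
  · rw [if_neg hi, if_neg hi, map_zero]

/-- As `scA` (`W/W5.lean`): `sc_gen` for `x' = x 1_A`, `y' = y + x 1_{Aᶜ}`, integrality from `int_of_zero`
(`Φ(tw A t x) = 0` by `Phi_tw`), then `RF.scale` for `c0`. -/
theorem scA {k M k' M' : Type u} [Field k] [Field M] [Field k'] [Field M'] [Algebra k M]
    [Algebra k k'] [Algebra k M'] [Algebra M M'] [Algebra k' M'] [IsScalarTower k M M']
    [IsScalarTower k k' M'] {t : k'} (h : RF k M k' M' t) {n : ℕ} {g : k} {a b c : Fin n}
    (hb : Base k g) (hd : Dist a b c) {A : Finset (Fin n)} (hc : Comp g a b c A)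
    {x y : Fin n → M} (hD : Dt g a b c x y) (hA : Phi g a b c (rs A x) = 0) (c0 : k)
    (h0 : c0 ≠ 0) :
    Pr k' (fun i => tw A (algebraMap k M' c0 * algebraMap k' M' t)
      (fun j => algebraMap M M' (x j)) i + algebraMap M M' (y i)) := by
  classical
  obtain ⟨x', hx'⟩ : ∃ x' : Fin n → M, x' = fun i => if i ∈ A then x i else 0 := ⟨_, rfl⟩
  obtain ⟨y', hy'⟩ : ∃ y' : Fin n → M, y' = fun i => if i ∈ A then y i else x i + y i :=
    ⟨_, rfl⟩
  have hxy : (fun i => x' i + y' i) = fun i => x i + y i := by
    funext i
    rw [hx', hy']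
    dsimp only
    by_cases hi : i ∈ A
    · rw [if_pos hi, if_pos hi]
    · rw [if_neg hi, if_neg hi, zero_add]
  have hP' : Pr k (fun i => x' i + y' i) := by
    rw [hxy]
    exact hD.pr
  -- the point `tw A t x + y`
  have htw : (fun i => algebraMap k' M' t * algebraMap M M' (x' i) + algebraMap M M' (y' i)) =
      fun i => tw A (algebraMap k' M' t) (fun j => algebraMap M M' (x j)) i +
        algebraMap M M' (y i) := by
    funext i
    rw [hx', hy']
    unfold tw
    dsimp only
    by_cases hi : i ∈ A
    · rw [if_pos hi, if_pos hi, if_pos hi]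
    · rw [if_neg hi, if_neg hi, if_neg hi, map_zero, mul_zero, zero_add, map_add]
  have hind : AlgebraicIndependent k (fun i => tw A (algebraMap k' M' t)
      (fun j => algebraMap M M' (x j)) i + algebraMap M M' (y i)) := by
    rw [← htw]
    exact ((ind_cons _ _).mp (sc_ind h x' y' hP'.1)).1
  have hAc : Phi g a b c (rs Aᶜ x) = 0 := by
    have h1 := Phi_split hc x
    rw [hD.Px, hA, zero_add] at h1
    exact h1.symm
  have hF : Phi g a b c (tw A (algebraMap k' M' t) (fun j => algebraMap M M' (x j))) = 0 := by
    rw [Phi_tw hc, A5_rs_map, A5_rs_map, Phi_map, Phi_map, hA, hAc, map_zero, mul_zero, add_zero]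
  have hFy : Phi g a b c (fun i => algebraMap M M' (y i)) = 0 := by
    rw [Phi_map, hD.Py, map_zero]
  have hgen : Pr k' (fun i => algebraMap k' M' t * algebraMap M M' (x' i) +
      algebraMap M M' (y' i)) := by
    refine sc_gen h hb.two x' y' hP' ?_
    intro O hO ht
    rw [htw] at hO
    have hPl := int_of_zero hb hd _ _ hind O hO hF hFy
    have ht1 : algebraMap k' M' t - 1 ∈ O := by
      rw [← O.valuation_le_one_iff]
      exact ht.le
    have htO : algebraMap k' M' t ∈ O := by
      have := O.add_mem _ _ ht1 O.one_mem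
      rwa [sub_add_cancel] at this
    have hvt : O.valuation (algebraMap k' M' t) = 1 := by
      have h5 : O.valuation (algebraMap k' M' t) ≤ 1 := (O.valuation_le_one_iff _).mpr htO
      rcases lt_or_eq_of_le h5 with h6 | h6
      · exfalso
        have h7 : O.valuation ((algebraMap k' M' t) - (algebraMap k' M' t - 1)) < 1 :=
          lt_of_le_of_lt (Valuation.map_sub _ _ _) (max_lt h6 ht)
        rw [sub_sub_cancel, map_one] at h7
        exact lt_irrefl _ h7
      · exact h6
    have htne : algebraMap k' M' t ≠ 0 := by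
      intro h0
      rw [h0, map_zero] at hvt
      exact zero_ne_one hvt
    have htinv : (algebraMap k' M' t)⁻¹ ∈ O := by
      rw [← O.valuation_le_one_iff, map_inv₀, hvt, inv_one]
    have hxO : ∀ i, algebraMap M M' (x i) ∈ O := by
      intro i
      have h6 := hPl.X_mem i
      unfold tw at h6
      by_cases hi : i ∈ A
      · rw [if_pos hi] at h6
        have h7 := O.mul_mem _ _ htinv h6
        rwa [inv_mul_cancel_left₀ htne] at h7
      · rwa [if_neg hi] at h6
    have hyO : ∀ i, algebraMap M M' (y i) ∈ O := hPl.Y_mem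
    constructor
    · intro i
      rw [hx']
      dsimp only
      by_cases hi : i ∈ A
      · rw [if_pos hi]
        exact hxO i
      · rw [if_neg hi, map_zero]
        exact O.zero_mem
    · intro i
      rw [hy']
      dsimp only
      by_cases hi : i ∈ A
      · rw [if_pos hi]
        exact hyO i
      · rw [if_neg hi, map_add]
        exact O.add_mem _ _ (hxO i) (hyO i)
  have hsc := h.scale c0 h0 x' y' hgen
  have hfin : (fun i => algebraMap k' M' t * algebraMap M M' (algebraMap k M c0 * x' i) +
      algebraMap M M' (y' i)) = fun i =>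
      tw A (algebraMap k M' c0 * algebraMap k' M' t) (fun j => algebraMap M M' (x j)) i +
        algebraMap M M' (y i) := by
    funext i
    rw [hx', hy']
    unfold tw
    dsimp only
    by_cases hi : i ∈ A
    · rw [if_pos hi, if_pos hi, if_pos hi, map_mul, ← IsScalarTower.algebraMap_apply k M M']
      ring
    · rw [if_neg hi, if_neg hi, if_neg hi, mul_zero, map_zero, mul_zero, zero_add, map_add]
  rw [hfin] at hsc
  exact hsc

end MP2619.NP
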