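import Pool.Agent.Lib.MP_2619d0_ag.NP.Defs
import Pool.Agent.Lib.MP_2619d0_ag.W.W4
import Pool.Agent.Lib.MP_2619d0_ag.W.W6b

/-!
Row A6: an odd place over `t = c`.
-/

set_option autoImplicit false

namespace MP2619.NP

universe u

open IntermediateField MP2619.R MP2619.W

variable {k M k' M' : Type u} [Field k] [Field M] [Field k'] [Field M'] [Algebra k M]
  [Algebra k k'] [Algebra k M'] [Algebra M M'] [Algebra k' M'] [IsScalarTower k M M']
  [IsScalarTower k k' M'] {t : k'} {n : ℕ}

/-- rational function fields with the generator scaled -/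
private theorem A6_rf (h : RF k M k' M' t) (c : k) (hc : c ≠ 0) :
    RF k M k' M' (algebraMap k k' c⁻¹ * t) := by
  have e1 : algebraMap k' M' (algebraMap k k' c⁻¹ * t) =
      algebraMap M M' (algebraMap k M c⁻¹) * algebraMap k' M' t := by
    rw [map_mul, ← IsScalarTower.algebraMap_apply k k' M', IsScalarTower.algebraMap_apply k M M']
  have e2 : t = algebraMap k k' c * (algebraMap k k' c⁻¹ * t) := by
    rw [← mul_assoc, ← map_mul, mul_inv_cancel₀ hc, map_one, one_mul]
  have e3 : algebraMap k' M' t =
      algebraMap M M' (algebraMap k M c) * algebraMap k' M' (algebraMap k k' c⁻¹ * t) := by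
    rw [e1, ← mul_assoc, ← map_mul, ← map_mul, mul_inv_cancel₀ hc, map_one, map_one, one_mul]
  refine ⟨?_, ?_, ?_⟩
  · intro hal
    apply h.trans
    rw [e3]
    exact (isAlgebraic_algebraMap (algebraMap k M c)).mul hal
  · rw [eq_top_iff, ← h.genk, adjoin_simple_le_iff]
    have h3 : algebraMap k k' c * (algebraMap k k' c⁻¹ * t) ∈
        adjoin k ({algebraMap k k' c⁻¹ * t} : Set k') :=
      mul_mem (IntermediateField.algebraMap_mem _ _) (mem_adjoin_simple_self _ _)
    rwa [← e2] at h3
  · rw [eq_top_iff, ← h.genM, adjoin_simple_le_iff, e3]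
    exact mul_mem (IntermediateField.algebraMap_mem _ _) (mem_adjoin_simple_self _ _)

/-- the place `c⁻¹ t = 1` -/
private theorem A6_val {O : ValuationSubring M'} (hk : Cst k O) (c : k) (hc : c ≠ 0)
    (ht : O.valuation (algebraMap k' M' t - algebraMap k M' c) < 1) :
    O.valuation (algebraMap k' M' (algebraMap k k' c⁻¹ * t) - 1) < 1 := by
  have e1 : algebraMap k' M' (algebraMap k k' c⁻¹ * t) - 1 =
      algebraMap k M' c⁻¹ * (algebraMap k' M' t - algebraMap k M' c) := by
    rw [map_mul, ← IsScalarTower.algebraMap_apply k k' M', mul_sub, ← map_mul,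
      inv_mul_cancel₀ hc, map_one]
  rw [e1, map_mul, mul_comm]
  exact mul_lt_one_of_lt_of_le ht ((O.valuation_le_one_iff _).mpr (hk c⁻¹))

/-- the functions agree -/
private theorem A6_fun {n : ℕ} (x y : Fin n → M) (c : k) (hc : c ≠ 0) :
    (fun i => algebraMap k' M' (algebraMap k k' c⁻¹ * t) * algebraMap M M' (algebraMap k M c * x i) +
      algebraMap M M' (y i)) = fun i => algebraMap k' M' t *
      algebraMap M M' (x i) + algebraMap M M' (y i) := by
  funext i
  congr 1
  have hc' : algebraMap k M' c ≠ 0 := (map_ne_zero _).mpr hc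
  rw [map_mul, map_mul, ← IsScalarTower.algebraMap_apply k k' M',
    ← IsScalarTower.algebraMap_apply k M M', map_inv₀]
  field_simp

/-- inverses of units -/
private theorem A6_inv {O : ValuationSubring M'} {a : M'} (h : O.valuation a < 1 → a = 0) :
    a⁻¹ ∈ O := by
  rcases lt_or_ge (O.valuation a) 1 with h1 | h1
  · rw [h h1, inv_zero]
    exact O.zero_mem
  · rw [← O.valuation_le_one_iff, map_inv₀]
    exact inv_le_one_of_one_le₀ h1

/-- the case `c0 = 1` -/
private theorem A6_core (h : RF k M k' M' t) (x y : Fin n → M)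
    (hM : ∃ z : Fin n → M, Pr k z)
    (hv : AlgebraicIndependent k (fun i => algebraMap k' M' t *
      algebraMap M M' (x i) + algebraMap M M' (y i))) (O : ValuationSubring M')
    (hO : OP (adjoin k (Set.range fun i => algebraMap k' M' t *
      algebraMap M M' (x i) + algebraMap M M' (y i))) O)
    (ht : O.valuation (algebraMap k' M' t - 1) < 1)
    (hx : ∀ i, algebraMap M M' (x i) ∈ O) (hy : ∀ i, algebraMap M M' (y i) ∈ O) :
    Cst M O ∧ Pr k (fun i => x i + y i) := by
  classical
  have hvO : ∀ i, algebraMap k' M' t * algebraMap M M' (x i) + algebraMap M M' (y i) ∈ O :=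
    fun i => hO.cst ⟨_, subset_adjoin k _ ⟨i, rfl⟩⟩
  have huO : ∀ i, algebraMap M M' (x i + y i) ∈ O := by
    intro i
    rw [map_add]
    exact O.add_mem _ _ (hx i) (hy i)
  have hures : ∀ i, IsLocalRing.residue O ⟨_, hvO i⟩ =
      IsLocalRing.residue O ⟨algebraMap M M' (x i + y i), huO i⟩ := by
    intro i
    rw [← sub_eq_zero, ← map_sub, IsLocalRing.residue_eq_zero_iff]
    refine (ValuationSubring.valuation_lt_one_iff O _).mpr ?_
    have h7 : ((⟨_, hvO i⟩ - ⟨algebraMap M M' (x i + y i), huO i⟩ : O) : M') =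
        (algebraMap k' M' t - 1) * algebraMap M M' (x i) := by
      change (algebraMap k' M' t * algebraMap M M' (x i) + algebraMap M M' (y i)) -
        algebraMap M M' (x i + y i) = _
      rw [map_add]
      ring
    rw [h7, map_mul]
    exact mul_lt_one_of_lt_of_le ht ((O.valuation_le_one_iff _).mpr (hx i))
  have hkO : Cst k O := cst_of_tower hO.cst
  let _ : Algebra k (IsLocalRing.ResidueField O) := (rc hkO).toAlgebra
  have hpass := pass _ hv O hO (fun i => ⟨_, hvO i⟩) (fun i => rfl)
  have hind : AlgebraicIndependent k (fun i => IsLocalRing.residue O ⟨_, hvO i⟩) := hpass.1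
  have hind2 : AlgebraicIndependent k
      (fun i => IsLocalRing.residue O ⟨algebraMap M M' (x i + y i), huO i⟩) := by
    have e : (fun i => IsLocalRing.residue O ⟨algebraMap M M' (x i + y i), huO i⟩) =
        (fun i => IsLocalRing.residue O ⟨_, hvO i⟩) := funext fun i => (hures i).symm
    rw [e]
    exact hind
  have hu : AlgebraicIndependent k (fun i => x i + y i) := by
    have h1 := indep_lift hkO (fun i => (⟨algebraMap M M' (x i + y i), huO i⟩ : O)) hind2
    exact AlgebraicIndependent.of_comp (IsScalarTower.toAlgHom k M M') h1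
  have hev : ∀ P : MvPolynomial (Fin n) k,
      algebraMap M M' (MvPolynomial.aeval (fun i => x i + y i) P) ∈ O ∧
      (O.valuation (algebraMap M M' (MvPolynomial.aeval (fun i => x i + y i) P)) < 1 →
        algebraMap M M' (MvPolynomial.aeval (fun i => x i + y i) P) = 0) := by
    intro P
    have e : algebraMap M M' (MvPolynomial.aeval (fun i => x i + y i) P) =
        MvPolynomial.aeval (fun i => algebraMap M M' (x i + y i)) P :=
      (MvPolynomial.aeval_algebraMap_apply M' (fun i => x i + y i) P).symm
    rw [e]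
    refine adj_small hkO (fun i => (⟨algebraMap M M' (x i + y i), huO i⟩ : O)) hind2 _ ?_
    rw [Algebra.adjoin_range_eq_range_aeval]
    exact ⟨P, rfl⟩
  have hku : ∀ a : adjoin k (Set.range fun i => x i + y i), algebraMap M M' (a : M) ∈ O := by
    rintro ⟨a, ha⟩
    rw [mem_adjoin_range_iff] at ha
    obtain ⟨r, s, rfl⟩ := ha
    change algebraMap M M' (_ / _) ∈ O
    rw [map_div₀, div_eq_mul_inv]
    exact O.mul_mem _ _ (hev r).1 (A6_inv (hev s).2)
  obtain ⟨z, hz⟩ := hM
  have hfin0 : Module.finrank (adjoin k (Set.range fun i => x i + y i)) M ≠ 0 :=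
    (fin_iff_ind z _ hz.1 hz.2.pos.ne').mp hu
  have hfin : FiniteDimensional (adjoin k (Set.range fun i => x i + y i)) M :=
    Module.finite_of_finrank_pos (Nat.pos_of_ne_zero hfin0)
  have hcst : Cst M O := by
    intro m
    refine Pool.Agent.Lib.MP_2619d0_ag.T.LT2_integral
      (A := adjoin k (Set.range fun i => x i + y i)) O (fun a => ?_) _ ?_
    · exact hku a
    · exact (Algebra.IsIntegral.isIntegral
        (R := adjoin k (Set.range fun i => x i + y i)) m).algebraMap
  obtain ⟨O0, hO1, hO2, hO3, hO4, hO5, hO6⟩ :=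
    place_at (M := M) (algebraMap k' M' t) h.trans h.genM 1
  rw [map_one] at hO3 hO6
  have hOO : O = O0 := hO6 O hcst ht
  subst hOO
  obtain ⟨hc, hrd⟩ := sc_rdeg h x y hu O hO1 hO3 hO5
  refine ⟨hcst, hu, ?_⟩
  rw [← hrd]
  exact hO.odd

/-- Scale (`W6b`: `t` replaced by `c0⁻¹ t`, `x` by `c0 x`) to `c0 = 1`. As `cst_of_int` (`W/W4.lean`): the
residues of `x + y` and of `t x + y` agree, so they are algebraically independent over `k`, so `x + y` is
algebraically independent and `k(x + y) ⊂ O`; `M` is finite over `k(x + y)` (`fin_iff_ind` for `z`), so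
`M ⊂ O`. Then `O` is the place `t = 1` of `M(t)/M` (`place_at`, uniqueness) and `sc_rdeg` (`R/D4.lean`) gives
`[M : k(x + y)] = ` residue degree, odd. (The hypothesis `hv` was added by helper32: without it the statement
is false.) -/
theorem pr_at (h : RF k M k' M' t) (x y : Fin n → M) (c0 : k) (h0 : c0 ≠ 0)
    (hM : ∃ z : Fin n → M, Pr k z)
    (hv : AlgebraicIndependent k (fun i => algebraMap k' M' t *
      algebraMap M M' (x i) + algebraMap M M' (y i))) (O : ValuationSubring M')
    (hO : OP (adjoin k (Set.range fun i => algebraMap k' M' t *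
      algebraMap M M' (x i) + algebraMap M M' (y i))) O)
    (ht : O.valuation (algebraMap k' M' t - algebraMap k M' c0) < 1)
    (hx : ∀ i, algebraMap M M' (x i) ∈ O) (hy : ∀ i, algebraMap M M' (y i) ∈ O) :
    Cst M O ∧ Pr k (fun i => algebraMap k M c0 * x i + y i) := by
  have hf := A6_fun (k := k) (M := M) (k' := k') (M' := M') (t := t) x y c0 h0
  have hk : Cst k O := cst_of_tower hO.cst
  refine A6_core (A6_rf h c0 h0) (fun i => algebraMap k M c0 * x i) y hM ?_ O ?_
    (A6_val hk c0 h0 ht) ?_ hy
  · rw [hf]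
    exact hv
  · rw [hf]
    exact hO
  · intro i
    rw [map_mul, ← IsScalarTower.algebraMap_apply k M M']
    exact O.mul_mem _ _ (hk c0) (hx i)

end MP2619.NP
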