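import Pool.Agent.Lib.MP_2619d0_ag.NP.A5
import Pool.Agent.Lib.MP_2619d0_ag.NP.A6

/-!
Row A7: scaling by a constant.
-/

set_option autoImplicit false

namespace MP2619.NP

universe u

open IntermediateField MP2619.R MP2619.W

variable {k M : Type u} [Field k] [Field M] [Algebra k M] {n : ℕ} {g : k} {a b c : Fin n}

private theorem A7_rs_map {M M' : Type u} [Field M] [Field M'] [Algebra M M'] (A : Finset (Fin n))
    (x : Fin n → M) :
    rs A (fun i => algebraMap M M' (x i)) = fun i => algebraMap M M' (rs A x i) := by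
  funext i
  unfold rs
  split_ifs with h
  · rfl
  · rw [map_zero]

/-- `Φ(tw A t x) = 0` if `Φ(x) = Φ(x 1_A) = 0` -/
private theorem A7_Phi {A : Finset (Fin n)} (hc : Comp g a b c A) (t : M)
    (x : Fin n → M) (hx : Phi g a b c x = 0) (hA : Phi g a b c (rs A x) = 0) :
    Phi g a b c (tw A t x) = 0 := by
  have h1 := Phi_split hc x
  rw [hx, hA, zero_add] at h1
  rw [Phi_tw hc, hA, ← h1, mul_zero, add_zero]

/-- `exists_RF k M`, `scA` with `c0`: `Pr k' (tw A (c0 t) x + y)`; by `RF.pr_iff` and `pr_cons`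
(`R/A8.lean`) `t` is transcendental over `K1 = k(tw A (c0 t) x + y)` and `[M' : K1(t)]` is odd; so is
`[M' : K1(t - 1)]`: `odd_place` (`R/A7.lean`) for `q = t - 1`. `int_of_zero`: `tw A (c0 t) x`, `y` integral, `t` is a
unit. `pr_at` (at `1`) for `x' = c0 x 1_A`, `y' = y + x 1_{Aᶜ}`. -/
theorem sc_c (hb : Base k g) (hd : Dist a b c) {A : Finset (Fin n)} (hc : Comp g a b c A)
    {x y : Fin n → M} (hD : Dt g a b c x y) (hA : Phi g a b c (rs A x) = 0) (c0 : k)
    (h0 : c0 ≠ 0) : Dt g a b c (tw A (algebraMap k M c0) x) y := by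
  classical
  refine ⟨?_, A7_Phi hc _ x hD.Px hA, hD.Py⟩
  obtain ⟨k', M', _, _, _, _, _, _, _, _, t, hRF⟩ := exists_RF k M
  obtain ⟨T, hT⟩ : ∃ T, T = algebraMap k' M' t := ⟨_, rfl⟩
  obtain ⟨X, hX⟩ : ∃ X : Fin n → M', X = tw A (algebraMap k M' c0 * T)
    (fun i => algebraMap M M' (x i)) := ⟨_, rfl⟩
  obtain ⟨Y, hY⟩ : ∃ Y : Fin n → M', Y = fun i => algebraMap M M' (y i) := ⟨_, rfl⟩
  have hP := scA hRF hb hd hc hD hA c0 h0
  have hXY : (fun i => tw A (algebraMap k M' c0 * algebraMap k' M' t)
      (fun j => algebraMap M M' (x j)) i + algebraMap M M' (y i)) = fun i => X i + Y i := by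
    rw [hX, hY, hT]
  rw [hXY, hRF.pr_iff, pr_cons, ← hT] at hP
  obtain ⟨hind, htr, hodd⟩ := hP
  -- the place over `T = 1`
  have h2K : (2 : adjoin k (Set.range fun i => X i + Y i)) = 0 := by
    rw [← map_ofNat (algebraMap k (adjoin k (Set.range fun i => X i + Y i))), hb.two, map_zero]
  have htr1 : Transcendental (adjoin k (Set.range fun i => X i + Y i)) (T - 1) := by
    intro h
    apply htr
    have h1 : T = (T - 1) + algebraMap (adjoin k (Set.range fun i => X i + Y i)) M' 1 := by
      rw [map_one, sub_add_cancel]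
    rw [h1]
    exact h.add (isAlgebraic_algebraMap _)
  have hadj : adjoin (adjoin k (Set.range fun i => X i + Y i)) ({T - 1} : Set M') =
      adjoin (adjoin k (Set.range fun i => X i + Y i)) ({T} : Set M') := by
    apply le_antisymm
    · rw [adjoin_simple_le_iff]
      exact sub_mem (mem_adjoin_simple_self _ _) (one_mem _)
    · rw [adjoin_simple_le_iff]
      have h1 := add_mem (mem_adjoin_simple_self (adjoin k (Set.range fun i => X i + Y i)) (T - 1))
        (one_mem (adjoin (adjoin k (Set.range fun i => X i + Y i)) ({T - 1} : Set M')))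
      rwa [sub_add_cancel] at h1
  obtain ⟨O, hO, hpos, -⟩ := odd_place h2K (T - 1) htr1 (by rw [hadj]; exact hodd)
  have hT1 : T - 1 ≠ 0 := by
    intro h1
    rw [h1, ord_zero] at hpos
    exact lt_irrefl _ hpos
  have hv : O.valuation (T - 1) < 1 := (lt_iff hO.dv hT1).2 hpos
  -- integrality
  have hYP : Phi g a b c Y = 0 := by
    rw [hY, Phi_map, hD.Py, map_zero]
  have hXP : Phi g a b c X = 0 := by
    rw [hX]
    refine A7_Phi hc _ _ ?_ ?_
    · rw [Phi_map, hD.Px, map_zero]
    · rw [A7_rs_map, Phi_map, hA, map_zero]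
  have hPl := int_of_zero hb hd X Y hind O hO hXP hYP
  have hTO : T ∈ O := by
    have h1 : T - 1 ∈ O := (O.valuation_le_one_iff _).1 hv.le
    have := O.add_mem _ _ h1 O.one_mem
    rwa [sub_add_cancel] at this
  have hvT : O.valuation T = 1 := by
    have h5 : O.valuation T ≤ 1 := (O.valuation_le_one_iff _).mpr hTO
    rcases lt_or_eq_of_le h5 with h6 | h6
    · exfalso
      have h7 : O.valuation (T - (T - 1)) < 1 :=
        lt_of_le_of_lt (Valuation.map_sub _ _ _) (max_lt h6 hv)
      rw [sub_sub_cancel, map_one] at h7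
      exact lt_irrefl _ h7
    · exact h6
  have hT0 : T ≠ 0 := by
    intro h1
    rw [h1, map_zero] at hvT
    exact zero_ne_one hvT
  have hTinv : T⁻¹ ∈ O := by
    rw [← O.valuation_le_one_iff, map_inv₀, hvT, inv_one]
  have hcst : Cst k O := cst_of_tower hO.cst
  have hc0 : algebraMap k M' c0 ≠ 0 := by
    rw [Ne, FaithfulSMul.algebraMap_eq_zero_iff]
    exact h0
  have hxO : ∀ i, algebraMap M M' (x i) ∈ O := by
    intro i
    have h1 := hPl.X_mem i
    rw [hX] at h1
    unfold tw at h1
    by_cases hi : i ∈ A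
    · rw [if_pos hi] at h1
      have h2 := O.mul_mem _ _ (O.mul_mem _ _ (hcst c0⁻¹) hTinv) h1
      have h3 : algebraMap k M' c0⁻¹ * T⁻¹ * (algebraMap k M' c0 * T * algebraMap M M' (x i)) =
          algebraMap M M' (x i) := by
        rw [map_inv₀]
        field_simp
      rwa [h3] at h2
    · rwa [if_neg hi] at h1
  have hyO : ∀ i, algebraMap M M' (y i) ∈ O := by
    intro i
    have h1 := hPl.Y_mem i
    rw [hY] at h1
    exact h1
  -- the point at `T = 1`
  obtain ⟨x', hx'⟩ : ∃ x' : Fin n → M, x' = fun i => if i ∈ A then algebraMap k M c0 * x i else 0 :=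
    ⟨_, rfl⟩
  obtain ⟨y', hy'⟩ : ∃ y' : Fin n → M, y' = fun i => if i ∈ A then y i else x i + y i := ⟨_, rfl⟩
  have hfun : (fun i => algebraMap k' M' t * algebraMap M M' (x' i) + algebraMap M M' (y' i)) =
      fun i => X i + Y i := by
    rw [hX, hY, ← hT]
    funext i
    rw [hx', hy']
    unfold tw
    by_cases hi : i ∈ A
    · simp only [hi, if_true, map_mul]
      rw [← IsScalarTower.algebraMap_apply k M M']
      ring
    · simp only [hi, if_false, map_zero, map_add]
      ring
  have hres := pr_at hRF x' y' 1 one_ne_zero ⟨_, hD.pr⟩ (by rw [hfun]; exact hind) O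
    (by rw [hfun]; exact hO)
    (by rw [map_one, ← hT]; exact hv) (by
      intro i
      rw [hx']
      by_cases hi : i ∈ A
      · simp only [hi, if_true, map_mul]
        rw [← IsScalarTower.algebraMap_apply k M M']
        exact O.mul_mem _ _ (hcst c0) (hxO i)
      · simp only [hi, if_false, map_zero]
        exact O.zero_mem) (by
      intro i
      rw [hy']
      by_cases hi : i ∈ A
      · simp only [hi, if_true]
        exact hyO i
      · simp only [hi, if_false, map_add]
        exact O.add_mem _ _ (hxO i) (hyO i))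
  have hfin : (fun i => algebraMap k M 1 * x' i + y' i) =
      fun i => tw A (algebraMap k M c0) x i + y i := by
    funext i
    rw [hx', hy', map_one]
    unfold tw
    by_cases hi : i ∈ A
    · simp only [hi, if_true]
      ring
    · simp only [hi, if_false]
      ring
  rw [← hfin]
  exact hres.2

end MP2619.NP
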