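import Pool.Agent.Lib.MP_2619d0_ag.NP.A3
import Pool.Agent.Lib.MP_2619d0_ag.NP.A6
import Pool.Agent.Lib.MP_2619d0_ag.W.W3
import Pool.Agent.Lib.MP_2619d0_ag.W.W6a
import Pool.Agent.Lib.MP_2619d0_ag.W.W6b

/-!
Row A8: the splitting lemma, with a parity as the hypothesis.
-/

set_option autoImplicit false

namespace MP2619.NP

universe u

open IntermediateField MP2619.R MP2619.W

variable {k M : Type u} [Field k] [Field M] [Algebra k M] {n : ℕ} {g : k} {a b c : Fin n}

private theorem A8_cube {k : Type u} [Field k] (h2 : (2 : k) = 0) (w : k) (hw : w ^ 2 + w + 1 = 0) :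
    w ^ 3 = 1 ∧ w ≠ 0 ∧ (1 : k) ≠ w ∧ (1 : k) ≠ w ^ 2 ∧ w ≠ w ^ 2 := by
  have h3 : w ^ 3 = 1 := by linear_combination (w - 1) * hw
  have hw0 : w ≠ 0 := by
    rintro rfl
    simp at hw
  have h30 : (1 : k) ≠ w := by
    intro hc
    rw [← hc] at hw
    have : (1 : k) = 0 := by linear_combination hw - h2
    exact one_ne_zero this
  have h31 : w ≠ w ^ 2 := by
    intro hc
    have h4 : w * (w - 1) = 0 := by linear_combination -hc
    rcases mul_eq_zero.mp h4 with h5 | h5
    · exact hw0 h5
    · exact h30 (sub_eq_zero.mp h5).symm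
  refine ⟨h3, hw0, h30, ?_, h31⟩
  intro hc
  have h4 : w = w ^ 3 := by rw [pow_succ, ← hc, one_mul]
  exact h30 (by rw [h4, h3])

/-- the powers `w^j`, `j < 3`, are different -/
private theorem A8_inj {k : Type u} [Field k] (h2 : (2 : k) = 0) (w : k) (hw : w ^ 2 + w + 1 = 0)
    (i j : ℕ) (hi : i < 3) (hj : j < 3) (hij : i ≠ j) : w ^ i ≠ w ^ j := by
  obtain ⟨_, _, h1w, h1ww, hwww⟩ := A8_cube h2 w hw
  have e1 := h1w.symm
  have e2 := h1ww.symm
  have e3 := hwww.symm
  interval_cases i <;> interval_cases j <;>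
    first
    | exact absurd rfl hij
    | (simp only [pow_zero, pow_one]; assumption)

private theorem A8_tw {M : Type u} [Field M] {n : ℕ} (A : Finset (Fin n)) (c : M) (x y : Fin n → M) :
    (fun i => c * (if i ∈ A then x i else 0) + (if i ∈ A then y i else x i + y i)) =
      fun i => tw A c x i + y i := by
  funext i
  unfold tw
  split_ifs with h
  · rfl
  · ring

/-- a difference of two different constants is a unit -/
private theorem A8_unit {K : Type u} {M : Type u} [Field K] [Field M] [Algebra K M]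
    {O : ValuationSubring M} (hc : Cst K O) {c : K} (h : c ≠ 0) :
    O.valuation (algebraMap K M c) = 1 := by
  have h0 : algebraMap K M c ≠ 0 := by
    rw [Ne, FaithfulSMul.algebraMap_eq_zero_iff]
    exact h
  have h1 : O.valuation (algebraMap K M c) ≤ 1 := (O.valuation_le_one_iff _).2 (hc c)
  have h2 : O.valuation (algebraMap K M c⁻¹) ≤ 1 := (O.valuation_le_one_iff _).2 (hc c⁻¹)
  rw [map_inv₀, map_inv₀] at h2
  have h3 : O.valuation (algebraMap K M c) ≠ 0 := (Valuation.ne_zero_iff _).mpr h0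
  refine le_antisymm h1 ?_
  by_contra hcon
  rw [not_le] at hcon
  have h4 : 1 < (O.valuation (algebraMap K M c))⁻¹ := (one_lt_inv₀ (zero_lt_iff.mpr h3)).2 hcon
  exact absurd h2 (not_le.mpr h4)

private theorem A8_ne {k : Type u} {M : Type u} [Field k] [Field M] [Algebra k M]
    {O : ValuationSubring M} (hc : Cst k O) {T : M} {c c' : k} (h : c ≠ c')
    (h1 : O.valuation (T - algebraMap k M c) < 1) : O.valuation (T - algebraMap k M c') = 1 := by
  have h2 : T - algebraMap k M c' = algebraMap k M (c - c') + (T - algebraMap k M c) := by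
    rw [map_sub]; ring
  have h3 := A8_unit hc (sub_ne_zero.mpr h)
  rw [h2]
  rw [← h3] at h1 ⊢
  exact Valuation.map_add_eq_of_lt_left _ h1

section
variable {k' M' : Type u} [Field k']
  [Field M'] [Algebra k k'] [Algebra k M'] [Algebra M M'] [Algebra k' M']
  [IsScalarTower k M M'] [IsScalarTower k k' M'] {t : k'}

/-- rational function fields with the generator scaled -/
private theorem A8_rf (h : RF k M k' M' t) (c : k) (hc : c ≠ 0) :
    RF k M k' M' (algebraMap k k' c⁻¹ * t) := by
  have e1 : algebraMap k' M' (algebraMap k k' c⁻¹ * t) =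
      algebraMap M M' (algebraMap k M c⁻¹) * algebraMap k' M' t := by
    rw [map_mul, ← IsScalarTower.algebraMap_apply k k' M', IsScalarTower.algebraMap_apply k M M']
  have e2 : t = algebraMap k k' c * (algebraMap k k' c⁻¹ * t) := by
    rw [← mul_assoc, ← map_mul, mul_inv_cancel₀ hc, map_one, one_mul]
  have e3 : algebraMap k' M' t =
      algebraMap M M' (algebraMap k M c) * algebraMap k' M' (algebraMap k k' c⁻¹ * t) := by
    rw [e1, ← mul_assoc, ← map_mul, ← map_mul, mul_inv_cancel₀ hc, map_one, map_one, one_mul]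
  refine ⟨?_, ?_, ?_⟩
  · intro hal
    apply h.trans
    rw [e3]
    exact (isAlgebraic_algebraMap (algebraMap k M c)).mul hal
  · rw [eq_top_iff, ← h.genk, adjoin_simple_le_iff]
    have h3 : algebraMap k k' c * (algebraMap k k' c⁻¹ * t) ∈
        adjoin k ({algebraMap k k' c⁻¹ * t} : Set k') :=
      mul_mem (IntermediateField.algebraMap_mem _ _) (mem_adjoin_simple_self _ _)
    rwa [← e2] at h3
  · rw [eq_top_iff, ← h.genM, adjoin_simple_le_iff, e3]
    exact mul_mem (IntermediateField.algebraMap_mem _ _) (mem_adjoin_simple_self _ _)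

/-- the functions agree -/
private theorem A8_fun {n : ℕ} (x y : Fin n → M) (c : k) (hc : c ≠ 0) :
    (fun i => algebraMap k' M' (algebraMap k k' c⁻¹ * t) * algebraMap M M' (algebraMap k M c * x i) +
      algebraMap M M' (y i)) = fun i => algebraMap k' M' t *
      algebraMap M M' (x i) + algebraMap M M' (y i) := by
  funext i
  congr 1
  have hc' : algebraMap k M' c ≠ 0 := (map_ne_zero _).mpr hc
  rw [map_mul, map_mul, ← IsScalarTower.algebraMap_apply k k' M',
    ← IsScalarTower.algebraMap_apply k M M', map_inv₀]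
  field_simp

end

/-- `Φ` of the twisted point -/
private theorem A8_sum {M' : Type u} [Field M'] [Algebra k M'] [Algebra M M']
    [IsScalarTower k M M'] {A : Finset (Fin n)} (hc : Comp g a b c A) (T : M') (x : Fin n → M)
    (hx : Phi g a b c x = 0) :
    Phi g a b c (tw A T (fun i => algebraMap M M' (x i))) =
      (T ^ 3 - 1) * algebraMap M M' (Phi g a b c (rs A x)) := by
  have h1 : rs A (fun i => algebraMap M M' (x i)) = fun i => algebraMap M M' (rs A x i) := by
    funext i
    unfold rs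
    split_ifs
    · rfl
    · rw [map_zero]
  have h2 := Phi_split hc (fun i => algebraMap M M' (x i))
  rw [Phi_map (g := g) (a := a) (b := b) (c := c) (M' := M') x, hx, map_zero, h1, Phi_map] at h2
  rw [Phi_tw hc, h1, Phi_map]
  linear_combination -h2

/-- As `JL` (`W/W6.lean`, adapt the proof). `x' = x 1_A`, `y' = y + x 1_{Aᶜ}`, `X = tw A t x`, `Y = y`,
`U = X + Y`, `E = Φ(rs A x)`, `G = Φ(X) = (t³ + 1) E ≠ 0` (`Phi_tw`, `Phi_split`, `Φ(x) = 0`).
* There is a `j` with `Pr` (`exists_of_cnt`): `rf_sep` (for `w^j x'`, `y'` and `w^{-j} t`, see `W6b_rf` in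
  `W/W6b.lean`) and `ord_sum_even` for `G`.
* For the `j` with `Pr`: `place_c`, `ord O_j G = 1`. An odd number of places.
* So some other odd place `O` has `ord O G` odd. `int_alt`: `X`, `Y` integral, `ord O G > 0`.
* If `val (t - w^j) < 1` for some `j`: `t` is a unit, `x` is integral; by `pr_at` this `j` has `Pr`, and
  `O = O_j` by the uniqueness in `place_c`. So `val (t³ + 1) ≥ 1`, and `E`, `t³ E` have value `< 1`. -/
theorem JL (hb : Base k g) (hd : Dist a b c) (w : k) (hw : w ^ 2 + w + 1 = 0)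
    {A : Finset (Fin n)} (hc : Comp g a b c A) (x y : Fin n → M)
    (hE : Phi g a b c (rs A x) ≠ 0) (hx : Phi g a b c x = 0) (hy : Phi g a b c y = 0)
    (hodd : Odd (cnt w A x y)) :
    ∃ (M' : Type u) (_ : Field M') (_ : Algebra k M') (_ : Algebra M M')
      (_ : IsScalarTower k M M') (t : M') (O : ValuationSubring M'), t ≠ 0 ∧
      Pl k (tw A t (fun i => algebraMap M M' (x i))) (fun i => algebraMap M M' (y i)) O ∧
      O.valuation (algebraMap M M' (Phi g a b c (rs A x))) < 1 ∧
      O.valuation (t ^ 3 * algebraMap M M' (Phi g a b c (rs A x))) < 1 := by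
  classical
  have h2 := hb.two
  obtain ⟨hw3, hw0, h1w, h1ww, hwww⟩ := A8_cube h2 w hw
  obtain ⟨j0, hj0, hPj0⟩ := exists_of_cnt hodd
  obtain ⟨k', M', _, _, _, _, _, _, _, _, t, h⟩ := exists_RF k M
  obtain ⟨T, hT⟩ : ∃ T, T = algebraMap k' M' t := ⟨_, rfl⟩
  obtain ⟨x', hx'⟩ : ∃ x' : Fin n → M, x' = fun i => if i ∈ A then x i else 0 := ⟨_, rfl⟩
  obtain ⟨y', hy'⟩ : ∃ y' : Fin n → M, y' = fun i => if i ∈ A then y i else x i + y i := ⟨_, rfl⟩
  obtain ⟨X, hX⟩ : ∃ X : Fin n → M', X = tw A T (fun i => algebraMap M M' (x i)) := ⟨_, rfl⟩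
  obtain ⟨Y, hY⟩ : ∃ Y : Fin n → M', Y = fun i => algebraMap M M' (y i) := ⟨_, rfl⟩
  have hfun : (fun i => algebraMap k' M' t * algebraMap M M' (x' i) + algebraMap M M' (y' i)) =
      fun i => X i + Y i := by
    rw [hX, hY, ← hT, ← A8_tw]
    funext i
    rw [hx', hy']
    by_cases hi : i ∈ A
    · simp only [hi, if_true]
    · simp only [hi, if_false, map_zero, map_add]
  have hPc : ∀ j : ℕ, Pr k (fun i => tw A (algebraMap k M w ^ j) x i + y i) ↔
      Pr k (fun i => algebraMap k M (w ^ j) * x' i + y' i) := by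
    intro j
    rw [hx', hy', A8_tw, map_pow]
  have hc0 : w ^ j0 ≠ 0 := pow_ne_zero _ hw0
  have hP0 := (hPc j0).1 hPj0
  obtain ⟨hind, htr, hfin, hsep⟩ := rf_sep (A8_rf h (w ^ j0) hc0) h2
    (fun i => algebraMap k M (w ^ j0) * x' i) y' hP0
  rw [A8_fun x' y' (w ^ j0) hc0, hfun] at hind htr hfin hsep
  have hplace := fun (c : k) (hc0 : c ≠ 0)
    (hc : Pr k (fun i => algebraMap k M c * x' i + y' i)) => place_c h x' y' c hc0 hc
  rw [hfun, ← hT] at hplace
  obtain ⟨E, hEdef⟩ : ∃ E, E = Phi g a b c (rs A x) := ⟨_, rfl⟩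
  rw [← hEdef] at hE ⊢
  have hE' : algebraMap M M' E ≠ 0 := by
    rw [Ne, FaithfulSMul.algebraMap_eq_zero_iff]
    exact hE
  obtain ⟨G, hGdef⟩ : ∃ G, G = Phi g a b c X := ⟨_, rfl⟩
  have hG : G = (T ^ 3 - 1) * algebraMap M M' E := by
    rw [hGdef, hX, A8_sum hc T x hx, hEdef]
  have hTtr : Transcendental M T := hT ▸ h.trans
  have hTc : ∀ c : M, T - algebraMap M M' c ≠ 0 := by
    intro c hc
    apply hTtr
    rw [sub_eq_zero.mp hc]
    exact isAlgebraic_algebraMap c
  have hTk : ∀ c : k, T - algebraMap k M' c ≠ 0 := by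
    intro c
    rw [IsScalarTower.algebraMap_apply k M M']
    exact hTc _
  have hT0 : T ≠ 0 := by
    have h3 := hTc 0
    rwa [map_zero, sub_zero] at h3
  have hw' : (algebraMap k M' w) ^ 2 + algebraMap k M' w + 1 = 0 := by
    rw [← map_pow, ← map_add, ← map_one (algebraMap k M'), ← map_add, hw, map_zero]
  have hprod : T ^ 3 - 1 = (T - algebraMap k M' (w ^ 0)) * (T - algebraMap k M' (w ^ 1)) *
      (T - algebraMap k M' (w ^ 2)) := by
    rw [pow_zero, pow_one, map_one, map_pow]
    linear_combination (T * (T - 1) - (T - 1) * (algebraMap k M' w - 1)) * hw'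
  have hG0 : G ≠ 0 := by
    rw [hG, hprod]
    exact mul_ne_zero (mul_ne_zero (mul_ne_zero (hTk _) (hTk _)) (hTk _)) hE'
  have h2K : (2 : adjoin k (Set.range fun i => X i + Y i)) = 0 := by
    rw [← map_ofNat (algebraMap k (adjoin k (Set.range fun i => X i + Y i))), h2, map_zero]
  obtain ⟨s, hs, hsum⟩ := ord_sum_even h2K _ htr hfin hsep G hG0
  have key : ∀ O : ValuationSubring M', DV O → Cst M O → ord O G =
      ord O (T - algebraMap k M' (w ^ 0)) + ord O (T - algebraMap k M' (w ^ 1)) +
        ord O (T - algebraMap k M' (w ^ 2)) := by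
    intro O hd hC
    rw [hG, hprod, ord_mul hd (mul_ne_zero (mul_ne_zero (hTk _) (hTk _)) (hTk _)) hE',
      ord_mul hd (mul_ne_zero (hTk _) (hTk _)) (hTk _), ord_mul hd (hTk _) (hTk _),
      B1_cst hC hd hE, add_zero]
  have hne : ∀ (O : ValuationSubring M'), OP (adjoin k (Set.range fun i => X i + Y i)) O →
      ∀ c c' : k, c ≠ c' → O.valuation (T - algebraMap k M' c) < 1 →
        O.valuation (T - algebraMap k M' c') = 1 := by
    intro O hO c c' hcc hv
    exact A8_ne (cst_of_tower hO.cst) hcc hv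
  have hz : ∀ (O : ValuationSubring M'), OP (adjoin k (Set.range fun i => X i + Y i)) O →
      ∀ c c' : k, c ≠ c' → O.valuation (T - algebraMap k M' c) < 1 →
        ord O (T - algebraMap k M' c') = 0 := by
    intro O hO c c' hcc hv
    exact (unit_iff hO.dv (hTk c')).1 (hne O hO c c' hcc hv)
  have hinj := A8_inj h2 w hw
  -- the places over `t = w^j`
  obtain ⟨S, hS⟩ : ∃ S : Finset ℕ, S = (Finset.range 3).filter
      (fun j => Pr k (fun i => tw A (algebraMap k M w ^ j) x i + y i)) := ⟨_, rfl⟩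
  have hSodd : Odd S.card := by
    have h3 : S.card = cnt w A x y := by
      rw [hS]
      unfold cnt
      congr!
    rw [h3]
    exact hodd
  have hSm : ∀ j, j ∈ S ↔ j < 3 ∧ Pr k (fun i => algebraMap k M (w ^ j) * x' i + y' i) := by
    intro j
    rw [hS, Finset.mem_filter, Finset.mem_range, hPc]
  have hpl : ∀ j : ℕ, ∃ O : ValuationSubring M', j ∈ S →
      (OP (adjoin k (Set.range fun i => X i + Y i)) O ∧ Cst M O ∧
      O.valuation (T - algebraMap k M' (w ^ j)) < 1 ∧
      ord O (T - algebraMap k M' (w ^ j)) = 1 ∧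
      ∀ O' : ValuationSubring M', OP (adjoin k (Set.range fun i => X i + Y i)) O' →
        O'.valuation (T - algebraMap k M' (w ^ j)) < 1 →
        (∀ i, algebraMap M M' (x' i) ∈ O') → (∀ i, algebraMap M M' (y' i) ∈ O') → O' = O) := by
    intro j
    by_cases hj : j ∈ S
    · obtain ⟨O, hO⟩ := hplace (w ^ j) (pow_ne_zero _ hw0) ((hSm j).1 hj).2
      exact ⟨O, fun _ => hO⟩
    · exact ⟨⊤, fun hj' => absurd hj' hj⟩
  choose Of hOf using hpl
  have hg1 : ∀ j ∈ S, ord (Of j) G = 1 := by
    intro j hj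
    obtain ⟨hO, hC, hv, ho, _⟩ := hOf j hj
    have hj3 := ((hSm j).1 hj).1
    rw [key (Of j) hO.dv hC]
    have hz' : ∀ i, i < 3 → i ≠ j → ord (Of j) (T - algebraMap k M' (w ^ i)) = 0 :=
      fun i hi hij => hz (Of j) hO (w ^ j) (w ^ i) (hinj j i hj3 hi (Ne.symm hij)) hv
    have hj3' : j = 0 ∨ j = 1 ∨ j = 2 := by omega
    rcases hj3' with h3 | h3 | h3
    · rw [hz' 1 (by norm_num) (by omega), hz' 2 (by norm_num) (by omega)]
      rw [h3] at ho ⊢
      rw [ho]
      norm_num
    · rw [hz' 0 (by norm_num) (by omega), hz' 2 (by norm_num) (by omega)]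
      rw [h3] at ho ⊢
      rw [ho]
      norm_num
    · rw [hz' 0 (by norm_num) (by omega), hz' 1 (by norm_num) (by omega)]
      rw [h3] at ho ⊢
      rw [ho]
      norm_num
  have hOinj : Set.InjOn Of S := by
    intro i hi j hj hij
    by_contra hne'
    have hi' := Finset.mem_coe.1 hi
    have hj' := Finset.mem_coe.1 hj
    obtain ⟨hO, hC, hv, ho, _⟩ := hOf i hi'
    obtain ⟨hO2, hC2, hv2, ho2, _⟩ := hOf j hj'
    have h3 := hne (Of i) hO (w ^ i) (w ^ j) (hinj i j ((hSm i).1 hi').1 ((hSm j).1 hj').1 hne') hv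
    rw [hij] at h3
    exact absurd h3 hv2.ne
  obtain ⟨th, hth⟩ : ∃ th : Finset (ValuationSubring M'), th = S.image Of := ⟨_, rfl⟩
  have hthsum : ∑ O ∈ th, ord O G = (S.card : ℤ) := by
    rw [hth, Finset.sum_image hOinj, Finset.sum_congr rfl hg1, Finset.sum_const, nsmul_eq_mul,
      mul_one]
  have hthop : ∀ O ∈ th, OP (adjoin k (Set.range fun i => X i + Y i)) O := by
    intro O hO
    rw [hth, Finset.mem_image] at hO
    obtain ⟨j, hj, rfl⟩ := hO
    exact (hOf j hj).1
  obtain ⟨O, hOP, hOth, hOodd⟩ : ∃ O : ValuationSubring M',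
      OP (adjoin k (Set.range fun i => X i + Y i)) O ∧ O ∉ th ∧ ¬ Even (ord O G) := by
    by_contra hcon
    push Not at hcon
    have hall : ∀ O ∈ s ∪ th, OP (adjoin k (Set.range fun i => X i + Y i)) O := by
      intro O hO
      rcases Finset.mem_union.mp hO with hO | hO
      · exact hs O hO
      · exact hthop O hO
    have he := hsum (s ∪ th) Finset.subset_union_left hall
    rw [← Finset.sum_sdiff (Finset.subset_union_right : th ⊆ s ∪ th), hthsum] at he
    have h4 : Even (∑ O ∈ (s ∪ th) \ th, ord O G) := by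
      refine Finset.even_sum _ fun O hO => ?_
      rw [Finset.mem_sdiff] at hO
      exact hcon O (hall O hO.1) hO.2
    have h6 := (Int.even_add.mp he).mp h4
    rw [Int.even_coe_nat] at h6
    exact absurd h6 (Nat.not_even_iff_odd.mpr hSodd)
  have hYs : Phi g a b c Y = 0 := by
    rw [hY, Phi_map, hy, map_zero]
  obtain ⟨hXm, hYm⟩ := (int_alt hb hd X Y hind O hOP hYs).resolve_right fun hcon =>
    hOodd (by rw [hGdef]; exact hcon.2)
  have hGm : G ∈ O := by
    rw [hGdef]
    unfold Phi
    refine add_mem (sum_mem fun i _ => pow_mem (hXm i) 3) (mul_mem ?_ ?_)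
    · exact (cst_of_tower hOP.cst : Cst k O) g
    · exact mul_mem (mul_mem (hXm a) (hXm b)) (hXm c)
  have hGv : O.valuation G < 1 := by
    rw [lt_iff hOP.dv hG0]
    have h3 := (mem_iff hOP.dv hG0).1 hGm
    rcases h3.lt_or_eq with h4 | h4
    · exact h4
    · exfalso
      apply hOodd
      rw [← h4]
      exact Even.zero
  have hX' : ∀ i, X i = if i ∈ A then T * algebraMap M M' (x i) else algebraMap M M' (x i) := by
    intro i
    rw [hX]
    rfl
  have hOP' : OP (adjoin k (Set.range fun i => algebraMap k' M' t *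
      algebraMap M M' (x' i) + algebraMap M M' (y' i))) O := by
    rw [hfun]
    exact hOP
  have hnot : ∀ j : ℕ, j < 3 → 1 ≤ O.valuation (T - algebraMap k M' (w ^ j)) := by
    intro j hj3
    by_contra hv
    rw [not_le] at hv
    have hwj : w ^ j ≠ 0 := pow_ne_zero _ hw0
    have hTv : O.valuation T = 1 := by
      have h3 := hne O hOP (w ^ j) 0 hwj hv
      rwa [map_zero, sub_zero] at h3
    have hx'm : ∀ i, algebraMap M M' (x' i) ∈ O := by
      intro i
      rw [hx']
      by_cases hi : i ∈ A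
      · simp only [hi, if_true]
        have h3 := (O.valuation_le_one_iff _).2 (hXm i)
        rw [hX' i, if_pos hi, map_mul, hTv, one_mul] at h3
        exact (O.valuation_le_one_iff _).1 h3
      · simp only [hi, if_false, map_zero]
        exact O.zero_mem
    have hy'm : ∀ i, algebraMap M M' (y' i) ∈ O := by
      intro i
      rw [hy']
      have h4 := hYm i
      rw [hY] at h4
      by_cases hi : i ∈ A
      · simp only [hi, if_true]
        exact h4
      · simp only [hi, if_false, map_add]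
        have h3 := hXm i
        rw [hX' i, if_neg hi] at h3
        exact add_mem h3 h4
    have hpr := (pr_at h x' y' (w ^ j) hwj ⟨_, hP0⟩ (by rw [hfun]; exact hind) O hOP'
      (by rw [← hT]; exact hv) hx'm hy'm).2
    have hjS : j ∈ S := (hSm j).2 ⟨hj3, hpr⟩
    have hOj := (hOf j hjS).2.2.2.2 O hOP hv hx'm hy'm
    apply hOth
    rw [hth, Finset.mem_image]
    exact ⟨j, hjS, hOj.symm⟩
  have hbig : 1 ≤ O.valuation (T ^ 3 - 1) := by
    rw [hprod, map_mul, map_mul]
    exact one_le_mul (one_le_mul (hnot 0 (by norm_num)) (hnot 1 (by norm_num))) (hnot 2 (by norm_num))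
  have hEv : O.valuation (algebraMap M M' E) < 1 := by
    refine lt_of_le_of_lt ?_ hGv
    rw [hG, map_mul]
    calc O.valuation (algebraMap M M' E) = 1 * O.valuation (algebraMap M M' E) := (one_mul _).symm
      _ ≤ O.valuation (T ^ 3 - 1) * O.valuation (algebraMap M M' E) := mul_le_mul' hbig le_rfl
  refine ⟨M', inferInstance, inferInstance, inferInstance, inferInstance, T, O, hT0, ?_, hEv, ?_⟩
  · rw [← hX, ← hY]
    exact ⟨hind, hOP, hXm, hYm⟩
  · have h3 : T ^ 3 * algebraMap M M' E = G + algebraMap M M' E := by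
      rw [hG]; ring
    rw [h3]
    exact Valuation.map_add_lt _ hGv hEv

end MP2619.NP
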