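import Pool.Agent.Lib.MP_2619d0_ag.NP.A5

/-!
Row A9: specialisation `t → 0`.
-/

set_option autoImplicit false

namespace MP2619.NP

universe u

open IntermediateField MP2619.R MP2619.W

variable {k M : Type u} [Field k] [Field M] [Algebra k M] {n : ℕ} {g : k} {a b c : Fin n}

/-- As `H` (`W/W7.lean`): `exists_RF`, `scA` with `c0 = 1`, `RF.pr_iff`, `pr_cons`, `odd_place` for `q = t`,
`int_of_zero` (`Φ(tw A t x) = Φ(y) = 0`). -/
theorem Hz (hb : Base k g) (hd : Dist a b c) {A : Finset (Fin n)} (hc : Comp g a b c A)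
    {x y : Fin n → M} (hD : Dt g a b c x y) (hA : Phi g a b c (rs A x) = 0) :
    ∃ (M' : Type u) (_ : Field M') (_ : Algebra k M') (_ : Algebra M M')
      (_ : IsScalarTower k M M') (t : M') (O : ValuationSubring M'), t ≠ 0 ∧ O.valuation t < 1 ∧
      Pl k (tw A t (fun i => algebraMap M M' (x i))) (fun i => algebraMap M M' (y i)) O := by
  obtain ⟨k', M', i1, i2, i3, i4, i5, i6, i7, i8, t, hRF⟩ := exists_RF k M
  have h1 := scA hRF hb hd hc hD hA 1 one_ne_zero
  rw [map_one, one_mul] at h1
  rw [RF.pr_iff hRF, pr_cons] at h1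
  obtain ⟨hind, htr, hodd⟩ := h1
  have h2K : (2 : adjoin k (Set.range fun i => tw A (algebraMap k' M' t)
      (fun j => algebraMap M M' (x j)) i + algebraMap M M' (y i))) = 0 := by
    have h8 := congrArg (algebraMap k (adjoin k (Set.range fun i => tw A (algebraMap k' M' t)
      (fun j => algebraMap M M' (x j)) i + algebraMap M M' (y i)))) hb.two
    rwa [map_zero, map_ofNat] at h8
  obtain ⟨O, hO, hpos, -⟩ := odd_place h2K (algebraMap k' M' t) htr hodd
  have hT0 : algebraMap k' M' t ≠ 0 := by
    intro h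
    rw [h, ord_zero] at hpos
    exact lt_irrefl 0 hpos
  have hX : Phi g a b c (tw A (algebraMap k' M' t) (fun j => algebraMap M M' (x j))) = 0 := by
    have hx0 : Phi g a b c (rs Aᶜ x) = 0 := by
      have h := Phi_split hc x
      rw [hD.Px, hA, zero_add] at h
      exact h.symm
    have hr : ∀ B : Finset (Fin n), rs B (fun j => algebraMap M M' (x j)) =
        fun j => algebraMap M M' (rs B x j) := by
      intro B
      funext j
      simp only [rs]
      split_ifs
      · rfl
      · rw [map_zero]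
    rw [Phi_tw hc, hr, hr, Phi_map, Phi_map, hA, hx0, map_zero, mul_zero, add_zero]
  have hY : Phi g a b c (fun i => algebraMap M M' (y i)) = 0 := by
    rw [Phi_map, hD.Py, map_zero]
  refine ⟨M', i2, i4, i5, i7, algebraMap k' M' t, O, hT0, (lt_iff hO.dv hT0).2 hpos, ?_⟩
  exact int_of_zero hb hd _ _ hind O hO hX hY

end MP2619.NP
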