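import Pool.Agent.Lib.MP_2619d0_ag.W.V1a

/-!
Row B1: degrees of two functions.
-/

set_option autoImplicit false

namespace MP2619.NP

universe v u

open IntermediateField MP2619.R MP2619.W

variable {K : Type v} {L : Type u} [Field K] [Field L] [Algebra K L]

private theorem B1_assoc_natDegree {p q : Polynomial K} (h1 : p ∣ q) (h2 : q ∣ p) :
    p.natDegree = q.natDegree :=
  Polynomial.natDegree_eq_of_degree_eq
    (Polynomial.degree_eq_degree_of_associated (associated_of_dvd_dvd h1 h2))

private theorem B1_num_denom {p q : Polynomial K} (hq : q ≠ 0) (hpq : IsCoprime p q) :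
    (algebraMap (Polynomial K) (RatFunc K) p / algebraMap _ _ q).num.natDegree = p.natDegree ∧
      (algebraMap (Polynomial K) (RatFunc K) p / algebraMap _ _ q).denom.natDegree =
        q.natDegree := by
  have h1 := RatFunc.num_div_dvd p hq
  have h2 := RatFunc.denom_div_dvd p q
  have h3 := (RatFunc.num_mul_eq_mul_denom_iff (x := algebraMap (Polynomial K) (RatFunc K) p /
    algebraMap _ _ q) (p := p) hq).2 rfl
  constructor
  · refine B1_assoc_natDegree h1 ?_
    exact hpq.dvd_of_dvd_mul_right (Dvd.intro _ h3.symm)
  · refine B1_assoc_natDegree h2 ?_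
    exact hpq.symm.dvd_of_dvd_mul_left (Dvd.intro_left _ h3)

private theorem B1_relfinrank {p q : Polynomial K} (hq : q ≠ 0) (hpq : IsCoprime p q) {a : L}
    (ha : Transcendental K a) :
    relfinrank (adjoin K ({Polynomial.aeval a p / Polynomial.aeval a q} : Set L))
      (adjoin K ({a} : Set L)) = max p.natDegree q.natDegree := by
  have hinj : Function.Injective (Polynomial.aeval a : Polynomial K →ₐ[K] L) :=
    transcendental_iff_injective.mp ha
  have hle := nonZeroDivisors_le_comap_nonZeroDivisors_of_injective
    (Polynomial.aeval a : Polynomial K →ₐ[K] L) hinj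
  let φ : RatFunc K →ₐ[K] L := RatFunc.liftAlgHom (Polynomial.aeval a) hle
  have hφ : ∀ P Q : Polynomial K, φ (algebraMap (Polynomial K) (RatFunc K) P /
      algebraMap (Polynomial K) (RatFunc K) Q) = Polynomial.aeval a P / Polynomial.aeval a Q :=
    fun P Q => RatFunc.liftAlgHom_apply_div (Polynomial.aeval a : Polynomial K →ₐ[K] L) hle P Q
  have hφ1 : ∀ Q : Polynomial K, φ (algebraMap (Polynomial K) (RatFunc K) Q) =
      Polynomial.aeval a Q := by
    intro Q
    have h1 := hφ Q 1
    rwa [map_one, map_one, div_one, div_one] at h1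
  have e1 : adjoin K ({Polynomial.aeval a p / Polynomial.aeval a q} : Set L) =
      (adjoin K ({algebraMap (Polynomial K) (RatFunc K) p / algebraMap _ _ q} :
        Set (RatFunc K))).map φ := by
    rw [adjoin_map, Set.image_singleton, hφ]
  have e2 : adjoin K ({a} : Set L) = (⊤ : IntermediateField K (RatFunc K)).map φ := by
    rw [← RatFunc.adjoin_X, adjoin_map, Set.image_singleton, ← RatFunc.algebraMap_X, hφ1,
      Polynomial.aeval_X]
  rw [e1, e2, relfinrank_map_map, relfinrank_top_right, RatFunc.finrank_eq_max_natDegree,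
    (B1_num_denom hq hpq).1, (B1_num_denom hq hpq).2]

private theorem B1_dg_rat (hL : ¬ Algebra.IsAlgebraic K L) {p q : Polynomial K} (hq : q ≠ 0)
    (hpq : IsCoprime p q) (a : L) :
    dg K (Polynomial.aeval a p / Polynomial.aeval a q) =
      max p.natDegree q.natDegree * dg K a := by
  have hmem : Polynomial.aeval a p / Polynomial.aeval a q ∈ adjoin K ({a} : Set L) :=
    div_mem (algebra_adjoin_le_adjoin K ({a} : Set L) (Polynomial.aeval_mem_adjoin_singleton K a))
      (algebra_adjoin_le_adjoin K ({a} : Set L) (Polynomial.aeval_mem_adjoin_singleton K a))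
  by_cases ha : IsAlgebraic K a
  · rw [dg_of_alg hL ha, mul_zero]
    refine dg_of_alg hL ?_
    have h1 : Algebra.IsAlgebraic K (adjoin K ({a} : Set L)) :=
      IntermediateField.isAlgebraic_adjoin (fun x hx => by
        rw [Set.mem_singleton_iff] at hx
        rw [hx]
        exact ha.isIntegral)
    have h2 := h1.isAlgebraic ⟨_, hmem⟩
    exact h2.algHom (adjoin K ({a} : Set L)).val
  · have h1 : adjoin K ({Polynomial.aeval a p / Polynomial.aeval a q} : Set L) ≤
        adjoin K ({a} : Set L) := by
      rw [adjoin_simple_le_iff]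
      exact hmem
    have h2 := relfinrank_mul_finrank_top h1
    rw [B1_relfinrank hq hpq ha] at h2
    exact h2.symm

/-- `a` transcendental: `[K(a) : K(f(a))] = 4` for `f = (X⁴ + a6) / X²` (numerator and denominator coprime;
see the degree of `K(X)/K(f)` in Mathlib, used for `dg_poly` in `W/V1a.lean`). `a` algebraic: both are `0`. -/
theorem dg_dbl (hL : ¬ Algebra.IsAlgebraic K L) (a6 : K) (h6 : a6 ≠ 0) (a : L) (ha : a ≠ 0) :
    dg K (a ^ 2 + algebraMap K L a6 / a ^ 2) = 4 * dg K a := by
  have hX : (Polynomial.X ^ 2 : Polynomial K) ≠ 0 := pow_ne_zero _ Polynomial.X_ne_zero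
  have hco : IsCoprime (Polynomial.X ^ 4 + Polynomial.C a6 : Polynomial K) (Polynomial.X ^ 2) := by
    refine ⟨Polynomial.C a6⁻¹, -Polynomial.C a6⁻¹ * Polynomial.X ^ 2, ?_⟩
    have h1 : (Polynomial.C a6⁻¹ * Polynomial.C a6 : Polynomial K) = 1 := by
      rw [← Polynomial.C_mul, inv_mul_cancel₀ h6, Polynomial.C_1]
    linear_combination h1
  have h1 := B1_dg_rat hL hX hco a
  have e1 : (Polynomial.X ^ 4 + Polynomial.C a6 : Polynomial K).natDegree = 4 := by
    compute_degree!
  have e2 : (Polynomial.X ^ 2 : Polynomial K).natDegree = 2 := by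
    compute_degree!
  rw [e1, e2] at h1
  have e3 : Polynomial.aeval a (Polynomial.X ^ 4 + Polynomial.C a6 : Polynomial K) /
      Polynomial.aeval a (Polynomial.X ^ 2 : Polynomial K) =
      a ^ 2 + algebraMap K L a6 / a ^ 2 := by
    simp only [map_add, map_pow, Polynomial.aeval_X, Polynomial.aeval_C]
    field_simp
  rw [e3] at h1
  exact h1

private theorem B1_natDegree {R : Type*} [Field R] (s c : R) :
    (Polynomial.X ^ 2 + Polynomial.C s * Polynomial.X + Polynomial.C c :
      Polynomial R).natDegree = 2 := by
  compute_degree!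

/-- `P = X² + s X + c` evaluated at `a`: `dg_poly` -/
theorem dg_quad (hL : ¬ Algebra.IsAlgebraic K L) (s c : K) (a : L) :
    dg K (a ^ 2 + algebraMap K L s * a + algebraMap K L c) = 2 * dg K a := by
  have h1 := dg_poly hL (Polynomial.X ^ 2 + Polynomial.C s * Polynomial.X + Polynomial.C c)
    (by rw [B1_natDegree]; norm_num) a
  rw [B1_natDegree] at h1
  simpa using h1

/-- `x` transcendental: `[K(x, y) : K(x)] ≤ 2`; it is not one: an element `y` of `K(x)` with
`y² + x y = x³ + ..` is integral over `K[x]`, so a polynomial, and `2 deg y = 3` or `deg y ≤ 1`, impossible.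
`x` algebraic: both are `0`. -/
theorem dg_two (h2 : (2 : K) = 0) (hL : ¬ Algebra.IsAlgebraic K L) (a2 a6 : K) {x y : L}
    (h : y ^ 2 + x * y = x ^ 3 + algebraMap K L a2 * x ^ 2 + algebraMap K L a6) :
    dg K x = 2 * dp K x y := by
  let F : IntermediateField K L := adjoin K ({x} : Set L)
  have hxF : x ∈ F := mem_adjoin_simple_self K x
  let X' : F := ⟨x, hxF⟩
  let cF : F := X' ^ 3 + algebraMap K F a2 * X' ^ 2 + algebraMap K F a6
  have hroot : Polynomial.aeval y (Polynomial.X ^ 2 + Polynomial.C X' * Polynomial.X +
      Polynomial.C (-cF) : Polynomial F) = 0 := by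
    simp only [map_add, map_pow, map_mul, Polynomial.aeval_X, Polynomial.aeval_C]
    have e1 : algebraMap F L X' = x := rfl
    have e2 : algebraMap F L (-cF) =
        -(x ^ 3 + algebraMap K L a2 * x ^ 2 + algebraMap K L a6) := rfl
    rw [e1, e2, h]
    exact add_neg_cancel _
  have hne : (Polynomial.X ^ 2 + Polynomial.C X' * Polynomial.X +
      Polynomial.C (-cF) : Polynomial F) ≠ 0 := by
    intro h0
    have h1 := B1_natDegree X' (-cF)
    rw [h0, Polynomial.natDegree_zero] at h1
    omega
  have hy : IsIntegral F y := isAlgebraic_iff_isIntegral.mp ⟨_, hne, hroot⟩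
  by_cases hx : IsAlgebraic K x
  · have h1 : Algebra.IsAlgebraic K F :=
      IntermediateField.isAlgebraic_adjoin (fun z hz => by
        rw [Set.mem_singleton_iff] at hz
        rw [hz]
        exact hx.isIntegral)
    have h3 : IsAlgebraic K y := by
      have h4 : IsAlgebraic F y := hy.isAlgebraic
      exact h4.restrictScalars K
    rw [dg_of_alg hL hx, dp_of_alg hL hx h3]
  · have hx0 : x ≠ 0 := by
      rintro rfl
      exact hx isAlgebraic_zero
    have hdp : dp K x y = Module.finrank (adjoin F ({y} : Set L)) L := by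
      unfold dp
      rw [← adjoin_simple_adjoin_simple]
      rfl
    have hr : Module.finrank F (adjoin F ({y} : Set L)) ≤ 2 := by
      rw [adjoin.finrank hy]
      have h1 := Polynomial.natDegree_le_of_dvd (minpoly.dvd F y hroot) hne
      rwa [B1_natDegree] at h1
    have hr0 : 0 < Module.finrank F (adjoin F ({y} : Set L)) := by
      rw [adjoin.finrank hy]
      exact minpoly.natDegree_pos hy
    have h1 : dg K x = Module.finrank F (adjoin F ({y} : Set L)) * dp K x y := by
      rw [hdp]
      exact (Module.finrank_mul_finrank F (adjoin F ({y} : Set L)) L).symm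
    -- `u = y / x`
    have hu : (y / x) ^ 2 + (y / x) = (x ^ 3 + algebraMap K L a2 * x ^ 2 + algebraMap K L a6) /
        x ^ 2 := by
      rw [← h]
      field_simp
    have h3 : adjoin K ({y / x} : Set L) ≤ adjoin K ({x, y} : Set L) := by
      rw [adjoin_simple_le_iff]
      exact div_mem (subset_adjoin K _ (by simp)) (subset_adjoin K _ (by simp))
    have h4 : relfinrank (adjoin K ({y / x} : Set L)) (adjoin K ({x, y} : Set L)) * dp K x y =
        dg K (y / x) := relfinrank_mul_finrank_top h3
    have h5 : dg K ((y / x) ^ 2 + (y / x)) = 2 * dg K (y / x) := by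
      have := dg_quad hL 1 0 (y / x)
      simpa using this
    obtain ⟨d, hd, h6⟩ : ∃ d : ℕ, Odd d ∧ dg K ((x ^ 3 + algebraMap K L a2 * x ^ 2 +
        algebraMap K L a6) / x ^ 2) = d * dg K x := by
      by_cases h60 : a6 = 0
      · refine ⟨1, odd_one, ?_⟩
        have h7 := dg_poly hL (Polynomial.X + Polynomial.C a2) (by
          rw [Polynomial.natDegree_X_add_C]; norm_num) x
        rw [Polynomial.natDegree_X_add_C] at h7
        rw [← h7]
        congr 1
        rw [h60, map_zero, map_add, Polynomial.aeval_X, Polynomial.aeval_C]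
        field_simp
        ring
      · refine ⟨3, by decide, ?_⟩
        have hX : (Polynomial.X ^ 2 : Polynomial K) ≠ 0 := pow_ne_zero _ Polynomial.X_ne_zero
        have hco : IsCoprime (Polynomial.X ^ 3 + Polynomial.C a2 * Polynomial.X ^ 2 +
            Polynomial.C a6 : Polynomial K) (Polynomial.X ^ 2) := by
          refine ⟨Polynomial.C a6⁻¹, -Polynomial.C a6⁻¹ * (Polynomial.X + Polynomial.C a2), ?_⟩
          have h1 : (Polynomial.C a6⁻¹ * Polynomial.C a6 : Polynomial K) = 1 := by
            rw [← Polynomial.C_mul, inv_mul_cancel₀ h60, Polynomial.C_1]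
          linear_combination h1
        have h7 := B1_dg_rat hL hX hco x
        have e1 : (Polynomial.X ^ 3 + Polynomial.C a2 * Polynomial.X ^ 2 +
            Polynomial.C a6 : Polynomial K).natDegree = 3 := by
          compute_degree!
        have e2 : (Polynomial.X ^ 2 : Polynomial K).natDegree = 2 := by
          compute_degree!
        rw [e1, e2] at h7
        simp only [map_add, map_pow, map_mul, Polynomial.aeval_X, Polynomial.aeval_C] at h7
        exact h7
    rw [hu, h6, ← h4] at h5
    rcases Nat.eq_zero_or_pos (dp K x y) with h0 | h0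
    · rw [h1, h0, mul_zero, mul_zero]
    · rw [h1] at h5 ⊢
      have h7 : d * Module.finrank F (adjoin F ({y} : Set L)) =
          2 * relfinrank (adjoin K ({y / x} : Set L)) (adjoin K ({x, y} : Set L)) :=
        Nat.eq_of_mul_eq_mul_right h0 (by rw [mul_assoc, mul_assoc]; exact h5)
      have h8 : Module.finrank F (adjoin F ({y} : Set L)) = 2 := by
        obtain ⟨e, he⟩ := hd
        have h9 : Module.finrank F (adjoin F ({y} : Set L)) = 1 ∨
            Module.finrank F (adjoin F ({y} : Set L)) = 2 := by omega
        rcases h9 with h9 | h9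
        · rw [h9] at h7
          omega
        · exact h9
      rw [h8]

end MP2619.NP
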