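import Mathlib

/-!
Row B2: identities on the curve `y² + x y = x³ + e x² + f` in characteristic two.
-/

set_option autoImplicit false

namespace MP2619.NP

universe u

variable {L : Type u} [Field L]

/-- slope of the line through two points -/
def sl (x1 y1 x2 y2 : L) : L := (y1 + y2) / (x1 + x2)

/-- third intersection point of the line through two points: first coordinate -/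
def tx (e x1 y1 x2 y2 : L) : L :=
  sl x1 y1 x2 y2 ^ 2 + sl x1 y1 x2 y2 + x1 + x2 + e

/-- third intersection point: second coordinate -/
def ty (e x1 y1 x2 y2 : L) : L :=
  sl x1 y1 x2 y2 * tx e x1 y1 x2 y2 + (y1 + sl x1 y1 x2 y2 * x1)

/-- the sum of two different elements is not zero -/
private theorem B2_ne (h2 : (2 : L) = 0) {x1 x2 : L} (hne : x1 ≠ x2) : x1 + x2 ≠ 0 := by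
  intro h
  apply hne
  linear_combination h - x2 * h2

private theorem B2_line (h2 : (2 : L) = 0) (e f : L) {x1 y1 x2 y2 : L}
    (h1 : y1 ^ 2 + x1 * y1 = x1 ^ 3 + e * x1 ^ 2 + f)
    (h3 : y2 ^ 2 + x2 * y2 = x2 ^ 3 + e * x2 ^ 2 + f) (hne : x1 ≠ x2) (s : L) :
    (y1 + sl x1 y1 x2 y2 * x1 + s * sl x1 y1 x2 y2) ^ 2 +
      s * (y1 + sl x1 y1 x2 y2 * x1 + s * sl x1 y1 x2 y2) + (s ^ 3 + e * s ^ 2 + f) =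
      (s + x1) * (s + x2) * (s + tx e x1 y1 x2 y2) := by
  have hd := B2_ne h2 hne
  have hl' : sl x1 y1 x2 y2 * (x1 + x2) = y1 + y2 := by
    unfold sl
    field_simp
  unfold tx
  obtain ⟨l, hl⟩ : ∃ l, l = sl x1 y1 x2 y2 := ⟨_, rfl⟩
  rw [← hl] at hl' ⊢
  have hk : (y1 + l * x1) + x1 * x2 + (x1 + x2) * (l ^ 2 + l + e + (x1 + x2)) = 0 := by
    apply mul_left_cancel₀ hd
    linear_combination (x1 + (l * (x1 + x2) + y1 + y2) + (x1 + x2)) * hl' + h1 + h3 +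
      (e * x1 * x2 + e * x1 ^ 2 + e * x2 ^ 2 + f + 2 * x1 * x2 ^ 2 + x1 * y1 + x1 * y2 + 2 * x1 ^ 2
        * x2 + x1 ^ 3 + x2 * y1 + x2 ^ 3 + y1 * y2) * h2
  linear_combination (s + x1) * hk + h1 +
    ((-1) * e * s * x1 + (-1) * e * s * x2 + (-1) * e * x1 * x2 + f + (-1) * l * s * x1 + (-1) * l
      * s * x2 + l * s * y1 + (-1) * l * x1 * x2 + l * x1 * y1 + (-1) * l * x1 ^ 2 + (-1) * l ^ 2 *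
      s * x2 + (-1) * l ^ 2 * x1 * x2 + (-3) * s * x1 * x2 + (-1) * s * x1 ^ 2 + (-1) * s * x2 ^ 2 +
      (-1) * s ^ 2 * x1 + (-1) * s ^ 2 * x2 + (-1) * x1 * x2 ^ 2 + (-1) * x1 * y1 + (-2) * x1 ^ 2 *
      x2) * h2

theorem third_curve (h2 : (2 : L) = 0) (e f : L) {x1 y1 x2 y2 : L}
    (h1 : y1 ^ 2 + x1 * y1 = x1 ^ 3 + e * x1 ^ 2 + f)
    (h3 : y2 ^ 2 + x2 * y2 = x2 ^ 3 + e * x2 ^ 2 + f) (hne : x1 ≠ x2) :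
    ty e x1 y1 x2 y2 ^ 2 + tx e x1 y1 x2 y2 * ty e x1 y1 x2 y2 =
      tx e x1 y1 x2 y2 ^ 3 + e * tx e x1 y1 x2 y2 ^ 2 + f := by
  have h := B2_line h2 e f h1 h3 hne (tx e x1 y1 x2 y2)
  have e1 : ty e x1 y1 x2 y2 = y1 + sl x1 y1 x2 y2 * x1 + tx e x1 y1 x2 y2 * sl x1 y1 x2 y2 := by
    unfold ty
    ring
  rw [e1]
  linear_combination h + ((tx e x1 y1 x2 y2 + x1) * (tx e x1 y1 x2 y2 + x2) * tx e x1 y1 x2 y2 -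
    (tx e x1 y1 x2 y2 ^ 3 + e * tx e x1 y1 x2 y2 ^ 2 + f)) * h2

theorem line_prod (h2 : (2 : L) = 0) (e f : L) {x1 y1 x2 y2 : L}
    (h1 : y1 ^ 2 + x1 * y1 = x1 ^ 3 + e * x1 ^ 2 + f)
    (h3 : y2 ^ 2 + x2 * y2 = x2 ^ 3 + e * x2 ^ 2 + f) (hne : x1 ≠ x2) (s : L) :
    (y1 + sl x1 y1 x2 y2 * x1 + s * sl x1 y1 x2 y2) ^ 2 +
      s * (y1 + sl x1 y1 x2 y2 * x1 + s * sl x1 y1 x2 y2) + (s ^ 3 + e * s ^ 2 + f) =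
      (s + x1) * (s + x2) * (s + tx e x1 y1 x2 y2) :=
  B2_line h2 e f h1 h3 hne s

/-- `tx e x1 y1 x2 y2 = x(P1 + P2)`, `tx e x1 y1 x2 (y2 + x2) = x(P1 - P2)` -/
theorem plus_minus (h2 : (2 : L) = 0) (e f : L) {x1 y1 x2 y2 : L}
    (h1 : y1 ^ 2 + x1 * y1 = x1 ^ 3 + e * x1 ^ 2 + f)
    (h3 : y2 ^ 2 + x2 * y2 = x2 ^ 3 + e * x2 ^ 2 + f) (hne : x1 ≠ x2) (s : L) :
    (s + tx e x1 y1 x2 y2) * (s + tx e x1 y1 x2 (y2 + x2)) =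
      ((x1 + x2) ^ 2 * s ^ 2 + x1 * x2 * s + ((x1 * x2) ^ 2 + f)) / (x1 + x2) ^ 2 := by
  have hd := B2_ne h2 hne
  have key : ∀ y : L, tx e x1 y1 x2 y * (x1 + x2) ^ 2 =
      (y1 + y) ^ 2 + (y1 + y) * (x1 + x2) + (x1 + x2) ^ 3 + e * (x1 + x2) ^ 2 := by
    intro y
    unfold tx sl
    field_simp
    ring
  rw [eq_div_iff (pow_ne_zero 2 hd)]
  apply mul_right_cancel₀ (pow_ne_zero 2 hd)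
  have e0 : (s + tx e x1 y1 x2 y2) * (s + tx e x1 y1 x2 (y2 + x2)) * (x1 + x2) ^ 2 * (x1 + x2) ^ 2 =
      (s * (x1 + x2) ^ 2 + tx e x1 y1 x2 y2 * (x1 + x2) ^ 2) *
        (s * (x1 + x2) ^ 2 + tx e x1 y1 x2 (y2 + x2) * (x1 + x2) ^ 2) := by ring
  rw [e0, key, key]
  linear_combination ((y1 + y2) ^ 2 + (y1 + y2) * (x1 + x2) + (x1 + x2) ^ 3 + e * (x1 + x2) ^ 2 +
      (x1 * y2 + x2 * y1 + x1 * x2 * (x1 + x2)) + x1 * x2) * (h1 + h3) + x1 ^ 2 * h3 + x2 ^ 2 * h1 +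
    (2 * e * f * x1 * x2 + e * f * x1 ^ 2 + e * f * x2 ^ 2 + 4 * e * s * x1 * x2 ^ 3 + 6 * e * s *
      x1 ^ 2 * x2 ^ 2 + 4 * e * s * x1 ^ 3 * x2 + e * s * x1 ^ 4 + e * s * x2 ^ 4 + 4 * e * x1 * x2
      * y1 * y2 + e * x1 * x2 * y1 ^ 2 + e * x1 * x2 * y2 ^ 2 + 5 * e * x1 * x2 ^ 2 * y1 + 5 * e *
      x1 * x2 ^ 2 * y2 + 3 * e * x1 * x2 ^ 3 + 8 * e * x1 * x2 ^ 4 + 4 * e * x1 ^ 2 * x2 * y1 + 4 *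
      e * x1 ^ 2 * x2 * y2 + 3 * e * x1 ^ 2 * x2 ^ 2 + 13 * e * x1 ^ 2 * x2 ^ 3 + 3 * e * x1 ^ 2 *
      y1 * y2 + e * x1 ^ 2 * y1 ^ 2 + e * x1 ^ 2 * y2 ^ 2 + e * x1 ^ 3 * x2 + 13 * e * x1 ^ 3 * x2 ^
      2 + e * x1 ^ 3 * y1 + 2 * e * x1 ^ 3 * y2 + 8 * e * x1 ^ 4 * x2 + 2 * e * x1 ^ 5 + 3 * e * x2
      ^ 2 * y1 * y2 + e * x2 ^ 2 * y1 ^ 2 + e * x2 ^ 2 * y2 ^ 2 + 3 * e * x2 ^ 3 * y1 + 2 * e * x2 ^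
      3 * y2 + e * x2 ^ 4 + 2 * e * x2 ^ 5 + 3 * e ^ 2 * x1 * x2 ^ 3 + 4 * e ^ 2 * x1 ^ 2 * x2 ^ 2 +
      3 * e ^ 2 * x1 ^ 3 * x2 + e ^ 2 * x1 ^ 4 + e ^ 2 * x2 ^ 4 + 4 * f * x1 * x2 ^ 2 + f * x1 * y1
      + 2 * f * x1 * y2 + 4 * f * x1 ^ 2 * x2 + f * x1 ^ 3 + 2 * f * x2 * y1 + f * x2 * y2 + f * x2
      ^ 3 + 2 * f * y1 * y2 + f * y1 ^ 2 + f * y2 ^ 2 + 4 * s * x1 * x2 * y1 * y2 + 2 * s * x1 * x2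
      * y1 ^ 2 + 2 * s * x1 * x2 * y2 ^ 2 + 5 * s * x1 * x2 ^ 2 * y1 + 5 * s * x1 * x2 ^ 2 * y2 + 2
      * s * x1 * x2 ^ 3 + 5 * s * x1 * x2 ^ 4 + 4 * s * x1 ^ 2 * x2 * y1 + 4 * s * x1 ^ 2 * x2 * y2
      + s * x1 ^ 2 * x2 ^ 2 + 10 * s * x1 ^ 2 * x2 ^ 3 + 2 * s * x1 ^ 2 * y1 * y2 + s * x1 ^ 2 * y1
      ^ 2 + s * x1 ^ 2 * y2 ^ 2 + 10 * s * x1 ^ 3 * x2 ^ 2 + s * x1 ^ 3 * y1 + s * x1 ^ 3 * y2 + 5 *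
      s * x1 ^ 4 * x2 + s * x1 ^ 5 + 2 * s * x2 ^ 2 * y1 * y2 + s * x2 ^ 2 * y1 ^ 2 + s * x2 ^ 2 *
      y2 ^ 2 + 2 * s * x2 ^ 3 * y1 + 2 * s * x2 ^ 3 * y2 + s * x2 ^ 4 + s * x2 ^ 5 + 4 * x1 * x2 *
      y1 * y2 + x1 * x2 * y1 ^ 2 + x1 * x2 * y2 ^ 2 + x1 * x2 ^ 2 * y1 + 6 * x1 * x2 ^ 2 * y1 * y2 +
      x1 * x2 ^ 2 * y1 ^ 2 + x1 * x2 ^ 2 * y2 + x1 * x2 ^ 2 * y2 ^ 2 + 7 * x1 * x2 ^ 3 * y1 + 6 * x1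
      * x2 ^ 3 * y2 + 4 * x1 * x2 ^ 4 + 5 * x1 * x2 ^ 5 + 2 * x1 * y1 * y2 ^ 2 + x1 * y1 ^ 2 * y2 +
      6 * x1 ^ 2 * x2 * y1 * y2 + x1 ^ 2 * x2 * y1 ^ 2 + x1 ^ 2 * x2 * y2 ^ 2 + 7 * x1 ^ 2 * x2 ^ 2
      * y1 + 7 * x1 ^ 2 * x2 ^ 2 * y2 + 5 * x1 ^ 2 * x2 ^ 3 + 9 * x1 ^ 2 * x2 ^ 4 + 4 * x1 ^ 3 * x2
      * y1 + 5 * x1 ^ 3 * x2 * y2 + 3 * x1 ^ 3 * x2 ^ 2 + 10 * x1 ^ 3 * x2 ^ 3 + 3 * x1 ^ 3 * y1 *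
      y2 + x1 ^ 3 * y1 ^ 2 + x1 ^ 3 * y2 ^ 2 + x1 ^ 4 * x2 + 9 * x1 ^ 4 * x2 ^ 2 + x1 ^ 4 * y1 + 2 *
      x1 ^ 4 * y2 + 5 * x1 ^ 5 * x2 + x1 ^ 6 + 4 * x2 * y1 * y2 ^ 2 + 5 * x2 * y1 ^ 2 * y2 + x2 * y1
      ^ 3 + x2 * y2 ^ 3 + 4 * x2 ^ 2 * y1 * y2 + 2 * x2 ^ 2 * y1 ^ 2 + 2 * x2 ^ 2 * y2 ^ 2 + x2 ^ 3
      * y1 + 3 * x2 ^ 3 * y1 * y2 + x2 ^ 3 * y1 ^ 2 + x2 ^ 3 * y2 + x2 ^ 3 * y2 ^ 2 + 3 * x2 ^ 4 *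
      y1 + 2 * x2 ^ 4 * y2 + x2 ^ 5 + x2 ^ 6 + y1 * y2 ^ 3 + 2 * y1 ^ 2 * y2 ^ 2 + y1 ^ 3 * y2) * h2

end MP2619.NP
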