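import Pool.Agent.Lib.MP_2619d0_ag.NP.B1
import Pool.Agent.Lib.MP_2619d0_ag.NP.B2
import Pool.Agent.Lib.MP_2619d0_ag.W.V1b
import Pool.Agent.Lib.MP_2619d0_ag.W.V2
import Pool.Agent.Lib.MP_2619d0_ag.W.V4

/-!
Row B3: the inequality between degrees, and the reduced block lemma.
-/

set_option autoImplicit false

namespace MP2619.NP

universe u

open IntermediateField MP2619.R MP2619.W

variable {K L : Type u} [Field K] [Field L] [Algebra K L]

private theorem B3_map_sl {L : Type*} [Field L] {L' : Type*} [Field L'] [Algebra L L']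
    (x1 y1 x2 y2 : L) :
    algebraMap L L' (sl x1 y1 x2 y2) = sl (algebraMap L L' x1) (algebraMap L L' y1)
      (algebraMap L L' x2) (algebraMap L L' y2) := by
  simp only [sl, map_add, map_div₀]

private theorem B3_map_tx {L : Type*} [Field L] {L' : Type*} [Field L'] [Algebra L L']
    (e x1 y1 x2 y2 : L) :
    algebraMap L L' (tx e x1 y1 x2 y2) = tx (algebraMap L L' e) (algebraMap L L' x1)
      (algebraMap L L' y1) (algebraMap L L' x2) (algebraMap L L' y2) := by
  simp only [tx, map_add, map_pow, B3_map_sl]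

/-- coefficients of the numerator -/
private noncomputable def B3_P {K' : Type u} [Field K'] (s c : K') (i j : ℕ) : K' :=
  if i = 0 ∧ j = 0 then c
  else if i = 2 ∧ j = 0 then s ^ 2
  else if i = 0 ∧ j = 2 then s ^ 2
  else if i = 1 ∧ j = 1 then 2 * s ^ 2 + s
  else if i = 2 ∧ j = 2 then 1 else 0

/-- coefficients of the denominator -/
private noncomputable def B3_Q (K' : Type u) [Field K'] (i j : ℕ) : K' :=
  if i = 2 ∧ j = 0 then 1
  else if i = 0 ∧ j = 2 then 1
  else if i = 1 ∧ j = 1 then 2 else 0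

private theorem B3_bvP {K' : Type u} {L' : Type u} [Field K'] [Field L'] [Algebra K' L'] (s c : K')
    (a b : L') : bv 2 (B3_P s c) a b = (a + b) ^ 2 * (algebraMap K' L' s) ^ 2 +
      a * b * algebraMap K' L' s + ((a * b) ^ 2 + algebraMap K' L' c) := by
  have e2 : algebraMap K' L' 2 = 2 := map_ofNat _ 2
  simp only [bv, B3_P, Finset.sum_range_succ, Finset.sum_range_zero]
  norm_num
  rw [e2]
  ring

private theorem B3_bvQ {K' : Type u} {L' : Type u} [Field K'] [Field L'] [Algebra K' L']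
    (a b : L') : bv 2 (B3_Q K') a b = (a + b) ^ 2 := by
  have e2 : algebraMap K' L' 2 = 2 := map_ofNat _ 2
  simp only [bv, B3_Q, Finset.sum_range_succ, Finset.sum_range_zero]
  norm_num
  rw [e2]
  ring

/-- As `dg_ineq` (`W/V6.lean`): `dg_prod_ge` for `x(P1 + P2)`, `x(P1 - P2)`, `plus_minus` and `dg_ratio_le`
over `K' = K(s)` with `e = 2`: `P = (x + y)² s² + x y s + x² y² + a6`, `Q = (x + y)²`. -/
theorem dg_ineq (h2 : (2 : K) = 0) (hL : ¬ Algebra.IsAlgebraic K L) (a2 a6 : K)
    {x1 y1 x2 y2 : L}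
    (h1 : y1 ^ 2 + x1 * y1 = x1 ^ 3 + algebraMap K L a2 * x1 ^ 2 + algebraMap K L a6)
    (h3 : y2 ^ 2 + x2 * y2 = x2 ^ 3 + algebraMap K L a2 * x2 ^ 2 + algebraMap K L a6)
    (hne : x1 ≠ x2) :
    dg K (tx (algebraMap K L a2) x1 y1 x2 y2) + dg K (tx (algebraMap K L a2) x1 y1 x2 (y2 + x2)) ≤
      2 * (dg K x1 + dg K x2) := by
  obtain ⟨K', L', i1, i2, i3, i4, i5, i6, i7, i8, s, h⟩ := exists_RF K L
  have h2' : (2 : L') = 0 := by
    have e : (2 : L') = algebraMap K L' 2 := (map_ofNat (algebraMap K L') 2).symm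
    rw [e, h2, map_zero]
  have hinj : Function.Injective (algebraMap L L') := (algebraMap L L').injective
  have hc : algebraMap L L' (algebraMap K L a6) = algebraMap K' L' (algebraMap K K' a6) := by
    rw [← IsScalarTower.algebraMap_apply K L L', ← IsScalarTower.algebraMap_apply K K' L']
  have h1' : (algebraMap L L' y1) ^ 2 + algebraMap L L' x1 * algebraMap L L' y1 =
      (algebraMap L L' x1) ^ 3 + algebraMap L L' (algebraMap K L a2) * (algebraMap L L' x1) ^ 2 +
        algebraMap K' L' (algebraMap K K' a6) := by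
    rw [← hc, ← map_pow, ← map_mul, ← map_add, h1]
    simp only [map_add, map_mul, map_pow]
  have h3' : (algebraMap L L' y2) ^ 2 + algebraMap L L' x2 * algebraMap L L' y2 =
      (algebraMap L L' x2) ^ 3 + algebraMap L L' (algebraMap K L a2) * (algebraMap L L' x2) ^ 2 +
        algebraMap K' L' (algebraMap K K' a6) := by
    rw [← hc, ← map_pow, ← map_mul, ← map_add, h3]
    simp only [map_add, map_mul, map_pow]
  have hne' : algebraMap L L' x1 ≠ algebraMap L L' x2 := fun e => hne (hinj e)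
  have hsum : algebraMap L L' x1 + algebraMap L L' x2 ≠ 0 := by
    intro e
    apply hne'
    have e2 : algebraMap L L' x1 = - algebraMap L L' x2 := eq_neg_of_add_eq_zero_left e
    have e3 : - algebraMap L L' x2 = algebraMap L L' x2 := by
      have e4 : (2 : L') * algebraMap L L' x2 = 0 := by rw [h2', zero_mul]
      have e5 : algebraMap L L' x2 + algebraMap L L' x2 = 0 := by
        rw [← two_mul]
        exact e4
      exact neg_eq_of_add_eq_zero_left e5
    rw [e2, e3]
  have hQ : bv 2 (B3_Q K') (algebraMap L L' x1) (algebraMap L L' x2) ≠ 0 := by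
    rw [B3_bvQ]
    exact pow_ne_zero 2 hsum
  have key := dg_ratio_le (K := K') (L := L') (not_alg_base h hL) (algebraMap L L' x1)
    (algebraMap L L' x2) 2 (B3_P s (algebraMap K K' a6)) (B3_Q K') hQ
  rw [dg_base h x1, dg_base h x2, B3_bvP, B3_bvQ] at key
  have hprod := dg_prod_ge h hL (m := 2)
    ![tx (algebraMap K L a2) x1 y1 x2 y2, tx (algebraMap K L a2) x1 y1 x2 (y2 + x2)]
  rw [Fin.sum_univ_two, Fin.prod_univ_two] at hprod
  simp only [Matrix.cons_val_zero, Matrix.cons_val_one] at hprod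
  have hpm := plus_minus h2' (algebraMap L L' (algebraMap K L a2))
    (algebraMap K' L' (algebraMap K K' a6)) h1' h3' hne' (algebraMap K' L' s)
  have hb : algebraMap L L' (y2 + x2) = algebraMap L L' y2 + algebraMap L L' x2 := map_add _ _ _
  rw [B3_map_tx, B3_map_tx, hb, hpm] at hprod
  exact hprod.trans key

private theorem B3_shift {K : Type u} {L : Type u} [Field K] [Field L] [Algebra K L]
    (hL : ¬ Algebra.IsAlgebraic K L) (s : K) (a : L) : dg K (algebraMap K L s + a) = dg K a := by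
  have h := dg_poly hL (Polynomial.X + Polynomial.C s)
    (by rw [Polynomial.natDegree_X_add_C]; exact one_pos) a
  rw [Polynomial.natDegree_X_add_C, one_mul] at h
  rw [← h]
  congr 1
  simp [add_comm]

/-- As `block_aux` (`W/V9a.lean`): `2 [L' : K'(Λ)] = dg K' (Λ² + s Λ + (s³ + a2 s² + a6))` (`dg_quad`)
`= dg K' (∏ (s + x_i))` (`line_prod`) `= ∑ dg K (x_i)` (`≥` `dg_prod_ge`, `≤` `dg_mul_le` twice, `dg_base`,
`dg K' (s + x) = dg K' x`) `= 2 ∑ dp K x_i y_i` (`dg_two`). -/
theorem block_aux (h2 : (2 : K) = 0) (hL : ¬ Algebra.IsAlgebraic K L) {K' L' : Type u}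
    [Field K'] [Field L'] [Algebra K K'] [Algebra K L'] [Algebra L L'] [Algebra K' L']
    [IsScalarTower K L L'] [IsScalarTower K K' L'] {s : K'} (h : RF K L K' L' s) (a2 a6 : K)
    {x1 y1 x2 y2 : L}
    (h1 : y1 ^ 2 + x1 * y1 = x1 ^ 3 + algebraMap K L a2 * x1 ^ 2 + algebraMap K L a6)
    (h3 : y2 ^ 2 + x2 * y2 = x2 ^ 3 + algebraMap K L a2 * x2 ^ 2 + algebraMap K L a6)
    (hne : x1 ≠ x2) :
    dg K' (algebraMap L L' (y1 + sl x1 y1 x2 y2 * x1) +
      algebraMap K' L' s * algebraMap L L' (sl x1 y1 x2 y2)) =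
      dp K x1 y1 + dp K x2 y2 + dp K (tx (algebraMap K L a2) x1 y1 x2 y2)
        (ty (algebraMap K L a2) x1 y1 x2 y2) := by
  have hL' : ¬ Algebra.IsAlgebraic K' L' := not_alg_base h hL
  have h2L : (2 : L) = 0 := by
    rw [← map_ofNat (algebraMap K L) 2, h2, map_zero]
  have h2L' : (2 : L') = 0 := by
    rw [← map_ofNat (algebraMap L L') 2, h2L, map_zero]
  have hc2 : algebraMap L L' (algebraMap K L a2) = algebraMap K' L' (algebraMap K K' a2) := by
    rw [← IsScalarTower.algebraMap_apply K L L', ← IsScalarTower.algebraMap_apply K K' L']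
  have hc6 : algebraMap L L' (algebraMap K L a6) = algebraMap K' L' (algebraMap K K' a6) := by
    rw [← IsScalarTower.algebraMap_apply K L L', ← IsScalarTower.algebraMap_apply K K' L']
  set φ := algebraMap L L' with hφ
  have e1 : φ y1 ^ 2 + φ x1 * φ y1 = φ x1 ^ 3 + φ (algebraMap K L a2) * φ x1 ^ 2 +
      φ (algebraMap K L a6) := by
    rw [← map_pow, ← map_mul, ← map_add, h1]
    simp only [map_add, map_mul, map_pow]
  have e3 : φ y2 ^ 2 + φ x2 * φ y2 = φ x2 ^ 3 + φ (algebraMap K L a2) * φ x2 ^ 2 +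
      φ (algebraMap K L a6) := by
    rw [← map_pow, ← map_mul, ← map_add, h3]
    simp only [map_add, map_mul, map_pow]
  have ene : φ x1 ≠ φ x2 := fun hh => hne (φ.injective hh)
  have hline := line_prod h2L' (φ (algebraMap K L a2)) (φ (algebraMap K L a6)) e1 e3 ene
    (algebraMap K' L' s)
  have hta : tx (φ (algebraMap K L a2)) (φ x1) (φ y1) (φ x2) (φ y2) =
      φ (tx (algebraMap K L a2) x1 y1 x2 y2) := by
    rw [hφ, B3_map_tx]
  rw [hta] at hline
  set Λ := φ (y1 + sl x1 y1 x2 y2 * x1) + algebraMap K' L' s * φ (sl x1 y1 x2 y2) with hΛ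
  have hΛ' : Λ = φ y1 + sl (φ x1) (φ y1) (φ x2) (φ y2) * φ x1 +
      algebraMap K' L' s * sl (φ x1) (φ y1) (φ x2) (φ y2) := by
    rw [hΛ, map_add, map_mul, hφ, B3_map_sl]
  rw [← hΛ'] at hline
  -- the polynomial
  have hpoly := dg_quad hL' s (s ^ 3 + algebraMap K K' a2 * s ^ 2 + algebraMap K K' a6) Λ
  have hval : Λ ^ 2 + algebraMap K' L' s * Λ +
      algebraMap K' L' (s ^ 3 + algebraMap K K' a2 * s ^ 2 + algebraMap K K' a6) =
        (algebraMap K' L' s + φ x1) * (algebraMap K' L' s + φ x2) *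
        (algebraMap K' L' s + φ (tx (algebraMap K L a2) x1 y1 x2 y2)) := by
    rw [← hline, hc2, hc6]
    simp only [map_add, map_mul, map_pow]
  rw [hval] at hpoly
  -- lower bound
  have hlow := dg_prod_ge h hL (![x1, x2, tx (algebraMap K L a2) x1 y1 x2 y2] : Fin 3 → L)
  rw [Fin.sum_univ_three, Fin.prod_univ_three] at hlow
  simp only [Matrix.cons_val_zero, Matrix.cons_val_one, Matrix.cons_val_two,
    Matrix.head_cons, Matrix.tail_cons] at hlow
  -- upper bound
  have hup : dg K' ((algebraMap K' L' s + φ x1) * (algebraMap K' L' s + φ x2) *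
        (algebraMap K' L' s + φ (tx (algebraMap K L a2) x1 y1 x2 y2))) ≤
      dg K x1 + dg K x2 + dg K (tx (algebraMap K L a2) x1 y1 x2 y2) := by
    refine (dg_mul_le hL' _ _).trans ?_
    have hh := dg_mul_le hL' (algebraMap K' L' s + φ x1) (algebraMap K' L' s + φ x2)
    rw [B3_shift hL', B3_shift hL', dg_base h, dg_base h] at hh
    rw [B3_shift hL', dg_base h]
    exact Nat.add_le_add_right hh _
  have hd1 := dg_two h2 hL a2 a6 h1
  have hd2 := dg_two h2 hL a2 a6 h3
  have hd3 := dg_two h2 hL a2 a6 (third_curve h2L _ _ h1 h3 hne)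
  have hlow' : dg K x1 + dg K x2 + dg K (tx (algebraMap K L a2) x1 y1 x2 y2) ≤
      dg K' ((algebraMap K' L' s + φ x1) * (algebraMap K' L' s + φ x2) *
        (algebraMap K' L' s + φ (tx (algebraMap K L a2) x1 y1 x2 y2))) := hlow
  omega

end MP2619.NP
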