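import Pool.Agent.Lib.MP_2619d0_ag.NP.E0

/-!
Row E0a: formulas of the group law of `Y² + XY = X³ + a₂X² + a₆` in characteristic two
(`WeierstrassCurve.Affine.Point.add_some`, `slope_of_X_ne`, `slope_of_Y_ne`, `add_of_Y_eq`, ...).
-/

set_option autoImplicit false

namespace MP2619.NP

universe u

open IntermediateField WeierstrassCurve

variable {K L M : Type u} [Field K] [Field L] [Field M] [Algebra K L] [Algebra K M] {a2 a6 : K}

private theorem E0a_two (h2 : (2 : K) = 0) : (2 : L) = 0 := by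
  have := congrArg (algebraMap K L) h2
  rw [map_ofNat, map_zero] at this
  exact this

private theorem E0a_a1 : ((Wo a2 a6)⁄L).a₁ = 1 := by simp [Wo]

private theorem E0a_a2 : ((Wo a2 a6)⁄L).a₂ = algebraMap K L a2 := by simp [Wo]

private theorem E0a_a3 : ((Wo a2 a6)⁄L).a₃ = 0 := by simp [Wo]

private theorem E0a_a4 : ((Wo a2 a6)⁄L).a₄ = 0 := by simp [Wo]

private theorem E0a_a6 : ((Wo a2 a6)⁄L).a₆ = algebraMap K L a6 := by simp [Wo]

private theorem E0a_eq (x y : L) : WeierstrassCurve.Affine.Equation ((Wo a2 a6)⁄L) x y ↔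
    y ^ 2 + x * y = x ^ 3 + algebraMap K L a2 * x ^ 2 + algebraMap K L a6 := by
  rw [WeierstrassCurve.Affine.equation_iff, E0a_a1, E0a_a2, E0a_a3, E0a_a4, E0a_a6]
  simp

private theorem E0a_negY (h2 : (2 : K) = 0) (x y : L) :
    WeierstrassCurve.Affine.negY ((Wo a2 a6)⁄L) x y = x + y := by
  have h := E0a_two (L := L) h2
  unfold WeierstrassCurve.Affine.negY
  rw [E0a_a1, E0a_a3]
  linear_combination (-x - y) * h

private theorem E0a_some {V : WeierstrassCurve.Affine L} {x y x' y' : L}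
    (h : V.Nonsingular x y) (hx : x = x') (hy : y = y') :
    ∃ h', (Affine.Point.some x y h : V.Point) = Affine.Point.some x' y' h' := by
  subst hx
  subst hy
  exact ⟨h, rfl⟩

theorem nonsing_iff (h2 : (2 : K) = 0) (h6 : a6 ≠ 0) (x y : L) :
    WeierstrassCurve.Affine.Nonsingular ((Wo a2 a6)⁄L) x y ↔
      y ^ 2 + x * y = x ^ 3 + algebraMap K L a2 * x ^ 2 + algebraMap K L a6 := by
  have h := E0a_two (L := L) h2
  have h6' : algebraMap K L a6 ≠ 0 := by
    intro h0
    exact h6 ((map_eq_zero (algebraMap K L)).1 h0)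
  rw [WeierstrassCurve.Affine.nonsingular_iff, E0a_eq, E0a_a1, E0a_a2, E0a_a3, E0a_a4]
  constructor
  · exact fun h => h.1
  · intro he
    refine ⟨he, ?_⟩
    by_cases hx : x = 0
    · left
      intro hy
      apply h6'
      subst hx
      have hy' : y = 0 := by
        linear_combination hy
      subst hy'
      linear_combination -he
    · right
      intro hy
      apply hx
      linear_combination hy - y * h

/-- the equation of the curve -/
theorem eqn (h2 : (2 : K) = 0) {x y : L}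
    (h : WeierstrassCurve.Affine.Nonsingular ((Wo a2 a6)⁄L) x y) :
    y ^ 2 + x * y = x ^ 3 + algebraMap K L a2 * x ^ 2 + algebraMap K L a6 :=
  (E0a_eq x y).1 h.1

/-- the negative of a point -/
theorem neg_f (h2 : (2 : K) = 0) {x y : L}
    (h : WeierstrassCurve.Affine.Nonsingular ((Wo a2 a6)⁄L) x y) :
    ∃ h', (-(Affine.Point.some x y h) : Pt a2 a6 L) = Affine.Point.some x (x + y) h' := by
  rw [Affine.Point.neg_some]
  exact E0a_some _ rfl (E0a_negY h2 x y)

/-- the sum of two points with different first coordinates -/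
theorem add_f [DecidableEq L] (h2 : (2 : K) = 0) {x1 y1 x2 y2 : L}
    (h1 : WeierstrassCurve.Affine.Nonsingular ((Wo a2 a6)⁄L) x1 y1)
    (h3 : WeierstrassCurve.Affine.Nonsingular ((Wo a2 a6)⁄L) x2 y2) (hne : x1 ≠ x2) (l x3 : L)
    (hl : l = (y1 + y2) / (x1 + x2)) (hx3 : x3 = l ^ 2 + l + x1 + x2 + algebraMap K L a2) :
    ∃ h', (Affine.Point.some x1 y1 h1 + Affine.Point.some x2 y2 h3 : Pt a2 a6 L) =
      Affine.Point.some x3 (l * (x1 + x3) + x3 + y1) h' := by
  have h := E0a_two (L := L) h2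
  rw [Affine.Point.add_of_X_ne hne]
  have hs : WeierstrassCurve.Affine.slope ((Wo a2 a6)⁄L) x1 x2 y1 y2 = l := by
    rw [WeierstrassCurve.Affine.slope_of_X_ne hne, hl]
    congr 1
    · linear_combination -y2 * h
    · linear_combination -x2 * h
  have hX : WeierstrassCurve.Affine.addX ((Wo a2 a6)⁄L) x1 x2
      (WeierstrassCurve.Affine.slope ((Wo a2 a6)⁄L) x1 x2 y1 y2) = x3 := by
    rw [hs, hx3]
    unfold WeierstrassCurve.Affine.addX
    rw [E0a_a1, E0a_a2]
    linear_combination (-x1 - x2 - algebraMap K L a2) * h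
  refine E0a_some _ hX ?_
  unfold WeierstrassCurve.Affine.addY
  rw [E0a_negY h2]
  unfold WeierstrassCurve.Affine.negAddY
  rw [hX, hs]
  linear_combination (-l * x1) * h

/-- the double of a point -/
theorem dbl_f [DecidableEq L] (h2 : (2 : K) = 0) {x y : L}
    (h : WeierstrassCurve.Affine.Nonsingular ((Wo a2 a6)⁄L) x y) (hx : x ≠ 0) (l x3 : L)
    (hl : l = x + y / x) (hx3 : x3 = l ^ 2 + l + algebraMap K L a2) :
    ∃ h', (Affine.Point.some x y h + Affine.Point.some x y h : Pt a2 a6 L) =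
      Affine.Point.some x3 (x ^ 2 + (l + 1) * x3) h' := by
  have h' := E0a_two (L := L) h2
  have hne : y ≠ WeierstrassCurve.Affine.negY ((Wo a2 a6)⁄L) x y := by
    rw [E0a_negY h2]
    intro h0
    exact hx (by linear_combination -h0)
  rw [Affine.Point.add_self_of_Y_ne hne]
  have hlx : l * x = x ^ 2 + y := by
    rw [hl]
    field_simp
  have hs : WeierstrassCurve.Affine.slope ((Wo a2 a6)⁄L) x x y y = l := by
    rw [WeierstrassCurve.Affine.slope_of_Y_ne rfl hne, E0a_negY h2, E0a_a1, E0a_a2, E0a_a4]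
    have hden : y - (x + y) = -x := by ring
    rw [hden, div_eq_iff (neg_ne_zero.2 hx)]
    linear_combination (2 * x ^ 2 + algebraMap K L a2 * x) * h' + hlx
  have hX : WeierstrassCurve.Affine.addX ((Wo a2 a6)⁄L) x x
      (WeierstrassCurve.Affine.slope ((Wo a2 a6)⁄L) x x y y) = x3 := by
    rw [hs, hx3]
    unfold WeierstrassCurve.Affine.addX
    rw [E0a_a1, E0a_a2]
    linear_combination (-x - algebraMap K L a2) * h'
  refine E0a_some _ hX ?_
  unfold WeierstrassCurve.Affine.addY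
  rw [E0a_negY h2]
  unfold WeierstrassCurve.Affine.negAddY
  rw [hX, hs]
  linear_combination -hlx - x ^ 2 * h'

/-- the points with first coordinate `0` have order two -/
theorem dbl_zero [DecidableEq L] (h2 : (2 : K) = 0) {x y : L}
    (h : WeierstrassCurve.Affine.Nonsingular ((Wo a2 a6)⁄L) x y) (hx : x = 0) :
    (Affine.Point.some x y h + Affine.Point.some x y h : Pt a2 a6 L) = 0 := by
  refine Affine.Point.add_self_of_Y_eq ?_
  rw [E0a_negY h2, hx, zero_add]

/-- two points with the same first coordinate are equal or opposite -/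
theorem eq_or_neg [DecidableEq L] (h2 : (2 : K) = 0) {x y y' : L}
    (h : WeierstrassCurve.Affine.Nonsingular ((Wo a2 a6)⁄L) x y)
    (h' : WeierstrassCurve.Affine.Nonsingular ((Wo a2 a6)⁄L) x y') :
    (Affine.Point.some x y h : Pt a2 a6 L) = Affine.Point.some x y' h' ∨
      (Affine.Point.some x y h : Pt a2 a6 L) = -Affine.Point.some x y' h' :=
  Affine.Point.X_eq_iff.1 rfl

/-- the relation between the first coordinates of two points and of their sum -/
theorem sum_rel [DecidableEq L] (h2 : (2 : K) = 0) {x1 y1 x2 y2 x3 y3 : L}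
    (h1 : WeierstrassCurve.Affine.Nonsingular ((Wo a2 a6)⁄L) x1 y1)
    (h3 : WeierstrassCurve.Affine.Nonsingular ((Wo a2 a6)⁄L) x2 y2)
    (h4 : WeierstrassCurve.Affine.Nonsingular ((Wo a2 a6)⁄L) x3 y3)
    (h : (Affine.Point.some x1 y1 h1 + Affine.Point.some x2 y2 h3 : Pt a2 a6 L) =
      Affine.Point.some x3 y3 h4) :
    (x1 * x2) ^ 2 + (x1 * x3) ^ 2 + (x2 * x3) ^ 2 + x1 * x2 * x3 + algebraMap K L a6 = 0 := by
  have h0 := E0a_two (L := L) h2
  have e1 := eqn h2 h1
  have e2 := eqn h2 h3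
  by_cases hne : x1 = x2
  · subst hne
    rcases eq_or_neg h2 h1 h3 with hc | hc
    · rw [← hc] at h
      by_cases hx : x1 = 0
      · rw [dbl_zero h2 h1 hx] at h
        exact absurd h.symm (Affine.Point.some_ne_zero h4)
      · obtain ⟨h', hd⟩ := dbl_f h2 h1 hx _ _ rfl rfl
        rw [hd] at h
        have hx3 : (x1 + y1 / x1) ^ 2 + (x1 + y1 / x1) + algebraMap K L a2 = x3 := by
          injection h
        have hm : x1 ^ 2 * x3 = x1 ^ 4 + algebraMap K L a6 := by
          rw [← hx3]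
          have e3 : x1 ^ 2 * ((x1 + y1 / x1) ^ 2 + (x1 + y1 / x1) + algebraMap K L a2) =
              (x1 ^ 2 + y1) ^ 2 + (x1 ^ 2 + y1) * x1 + algebraMap K L a2 * x1 ^ 2 := by
            field_simp
          rw [e3]
          linear_combination e1 + (x1 ^ 2 * y1 + x1 ^ 3 + algebraMap K L a2 * x1 ^ 2) * h0
        linear_combination hm + (x1 ^ 2 * x3 ^ 2 + x1 ^ 4 + algebraMap K L a6) * h0
    · rw [hc, neg_add_cancel] at h
      exact absurd h.symm (Affine.Point.some_ne_zero h4)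
  · have hs : x1 + x2 ≠ 0 := by
      intro hs
      exact hne (by linear_combination hs - x2 * h0)
    obtain ⟨h', hd⟩ := add_f h2 h1 h3 hne _ _ rfl rfl
    rw [hd] at h
    have hx3 : ((y1 + y2) / (x1 + x2)) ^ 2 + (y1 + y2) / (x1 + x2) + x1 + x2 +
        algebraMap K L a2 = x3 := by
      injection h
    have hm : x3 * (x1 + x2) ^ 2 = x1 * x2 * (x1 + x2) + (x1 * y2 + x2 * y1) := by
      rw [← hx3]
      have e3 : (((y1 + y2) / (x1 + x2)) ^ 2 + (y1 + y2) / (x1 + x2) + x1 + x2 +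
          algebraMap K L a2) * (x1 + x2) ^ 2 = (y1 + y2) ^ 2 + (y1 + y2) * (x1 + x2) +
          (x1 + x2 + algebraMap K L a2) * (x1 + x2) ^ 2 := by
        field_simp
        ring
      rw [e3]
      linear_combination e1 + e2 + (y1 * y2 + x1 ^ 3 + x2 ^ 3 + x1 ^ 2 * x2 + x1 * x2 ^ 2 +
        algebraMap K L a2 * (x1 ^ 2 + x1 * x2 + x2 ^ 2) + algebraMap K L a6) * h0
    have hmul : (x1 + x2) ^ 2 * ((x1 * x2) ^ 2 + (x1 * x3) ^ 2 + (x2 * x3) ^ 2 + x1 * x2 * x3 +
        algebraMap K L a6) = 0 := by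
      linear_combination (x3 * (x1 + x2) ^ 2 + x1 * x2 * (x1 + x2) + (x1 * y2 + x2 * y1) +
        x1 * x2) * hm + x1 ^ 2 * e2 + x2 ^ 2 * e1 + ((x1 + x2) ^ 2 * x1 ^ 2 * x2 ^ 2 +
        x1 * x2 * (x1 + x2) * (x1 * y2 + x2 * y1) + x1 * x2 * y1 * y2 +
        x1 ^ 2 * x2 ^ 2 * (x1 + x2) + algebraMap K L a2 * x1 ^ 2 * x2 ^ 2 +
        (x1 + x2) ^ 2 * algebraMap K L a6 - x1 * x2 * algebraMap K L a6 -
        x1 * x2 * (x1 + x2) ^ 2 * x3 ^ 2) * h0
    rcases mul_eq_zero.1 hmul with h5 | h5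
    · exact absurd ((pow_eq_zero_iff two_ne_zero).1 h5) hs
    · exact h5

end MP2619.NP
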