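import Pool.Agent.Lib.MP_2619d0_ag.NP.E0

/-!
Row E0b: the field generated by the coordinates of a point.
-/

set_option autoImplicit false

namespace MP2619.NP

universe u

open IntermediateField WeierstrassCurve

variable {K L M : Type u} [Field K] [Field L] [Field M] [Algebra K L] [Algebra K M] {a2 a6 : K}

theorem pf_mp [DecidableEq L] [DecidableEq M] (φ : L →ₐ[K] M) (P : Pt a2 a6 L) :
    pf (mp φ P) = φ '' pf P := by
  rcases P with _ | ⟨x, y, h⟩
  · show (∅ : Set M) = φ '' ∅
    rw [Set.image_empty]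
  · show ({φ x, φ y} : Set M) = φ '' {x, y}
    rw [Set.image_pair]

theorem pf_neg [DecidableEq L] (h2 : (2 : K) = 0) (P : Pt a2 a6 L) :
    adjoin K (pf (-P)) = adjoin K (pf P) := by
  rcases P with _ | ⟨x, y, h⟩
  · rfl
  · have hn : WeierstrassCurve.Affine.negY ((Wo a2 a6)⁄L) x y = -y - x := by
      unfold WeierstrassCurve.Affine.negY
      show -y - algebraMap K L 1 * x - algebraMap K L 0 = -y - x
      rw [map_one, map_zero]
      ring
    have e1 : pf (-(Affine.Point.some x y h) : Pt a2 a6 L) = {x, -y - x} := by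
      rw [Affine.Point.neg_some]
      show ({x, WeierstrassCurve.Affine.negY ((Wo a2 a6)⁄L) x y} : Set L) = _
      rw [hn]
    rw [e1]
    show adjoin K ({x, -y - x} : Set L) = adjoin K ({x, y} : Set L)
    apply le_antisymm
    · rw [adjoin_le_iff]
      have hx : x ∈ adjoin K ({x, y} : Set L) := subset_adjoin K _ (by simp)
      have hy : y ∈ adjoin K ({x, y} : Set L) := subset_adjoin K _ (by simp)
      rintro z (rfl | rfl)
      · exact hx
      · exact sub_mem (neg_mem hy) hx
    · rw [adjoin_le_iff]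
      have hx : x ∈ adjoin K ({x, -y - x} : Set L) := subset_adjoin K _ (by simp)
      have hy : -y - x ∈ adjoin K ({x, -y - x} : Set L) := subset_adjoin K _ (by simp)
      rintro z (rfl | rfl)
      · exact hx
      · have := neg_mem (add_mem hy hx)
        have e2 : -(-z - x + x) = z := by ring
        rwa [e2] at this

/-- a point with coordinates in a subfield -/
theorem exists_of_mem [DecidableEq L] (F : IntermediateField K L) (P : Pt a2 a6 L)
    (h : pf P ⊆ F) : ∃ P0 : Pt a2 a6 F, mp F.val P0 = P := by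
  rcases P with _ | ⟨x, y, hP⟩
  · exact ⟨0, rfl⟩
  · have hx : x ∈ F := h (by show x ∈ ({x, y} : Set L); simp)
    have hy : y ∈ F := h (by show y ∈ ({x, y} : Set L); simp)
    refine ⟨Affine.Point.some (⟨x, hx⟩ : F) (⟨y, hy⟩ : F)
      ((WeierstrassCurve.Affine.baseChange_nonsingular (Wo a2 a6) (f := F.val)
        F.val.injective _ _).mp hP), rfl⟩

theorem mp_ofId [DecidableEq K] [DecidableEq L] [DecidableEq M] (φ : L →ₐ[K] M)
    (e : Pt a2 a6 K) : mp φ (bs e) = bs e := by
  have h := Affine.Point.map_map (W' := Wo a2 a6) (Algebra.ofId K L) φ e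
  have h2 : φ.comp (Algebra.ofId K L) = Algebra.ofId K M := Subsingleton.elim _ _
  rw [h2] at h
  exact h

theorem adjoin_add_bs_le [DecidableEq K] [DecidableEq L] (c : Pt a2 a6 L) (e : Pt a2 a6 K) :
    adjoin K (pf (c + bs e)) ≤ adjoin K (pf c) := by
  obtain ⟨c0, hc0⟩ := exists_of_mem (adjoin K (pf c)) c (subset_adjoin K _)
  have h1 : c + bs e = mp (adjoin K (pf c)).val (c0 + bs e) := by
    rw [map_add, hc0, mp_ofId]
  rw [adjoin_le_iff, h1, pf_mp]
  rintro z ⟨w, -, rfl⟩
  exact w.2

/-- adding a point over `K` does not change the field of a point -/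
theorem adjoin_add_bs [DecidableEq K] [DecidableEq L] (c : Pt a2 a6 L) (e : Pt a2 a6 K) :
    adjoin K (pf (c + bs e)) = adjoin K (pf c) := by
  apply le_antisymm (adjoin_add_bs_le c e)
  have h := adjoin_add_bs_le (c + bs e) (-e)
  have h1 : c + bs e + bs (-e) = c := by rw [map_neg]; abel
  rwa [h1] at h

end MP2619.NP
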