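import Pool.Agent.Lib.MP_2619d0_ag.NP.B3
import Pool.Agent.Lib.MP_2619d0_ag.NP.E0a
import Pool.Agent.Lib.MP_2619d0_ag.NP.E0b

/-!
Row B5: the degree on the elliptic curve satisfies the parallelogram law (as `W/V7.lean`).
-/

set_option autoImplicit false

namespace MP2619.NP

universe u

open IntermediateField MP2619.R MP2619.W WeierstrassCurve

variable {K L : Type u} [Field K] [Field L] [Algebra K L] {a2 a6 : K}

theorem pdeg_zero (hL : ¬ Algebra.IsAlgebraic K L) : pdeg K (0 : Pt a2 a6 L) = 0 := by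
  have h0 : pf (0 : Pt a2 a6 L) = ∅ := rfl
  rw [pdeg, h0, adjoin_empty, finrank_bot']
  by_contra h
  have := Module.finite_of_finrank_pos (Nat.pos_of_ne_zero h)
  exact hL (Algebra.IsAlgebraic.of_finite K L)

theorem pdeg_some {x y : L} (h : WeierstrassCurve.Affine.Nonsingular ((Wo a2 a6)⁄L) x y) :
    pdeg K (Affine.Point.some x y h : Pt a2 a6 L) = dp K x y := rfl

theorem pdeg_neg [DecidableEq L] (h2 : (2 : K) = 0) (P : Pt a2 a6 L) :
    pdeg K (-P) = pdeg K P := by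
  rw [pdeg, pdeg, pf_neg h2]

private theorem B5_two (h2 : (2 : K) = 0) (hL : ¬ Algebra.IsAlgebraic K L) {x y : L}
    (h : WeierstrassCurve.Affine.Nonsingular ((Wo a2 a6)⁄L) x y) :
    dg K x = 2 * pdeg K (Affine.Point.some x y h : Pt a2 a6 L) := by
  rw [pdeg_some]
  exact dg_two h2 hL a2 a6 (eqn h2 h)

/-- `x(2P) = x² + a6 / x²` (`dbl_f`, and `dbl_zero`), `dg_dbl`, `dg_two` -/
theorem pdeg_double [DecidableEq L] (h2 : (2 : K) = 0) (h6 : a6 ≠ 0)
    (hL : ¬ Algebra.IsAlgebraic K L) (P : Pt a2 a6 L) : pdeg K (P + P) = 4 * pdeg K P := by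
  have h2' : (2 : L) = 0 := by
    have := congrArg (algebraMap K L) h2
    rwa [map_ofNat, map_zero] at this
  rcases P with (_ | ⟨x, y, h⟩)
  · change pdeg K ((0 : Pt a2 a6 L) + 0) = 4 * pdeg K (0 : Pt a2 a6 L)
    rw [add_zero, pdeg_zero hL]
  · have k2 := B5_two h2 hL h
    by_cases hx : x = 0
    · rw [dbl_zero h2 h hx, pdeg_zero hL]
      have k3 : dg K x = 0 := dg_of_alg hL (by rw [hx]; exact isAlgebraic_zero)
      omega
    · obtain ⟨h', e⟩ := dbl_f h2 h hx _ _ rfl rfl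
      rw [e]
      have k1 := B5_two h2 hL h'
      have k3 := dg_dbl hL a6 h6 x hx
      have k4 : (x + y / x) ^ 2 + (x + y / x) + algebraMap K L a2 =
          x ^ 2 + algebraMap K L a6 / x ^ 2 := by
        have h5 := eqn h2 h
        have hx2 : x ^ 2 ≠ 0 := pow_ne_zero 2 hx
        obtain ⟨q, hq⟩ : ∃ q, q = y / x := ⟨_, rfl⟩
        obtain ⟨r, hr⟩ : ∃ r, r = algebraMap K L a6 / x ^ 2 := ⟨_, rfl⟩
        have hq' : y = q * x := by rw [hq, div_mul_cancel₀ y hx]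
        have hr' : algebraMap K L a6 = r * x ^ 2 := by rw [hr, div_mul_cancel₀ _ hx2]
        rw [← hq, ← hr]
        rw [hq', hr'] at h5
        apply mul_left_cancel₀ hx2
        linear_combination h5 + (x ^ 2 * (q * x) + x ^ 3 + algebraMap K L a2 * x ^ 2) * h2'
      have k0 : dg K ((x + y / x) ^ 2 + (x + y / x) + algebraMap K L a2) =
          dg K (x ^ 2 + algebraMap K L a6 / x ^ 2) := by rw [k4]
      rw [k0, k3] at k1
      omega

/-- the third intersection point of the line through two points with different first coordinates -/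
theorem third_point [DecidableEq L] (h2 : (2 : K) = 0) (h6 : a6 ≠ 0) {x1 y1 x2 y2 : L}
    (h1 : WeierstrassCurve.Affine.Nonsingular ((Wo a2 a6)⁄L) x1 y1)
    (h3 : WeierstrassCurve.Affine.Nonsingular ((Wo a2 a6)⁄L) x2 y2) (hne : x1 ≠ x2) :
    ∃ h : WeierstrassCurve.Affine.Nonsingular ((Wo a2 a6)⁄L)
        (tx (algebraMap K L a2) x1 y1 x2 y2) (ty (algebraMap K L a2) x1 y1 x2 y2),
      (Affine.Point.some _ _ h : Pt a2 a6 L) =
        -(Affine.Point.some x1 y1 h1 + Affine.Point.some x2 y2 h3) := by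
  have h2' : (2 : L) = 0 := by
    have := congrArg (algebraMap K L) h2
    rwa [map_ofNat, map_zero] at this
  obtain ⟨h4, e4⟩ := add_f h2 h1 h3 hne (sl x1 y1 x2 y2) (tx (algebraMap K L a2) x1 y1 x2 y2)
    rfl rfl
  obtain ⟨h5, e5⟩ := neg_f h2 h4
  rw [e4, e5]
  have key : ∀ Y, Y = tx (algebraMap K L a2) x1 y1 x2 y2 + (sl x1 y1 x2 y2 * (x1 +
      tx (algebraMap K L a2) x1 y1 x2 y2) + tx (algebraMap K L a2) x1 y1 x2 y2 + y1) →
      ∃ h : WeierstrassCurve.Affine.Nonsingular ((Wo a2 a6)⁄L)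
        (tx (algebraMap K L a2) x1 y1 x2 y2) Y,
      (Affine.Point.some _ _ h : Pt a2 a6 L) = Affine.Point.some _ _ h5 := by
    rintro _ rfl
    exact ⟨h5, rfl⟩
  refine key _ ?_
  rw [ty]
  linear_combination (-tx (algebraMap K L a2) x1 y1 x2 y2) * h2'

/-- `P = 0` or `Q = 0`: clear. `P = ± Q`: `pdeg_double`. Otherwise `dg_ineq`, `dg_two`, `add_f`, `neg_f`. -/
theorem pdeg_le [DecidableEq L] (h2 : (2 : K) = 0) (h6 : a6 ≠ 0)
    (hL : ¬ Algebra.IsAlgebraic K L) (P Q : Pt a2 a6 L) :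
    pdeg K (P + Q) + pdeg K (P - Q) ≤ 2 * (pdeg K P + pdeg K Q) := by
  by_cases hP : P = 0
  · subst hP
    rw [zero_add, zero_sub, pdeg_neg h2, pdeg_zero hL]
    omega
  by_cases hQ : Q = 0
  · subst hQ
    rw [add_zero, sub_zero, pdeg_zero hL]
    omega
  by_cases hPQ : P = Q
  · subst hPQ
    rw [sub_self, pdeg_zero hL, pdeg_double h2 h6 hL]
    omega
  by_cases hPQ' : P = -Q
  · have e1 : P + Q = 0 := by rw [hPQ', neg_add_cancel]
    have e2 : P - Q = P + P := by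
      rw [sub_eq_add_neg, ← hPQ']
    have e3 : pdeg K Q = pdeg K P := by rw [hPQ', pdeg_neg h2]
    rw [e1, e2, e3, pdeg_zero hL, pdeg_double h2 h6 hL]
    omega
  rcases P with (_ | ⟨x1, y1, h1⟩)
  · exact absurd rfl hP
  rcases Q with (_ | ⟨x2, y2, h3⟩)
  · exact absurd rfl hQ
  have hne : x1 ≠ x2 := by
    rintro rfl
    rcases eq_or_neg h2 h1 h3 with e | e
    · exact hPQ e
    · exact hPQ' e
  obtain ⟨n1, m1⟩ := third_point h2 h6 h1 h3 hne
  obtain ⟨h4, hQn⟩ := neg_f h2 h3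
  obtain ⟨n2, m2⟩ := third_point h2 h6 h1 h4 hne
  have t1 := B5_two h2 hL n1
  have t2 := B5_two h2 hL n2
  have t3 := B5_two h2 hL h1
  have t4 := B5_two h2 hL h3
  rw [m1, pdeg_neg h2] at t1
  rw [m2, pdeg_neg h2, ← hQn, ← sub_eq_add_neg] at t2
  have t5 := dg_ineq h2 hL a2 a6 (eqn h2 h1) (eqn h2 h3) hne
  rw [add_comm y2 x2] at t5
  omega

/-- `pdeg_le` for `P, Q` and for `P + Q, P - Q`, and `pdeg_double`. -/
theorem pdeg_par [DecidableEq L] (h2 : (2 : K) = 0) (h6 : a6 ≠ 0)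
    (hL : ¬ Algebra.IsAlgebraic K L) (P Q : Pt a2 a6 L) :
    pdeg K (P + Q) + pdeg K (P - Q) = 2 * (pdeg K P + pdeg K Q) := by
  have h3 := pdeg_le h2 h6 hL P Q
  have h4 := pdeg_le h2 h6 hL (P + Q) (P - Q)
  have e1 : P + Q + (P - Q) = P + P := by abel
  have e2 : P + Q - (P - Q) = Q + Q := by abel
  rw [e1, e2, pdeg_double h2 h6 hL, pdeg_double h2 h6 hL] at h4
  omega

end MP2619.NP
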