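import Pool.Agent.Lib.MP_2619d0_ag.NP.B4
import Pool.Agent.Lib.MP_2619d0_ag.NP.B5

/-!
Row B6: the degree of a block is even, given the parity theorem on the curve (E5).
-/

set_option autoImplicit false

namespace MP2619.NP

universe u

open IntermediateField MP2619.R MP2619.W WeierstrassCurve

/-- the parity theorem on the curve (E5) -/
def E5 : Prop := ∀ (K L : Type u) [Field K] [Field L] [Algebra K L] [DecidableEq L]
  (a2 a6 h : K) (s : ℕ), (2 : K) = 0 → a6 = h ^ (2 ^ s) → (∀ r : K, r ^ 2 ≠ h) →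
  (∃ T : L, Transcendental K T ∧ Module.finrank (adjoin K ({T} : Set L)) L ≠ 0) →
  ∀ P Q : Pt a2 a6 L, Even (pdeg K P + pdeg K Q + pdeg K (P + Q))

/-- `block`, `pdeg_some`, `third_point`, `pdeg_neg` and `E5`; `a6 ≠ 0` because `h` is not a square;
`nonsing_iff`. -/
theorem block_even (hE : E5.{u}) {K L N : Type u} [Field K] [Field L] [Field N] [Algebra K L]
    [Algebra K N] [Algebra L N] [IsScalarTower K L N] (h2 : (2 : K) = 0) (a2 a6 h : K) (s : ℕ)
    (ha : a6 = h ^ (2 ^ s)) (hh : ∀ r : K, r ^ 2 ≠ h)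
    (hT : ∃ T : L, Transcendental K T ∧ Module.finrank (adjoin K ({T} : Set L)) L ≠ 0)
    (al be : N) (hind : AlgebraicIndependent L ![al, be])
    (hgen : adjoin L ({al, be} : Set N) = ⊤) {x1 y1 x2 y2 : L}
    (h1 : y1 ^ 2 + x1 * y1 = x1 ^ 3 + algebraMap K L a2 * x1 ^ 2 + algebraMap K L a6)
    (h3 : y2 ^ 2 + x2 * y2 = x2 ^ 3 + algebraMap K L a2 * x2 ^ 2 + algebraMap K L a6)
    (hne : x1 ≠ x2) :
    Even (Module.finrank (adjoin K ({al + be, al * algebraMap L N x1 + be * algebraMap L N x2,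
      al * algebraMap L N y1 + be * algebraMap L N y2} : Set N)) N) := by
  classical
  have hh0 : h ≠ 0 := by
    intro h0
    exact hh 0 (by rw [h0]; norm_num)
  have h6 : a6 ≠ 0 := by rw [ha]; exact pow_ne_zero _ hh0
  have hL : ¬ Algebra.IsAlgebraic K L := by
    obtain ⟨T, hT1, _⟩ := hT
    intro hc
    exact hT1 (hc.isAlgebraic T)
  rw [block h2 hL al be hind hgen a2 a6 h1 h3 hne]
  have n1 : WeierstrassCurve.Affine.Nonsingular ((Wo a2 a6)⁄L) x1 y1 := (nonsing_iff h2 h6 x1 y1).2 h1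
  have n2 : WeierstrassCurve.Affine.Nonsingular ((Wo a2 a6)⁄L) x2 y2 := (nonsing_iff h2 h6 x2 y2).2 h3
  obtain ⟨n3, hn3⟩ := third_point (K := K) (L := L) h2 h6 n1 n2 hne
  have e := hE K L a2 a6 h s h2 ha hh hT (Affine.Point.some x1 y1 n1) (Affine.Point.some x2 y2 n2)
  rw [← pdeg_neg h2 (Affine.Point.some x1 y1 n1 + Affine.Point.some x2 y2 n2), ← hn3, pdeg_some, pdeg_some,
    pdeg_some] at e
  exact e

end MP2619.NP
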