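import Pool.Agent.Lib.MP_2619d0_ag.NP.A9
import Pool.Agent.Lib.MP_2619d0_ag.NP.A10
import Pool.Agent.Lib.MP_2619d0_ag.NP.D0

/-!
Row D1: homogenisation of the two halves of a block.
-/

set_option autoImplicit false

namespace MP2619.NP

universe u

open IntermediateField MP2619.R MP2619.W

variable {k M : Type u} [Field k] [Field M] [Algebra k M] {n : ℕ} {g : k} {a b c : Fin n}

private theorem D1_map {k M M' : Type u} [Field k] [Field M] [Field M'] [Algebra k M]
    [Algebra k M'] (f : M →ₐ[k] M') (E : IntermediateField k M) :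
    Algebra.trdeg k (E.map f) = Algebra.trdeg k E :=
  (E.equivMap f).symm.trdeg_eq

private theorem D1_div {M' N : Type u} [Field M'] [Field N] {O : ValuationSubring M'}
    (φ : O →+* N) (hφ : ∀ z : O, φ z = 0 ↔ O.valuation (z : M') < 1) (a b : O) :
    ∃ d : O, ((d : M') = (a : M') / (b : M') ∨ (d : M') = 0) ∧ φ d = φ a / φ b := by
  by_cases h0 : φ b = 0
  · exact ⟨0, Or.inr rfl, by rw [h0]; simp⟩
  · have hu : IsUnit b := by
      refine (O.valuation_eq_one_iff b).2 (le_antisymm (O.valuation_le_one b) ?_)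
      rw [← not_lt]
      exact fun h => h0 ((hφ b).2 h)
    obtain ⟨u, hu'⟩ := hu
    have h10 : (((u⁻¹ : Oˣ) : O) : M') * (b : M') = 1 := by
      rw [← hu']
      exact congrArg (fun t : O => (t : M')) (u.inv_mul)
    have h11 : (b : M') ≠ 0 := right_ne_zero_of_mul_eq_one h10
    refine ⟨a * ((u⁻¹ : Oˣ) : O), Or.inl ?_, ?_⟩
    · rw [MulMemClass.coe_mul, eq_div_iff h11]
      linear_combination (a : M') * h10
    · rw [map_mul, eq_div_iff h0]
      have h12 : φ ((u⁻¹ : Oˣ) : O) * φ b = 1 := by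
        rw [← map_mul, ← hu', u.inv_mul, map_one]
      linear_combination (φ a) * h12

private theorem D1_inv {M M' : Type u} [Field M] [Field M'] [Algebra M M']
    (O : ValuationSubring M') (t : M') (ht1 : O.valuation t < 1) (a : M)
    (h : O.valuation (t * algebraMap M M' a) = 1) :
    a ≠ 0 ∧ O.valuation (algebraMap M M' a⁻¹) < 1 := by
  have ha : a ≠ 0 := by
    rintro rfl
    rw [map_zero, mul_zero, map_zero] at h
    exact zero_ne_one h
  refine ⟨ha, ?_⟩
  have h1 : O.valuation (algebraMap M M' a) ≠ 0 := by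
    rw [Valuation.ne_zero_iff]
    exact (map_ne_zero _).2 ha
  rw [map_mul] at h
  rw [map_inv₀, map_inv₀, ← eq_inv_of_mul_eq_one_left h]
  exact ht1

private theorem D1_trdeg {k M : Type u} [Field k] [Field M] [Algebra k M] {n : ℕ}
    (u : Fin n → M) (hu : Pr k u) : Algebra.trdeg k M = n := by
  have hfd : FiniteDimensional (adjoin k (Set.range u)) M :=
    Module.finite_of_finrank_pos hu.2.pos
  have halgF : Algebra.IsAlgebraic (adjoin k (Set.range u)) M := Algebra.IsAlgebraic.of_finite _ _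
  have hub : IsTranscendenceBasis k u :=
    hu.1.isTranscendenceBasis_iff_isAlgebraic.mpr (isAlgebraic_adjoin_iff_top.mp halgF)
  have htr := hub.lift_cardinalMk_eq_trdeg
  simpa using htr.symm

private theorem D1_rs {M M' : Type u} [Field M] [Field M'] [Algebra M M'] (C : Finset (Fin n))
    (x : Fin n → M) : rs C (fun i => algebraMap M M' (x i)) =
      fun i => algebraMap M M' (rs C x i) := by
  funext i
  unfold rs
  split_ifs
  · rfl
  · rw [map_zero]

/-- the common part -/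
private theorem D1_core (hb : Base k g) (hd : Dist a b c) {C : Finset (Fin n)} (hC : C.Nonempty)
    (hc : Comp g a b c C) {x y : Fin n → M} (hD : Dt g a b c x y)
    (hx : Phi g a b c (rs C x) = 0) (hy : Phi g a b c (rs C y) = 0) (e : ℕ)
    (E0 : IntermediateField k M) (hE : ∀ i ∈ C, x i ∈ E0)
    (ht : Algebra.trdeg k E0 < (e + 1 : ℕ)) :
    ∃ (N : Type u) (_ : Field N) (_ : Algebra k N) (x' y' : Fin n → N), Dt g a b c x' y' ∧
      Phi g a b c (rs C x') = 0 ∧ Phi g a b c (rs C y') = 0 ∧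
      ∀ S : Set N, (∀ z ∈ S, (∃ i ∈ C, ∃ j ∈ C, z = x' i / x' j) ∨
        (∃ i j, y i / y j ∈ E0 ∧ z = y' i / y' j) ∨ (∃ i ∉ C, x i ∈ E0 ∧ z = x' i) ∨
        (∃ i, y i ∈ E0 ∧ z = y' i)) → Algebra.trdeg k (adjoin k S) < e := by
  obtain ⟨M', _, _, _, _, t, O, ht0, ht1, hPl⟩ := Hz hb hd hc hD hx
  have hxc : Phi g a b c (rs Cᶜ x) = 0 := by
    have h1 := Phi_split hc x
    rw [hD.Px, hx, zero_add] at h1
    exact h1.symm
  have hX0 : Phi g a b c (tw C t (fun i => algebraMap M M' (x i))) = 0 := by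
    rw [Phi_tw hc, D1_rs, D1_rs, Phi_map, Phi_map, hx, hxc, map_zero, mul_zero, add_zero]
  have hY0 : Phi g a b c (fun i => algebraMap M M' (y i)) = 0 := by
    rw [Phi_map, hD.Py, map_zero]
  obtain ⟨N, _, _, φ, x', y', hφ, hx', hy', hD', hCx, hCy, -, htr⟩ :=
    Pl_data (g := g) (a := a) (b := b) (c := c) hPl (by rw [hX0, map_zero]; exact zero_lt_one)
      (by rw [hY0, map_zero]; exact zero_lt_one)
  have hCx0 : Phi g a b c (rs C x') = 0 := by
    refine hCx C ?_
    rw [rs_tw, Phi_smul, D1_rs, Phi_map, hx, map_zero, mul_zero, map_zero]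
    exact zero_lt_one
  have hCy0 : Phi g a b c (rs C y') = 0 := by
    refine hCy C ?_
    rw [D1_rs, Phi_map, hy, map_zero, map_zero]
    exact zero_lt_one
  refine ⟨N, inferInstance, inferInstance, x', y', hD', hCx0, hCy0, ?_⟩
  intro S hS
  let f : M →ₐ[k] M' := IsScalarTower.toAlgHom k M M'
  have hf : ∀ z : M, f z = algebraMap M M' z := fun z => rfl
  have htw : ∀ i ∈ C, tw C t (fun i => algebraMap M M' (x i)) i = t * algebraMap M M' (x i) := by
    intro i hi
    unfold tw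
    rw [if_pos hi]
  have htw' : ∀ i ∉ C, tw C t (fun i => algebraMap M M' (x i)) i = algebraMap M M' (x i) := by
    intro i hi
    unfold tw
    rw [if_neg hi]
  obtain ⟨i, hi, hi0⟩ := exists_ne hd hD'.symm hC hCy0
  have hi1 : O.valuation (t * algebraMap M M' (x i)) = 1 := by
    rw [← htw i hi]
    refine le_antisymm (O.valuation_le_one ⟨_, hPl.X_mem i⟩) ?_
    rw [← not_lt]
    intro h
    apply hi0
    rw [hx' i]
    exact (hφ ⟨_, hPl.X_mem i⟩).2 h
  obtain ⟨hx0, hx1⟩ := D1_inv O t ht1 (x i) hi1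
  refine htr (E0.map f) S e ?_ (by rw [D1_map]; exact ht)
    ⟨f (x i)⁻¹, ⟨(x i)⁻¹, E0.inv_mem (hE i hi), rfl⟩, ?_, hx1⟩
  · intro z hz
    rcases hS z hz with ⟨i, hi, j, hj, rfl⟩ | ⟨i, j, hij, rfl⟩ | ⟨i, hi, hiE, rfl⟩ | ⟨i, hiE, rfl⟩
    · obtain ⟨d, hd1, hd2⟩ := D1_div φ hφ ⟨_, hPl.X_mem i⟩ ⟨_, hPl.X_mem j⟩
      refine ⟨d, ?_, by rw [hd2, hx' i, hx' j]⟩
      rcases hd1 with hd1 | hd1
      · rw [hd1]
        change tw C t (fun i => algebraMap M M' (x i)) i /
          tw C t (fun i => algebraMap M M' (x i)) j ∈ E0.map f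
        rw [htw i hi, htw j hj, mul_div_mul_left _ _ ht0, ← map_div₀]
        exact ⟨x i / x j, E0.div_mem (hE i hi) (hE j hj), rfl⟩
      · rw [hd1]; exact (E0.map f).zero_mem
    · obtain ⟨d, hd1, hd2⟩ := D1_div φ hφ ⟨_, hPl.Y_mem i⟩ ⟨_, hPl.Y_mem j⟩
      refine ⟨d, ?_, by rw [hd2, hy' i, hy' j]⟩
      rcases hd1 with hd1 | hd1
      · rw [hd1]
        change algebraMap M M' (y i) / algebraMap M M' (y j) ∈ E0.map f
        rw [← map_div₀]
        exact ⟨y i / y j, hij, rfl⟩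
      · rw [hd1]; exact (E0.map f).zero_mem
    · refine ⟨⟨_, hPl.X_mem i⟩, ?_, (hx' i).symm⟩
      change tw C t (fun i => algebraMap M M' (x i)) i ∈ E0.map f
      rw [htw' i hi]
      exact ⟨x i, hiE, rfl⟩
    · refine ⟨⟨_, hPl.Y_mem i⟩, ?_, (hy' i).symm⟩
      change algebraMap M M' (y i) ∈ E0.map f
      exact ⟨y i, hiE, rfl⟩
  · exact (map_ne_zero f).2 (inv_ne_zero hx0)

/-- First step. `Hz` with `x`, `y` exchanged and `A = C`: `X = tw C t y`, `Y = x`, `val t < 1`; `Pl_data`. Some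
`y' i`, `i ∈ C`, is not zero (`exists_ne`), so `t y i` is a unit and `(y i)⁻¹ ∈ M` has value `< 1`. The generators
of `fld1` are residues of elements of `E = ` image of `M` in `M'` (`y'_i / y'_j` = residue of `y_i / y_j` if
`y'_j ≠ 0`, otherwise `0`), `trdeg k E = trdeg k M = n` (`M` is algebraic over `k(x + y)`). -/
theorem step1 (hb : Base k g) (hd : Dist a b c) {C : Finset (Fin n)} (hC : C.Nonempty)
    (hc : Comp g a b c C) {x y : Fin n → M} (hD : Dt g a b c x y)
    (hx : Phi g a b c (rs C x) = 0) (hy : Phi g a b c (rs C y) = 0) :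
    ∃ (N : Type u) (_ : Field N) (_ : Algebra k N) (x' y' : Fin n → N), Dt g a b c x' y' ∧
      Phi g a b c (rs C x') = 0 ∧ Phi g a b c (rs C y') = 0 ∧
      Algebra.trdeg k (fld1 k C x' y') < n := by
  have htop : Algebra.trdeg k (⊤ : IntermediateField k M) < (n + 1 : ℕ) := by
    have h1 : Algebra.trdeg k (⊤ : IntermediateField k M) ≤ Algebra.trdeg k M :=
      trdeg_le_of_injective (⊤ : IntermediateField k M).val
        (⊤ : IntermediateField k M).val.injective
    refine lt_of_le_of_lt (h1.trans (D1_trdeg _ hD.pr).le) ?_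
    exact_mod_cast Nat.lt_succ_self n
  obtain ⟨N, _, _, y', x', hD', h1, h2, h3⟩ :=
    D1_core hb hd hC hc hD.symm hy hx n ⊤ (fun i _ => mem_top) htop
  refine ⟨N, inferInstance, inferInstance, x', y', hD'.symm, h2, h1, h3 _ ?_⟩
  rintro z ((⟨i, hi, j, hj, rfl⟩ | ⟨i, rfl⟩) | ⟨i, hi, rfl⟩)
  · exact Or.inl ⟨i, hi, j, hj, rfl⟩
  · exact Or.inr (Or.inr (Or.inr ⟨i, mem_top, rfl⟩))
  · exact Or.inr (Or.inr (Or.inl ⟨i, hi, mem_top, rfl⟩))

/-- Second step. `Hz` with `A = C`: `X = tw C t x`, `Y = y`; some `x' i`, `i ∈ C`, is not zero, `(x i)⁻¹` lies in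
the image `E` of `fld1 k C x y` in `M'` and has value `< 1`; the generators of `fld2 k C x' y'` are residues
of elements of `E`. -/
theorem step2 (hb : Base k g) (hd : Dist a b c) {C : Finset (Fin n)} (hC : C.Nonempty)
    (hc : Comp g a b c C) {x y : Fin n → M} (hD : Dt g a b c x y)
    (hx : Phi g a b c (rs C x) = 0) (hy : Phi g a b c (rs C y) = 0) (e : ℕ)
    (ht : Algebra.trdeg k (fld1 k C x y) < (e + 1 : ℕ)) :
    ∃ (N : Type u) (_ : Field N) (_ : Algebra k N) (x' y' : Fin n → N), Dt g a b c x' y' ∧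
      Phi g a b c (rs C x') = 0 ∧ Phi g a b c (rs C y') = 0 ∧
      Algebra.trdeg k (fld2 k C x' y') < e := by
  have hxE : ∀ i, x i ∈ fld1 k C x y := fun i => subset_adjoin _ _ (Or.inl (Or.inr ⟨i, rfl⟩))
  obtain ⟨N, _, _, x', y', hD', h1, h2, h3⟩ :=
    D1_core hb hd hC hc hD hx hy e (fld1 k C x y) (fun i _ => hxE i) ht
  refine ⟨N, inferInstance, inferInstance, x', y', hD', h1, h2, h3 _ ?_⟩
  rintro z ((⟨i, hi, j, hj, rfl⟩ | ⟨i, hi, j, hj, rfl⟩) | ⟨i, hi, rfl | rfl⟩)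
  · exact Or.inl ⟨i, hi, j, hj, rfl⟩
  · exact Or.inr (Or.inl ⟨i, j, subset_adjoin _ _ (Or.inl (Or.inl ⟨i, hi, j, hj, rfl⟩)), rfl⟩)
  · exact Or.inr (Or.inr (Or.inl ⟨i, hi, hxE i, rfl⟩))
  · exact Or.inr (Or.inr (Or.inr ⟨i, subset_adjoin _ _ (Or.inr ⟨i, hi, rfl⟩), rfl⟩))

end MP2619.NP
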