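import Pool.Agent.Lib.MP_2619d0_ag.NP.Defs

/-!
Row D3: the constant `a6` is a `2^s`-th power of a nonsquare.
-/

set_option autoImplicit false

namespace MP2619.NP

universe u

open IntermediateField MP2619.R MP2619.W

open scoped IntermediateField.algebraAdjoinAdjoin in
private theorem D3_ind {K M : Type*} [Field K] [Field M] [Algebra K M] (h : M)
    (ht : Transcendental K h) (n : ℕ) (hn : 0 < n) :
    LinearIndependent (adjoin K ({h ^ n} : Set M)) (fun i : Fin n => h ^ (i : ℕ)) := by
  classical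
  rw [← LinearIndependent.iff_fractionRing (R := Algebra.adjoin K ({h ^ n} : Set M))]
  rw [Fintype.linearIndependent_iff]
  intro c hc
  have hP : ∀ i, ∃ P : Polynomial K, Polynomial.aeval (h ^ n) P = (c i : M) := by
    intro i
    have h1 : ∀ z ∈ Algebra.adjoin K ({h ^ n} : Set M), ∃ P : Polynomial K,
        Polynomial.aeval (h ^ n) P = z := by
      intro z hz
      rw [Algebra.adjoin_singleton_eq_range_aeval] at hz
      exact hz
    exact h1 _ (c i).2
  choose P hP using hP
  have hQ : (∑ i : Fin n, Polynomial.X ^ (i : ℕ) * Polynomial.expand K n (P i)) = 0 := by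
    apply transcendental_iff_injective.1 ht
    rw [map_zero, map_sum, ← hc]
    refine Finset.sum_congr rfl fun i _ => ?_
    rw [map_mul, map_pow, Polynomial.aeval_X, Polynomial.expand_aeval, hP, mul_comm]
    rfl
  have hP0 : ∀ i, P i = 0 := by
    intro i
    ext j
    have h1 := congrArg (fun Q : Polynomial K => Q.coeff ((i : ℕ) + n * j)) hQ
    simp only [Polynomial.finsetSum_coeff, Polynomial.coeff_zero] at h1
    rw [Finset.sum_eq_single i] at h1
    · rw [Polynomial.coeff_X_pow_mul', if_pos (Nat.le_add_right _ _), Nat.add_sub_cancel_left,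
        Polynomial.coeff_expand hn, if_pos (dvd_mul_right _ _), Nat.mul_div_cancel_left _ hn] at h1
      rw [h1, Polynomial.coeff_zero]
    · intro i' _ hne
      rw [Polynomial.coeff_X_pow_mul']
      split_ifs with h2
      · rw [Polynomial.coeff_expand hn, if_neg]
        rintro ⟨m, hm⟩
        apply hne
        apply Fin.ext
        have h3 : (i : ℕ) + n * j = i' + n * m := by omega
        have h4 := congrArg (fun z => z % n) h3
        simp only [Nat.add_mul_mod_self_left] at h4
        rwa [Nat.mod_eq_of_lt i.2, Nat.mod_eq_of_lt i'.2, eq_comm] at h4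
      · rfl
    · intro h2
      exact absurd (Finset.mem_univ i) h2
  intro i
  apply Subtype.ext
  rw [← hP i, hP0 i, map_zero]
  rfl

private theorem D3_le {K M : Type*} [Field K] [Field M] [Algebra K M] (h : M)
    (ht : Transcendental K h) (n : ℕ) (hn : 0 < n)
    (hfin : Module.finrank (adjoin K ({h ^ n} : Set M)) M ≠ 0) :
    n ≤ Module.finrank (adjoin K ({h ^ n} : Set M)) M := by
  have : FiniteDimensional (adjoin K ({h ^ n} : Set M)) M :=
    Module.finite_of_finrank_pos (Nat.pos_of_ne_zero hfin)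
  have h1 := (D3_ind h ht n hn).fintype_card_le_finrank
  rwa [Fintype.card_fin] at h1

private theorem D3_ca6 {K k : Type*} [Field K] [Field k] [Algebra K k] {g : k}
    (hg : Transcendental K g) : Transcendental K (ca6 g) := by
  have h1 : Transcendental K ((g ^ 3)⁻¹) := by
    intro h
    exact (hg.pow (by norm_num : 0 < 3)) (IsAlgebraic.inv_iff.1 h)
  have h2 : ca6 g = Polynomial.aeval ((g ^ 3)⁻¹)
      ((Polynomial.X + Polynomial.C 1) ^ 3 * (Polynomial.X + Polynomial.C 2) : Polynomial K) := by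
    simp only [map_mul, map_pow, map_add, Polynomial.aeval_X, map_one,
      map_ofNat, ca6, ca2]
    ring
  have hm : ((Polynomial.X + Polynomial.C 1) ^ 3 * (Polynomial.X + Polynomial.C 2) :
      Polynomial K).Monic :=
    ((Polynomial.monic_X_add_C 1).pow 3).mul (Polynomial.monic_X_add_C 2)
  rw [h2]
  refine h1.aeval _ ?_ ?_
  · rw [((Polynomial.monic_X_add_C 1).pow 3).natDegree_mul (Polynomial.monic_X_add_C 2),
      (Polynomial.monic_X_add_C (1 : K)).natDegree_pow, Polynomial.natDegree_X_add_C,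
      Polynomial.natDegree_X_add_C]
    norm_num
  · rw [hm.leadingCoeff]
    exact one_mem _

/-- `ca6 g ∈ k0(g)` is transcendental over `k0` (`ca2 g = 1 + g⁻³`). Suppose `ca6 g` has a `2^s`-th root
`h_s` in `k` for all `s`: `k0(h_s) ⊂ k` has degree `2^s` over `k0(ca6 g)` (`h_s` transcendental), but
`[k : k0(ca6 g)]` is finite. So there is a largest `s`. -/
theorem exists_h {k : Type u} [Field k] {g : k} (hb : Base k g) (hg : g ≠ 0) :
    ∃ (s : ℕ) (h : k), ca6 g = h ^ (2 ^ s) ∧ ∀ r : k, r ^ 2 ≠ h := by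
  obtain ⟨k0, htr, hfin⟩ := hb.fin.resolve_left hg
  have hfin0 : Module.finrank (adjoin k0 ({g} : Set k)) k ≠ 0 := Module.finrank_pos.ne'
  have h6 : Transcendental k0 (ca6 g) := D3_ca6 htr
  have hd := (fin_of_trans g hfin0 htr (ca6 g)).1 h6
  by_contra hcon
  push Not at hcon
  have hall : ∀ s : ℕ, ∃ h : k, ca6 g = h ^ (2 ^ s) := by
    intro s
    induction s with
    | zero => exact ⟨ca6 g, by rw [pow_zero, pow_one]⟩
    | succ s ih =>
      obtain ⟨h, hh⟩ := ih
      obtain ⟨r, hr⟩ := hcon s h hh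
      refine ⟨r, ?_⟩
      rw [hh, ← hr, ← pow_mul, pow_succ']
  obtain ⟨h, hh⟩ := hall (Module.finrank (adjoin k0 ({ca6 g} : Set k)) k)
  have hht : Transcendental k0 h := by
    intro h1
    apply h6
    rw [hh]
    exact h1.pow _
  obtain ⟨n, hn⟩ : ∃ n, n = 2 ^ Module.finrank (adjoin k0 ({ca6 g} : Set k)) k := ⟨_, rfl⟩
  rw [← hn] at hh
  have hn0 : 0 < n := by rw [hn]; positivity
  have hle := D3_le h hht n hn0 (by rw [← hh]; exact hd)
  rw [← hh, hn] at hle
  exact absurd hle (not_le.2 Nat.lt_two_pow_self)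

/-- `g ^ 3 ≠ 1` (characteristic two: `1 + g³ ≠ 0`), so `ca2 g ≠ 0` -/
theorem ca2_ne {k : Type u} [Field k] {g : k} (hb : Base k g) (hg : g ≠ 0) :
    1 + g ^ 3 ≠ 0 ∧ ca2 g ≠ 0 := by
  obtain ⟨k0, htr, -⟩ := hb.fin.resolve_left hg
  have h1 : 1 + g ^ 3 ≠ 0 := by
    intro h
    apply htr.pow (by norm_num : 0 < 3)
    have h2 : g ^ 3 = algebraMap k0 k (-1) := by
      rw [map_neg, map_one]
      linear_combination h
    rw [h2]
    exact isAlgebraic_algebraMap _
  refine ⟨h1, ?_⟩
  intro h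
  apply h1
  have h3 : g ^ 3 ≠ 0 := pow_ne_zero 3 hg
  rw [ca2] at h
  have h4 : g ^ 3 * (1 + (g ^ 3)⁻¹) = 0 := by rw [h, mul_zero]
  rw [mul_add, mul_inv_cancel₀ h3, mul_one] at h4
  rw [add_comm]
  exact h4

/-- squares in a rational function field -/
theorem not_sq {k M : Type u} [Field k] [Field M] [Algebra k M] {ι : Type} [Fintype ι] (z : ι → M)
    (hz : AlgebraicIndependent k z) (h : k) (hh : ∀ r : k, r ^ 2 ≠ h)
    (r : adjoin k (Set.range z)) : r ^ 2 ≠ algebraMap k (adjoin k (Set.range z)) h := by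
  intro hr
  obtain ⟨p, hp, q, hq, hpq⟩ := mem_adjoin_iff_div.1 r.2
  rw [Algebra.adjoin_range_eq_range_aeval] at hp hq
  obtain ⟨P, hP⟩ := hp
  obtain ⟨Q, hQ⟩ := hq
  have hr' : (r : M) ^ 2 = algebraMap k M h := congrArg Subtype.val hr
  have hh0 : h ≠ 0 := by
    intro h0
    exact hh 0 (by rw [h0]; ring)
  have hh0' : algebraMap k M h ≠ 0 := by
    rw [Ne, FaithfulSMul.algebraMap_eq_zero_iff]
    exact hh0
  have hq0 : q ≠ 0 := by
    intro h0
    rw [hpq, h0, div_zero] at hr'
    exact hh0' (by rw [← hr']; ring)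
  have h1 : p ^ 2 = algebraMap k M h * q ^ 2 := by
    rw [← hr', hpq, div_pow, div_mul_cancel₀ _ (pow_ne_zero 2 hq0)]
  have h2 : P ^ 2 = MvPolynomial.C h * Q ^ 2 := by
    apply hz
    change MvPolynomial.aeval z (P ^ 2) = MvPolynomial.aeval z (MvPolynomial.C h * Q ^ 2)
    rw [map_pow, map_mul, map_pow, MvPolynomial.aeval_C]
    have h3 : MvPolynomial.aeval z P = p := hP
    have h4 : MvPolynomial.aeval z Q = q := hQ
    rw [h3, h4]
    exact h1
  have h3 : Q ∣ P := by
    rw [← IsIntegrallyClosed.pow_dvd_pow_iff (n := 2) two_ne_zero, h2]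
    exact dvd_mul_left _ _
  obtain ⟨R, rfl⟩ := h3
  have hQ0 : Q ≠ 0 := by
    rintro rfl
    apply hq0
    rw [← hQ]
    exact map_zero _
  have h4 : R ^ 2 = MvPolynomial.C h := by
    have h5 : Q ^ 2 * R ^ 2 = Q ^ 2 * MvPolynomial.C h := by
      rw [← mul_pow, h2, mul_comm]
    exact mul_left_cancel₀ (pow_ne_zero 2 hQ0) h5
  have h5 := congrArg (MvPolynomial.constantCoeff) h4
  rw [map_pow, MvPolynomial.constantCoeff_C] at h5
  exact hh _ h5

end MP2619.NP
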