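import Pool.Agent.Lib.MP_2619d0_ag.W.Defs

/-!
# Secant parity (characteristic two part): definitions
The cubic form `Φ = ∑ x_i³ + g x_a x_b x_c`.
-/

set_option autoImplicit false

namespace MP2619.NP

universe v u

open IntermediateField MP2619.R MP2619.W

/-- `∑ x_i³ + g x_a x_b x_c` -/
def Phi {k : Type v} {M : Type u} [Field k] [Field M] [Algebra k M] {n : ℕ} (g : k)
    (a b c : Fin n) (x : Fin n → M) : M :=
  ∑ i, x i ^ 3 + algebraMap k M g * (x a * x b * x c)

/-- `∑ x_i² y_i + g (x_a x_b y_c + x_a x_c y_b + x_b x_c y_a)` -/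
def Hf {k : Type v} {M : Type u} [Field k] [Field M] [Algebra k M] {n : ℕ} (g : k)
    (a b c : Fin n) (x y : Fin n → M) : M :=
  ∑ i, x i ^ 2 * y i + algebraMap k M g * (x a * x b * y c + x a * x c * y b + x b * x c * y a)

/-- `x` on `A`, zero elsewhere -/
def rs {M : Type u} [Field M] {n : ℕ} (A : Finset (Fin n)) (x : Fin n → M) : Fin n → M :=
  fun i => if i ∈ A then x i else 0

/-- `Φ` is the sum of a form in the variables in `A` and a form in the other variables -/
def Comp {k : Type v} [Field k] {n : ℕ} (g : k) (a b c : Fin n) (A : Finset (Fin n)) : Prop :=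
  g = 0 ∨ (a ∈ A ∧ b ∈ A ∧ c ∈ A) ∨ (a ∉ A ∧ b ∉ A ∧ c ∉ A)

/-- the three coordinates are different -/
def Dist {n : ℕ} (a b c : Fin n) : Prop := a ≠ b ∧ b ≠ c ∧ a ≠ c

/-- Ground fields: characteristic two, a primitive cube root of unity, and `g = 0` or `k` is finite over
`k0(g)`, `g` transcendental over the subfield `k0`. -/
structure Base (k : Type u) [Field k] (g : k) : Prop where
  two : (2 : k) = 0
  om : ∃ w : k, w ^ 2 + w + 1 = 0
  fin : g = 0 ∨ ∃ k0 : Subfield k, Transcendental k0 g ∧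
    FiniteDimensional (adjoin k0 ({g} : Set k)) k

/-- `k(x + y)` has odd degree, `Φ(x) = Φ(y) = 0` -/
structure Dt {k : Type v} {M : Type u} [Field k] [Field M] [Algebra k M] {n : ℕ} (g : k)
    (a b c : Fin n) (x y : Fin n → M) : Prop where
  pr : Pr k (fun i => x i + y i)
  Px : Phi g a b c x = 0
  Py : Phi g a b c y = 0

open Classical in
/-- the number of `j < 3` such that `k((w^j x_A, x') + y)` has odd degree -/
noncomputable def cnt {k : Type v} {M : Type u} [Field k] [Field M] [Algebra k M] {n : ℕ} (w : k)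
    (A : Finset (Fin n)) (x y : Fin n → M) : ℕ :=
  ((Finset.range 3).filter fun j => Pr k (fun i => tw A (algebraMap k M w ^ j) x i + y i)).card

/-- generated by the quotients inside `C` of `y`, by `x`, and by the `y i`, `i ∉ C` -/
def fld1 (k : Type v) {M : Type u} [Field k] [Field M] [Algebra k M] {n : ℕ} (C : Finset (Fin n))
    (x y : Fin n → M) : IntermediateField k M :=
  adjoin k ({z : M | ∃ i ∈ C, ∃ j ∈ C, z = y i / y j} ∪ Set.range x ∪ {z : M | ∃ i ∉ C, z = y i})

/-- generated by the quotients inside `C` of `x` and of `y`, and by the `x i`, `y i`, `i ∉ C` -/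
def fld2 (k : Type v) {M : Type u} [Field k] [Field M] [Algebra k M] {n : ℕ} (C : Finset (Fin n))
    (x y : Fin n → M) : IntermediateField k M :=
  adjoin k ({z : M | ∃ i ∈ C, ∃ j ∈ C, z = x i / x j} ∪ {z : M | ∃ i ∈ C, ∃ j ∈ C, z = y i / y j} ∪
    {z : M | ∃ i ∉ C, z = x i ∨ z = y i})

/-- coefficients of the Weierstrass form `y² + x y = x³ + a2 x² + a6` of
`X³ + Y³ + Z³ + g X Y Z = 0` in characteristic two -/
def ca2 {k : Type v} [Field k] (g : k) : k := 1 + (g ^ 3)⁻¹

def ca6 {k : Type v} [Field k] (g : k) : k := ca2 g ^ 3 * (ca2 g + 1)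

end MP2619.NP
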