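import Mathlib

/-!
# Theorem N, elliptic part: the curve `Y² + XY = X³ + a₂X² + a₆` in characteristic two, definitions
-/

set_option autoImplicit false

namespace MP2619.NP

universe u

open IntermediateField WeierstrassCurve

/-- the curve `Y² + XY = X³ + a₂X² + a₆` -/
def Wo {K : Type u} [Field K] (a2 a6 : K) : WeierstrassCurve.Affine K := ⟨1, a2, 0, 0, a6⟩

/-- the points of `Y² + XY = X³ + a₂X² + a₆` over an extension field `L` of `K` -/
abbrev Pt {K : Type u} [Field K] (a2 a6 : K) (L : Type u) [Field L] [Algebra K L] : Type u :=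
  WeierstrassCurve.Affine.Point ((Wo a2 a6)⁄L)

variable {K L M : Type u} [Field K] [Field L] [Field M] [Algebra K L] [Algebra K M]

/-- the coordinates of a point -/
def pf {a2 a6 : K} : Pt a2 a6 L → Set L
  | .zero => ∅
  | .some x y _ => {x, y}

/-- the degree `[L : K(P)]` -/
noncomputable def pdeg (K : Type u) {L : Type u} [Field K] [Field L] [Algebra K L] {a2 a6 : K}
    (P : Pt a2 a6 L) : ℕ := Module.finrank (adjoin K (pf P)) L

/-- `P` is a generic point and `L` is its field -/
structure IsGen {a2 a6 : K} (P : Pt a2 a6 L) : Prop where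
  nalg : ¬ Algebra.IsAlgebraic K L
  top : adjoin K (pf P) = ⊤

/-- a point over `K` seen over `L` -/
noncomputable abbrev bs [DecidableEq K] [DecidableEq L] {a2 a6 : K} : Pt a2 a6 K →+ Pt a2 a6 L :=
  WeierstrassCurve.Affine.Point.map (W' := Wo a2 a6) (Algebra.ofId K L)

/-- the image of a point under a homomorphism of `K`-algebras -/
noncomputable abbrev mp [DecidableEq L] [DecidableEq M] {a2 a6 : K} (φ : L →ₐ[K] M) :
    Pt a2 a6 L →+ Pt a2 a6 M :=
  WeierstrassCurve.Affine.Point.map (W' := Wo a2 a6) φ


end MP2619.NP
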