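import Mathlib

/-! (Z): `E(K(t)) = E(K)` for `E : y^2 + x y = x^3 + a2 x^2 + a6`, `a6 ≠ 0`, characteristic two. -/

namespace MP2619.NP

open Polynomial

section alg
variable {F : Type*} [Field F] [IsAlgClosed F]

/-- an associate of a square is a square -/
theorem Z_sq {d a : F[X]} (h : Associated (d ^ 2) a) : ∃ f : F[X], a = f ^ 2 := by
  obtain ⟨u, hu⟩ := h
  obtain ⟨c, hc⟩ := Polynomial.isUnit_iff.1 u.isUnit
  obtain ⟨v, hv⟩ := IsAlgClosed.exists_pow_nat_eq c (n := 2) (by norm_num)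
  refine ⟨d * C v, ?_⟩
  rw [← hu, ← hc.2, ← hv]
  simp [mul_pow]

theorem Z_sqs {a b c : F[X]} (hab : IsCoprime a b) (h : a * b = c ^ 2) :
    (∃ f : F[X], a = f ^ 2) ∧ (∃ g : F[X], b = g ^ 2) := by
  obtain ⟨d, hd⟩ := exists_associated_pow_of_mul_eq_pow' hab h
  obtain ⟨d', hd'⟩ := exists_associated_pow_of_mul_eq_pow' hab.symm ((mul_comm b a).trans h)
  exact ⟨Z_sq hd, Z_sq hd'⟩

theorem Z_inj (h2 : (2 : F) = 0) {a b : F[X]} (h : a ^ 2 = b ^ 2) : a = b := by
  have h2' : (2 : F[X]) = 0 := by rw [← map_ofNat (C : F →+* F[X]) 2, h2, map_zero]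
  have : (a - b) ^ 2 = 0 := by linear_combination h + (b ^ 2 - a * b) * h2'
  have := pow_eq_zero_iff (two_ne_zero) |>.1 this
  exact sub_eq_zero.1 this

theorem Z_descent (h2 : (2 : F) = 0) : ∀ (N : ℕ) (a2 a6 : F) (A Y e : F[X]), a6 ≠ 0 →
    IsCoprime A e → e ≠ 0 →
    Y ^ 2 + A * Y * e = A ^ 3 + C a2 * A ^ 2 * e ^ 2 + C a6 * e ^ 6 →
    A.natDegree + e.natDegree ≤ N → A.natDegree = 0 ∧ e.natDegree = 0 := by
  have h2' : (2 : F[X]) = 0 := by rw [← map_ofNat (C : F →+* F[X]) 2, h2, map_zero]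
  intro N
  induction N with
  | zero => intro a2 a6 A Y e _ _ _ _ h; omega
  | succ N ih =>
    intro a2 a6 A Y e h6 hco he hE hN
    obtain ⟨b, hb⟩ := IsAlgClosed.exists_pow_nat_eq a6 (n := 2) (by norm_num)
    obtain ⟨c, hc⟩ := IsAlgClosed.exists_pow_nat_eq a2 (n := 2) (by norm_num)
    have hb' : (C b : F[X]) ^ 2 = C a6 := by rw [← C_pow, hb]
    have hc' : (C c : F[X]) ^ 2 = C a2 := by rw [← C_pow, hc]
    have hb0 : b ≠ 0 := by rintro rfl; apply h6; rw [← hb]; simp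
    have hu6 : IsUnit (C a6 : F[X]) := by simpa using h6
    -- A and Y are coprime
    have hAY : IsCoprime A Y := by
      have h1 : IsCoprime A (C a6 * e ^ 6) :=
        (isCoprime_mul_unit_left_right hu6 A _).2 hco.pow_right
      have h3 : Y ^ 2 = C a6 * e ^ 6 + A * (A ^ 2 + C a2 * A * e ^ 2 - Y * e) := by
        linear_combination hE
      have h4 : IsCoprime A (Y ^ 2) := by rw [h3]; exact h1.add_mul_left_right _
      exact (IsCoprime.pow_right_iff (by norm_num)).1 h4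
    have hW : IsCoprime A (Y * e + A ^ 2 + C a2 * A * e ^ 2) := by
      have h1 : IsCoprime A (Y * e) := hAY.mul_right hco
      have h3 : Y * e + A ^ 2 + C a2 * A * e ^ 2 = Y * e + A * (A + C a2 * e ^ 2) := by ring
      rw [h3]; exact h1.add_mul_left_right _
    have hprod : A * (Y * e + A ^ 2 + C a2 * A * e ^ 2) = (Y + C b * e ^ 3) ^ 2 := by
      linear_combination -hE + (A * Y * e - Y * C b * e ^ 3 - C a6 * e ^ 6) * h2' - e ^ 6 * hb'
    obtain ⟨⟨f, hf⟩, ⟨g, hg⟩⟩ := Z_sqs hW hprod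
    have hYe : IsCoprime Y e := by
      have h1 : IsCoprime e (A ^ 3) := hco.symm.pow_right
      have h3 : Y ^ 2 = A ^ 3 + e * (C a2 * A ^ 2 * e + C a6 * e ^ 5 - A * Y) := by
        linear_combination hE
      have h4 : IsCoprime e (Y ^ 2) := by rw [h3]; exact h1.add_mul_left_right _
      exact ((IsCoprime.pow_right_iff (by norm_num)).1 h4).symm
    have hYe2 : Y * e = (g + f ^ 2 + C c * f * e) ^ 2 := by
      have : Y * e = g ^ 2 - A ^ 2 - C a2 * A * e ^ 2 := by rw [← hg]; ring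
      rw [this, hf, ← hc']
      linear_combination (-(f ^ 4) - C c ^ 2 * f ^ 2 * e ^ 2 - g * f ^ 2 - g * C c * f * e
        - f ^ 2 * C c * f * e) * h2'
    obtain ⟨⟨h, hh⟩, ⟨k, hk⟩⟩ := Z_sqs hYe hYe2
    have hk0 : k ≠ 0 := by rintro rfl; apply he; rw [hk]; simp
    have hE' : h ^ 2 + f * h * k = f ^ 3 + C c * f ^ 2 * k ^ 2 + C b * k ^ 6 := by
      apply Z_inj h2
      have hE2 := hE
      rw [hf, hh, hk, ← hb', ← hc'] at hE2
      linear_combination hE2 + (h ^ 2 * (f * h * k) - f ^ 3 * (C c * f ^ 2 * k ^ 2)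
        - f ^ 3 * (C b * k ^ 6) - (C c * f ^ 2 * k ^ 2) * (C b * k ^ 6)) * h2'
    have hfk : IsCoprime f k := by
      have := hco
      rw [hf, hk] at this
      exact (IsCoprime.pow_iff (by norm_num) (by norm_num)).1 this
    have hdA : A.natDegree = 2 * f.natDegree := by rw [hf, natDegree_pow]
    have hde : e.natDegree = 2 * k.natDegree := by rw [hk, natDegree_pow]
    have := ih c b f h k hb0 hfk hk0 hE' (by omega)
    omega

/-- the version with denominators `B` and `B ^ 2` -/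
theorem Z_closed (h2 : (2 : F) = 0) {a2 a6 : F} {A B Y : F[X]} (h6 : a6 ≠ 0)
    (hco : IsCoprime A B) (hB : B ≠ 0)
    (hE : Y ^ 2 + A * B * Y = B * (A ^ 3 + C a2 * A ^ 2 * B + C a6 * B ^ 3)) :
    A.natDegree = 0 ∧ B.natDegree = 0 := by
  have h2' : (2 : F[X]) = 0 := by rw [← map_ofNat (C : F →+* F[X]) 2, h2, map_zero]
  have h1 : IsCoprime B (A ^ 2 + Y) := by
    have h3 : (A ^ 2 + Y) ^ 2 = A ^ 4 + B * (A ^ 3 + C a2 * A ^ 2 * B + C a6 * B ^ 3 - A * Y) := by
      linear_combination hE + (A ^ 2 * Y) * h2'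
    have h4 : IsCoprime B ((A ^ 2 + Y) ^ 2) := by
      rw [h3]; exact (hco.symm.pow_right).add_mul_left_right _
    exact (IsCoprime.pow_right_iff (by norm_num)).1 h4
  have hU : IsCoprime B (A ^ 3 + C a2 * A ^ 2 * B + C a6 * B ^ 3 + A * Y) := by
    have h3 : A ^ 3 + C a2 * A ^ 2 * B + C a6 * B ^ 3 + A * Y =
      A * (A ^ 2 + Y) + B * (C a2 * A ^ 2 + C a6 * B ^ 2) := by ring
    rw [h3]; exact (hco.symm.mul_right h1).add_mul_left_right _
  have hp : B * (A ^ 3 + C a2 * A ^ 2 * B + C a6 * B ^ 3 + A * Y) = Y ^ 2 := by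
    linear_combination -hE + (A * B * Y) * h2'
  obtain ⟨⟨e, he⟩, ⟨c, hc⟩⟩ := Z_sqs hU hp
  have he0 : e ≠ 0 := by rintro rfl; apply hB; rw [he]; simp
  have hY : Y = e * c := by
    apply Z_inj h2
    rw [← hp, hc]
    rw [he]; ring
  have hAe : IsCoprime A e := by
    rw [he] at hco
    exact (IsCoprime.pow_right_iff (by norm_num)).1 hco
  have hE' : c ^ 2 + A * c * e = A ^ 3 + C a2 * A ^ 2 * e ^ 2 + C a6 * e ^ 6 := by
    rw [← hc, he, hY]
    linear_combination (A * c * e) * h2'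
  obtain ⟨q1, q2⟩ := Z_descent h2 _ a2 a6 A c e h6 hAe he0 hE' le_rfl
  refine ⟨q1, ?_⟩
  rw [he, natDegree_pow, q2]

end alg

section gen
variable {K : Type*} [Field K]

theorem Z_poly (h2 : (2 : K) = 0) {a2 a6 : K} {A B Y : K[X]} (h6 : a6 ≠ 0)
    (hco : IsCoprime A B) (hB : B ≠ 0)
    (hE : Y ^ 2 + A * B * Y = B * (A ^ 3 + C a2 * A ^ 2 * B + C a6 * B ^ 3)) :
    A.natDegree = 0 ∧ B.natDegree = 0 := by
  set ι := algebraMap K (AlgebraicClosure K) with hι
  have h2c : (2 : AlgebraicClosure K) = 0 := by rw [← map_ofNat ι 2, h2, map_zero]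
  have h6' : ι a6 ≠ 0 := by simpa using h6
  have hco' : IsCoprime (A.map ι) (B.map ι) := hco.map (mapRingHom ι)
  have hB' : B.map ι ≠ 0 := (Polynomial.map_ne_zero_iff ι.injective).2 hB
  have hE' := congrArg (Polynomial.map ι) hE
  simp only [Polynomial.map_add, Polynomial.map_mul, Polynomial.map_pow, Polynomial.map_C] at hE'
  have := Z_closed h2c h6' hco' hB' hE'
  simpa only [natDegree_map] using this

/-- (Z): over a purely transcendental extension `L = K(t)` every affine point of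
`y^2 + x y = x^3 + a2 x^2 + a6` is defined over `K`. -/
theorem Z_frac (h2 : (2 : K) = 0) {a2 a6 : K} (h6 : a6 ≠ 0) {L : Type*} [Field L] [Algebra K L]
    [Algebra K[X] L] [IsScalarTower K K[X] L] [IsFractionRing K[X] L] {x y : L}
    (hE : y ^ 2 + x * y = x ^ 3 + algebraMap K L a2 * x ^ 2 + algebraMap K L a6) :
    (∃ x0 : K, algebraMap K L x0 = x) ∧ (∃ y0 : K, algebraMap K L y0 = y) := by
  obtain ⟨A, ⟨B, hBm⟩, hrel, hx⟩ := IsFractionRing.exists_reduced_fraction (A := K[X]) (K := L) x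
  have hB : B ≠ 0 := nonZeroDivisors.ne_zero hBm
  have hBL : algebraMap K[X] L B ≠ 0 := by
    intro h; exact hB ((IsFractionRing.injective K[X] L) (by rw [h, map_zero]))
  have hx' : x * algebraMap K[X] L B = algebraMap K[X] L A := by
    rw [← hx]; exact IsLocalization.mk'_spec L A ⟨B, hBm⟩
  have hco : IsCoprime A B := hrel.isCoprime
  have ha : ∀ c : K, algebraMap K L c = algebraMap K[X] L (C c) := by
    intro c
    rw [IsScalarTower.algebraMap_apply K K[X] L]; rfl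
  -- y * B ^ 2 is integral
  have hint : IsIntegral K[X] (y * algebraMap K[X] L B ^ 2) := by
    refine ⟨X ^ 2 + C (A * B) * X - C (B * (A ^ 3 + C a2 * A ^ 2 * B + C a6 * B ^ 3)), ?_, ?_⟩
    · monicity!
    · simp only [eval₂_add, eval₂_sub, eval₂_mul, eval₂_pow, eval₂_X, eval₂_C, map_mul, map_add,
        map_pow]
      rw [← hx', ← ha, ← ha]
      linear_combination (algebraMap K[X] L B) ^ 4 * hE
  obtain ⟨Y, hY⟩ := IsIntegrallyClosed.isIntegral_iff.1 hint
  have hEp : Y ^ 2 + A * B * Y = B * (A ^ 3 + C a2 * A ^ 2 * B + C a6 * B ^ 3) := by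
    apply IsFractionRing.injective K[X] L
    simp only [map_mul, map_add, map_pow]
    rw [hY, ← hx', ← ha, ← ha]
    linear_combination (algebraMap K[X] L B) ^ 4 * hE
  obtain ⟨q1, q2⟩ := Z_poly h2 h6 hco hB hEp
  have hA0 := Polynomial.eq_C_of_natDegree_eq_zero q1
  have hB0 := Polynomial.eq_C_of_natDegree_eq_zero q2
  have hY0 : Y.natDegree = 0 := by
    by_contra hne
    have hAB : (A * B * Y).natDegree ≤ Y.natDegree := by
      refine (natDegree_mul_le).trans ?_
      have := natDegree_mul_le (p := A) (q := B)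
      omega
    have h3 : (Y ^ 2 + A * B * Y).natDegree = 2 * Y.natDegree := by
      rw [natDegree_add_eq_left_of_natDegree_lt, natDegree_pow]
      rw [natDegree_pow]; omega
    have h4 : (B * (A ^ 3 + C a2 * A ^ 2 * B + C a6 * B ^ 3)).natDegree = 0 := by
      rw [hA0, hB0]
      have : (C (B.coeff 0) * (C (A.coeff 0) ^ 3 + C a2 * C (A.coeff 0) ^ 2 * C (B.coeff 0)
        + C a6 * C (B.coeff 0) ^ 3) : K[X]) = C (B.coeff 0 * ((A.coeff 0) ^ 3
        + a2 * (A.coeff 0) ^ 2 * (B.coeff 0) + a6 * (B.coeff 0) ^ 3)) := by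
        simp only [C_mul, C_add, C_pow]
      rw [this, natDegree_C]
    rw [hEp, h4] at h3
    omega
  have hYc := Polynomial.eq_C_of_natDegree_eq_zero hY0
  refine ⟨⟨A.coeff 0 / B.coeff 0, ?_⟩, ⟨Y.coeff 0 / (B.coeff 0) ^ 2, ?_⟩⟩
  · rw [map_div₀, ha, ha, ← hA0, ← hB0, ← hx']
    field_simp
  · rw [map_div₀, map_pow, ha, ha, ← hYc, ← hB0, hY]
    field_simp

/-- (Z), version for `L = K(t)`, `t` transcendental. -/
theorem Z_adjoin (h2 : (2 : K) = 0) {a2 a6 : K} (h6 : a6 ≠ 0) {L : Type*} [Field L] [Algebra K L]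
    {t : L} (ht : Transcendental K t) {x y : L}
    (hx : x ∈ IntermediateField.adjoin K {t}) (hy : y ∈ IntermediateField.adjoin K {t})
    (hE : y ^ 2 + x * y = x ^ 3 + algebraMap K L a2 * x ^ 2 + algebraMap K L a6) :
    (∃ x0 : K, algebraMap K L x0 = x) ∧ (∃ y0 : K, algebraMap K L y0 = y) := by
  set M := IntermediateField.adjoin K {t} with hM
  have htM : t ∈ M := IntermediateField.mem_adjoin_simple_self K t
  let t' : M := ⟨t, htM⟩
  letI : Algebra K[X] M := (aeval t' : K[X] →ₐ[K] M).toRingHom.toAlgebra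
  have hmap : ∀ p : K[X], algebraMap K[X] M p = aeval t' p := fun p => rfl
  haveI : IsScalarTower K K[X] M := by
    refine IsScalarTower.of_algebraMap_eq (fun c => ?_)
    rw [hmap]
    simp [Polynomial.algebraMap_eq]
  have hval : ∀ p : K[X], ((aeval t' p : M) : L) = aeval t p := by
    intro p
    have := Polynomial.aeval_algHom_apply (M.val) t' p
    rw [← IntermediateField.coe_val]
    rw [← this]; rfl
  haveI : IsFractionRing K[X] M := by
    have hinj : Function.Injective (algebraMap K[X] M) := by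
      intro p q hpq
      rw [hmap, hmap] at hpq
      have h3 := congrArg (fun z : M => (z : L)) hpq
      simp only [hval] at h3
      exact (transcendental_iff_injective.1 ht) h3
    haveI : FaithfulSMul K[X] M := (faithfulSMul_iff_algebraMap_injective _ _).2 hinj
    refine IsFractionRing.of_field K[X] M (fun z => ?_)
    obtain ⟨r, s, hrs⟩ := (IntermediateField.mem_adjoin_simple_iff K (z : L)).1 z.2
    refine ⟨r, s, ?_⟩
    apply Subtype.ext
    rw [hmap, hmap, hrs, ← hval, ← hval]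
    simp
  have hE' : (⟨y, hy⟩ : M) ^ 2 + (⟨x, hx⟩ : M) * ⟨y, hy⟩ = (⟨x, hx⟩ : M) ^ 3
      + algebraMap K M a2 * (⟨x, hx⟩ : M) ^ 2 + algebraMap K M a6 := by
    apply Subtype.ext
    simpa using hE
  obtain ⟨⟨x0, h0⟩, ⟨y0, h1⟩⟩ := Z_frac h2 h6 hE'
  refine ⟨⟨x0, ?_⟩, ⟨y0, ?_⟩⟩
  · have := congrArg (fun z : M => (z : L)) h0
    simpa using this
  · have := congrArg (fun z : M => (z : L)) h1
    simpa using this

end gen

end MP2619.NP
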