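import Pool.Agent.Lib.MP_2619d0_ag.NP.E0b
import Pool.Agent.Lib.MP_2619d0_ag.NP.Zdesc

/-!
Row E1 (helper77): the curve has only constant points over `K(T)`.
-/

set_option autoImplicit false

namespace MP2619.NP

universe u

open IntermediateField WeierstrassCurve

variable {K L : Type u} [Field K] [Field L] [Algebra K L] {a2 a6 : K}

/-- `E(K(T)) = E(K)` -/
theorem pts_const [DecidableEq K] [DecidableEq L] (h2 : (2 : K) = 0) (h6 : a6 ≠ 0) (T : L)
    (hT : Transcendental K T) (P : Pt a2 a6 L) (hP : pf P ⊆ adjoin K {T}) :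
    ∃ P0 : Pt a2 a6 K, P = bs P0 := by
  match P, hP with
  | .zero, _ => exact ⟨.zero, rfl⟩
  | .some x y h, hP =>
    have hx : x ∈ adjoin K {T} := hP (by simp [pf])
    have hy : y ∈ adjoin K {T} := hP (by simp [pf])
    have hE : y ^ 2 + x * y = x ^ 3 + algebraMap K L a2 * x ^ 2 + algebraMap K L a6 := by
      have := h.1
      rw [WeierstrassCurve.Affine.equation_iff] at this
      simpa [Wo] using this
    obtain ⟨⟨x0, hx0⟩, ⟨y0, hy0⟩⟩ := Z_adjoin h2 h6 hT hx hy hE
    have hof : ∀ c : K, (Algebra.ofId K L) c = algebraMap K L c := fun c => rfl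
    subst hx0 hy0
    have hns : WeierstrassCurve.Affine.Nonsingular ((Wo a2 a6)⁄K) x0 y0 :=
      ((Wo a2 a6).toAffine.baseChange_nonsingular (f := Algebra.ofId K L)
        (Algebra.ofId K L).injective x0 y0).1 h
    exact ⟨.some x0 y0 hns, rfl⟩

end MP2619.NP
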