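import Pool.Agent.Lib.MP_2619d0_ag.NP.E0b

/-!
Row E2: homomorphisms from the field of a generic point.
-/

set_option autoImplicit false

namespace MP2619.NP

universe u

open IntermediateField WeierstrassCurve

variable {K L M : Type u} [Field K] [Field L] [Field M] [Algebra K L] [Algebra K M]
  {a2 a6 b2 b6 : K}

private theorem E2_eqn {x y : L} (h : WeierstrassCurve.Affine.Nonsingular ((Wo a2 a6)⁄L) x y) :
    y ^ 2 + x * y = x ^ 3 + algebraMap K L a2 * x ^ 2 + algebraMap K L a6 := by
  have h1 := h.1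
  rw [WeierstrassCurve.Affine.equation_iff] at h1
  simpa [Wo] using h1

/-- evaluation of the coordinate ring at a point -/
private noncomputable def E2_ev (a2 a6 : K) (x y : L)
    (h : y ^ 2 + x * y = x ^ 3 + algebraMap K L a2 * x ^ 2 + algebraMap K L a6) :
    (Wo a2 a6).CoordinateRing →ₐ[K] L :=
  AdjoinRoot.liftAlgHom (Wo a2 a6).polynomial (Polynomial.aeval x) y (by
    simp [Wo, WeierstrassCurve.Affine.polynomial, Polynomial.eval₂_add, Polynomial.eval₂_sub,
      Polynomial.eval₂_mul, Polynomial.eval₂_pow]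
    linear_combination h)

private theorem E2_ev_basis (x y : L)
    (h : y ^ 2 + x * y = x ^ 3 + algebraMap K L a2 * x ^ 2 + algebraMap K L a6)
    (p q : Polynomial K) :
    E2_ev a2 a6 x y h (p • (1 : (Wo a2 a6).CoordinateRing) +
      q • WeierstrassCurve.Affine.CoordinateRing.mk (Wo a2 a6) Polynomial.X) =
      Polynomial.aeval x p + Polynomial.aeval x q * y := by
  rw [WeierstrassCurve.Affine.CoordinateRing.smul, WeierstrassCurve.Affine.CoordinateRing.smul, mul_one,
    map_add, map_mul]
  unfold E2_ev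
  rw [AdjoinRoot.liftAlgHom_mk, AdjoinRoot.liftAlgHom_mk, AdjoinRoot.liftAlgHom_mk]
  simp

private theorem E2_ev_inj (x y : L)
    (h : y ^ 2 + x * y = x ^ 3 + algebraMap K L a2 * x ^ 2 + algebraMap K L a6)
    (hx : Transcendental K x) : Function.Injective (E2_ev a2 a6 x y h) := by
  rw [injective_iff_map_eq_zero]
  intro z hz
  obtain ⟨p, q, rfl⟩ := WeierstrassCurve.Affine.CoordinateRing.exists_smul_basis_eq z
  rw [E2_ev_basis] at hz
  have hN := WeierstrassCurve.Affine.CoordinateRing.norm_smul_basis (W' := Wo a2 a6) p q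
  have h0 : Polynomial.aeval x (p ^ 2 - p * q * (Polynomial.C (Wo a2 a6).a₁ * Polynomial.X +
      Polynomial.C (Wo a2 a6).a₃) - q ^ 2 * (Polynomial.X ^ 3 + Polynomial.C (Wo a2 a6).a₂ * Polynomial.X ^ 2 +
      Polynomial.C (Wo a2 a6).a₄ * Polynomial.X + Polynomial.C (Wo a2 a6).a₆)) = 0 := by
    have hp : Polynomial.aeval x p = - (Polynomial.aeval x q * y) := eq_neg_of_add_eq_zero_left hz
    simp only [map_sub, map_mul, map_add, map_pow, Polynomial.aeval_C, Polynomial.aeval_X, hp]
    simp only [Wo, map_one, map_zero]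
    linear_combination (Polynomial.aeval x q) ^ 2 * h
  have h1 := (transcendental_iff.1 hx) _ h0
  have hd := WeierstrassCurve.Affine.CoordinateRing.degree_norm_smul_basis (W' := Wo a2 a6) p q
  rw [hN, h1, Polynomial.degree_zero] at hd
  have hd1 : (2 : ℕ) • p.degree = ⊥ := le_bot_iff.1 (hd ▸ le_max_left _ _)
  have hd2 : (2 : ℕ) • q.degree + 3 = ⊥ := le_bot_iff.1 (hd ▸ le_max_right _ _)
  have hp : p = 0 := by
    rw [← Polynomial.degree_eq_bot]
    rw [two_nsmul] at hd1
    rcases WithBot.add_eq_bot.1 hd1 with h | h <;> exact h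
  have hq : q = 0 := by
    rw [← Polynomial.degree_eq_bot]
    rw [two_nsmul] at hd2
    rcases WithBot.add_eq_bot.1 hd2 with h | h
    · rcases WithBot.add_eq_bot.1 h with h | h <;> exact h
    · exact absurd h (by exact WithBot.coe_ne_bot)
  rw [hp, hq]
  simp

/-- if `K(x,y)` is not algebraic then `x` is transcendental -/
theorem nc_some (h2 : (2 : K) = 0) (P : Pt a2 a6 L)
    (hP : ¬ Algebra.IsAlgebraic K (adjoin K (pf P))) :
    ∃ x y h, P = Affine.Point.some x y h ∧ Transcendental K x := by
  rcases P with _ | ⟨x, y, h⟩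
  · exfalso
    apply hP
    have : pf (a2 := a2) (a6 := a6) (K := K) (L := L) Affine.Point.zero = ∅ := rfl
    rw [this]
    apply IntermediateField.isAlgebraic_adjoin
    intro x hx
    exact absurd hx (Set.notMem_empty x)
  · refine ⟨x, y, h, rfl, ?_⟩
    intro hx
    apply hP
    apply IntermediateField.isAlgebraic_adjoin
    have hxi : _root_.IsIntegral K x := hx.isIntegral
    have hyi : _root_.IsIntegral K y := by
      have he := E2_eqn h
      have h1 : _root_.IsIntegral K (y ^ 2 + x * y) := by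
        rw [he]
        exact ((hxi.pow 3).add (isIntegral_algebraMap.mul (hxi.pow 2))).add isIntegral_algebraMap
      have : Algebra.IsAlgebraic K (algebraicClosure K L) := algebraicClosure.isAlgebraic K L
      have hx' : x ∈ algebraicClosure K L := mem_algebraicClosure_iff.2 hx
      have hz : (y ^ 2 + x * y) ∈ algebraicClosure K L := mem_algebraicClosure_iff.2 h1.isAlgebraic
      have hy2 : _root_.IsIntegral (algebraicClosure K L) y := by
        refine ⟨Polynomial.X ^ 2 + Polynomial.C ⟨x, hx'⟩ * Polynomial.X + Polynomial.C (-⟨_, hz⟩), ?_, ?_⟩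
        · rw [add_assoc]
          apply Polynomial.monic_X_pow_add
          refine lt_of_le_of_lt (Polynomial.degree_linear_le) ?_
          norm_num
        · simp [Polynomial.eval₂_add, Polynomial.eval₂_mul, Polynomial.eval₂_pow]
      exact isIntegral_trans y hy2
    intro z hz
    rcases hz with rfl | rfl
    · exact hxi
    · exact hyi

private theorem E2_nc (P : Pt a2 a6 L) (hP : IsGen P) :
    ¬ Algebra.IsAlgebraic K (adjoin K (pf P)) := by
  intro h
  apply hP.nalg
  constructor
  intro l
  have hl : l ∈ adjoin K (pf P) := by rw [hP.top]; trivial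
  have h1 := h.isAlgebraic (⟨l, hl⟩ : adjoin K (pf P))
  exact h1.algebraMap (A := L)

/-- the coordinates of a generic point: `x` is transcendental and `K(x,y)` is everything -/
theorem gen_some (h2 : (2 : K) = 0) (P : Pt a2 a6 L) (hP : IsGen P) :
    ∃ x y h, P = Affine.Point.some x y h ∧ Transcendental K x ∧ adjoin K {x, y} = ⊤ := by
  obtain ⟨x, y, h, h1, h3⟩ := nc_some h2 P (E2_nc P hP)
  refine ⟨x, y, h, h1, h3, ?_⟩
  have := hP.top
  rw [h1] at this
  exact this

private theorem E2_lift (x y : L)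
    (h : y ^ 2 + x * y = x ^ 3 + algebraMap K L a2 * x ^ 2 + algebraMap K L a6)
    (hx : Transcendental K x) :
    ∃ f : FractionRing (Wo a2 a6).CoordinateRing →ₐ[K] L,
      f (algebraMap (Wo a2 a6).CoordinateRing _
        (WeierstrassCurve.Affine.CoordinateRing.mk (Wo a2 a6) (Polynomial.C Polynomial.X))) = x ∧
      f (algebraMap (Wo a2 a6).CoordinateRing _
        (WeierstrassCurve.Affine.CoordinateRing.mk (Wo a2 a6) Polynomial.X)) = y := by
  refine ⟨IsFractionRing.liftAlgHom (E2_ev_inj x y h hx), ?_, ?_⟩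
  · rw [IsFractionRing.liftAlgHom_apply, IsFractionRing.lift_algebraMap]
    change E2_ev a2 a6 x y h _ = x
    unfold E2_ev
    rw [AdjoinRoot.liftAlgHom_mk]
    simp
  · rw [IsFractionRing.liftAlgHom_apply, IsFractionRing.lift_algebraMap]
    change E2_ev a2 a6 x y h _ = y
    unfold E2_ev
    rw [AdjoinRoot.liftAlgHom_mk]
    simp

/-- The field of a generic point `P` maps to every field with a point `Q` which is not algebraic.
Sketch: the kernel of `K[X,Y] → L` and of `K[X,Y] → M` is the ideal of the equation: an element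
`p(x) + q(x)y` which vanishes gives `p² + pqx + q²(x³ + a₂x² + a₆) = 0` in `K[X]`
(`WeierstrassCurve.Affine.CoordinateRing`, `degree_norm_smul_basis`), so `p = q = 0`;
both fields of points are the fraction field of the coordinate ring. -/
theorem exists_hom [DecidableEq L] [DecidableEq M] (h2 : (2 : K) = 0) (P : Pt a2 a6 L)
    (hP : IsGen P) (Q : Pt a2 a6 M) (hQ : ¬ Algebra.IsAlgebraic K (adjoin K (pf Q))) :
    ∃ φ : L →ₐ[K] M, mp φ P = Q := by
  obtain ⟨x, y, h, rfl, hx, htop⟩ := gen_some h2 P hP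
  obtain ⟨x', y', h', rfl, hx'⟩ := nc_some h2 Q hQ
  obtain ⟨f, hf1, hf2⟩ := E2_lift x y (E2_eqn h) hx
  obtain ⟨g, hg1, hg2⟩ := E2_lift x' y' (E2_eqn h') hx'
  have hsurj : Function.Surjective f := by
    have h1 : adjoin K {x, y} ≤ f.fieldRange := by
      rw [adjoin_le_iff]
      rintro z (rfl | rfl)
      · exact ⟨_, hf1⟩
      · exact ⟨_, hf2⟩
    rw [htop, top_le_iff] at h1
    intro l
    have : l ∈ f.fieldRange := by rw [h1]; trivial
    exact this
  let e := AlgEquiv.ofBijective f ⟨f.injective, hsurj⟩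
  have he1 : e.symm x = algebraMap (Wo a2 a6).CoordinateRing _
        (WeierstrassCurve.Affine.CoordinateRing.mk (Wo a2 a6) (Polynomial.C Polynomial.X)) := by
    rw [AlgEquiv.symm_apply_eq]
    exact hf1.symm
  have he2 : e.symm y = algebraMap (Wo a2 a6).CoordinateRing _
        (WeierstrassCurve.Affine.CoordinateRing.mk (Wo a2 a6) Polynomial.X) := by
    rw [AlgEquiv.symm_apply_eq]
    exact hf2.symm
  refine ⟨g.comp e.symm.toAlgHom, ?_⟩
  have k1 : (g.comp e.symm.toAlgHom) x = x' := by
    change g (e.symm x) = x'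
    rw [he1, hg1]
  have k2 : (g.comp e.symm.toAlgHom) y = y' := by
    change g (e.symm y) = y'
    rw [he2, hg2]
  rw [WeierstrassCurve.Affine.Point.map_some]
  simp only [Affine.Point.some.injEq]
  exact ⟨k1, k2⟩

theorem hom_ext [DecidableEq L] [DecidableEq M] (P : Pt a2 a6 L) (hP : IsGen P)
    (φ ψ : L →ₐ[K] M) (h : mp φ P = mp ψ P) : φ = ψ := by
  have key : ∀ z ∈ pf P, φ z = ψ z := by
    rcases P with _ | ⟨x, y, hxy⟩
    · intro z hz
      exact absurd hz (Set.notMem_empty z)
    · change Affine.Point.some _ _ _ = Affine.Point.some _ _ _ at h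
      rw [Affine.Point.some.injEq] at h
      rintro z (rfl | rfl)
      · exact h.1
      · exact h.2
  ext l
  have hl : l ∈ adjoin K (pf P) := by rw [hP.top]; trivial
  refine IntermediateField.adjoin_induction (s := pf P) (p := fun l _ => φ l = ψ l) K (fun z hz => key z hz)
    (fun z => by rw [AlgHom.commutes, AlgHom.commutes]) (fun a b _ _ ha hb => by rw [map_add, map_add, ha, hb])
    (fun a _ ha => by rw [map_inv₀, map_inv₀, ha]) (fun a b _ _ ha hb => by rw [map_mul, map_mul, ha, hb]) hl

/-- tower: `K(φ c) ⊆ φ(L) ⊆ M` -/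
theorem pdeg_mp [DecidableEq L] [DecidableEq M] (φ : L →ₐ[K] M) (c : Pt a2 a6 L) :
    pdeg K (mp φ c) = Module.finrank φ.fieldRange M * pdeg K c := by
  unfold pdeg
  rw [pf_mp, ← IntermediateField.adjoin_map]
  have h1 : (adjoin K (pf c)).map φ ≤ φ.fieldRange := by
    rw [AlgHom.fieldRange_eq_map]
    exact IntermediateField.map_mono φ le_top
  rw [← IntermediateField.relfinrank_mul_finrank_top h1, AlgHom.fieldRange_eq_map,
    IntermediateField.relfinrank_map_map, IntermediateField.relfinrank_top_right, mul_comm]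

theorem pdeg_gen (P : Pt a2 a6 L) (hP : IsGen P) : pdeg K P = 1 := by
  unfold pdeg
  rw [hP.top]
  exact IntermediateField.finrank_top

theorem pdeg_mp_gen [DecidableEq L] [DecidableEq M] (P : Pt a2 a6 L) (hP : IsGen P)
    (φ : L →ₐ[K] M) (c : Pt b2 b6 L) : pdeg K (mp φ c) = pdeg K (mp φ P) * pdeg K c := by
  rw [pdeg_mp, pdeg_mp, pdeg_gen P hP, mul_one]

/-- the point `P` over its own field is generic -/
theorem gen_self [DecidableEq L] (P : Pt a2 a6 L)
    (hP : ¬ Algebra.IsAlgebraic K (adjoin K (pf P))) :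
    ∃ P0 : Pt a2 a6 (adjoin K (pf P)), IsGen P0 ∧ mp (adjoin K (pf P)).val P0 = P := by
  obtain ⟨P0, h0⟩ := exists_of_mem (adjoin K (pf P)) P (subset_adjoin K (pf P))
  refine ⟨P0, ⟨hP, ?_⟩, h0⟩
  apply IntermediateField.map_injective (adjoin K (pf P)).val
  rw [IntermediateField.adjoin_map, ← pf_mp, h0, ← AlgHom.fieldRange_eq_map, IntermediateField.fieldRange_val]

end MP2619.NP
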