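import Pool.Agent.Lib.MP_2619d0_ag.NP.E2
import Pool.Agent.Lib.MP_2619d0_ag.NP.E0a

/-!
Row E3: quadratic extensions and their fixed elements.
-/

set_option autoImplicit false

namespace MP2619.NP

universe u

open IntermediateField WeierstrassCurve

variable {K L : Type u} [Field K] [Field L] [Algebra K L] {a2 a6 b : K}

private theorem E3_two (h2 : (2 : K) = 0) : (2 : L) = 0 := by
  have h := congrArg (algebraMap K L) h2
  rwa [map_ofNat, map_zero] at h

private theorem E3_gen (h2 : (2 : K) = 0) {x y : L}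
    (h : WeierstrassCurve.Affine.Nonsingular ((Wo a2 a6)⁄L) x y)
    (hP : IsGen (Affine.Point.some x y h : Pt a2 a6 L)) :
    Transcendental K x ∧ adjoin K {x, y} = ⊤ := by
  obtain ⟨x', y', h', e, h1, h3⟩ := gen_some h2 _ hP
  injection e with e1 e2
  subst e1 e2
  exact ⟨h1, h3⟩

private theorem E3_ne0 {x : L} (h : Transcendental K x) : x ≠ 0 := by
  rintro rfl
  exact h isAlgebraic_zero

private theorem E3_inj [DecidableEq L] (σ : L →ₐ[K] L) {x y x' y' : L}
    (h : WeierstrassCurve.Affine.Nonsingular ((Wo a2 a6)⁄L) x y)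
    (h' : WeierstrassCurve.Affine.Nonsingular ((Wo a2 a6)⁄L) x' y')
    (e : mp σ (Affine.Point.some x y h : Pt a2 a6 L) = Affine.Point.some x' y' h') :
    σ x = x' ∧ σ y = y' := by
  rw [mp, WeierstrassCurve.Affine.Point.map_some] at e
  injection e with e1 e2
  exact ⟨e1, e2⟩

private theorem E3_fix (σ : L →ₐ[K] L) {S : Set L} (h : ∀ w ∈ S, σ w = w) :
    ∀ z ∈ adjoin K S, σ z = z := by
  intro z hz
  induction hz using adjoin_induction with
  | mem x hx => exact h x hx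
  | algebraMap x => exact σ.commutes x
  | add x y _ _ h1 h2 => rw [map_add, h1, h2]
  | inv x _ h1 => rw [map_inv₀, h1]
  | mul x y _ _ h1 h2 => rw [map_mul, h1, h2]

private theorem E3_bsT [DecidableEq K] [DecidableEq L] {x y : K}
    (hT : WeierstrassCurve.Affine.Nonsingular ((Wo a2 a6)⁄K) x y) (x' y' : L)
    (hx : Algebra.ofId K L x = x') (hy : Algebra.ofId K L y = y') :
    ∃ h', bs (Affine.Point.some x y hT : Pt a2 a6 K) =
      (Affine.Point.some x' y' h' : Pt a2 a6 L) := by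
  subst hx hy
  exact ⟨_, WeierstrassCurve.Affine.Point.map_some (W' := Wo a2 a6) (Algebra.ofId K L) hT⟩

private theorem E3_quad {A B x y l : L} (h2L : (2 : L) = 0) (hx0 : x ≠ 0)
    (he : y ^ 2 + x * y = x ^ 3 + A * x ^ 2 + B ^ 2) (hlx : l * x = y + B) :
    x ^ 2 + (l ^ 2 + l + A) * x + B = 0 := by
  have h3 : x * (x ^ 2 + (l ^ 2 + l + A) * x + B) = 0 := by
    have h4 : y = l * x - B := by linear_combination -hlx
    rw [h4] at he
    linear_combination -he + (l ^ 2 * x ^ 2 + l * x ^ 2 - l * x * B) * h2L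
  exact (mul_eq_zero.1 h3).resolve_left hx0

private theorem E3_alg {x l u v : L} (hl : IsAlgebraic K l) (hu : u ∈ adjoin K {l})
    (hv : v ∈ adjoin K {l}) (hx : x ^ 2 = u * x + v) : IsAlgebraic K x := by
  have h1 : Algebra.IsAlgebraic K (adjoin K {l}) := isAlgebraic_adjoin_simple hl.isIntegral
  have h3 : IsAlgebraic (adjoin K {l}) x := by
    refine IsIntegral.isAlgebraic ⟨Polynomial.X ^ 2 - (Polynomial.C ⟨u, hu⟩ * Polynomial.X +
      Polynomial.C ⟨v, hv⟩), ?_, ?_⟩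
    · monicity!
    · simp only [Polynomial.eval₂_sub, Polynomial.eval₂_add, Polynomial.eval₂_mul,
        Polynomial.eval₂_pow, Polynomial.eval₂_X, Polynomial.eval₂_C]
      change x ^ 2 - (u * x + v) = 0
      rw [hx, sub_self]
  exact h3.restrictScalars K

/-- `F + F x` is a field if `x² = u x + v` -/
theorem quad_span (F : IntermediateField K L) (x u v : L) (hu : u ∈ F) (hv : v ∈ F)
    (hx : x ^ 2 = u * x + v) (htop : F ⊔ adjoin K {x} = ⊤) (z : L) :
    ∃ α ∈ F, ∃ β ∈ F, z = α + β * x := by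
  have hmem : z ∈ adjoin F {x} := by
    have h1 : z ∈ restrictScalars K (adjoin F {x}) := by
      rw [restrictScalars_adjoin_eq_sup, htop]
      exact mem_top
    exact h1
  have halg : IsAlgebraic F x := by
    refine IsIntegral.isAlgebraic ⟨Polynomial.X ^ 2 - (Polynomial.C ⟨u, hu⟩ * Polynomial.X +
      Polynomial.C ⟨v, hv⟩), ?_, ?_⟩
    · monicity!
    · simp only [Polynomial.eval₂_sub, Polynomial.eval₂_add, Polynomial.eval₂_mul,
        Polynomial.eval₂_pow, Polynomial.eval₂_X, Polynomial.eval₂_C]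
      change x ^ 2 - (u * x + v) = 0
      rw [hx, sub_self]
  rw [← mem_toSubalgebra, adjoin_simple_toSubalgebra_of_isAlgebraic halg] at hmem
  induction hmem using Algebra.adjoin_induction with
  | mem y hy =>
    rw [Set.mem_singleton_iff] at hy
    exact ⟨0, F.zero_mem, 1, F.one_mem, by rw [hy]; ring⟩
  | algebraMap r => exact ⟨r, r.2, 0, F.zero_mem, by rw [zero_mul, add_zero]; rfl⟩
  | add y w _ _ h1 h2 =>
    obtain ⟨a, ha, c, hc, rfl⟩ := h1
    obtain ⟨a', ha', c', hc', rfl⟩ := h2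
    exact ⟨a + a', F.add_mem ha ha', c + c', F.add_mem hc hc', by ring⟩
  | mul y w _ _ h1 h2 =>
    obtain ⟨a, ha, c, hc, rfl⟩ := h1
    obtain ⟨a', ha', c', hc', rfl⟩ := h2
    refine ⟨a * a' + c * c' * v, F.add_mem (F.mul_mem ha ha') (F.mul_mem (F.mul_mem hc hc') hv),
      a * c' + c * a' + c * c' * u, F.add_mem (F.add_mem (F.mul_mem ha hc') (F.mul_mem hc ha'))
      (F.mul_mem (F.mul_mem hc hc') hu), ?_⟩
    linear_combination c * c' * hx

/-- elements fixed by a homomorphism which is the identity on `F` and moves `x` -/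
theorem fix_quad (F : IntermediateField K L) (x u v : L) (hu : u ∈ F) (hv : v ∈ F)
    (hx : x ^ 2 = u * x + v) (htop : F ⊔ adjoin K {x} = ⊤) (ψ : L →ₐ[K] L)
    (hF : ∀ z ∈ F, ψ z = z) (hψ : ψ x ≠ x) {z : L} (hz : ψ z = z) : z ∈ F := by
  obtain ⟨α, hα, β, hβ, rfl⟩ := quad_span F x u v hu hv hx htop z
  rw [map_add, map_mul, hF α hα, hF β hβ] at hz
  have h1 : β * (ψ x - x) = 0 := by linear_combination hz
  rcases mul_eq_zero.1 h1 with h2 | h2
  · rw [h2, zero_mul, add_zero]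
    exact hα
  · exact absurd (sub_eq_zero.1 h2) hψ

/-- `σ P = -P`: the fixed field is `K(x)` -/
theorem fix_neg [DecidableEq L] (h2 : (2 : K) = 0) {x y : L}
    (h : WeierstrassCurve.Affine.Nonsingular ((Wo a2 a6)⁄L) x y)
    (hP : IsGen (Affine.Point.some x y h : Pt a2 a6 L)) (σ : L →ₐ[K] L)
    (hσ : mp σ (Affine.Point.some x y h : Pt a2 a6 L) = -Affine.Point.some x y h) :
    σ x = x ∧ σ y = x + y ∧ ∀ z, σ z = z → z ∈ adjoin K {x} := by
  have h2L := E3_two (L := L) h2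
  obtain ⟨htr, htop⟩ := E3_gen h2 h hP
  obtain ⟨h', hneg⟩ := neg_f h2 h
  have hσ' := hσ
  rw [hneg] at hσ'
  obtain ⟨hsx, hsy⟩ := E3_inj σ h h' hσ'
  refine ⟨hsx, hsy, fun z hz => ?_⟩
  have hx0 : x ≠ 0 := E3_ne0 htr
  have hxm : x ∈ adjoin K {x} := mem_adjoin_simple_self K x
  have ha2 : algebraMap K L a2 ∈ adjoin K {x} := (adjoin K {x}).algebraMap_mem _
  have ha6 : algebraMap K L a6 ∈ adjoin K {x} := (adjoin K {x}).algebraMap_mem _
  refine fix_quad (adjoin K {x}) y x (x ^ 3 + algebraMap K L a2 * x ^ 2 + algebraMap K L a6) hxm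
    (add_mem (add_mem (pow_mem hxm 3) (mul_mem ha2 (pow_mem hxm 2))) ha6) ?_ ?_ σ ?_ ?_ hz
  · have := eqn h2 h
    linear_combination this - x * y * h2L
  · rw [← adjoin_union]
    exact htop
  · exact E3_fix σ (fun w hw => by rw [Set.mem_singleton_iff.1 hw, hsx])
  · rw [hsy]
    intro e
    exact hx0 (by linear_combination e)

/-- `T = (0, b)`, `ψ P = T - P`: the fixed field is `K(l)`, `l = (y + b)/x`; here
`y = l x + b` and `x² + (l² + l + a₂) x + b = 0`, `ψ x = b / x` -/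
theorem fix_psi [DecidableEq K] [DecidableEq L] (h2 : (2 : K) = 0) (hb : b ≠ 0) {x y : L}
    (h : WeierstrassCurve.Affine.Nonsingular ((Wo a2 (b ^ 2))⁄L) x y)
    (hP : IsGen (Affine.Point.some x y h : Pt a2 (b ^ 2) L))
    (hT : WeierstrassCurve.Affine.Nonsingular ((Wo a2 (b ^ 2))⁄K) 0 b) (ψ : L →ₐ[K] L)
    (hψ : mp ψ (Affine.Point.some x y h : Pt a2 (b ^ 2) L) =
      bs (Affine.Point.some 0 b hT : Pt a2 (b ^ 2) K) - Affine.Point.some x y h) :
    ∃ l : L, Transcendental K l ∧ ∀ z, ψ z = z → z ∈ adjoin K {l} := by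
  have h2L := E3_two (L := L) h2
  obtain ⟨htr, htop⟩ := E3_gen h2 h hP
  have hx0 : x ≠ 0 := E3_ne0 htr
  obtain ⟨B, hB⟩ : ∃ B, B = algebraMap K L b := ⟨_, rfl⟩
  obtain ⟨A, hA⟩ : ∃ A, A = algebraMap K L a2 := ⟨_, rfl⟩
  have hB0 : B ≠ 0 := by
    rw [hB]
    exact (map_ne_zero _).2 hb
  have he := eqn h2 h
  rw [map_pow, ← hA, ← hB] at he
  obtain ⟨h', hneg⟩ := neg_f h2 h
  obtain ⟨hT', hTL⟩ := E3_bsT (L := L) hT 0 B (map_zero _) hB.symm
  have hψ' : mp ψ (Affine.Point.some x y h : Pt a2 (b ^ 2) L) =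
      Affine.Point.some 0 B hT' + Affine.Point.some x (x + y) h' := by
    rw [hψ, hTL, sub_eq_add_neg, hneg]
  obtain ⟨l, hl⟩ : ∃ l, l = (y + B) / x := ⟨_, rfl⟩
  have hlx : l * x = y + B := by
    rw [hl]
    field_simp
  have hq := E3_quad h2L hx0 he hlx
  have hl1 : l + 1 = (B + (x + y)) / (0 + x) := by
    rw [zero_add, eq_div_iff hx0]
    linear_combination hlx
  have hx3 : B / x = (l + 1) ^ 2 + (l + 1) + 0 + x + algebraMap K L a2 := by
    rw [← hA, div_eq_iff hx0]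
    linear_combination -hq + (-(x * l) + B - x) * h2L
  obtain ⟨h'', hadd⟩ := add_f h2 hT' h' (Ne.symm hx0) (l + 1) (B / x) hl1 hx3
  rw [hadd] at hψ'
  obtain ⟨hsx, hsy⟩ := E3_inj ψ h h'' hψ'
  have hsB : ψ B = B := by rw [hB, ψ.commutes]
  have hw0 : B / x ≠ 0 := div_ne_zero hB0 hx0
  have hsl : ψ l = l := by
    have h3 : ψ l * (B / x) = ψ y + B := by
      rw [← hsx, ← map_mul, hlx, map_add, hsB]
    have h4 : (ψ l - l) * (B / x) = 0 := by
      rw [hsy] at h3
      linear_combination h3 + (B / x + B) * h2L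
    exact sub_eq_zero.1 ((mul_eq_zero.1 h4).resolve_right hw0)
  have hlm : l ∈ adjoin K {l} := mem_adjoin_simple_self K l
  have hAm : A ∈ adjoin K {l} := hA ▸ (adjoin K {l}).algebraMap_mem _
  have hBm : B ∈ adjoin K {l} := hB ▸ (adjoin K {l}).algebraMap_mem _
  have hum : -(l ^ 2 + l + A) ∈ adjoin K {l} := neg_mem (add_mem (add_mem (pow_mem hlm 2) hlm) hAm)
  have hxq : x ^ 2 = -(l ^ 2 + l + A) * x + -B := by linear_combination hq
  refine ⟨l, ?_, fun z hz => ?_⟩
  · intro halg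
    exact htr (E3_alg halg hum (neg_mem hBm) hxq)
  · refine fix_quad (adjoin K {l}) x _ _ hum (neg_mem hBm) hxq ?_ ψ ?_ ?_ hz
    · rw [eq_top_iff, ← htop, adjoin_le_iff]
      have h5 : l ∈ adjoin K {l} ⊔ adjoin K {x} := (le_sup_left : adjoin K {l} ≤ adjoin K {l} ⊔ adjoin K {x}) hlm
      have h6 : x ∈ adjoin K {l} ⊔ adjoin K {x} :=
        (le_sup_right : adjoin K {x} ≤ adjoin K {l} ⊔ adjoin K {x}) (mem_adjoin_simple_self K x)
      have h7 : B ∈ adjoin K {l} ⊔ adjoin K {x} :=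
        (le_sup_left : adjoin K {l} ≤ adjoin K {l} ⊔ adjoin K {x}) hBm
      rintro w (rfl | hw)
      · exact h6
      · rw [Set.mem_singleton_iff.1 hw]
        have h8 : y = l * x - B := by linear_combination -hlx
        rw [h8]
        exact sub_mem (mul_mem h5 h6) h7
    · exact E3_fix ψ (fun w hw => by rw [Set.mem_singleton_iff.1 hw, hsl])
    · rw [hsx]
      intro e
      rw [div_eq_iff hx0] at e
      exact htr.pow (n := 2) (by norm_num) (by
        rw [sq, ← e, hB]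
        exact isAlgebraic_algebraMap b)

/-- `T = (0, b)`, `τ P = P + T`: the fixed field is `K(X, Y)`, `X = (x² + b)/x`,
`Y = ((x² + b)(y + b) + b x)/x²`; here `x² + X x + b = 0`, `y ∈ K(x, Y)`, `τ x = b / x` -/
theorem fix_tau [DecidableEq K] [DecidableEq L] (h2 : (2 : K) = 0) (hb : b ≠ 0) {x y : L}
    (h : WeierstrassCurve.Affine.Nonsingular ((Wo a2 (b ^ 2))⁄L) x y)
    (hP : IsGen (Affine.Point.some x y h : Pt a2 (b ^ 2) L))
    (hT : WeierstrassCurve.Affine.Nonsingular ((Wo a2 (b ^ 2))⁄K) 0 b) (τ : L →ₐ[K] L)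
    (hτ : mp τ (Affine.Point.some x y h : Pt a2 (b ^ 2) L) =
      Affine.Point.some x y h + bs (Affine.Point.some 0 b hT : Pt a2 (b ^ 2) K)) :
    ∀ z, τ z = z → z ∈ adjoin K {(x ^ 2 + algebraMap K L b) / x,
      ((x ^ 2 + algebraMap K L b) * (y + algebraMap K L b) + algebraMap K L b * x) / x ^ 2} := by
  have h2L := E3_two (L := L) h2
  obtain ⟨htr, htop⟩ := E3_gen h2 h hP
  have hx0 : x ≠ 0 := E3_ne0 htr
  obtain ⟨B, hB⟩ : ∃ B, B = algebraMap K L b := ⟨_, rfl⟩
  obtain ⟨A, hA⟩ : ∃ A, A = algebraMap K L a2 := ⟨_, rfl⟩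
  have hB0 : B ≠ 0 := by
    rw [hB]
    exact (map_ne_zero _).2 hb
  have he := eqn h2 h
  rw [map_pow, ← hA, ← hB] at he
  obtain ⟨hT', hTL⟩ := E3_bsT (L := L) hT 0 B (map_zero _) hB.symm
  have hτ' : mp τ (Affine.Point.some x y h : Pt a2 (b ^ 2) L) =
      Affine.Point.some x y h + Affine.Point.some 0 B hT' := by
    rw [hτ, hTL]
  obtain ⟨l, hl⟩ : ∃ l, l = (y + B) / x := ⟨_, rfl⟩
  have hlx : l * x = y + B := by
    rw [hl]
    field_simp
  have hq := E3_quad h2L hx0 he hlx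
  have hl1 : l = (y + B) / (x + 0) := by
    rw [add_zero, hl]
  have hx3 : B / x = l ^ 2 + l + x + 0 + algebraMap K L a2 := by
    rw [← hA, div_eq_iff hx0]
    linear_combination -hq + B * h2L
  obtain ⟨h'', hadd⟩ := add_f h2 h hT' hx0 l (B / x) hl1 hx3
  rw [hadd] at hτ'
  obtain ⟨hsx, hsy⟩ := E3_inj τ h h'' hτ'
  have hsB : τ B = B := by rw [hB, τ.commutes]
  have hw0 : B / x ≠ 0 := div_ne_zero hB0 hx0
  have hx2 : x ^ 2 + B ≠ 0 := by
    intro e
    exact htr.pow (n := 2) (by norm_num) (by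
      have h1 : x ^ 2 = algebraMap K L (-b) := by
        rw [map_neg, ← hB]
        linear_combination e
      rw [h1]
      exact isAlgebraic_algebraMap (-b))
  rw [← hB]
  obtain ⟨X, hX⟩ : ∃ X, X = (x ^ 2 + B) / x := ⟨_, rfl⟩
  obtain ⟨Y, hY⟩ : ∃ Y, Y = ((x ^ 2 + B) * (y + B) + B * x) / x ^ 2 := ⟨_, rfl⟩
  rw [← hX, ← hY]
  obtain ⟨w, hw⟩ : ∃ w, w = B / x := ⟨_, rfl⟩
  rw [← hw] at hsx hsy hw0
  have hwx : w * x = B := by
    rw [hw]
    field_simp
  have hX1 : X * x = x ^ 2 + B := by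
    rw [hX]
    field_simp
  have hY1 : Y * x ^ 2 = (x ^ 2 + B) * (y + B) + B * x := by
    rw [hY]
    field_simp
  have hsX : τ X = X := by
    have h3 : τ X * w = w ^ 2 + B := by
      rw [← hsx, ← map_mul, hX1, map_add, map_pow, hsB]
    have h4 : (τ X - X) * (w * x) = 0 := by
      linear_combination x * h3 - w * hX1 + (w - x) * hwx
    exact sub_eq_zero.1 ((mul_eq_zero.1 h4).resolve_right (mul_ne_zero hw0 hx0))
  have hsY : τ Y = Y := by
    have h3 : τ Y * w ^ 2 = (w ^ 2 + B) * (τ y + B) + B * w := by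
      rw [← hsx, ← map_pow, ← map_mul, hY1, map_add, map_mul, map_mul, map_add, map_add, map_pow,
        hsB]
    rw [hsy] at h3
    have h4 : (τ Y - Y) * (w * x) ^ 2 = 0 := by
      have h5 : y = l * x - B := by linear_combination -hlx
      rw [h5, ← hwx] at h3 hY1
      linear_combination x ^ 2 * h3 - w ^ 2 * hY1 + (w * x ^ 4 * l + w ^ 2 * x ^ 3 + w ^ 2 * x ^ 3 * l) * h2L
    exact sub_eq_zero.1 ((mul_eq_zero.1 h4).resolve_right (pow_ne_zero 2 (mul_ne_zero hw0 hx0)))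
  intro z hz
  have hXm : X ∈ adjoin K {X, Y} := subset_adjoin K _ (by simp)
  have hYm : Y ∈ adjoin K {X, Y} := subset_adjoin K _ (by simp)
  have hBm : B ∈ adjoin K {X, Y} := hB ▸ (adjoin K {X, Y}).algebraMap_mem _
  refine fix_quad (adjoin K {X, Y}) x X (-B) hXm (neg_mem hBm) (by linear_combination -hX1) ?_ τ
    ?_ ?_ hz
  · rw [eq_top_iff, ← htop, adjoin_le_iff]
    have h5 : Y ∈ adjoin K {X, Y} ⊔ adjoin K {x} :=
      (le_sup_left : adjoin K {X, Y} ≤ adjoin K {X, Y} ⊔ adjoin K {x}) hYm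
    have h6 : x ∈ adjoin K {X, Y} ⊔ adjoin K {x} :=
      (le_sup_right : adjoin K {x} ≤ adjoin K {X, Y} ⊔ adjoin K {x}) (mem_adjoin_simple_self K x)
    have h7 : B ∈ adjoin K {X, Y} ⊔ adjoin K {x} :=
      (le_sup_left : adjoin K {X, Y} ≤ adjoin K {X, Y} ⊔ adjoin K {x}) hBm
    rintro w (rfl | hw)
    · exact h6
    · rw [Set.mem_singleton_iff.1 hw]
      have h8 : y = (Y * x ^ 2 - B * x) / (x ^ 2 + B) - B := by
        rw [eq_sub_iff_add_eq, eq_div_iff hx2]
        linear_combination -hY1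
      rw [h8]
      exact sub_mem (div_mem (sub_mem (mul_mem h5 (pow_mem h6 2)) (mul_mem h7 h6))
        (add_mem (pow_mem h6 2) h7)) h7
  · refine E3_fix τ (fun w hw => ?_)
    rcases hw with rfl | hw
    · exact hsX
    · rw [Set.mem_singleton_iff.1 hw]
      exact hsY
  · rw [hsx]
    intro e
    rw [e] at hwx
    exact htr.pow (n := 2) (by norm_num) (by
      rw [sq, hwx, hB]
      exact isAlgebraic_algebraMap b)

end MP2619.NP
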