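import Pool.Agent.Lib.MP_2619d0_ag.NP.E1
import Pool.Agent.Lib.MP_2619d0_ag.NP.E3

/-!
Row E4: the translation by the point of order two.
-/

set_option autoImplicit false

namespace MP2619.NP

universe u

open IntermediateField WeierstrassCurve

variable {K L : Type u} [Field K] [Field L] [Algebra K L] {a2 a6 b b2 b6 : K}

private theorem E4_bs_inj [DecidableEq K] [DecidableEq L] :
    Function.Injective (bs : Pt b2 b6 K →+ Pt b2 b6 L) :=
  WeierstrassCurve.Affine.Point.map_injective (W' := Wo b2 b6) (Algebra.ofId K L)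

private theorem E4_mp_some [DecidableEq L] (σ : L →ₐ[K] L) {x y : L}
    (h : WeierstrassCurve.Affine.Nonsingular ((Wo b2 b6)⁄L) x y) :
    ∃ h', mp σ (Affine.Point.some x y h : Pt b2 b6 L) = Affine.Point.some (σ x) (σ y) h' :=
  ⟨_, WeierstrassCurve.Affine.Point.map_some (W' := Wo b2 b6) (f := σ) h⟩

private theorem E4_fixed [DecidableEq L] (σ : L →ₐ[K] L) (d : Pt b2 b6 L) (hd : mp σ d = d) :
    ∀ z ∈ pf d, σ z = z := by
  intro z hz
  match d, hd, hz with
  | .zero, _, hz => exact absurd hz (by simp [pf])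
  | .some x y h, hd, hz =>
    obtain ⟨h', e⟩ := E4_mp_some σ h
    rw [e] at hd
    injection hd with hx hy
    have hz' : z = x ∨ z = y := hz
    rcases hz' with rfl | rfl
    · exact hx
    · exact hy

private theorem E4_comp [DecidableEq L] (σ τ : L →ₐ[K] L) (P : Pt b2 b6 L) :
    mp (σ.comp τ) P = mp σ (mp τ P) :=
  (WeierstrassCurve.Affine.Point.map_map (W' := Wo b2 b6) τ σ P).symm

private theorem E4_id [DecidableEq L] (P : Pt b2 b6 L) : mp (AlgHom.id K L) P = P := by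
  match P with
  | .zero => rfl
  | .some x y h => rfl

/-- an involution in terms of a generic point -/
private theorem E4_inv [DecidableEq L] (P : Pt a2 a6 L) (hP : IsGen P) (σ : L →ₐ[K] L)
    (h : mp σ (mp σ P) = P) (c : Pt b2 b6 L) : mp σ (mp σ c) = c := by
  have e : σ.comp σ = AlgHom.id K L := by
    apply hom_ext P hP
    rw [E4_comp, E4_id, h]
  rw [← E4_comp, e, E4_id]

private theorem E4_sum [DecidableEq L] (σ : L →ₐ[K] L) (c : Pt b2 b6 L)
    (h : mp σ (mp σ c) = c) : mp σ (c + mp σ c) = c + mp σ c := by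
  rw [map_add, h, add_comm]

/-- `c(P) + c(-P)` is constant: it is a point over `K(x)` (`fix_neg`), `pts_const` -/
theorem sigma_const [DecidableEq K] [DecidableEq L] (h2 : (2 : K) = 0) (h6 : b6 ≠ 0)
    (P : Pt a2 a6 L) (hP : IsGen P) (σ : L →ₐ[K] L) (hσ : mp σ P = -P) (c : Pt b2 b6 L) :
    ∃ κ : Pt b2 b6 K, c + mp σ c = bs κ := by
  have h1 : mp σ (mp σ P) = P := by rw [hσ, map_neg, hσ, neg_neg]
  have hfix := E4_fixed σ _ (E4_sum σ c (E4_inv P hP σ h1 c))
  obtain ⟨x, y, h, rfl, hx, htop⟩ := gen_some h2 P hP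
  obtain ⟨-, -, h3⟩ := fix_neg h2 h hP σ hσ
  exact pts_const h2 h6 x hx _ fun z hz => h3 z (hfix z hz)

/-- `c(P) + c(T - P)` is constant: `fix_psi`, `pts_const` -/
theorem psi_const [DecidableEq K] [DecidableEq L] (h2 : (2 : K) = 0) (hb : b ≠ 0) (h6 : b6 ≠ 0)
    (P : Pt a2 (b ^ 2) L) (hP : IsGen P)
    (hT : WeierstrassCurve.Affine.Nonsingular ((Wo a2 (b ^ 2))⁄K) 0 b) (ψ : L →ₐ[K] L)
    (hψ : mp ψ P = bs (Affine.Point.some 0 b hT : Pt a2 (b ^ 2) K) - P) (c : Pt b2 b6 L) :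
    ∃ κ : Pt b2 b6 K, c + mp ψ c = bs κ := by
  have h1 : mp ψ (mp ψ P) = P := by
    rw [hψ, map_sub, hψ, mp_ofId, sub_sub_cancel]
  have hfix := E4_fixed ψ _ (E4_sum ψ c (E4_inv P hP ψ h1 c))
  obtain ⟨x, y, h, rfl, hx, htop⟩ := gen_some h2 P hP
  obtain ⟨l, hl, h3⟩ := fix_psi h2 hb h hP hT ψ hψ
  exact pts_const h2 h6 l hl _ fun z hz => h3 z (hfix z hz)

/-- `c(P + T) = c(P) + e`, `2e = 0`. Sketch: `σ` with `σ P = -P` (`exists_hom`), `ψ = σ ∘ τ`,
`ψ P = T - P`. `c + σ c = κ`, `c + σ τ c = κ'`, apply `σ`: `τ c = κ' - σ c = κ' - κ + c`;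
`τ τ = 1` (`hom_ext`). -/
theorem tau_const [DecidableEq K] [DecidableEq L] (h2 : (2 : K) = 0) (hb : b ≠ 0) (h6 : b6 ≠ 0)
    (P : Pt a2 (b ^ 2) L) (hP : IsGen P)
    (hT : WeierstrassCurve.Affine.Nonsingular ((Wo a2 (b ^ 2))⁄K) 0 b) (τ : L →ₐ[K] L)
    (hτ : mp τ P = P + bs (Affine.Point.some 0 b hT : Pt a2 (b ^ 2) K)) (c : Pt b2 b6 L) :
    ∃ e : Pt b2 b6 K, e + e = 0 ∧ mp τ c = c + bs e := by
  set T : Pt a2 (b ^ 2) K := Affine.Point.some 0 b hT with hTdef
  have hTT : T + T = 0 := by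
    have := dbl_zero (K := K) (L := K) h2 hT rfl
    exact this
  have hTT' : bs (L := L) T + bs (L := L) T = 0 := by rw [← map_add, hTT, map_zero]
  have hnT : -(bs (L := L) T) = bs (L := L) T := neg_eq_of_add_eq_zero_left hTT'
  -- the involution
  obtain ⟨σ, hσ⟩ : ∃ σ : L →ₐ[K] L, mp σ P = -P := by
    apply exists_hom h2 P hP
    rw [pf_neg h2, hP.top]
    intro hal
    apply hP.nalg
    have e := (IntermediateField.topEquiv (F := K) (E := L))
    exact Algebra.IsAlgebraic.of_injective e.symm.toAlgHom e.symm.injective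
  have hψ : mp (σ.comp τ) P = bs T - P := by
    rw [E4_comp, hτ, map_add, hσ, mp_ofId]
    abel
  obtain ⟨κ, hκ⟩ := sigma_const h2 h6 P hP σ hσ c
  obtain ⟨κ', hκ'⟩ := psi_const h2 hb h6 P hP hT (σ.comp τ) hψ c
  rw [E4_comp] at hκ'
  have hσσ : ∀ c : Pt b2 b6 L, mp σ (mp σ c) = c :=
    E4_inv P hP σ (by rw [hσ, map_neg, hσ, neg_neg])
  have hττ : ∀ c : Pt b2 b6 L, mp τ (mp τ c) = c :=
    E4_inv P hP τ (by rw [hτ, map_add, hτ, mp_ofId, add_assoc, hTT', add_zero])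
  have h3 : mp σ c + mp τ c = bs κ' := by
    have := congrArg (mp σ) hκ'
    rw [map_add, hσσ, mp_ofId] at this
    exact this
  have h4 : mp τ c = c + bs (κ' - κ) := by
    rw [map_sub, ← h3, ← hκ]
    abel
  refine ⟨κ' - κ, ?_, h4⟩
  have h5 := hττ c
  rw [h4, map_add, h4, mp_ofId, add_assoc, ← map_add] at h5
  have h6 : bs (L := L) ((κ' - κ) + (κ' - κ)) = 0 := by
    exact add_eq_left.mp h5
  exact (map_eq_zero_iff _ E4_bs_inj).mp h6

/-- a point of order two: `0`, or `(0, β)` with `β² = a₆` -/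
theorem two_torsion [DecidableEq K] (h2 : (2 : K) = 0) (e : Pt b2 b6 K) (he : e + e = 0) :
    e = 0 ∨ ∃ β h, β ^ 2 = b6 ∧ e = Affine.Point.some 0 β h := by
  match e, he with
  | .zero, _ => exact Or.inl rfl
  | .some x y h, he =>
    right
    by_cases hx : x = 0
    · subst hx
      refine ⟨y, h, ?_, rfl⟩
      have := eqn (K := K) (L := K) h2 h
      simpa using this
    · obtain ⟨h', e'⟩ := dbl_f (K := K) (L := K) h2 h hx _ _ rfl rfl
      rw [e'] at he
      exact absurd he (by rintro ⟨⟩)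

end MP2619.NP
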