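import Pool.Agent.Lib.MP_2619d0_ag.NP.E0b
import Pool.Agent.Lib.MP_2619d0_ag.NP.E0a

/-!
Row E5: the Frobenius `F : E_a → E_{a²}` (same `a₂`) and its dual `V : E_{a²} → E_a`.
-/

set_option autoImplicit false

namespace MP2619.NP

universe u

open IntermediateField WeierstrassCurve

variable {K L M : Type u} [Field K] [Field L] [Field M] [Algebra K L] [Algebra K M] {a2 a : K}

/-- the formula of `F` -/
def Fform (a2 a : K) (L : Type u) [Field L] [Algebra K L] [DecidableEq L]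
    (F : Pt a2 a L →+ Pt a2 (a ^ 2) L) : Prop :=
  ∀ x y h, ∃ h', F (Affine.Point.some x y h) =
    Affine.Point.some (x ^ 2) (y ^ 2 + algebraMap K L a2 * x ^ 2) h'

/-- the formula of `V` -/
def Vform (a2 a : K) (L : Type u) [Field L] [Algebra K L] [DecidableEq L]
    (V : Pt a2 (a ^ 2) L →+ Pt a2 a L) : Prop :=
  (∀ y h, V (Affine.Point.some 0 y h) = 0) ∧ (∀ x y h, x ≠ 0 → ∃ h', V (Affine.Point.some x y h) =
    Affine.Point.some ((x ^ 2 + algebraMap K L a) / x)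
      (((x ^ 2 + algebraMap K L a) * (y + algebraMap K L a) + algebraMap K L a * x) / x ^ 2) h')

private theorem E5_c2 (h2 : (2 : K) = 0) : (2 : L) = 0 := by
  have := congrArg (algebraMap K L) h2
  rwa [map_ofNat, map_zero] at this

private theorem E5_ext {a6 : K} {x y x' y' : L}
    (h : WeierstrassCurve.Affine.Nonsingular ((Wo a2 a6)⁄L) x y)
    (h' : WeierstrassCurve.Affine.Nonsingular ((Wo a2 a6)⁄L) x' y') (hx : x = x') (hy : y = y') :
    (Affine.Point.some x y h : Pt a2 a6 L) = Affine.Point.some x' y' h' := by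
  subst hx; subst hy; rfl

private theorem E5_nsF (h2 : (2 : K) = 0) (ha : a ≠ 0) {x y : L}
    (h : WeierstrassCurve.Affine.Nonsingular ((Wo a2 a)⁄L) x y) :
    WeierstrassCurve.Affine.Nonsingular ((Wo a2 (a ^ 2))⁄L) (x ^ 2)
      (y ^ 2 + algebraMap K L a2 * x ^ 2) := by
  rw [nonsing_iff h2 (pow_ne_zero 2 ha)]
  have e := eqn h2 h
  have h2' : (2 : L) = 0 := E5_c2 h2
  rw [map_pow]
  generalize algebraMap K L a2 = B at *
  generalize algebraMap K L a = A at *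
  linear_combination (y ^ 2 + x * y + x ^ 3 + B * x ^ 2 + A) * e +
    (A * B * x ^ 2 + A * x ^ 3 + B * x ^ 2 * y ^ 2 + B * x ^ 5 + B ^ 2 * x ^ 4 - x * y ^ 3) * h2'

private theorem E5_nsV (h2 : (2 : K) = 0) (ha : a ≠ 0) {x y : L}
    (h : WeierstrassCurve.Affine.Nonsingular ((Wo a2 (a ^ 2))⁄L) x y) (hx : x ≠ 0) :
    WeierstrassCurve.Affine.Nonsingular ((Wo a2 a)⁄L) ((x ^ 2 + algebraMap K L a) / x)
      (((x ^ 2 + algebraMap K L a) * (y + algebraMap K L a) + algebraMap K L a * x) / x ^ 2) := by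
  rw [nonsing_iff h2 ha]
  have e := eqn h2 h
  have h2' : (2 : L) = 0 := E5_c2 h2
  rw [map_pow] at e
  generalize algebraMap K L a2 = B at *
  generalize algebraMap K L a = A at *
  have key : ((x ^ 2 + A) * (y + A) + A * x) ^ 2 + x * (x ^ 2 + A) * ((x ^ 2 + A) * (y + A) + A * x) =
      x * (x ^ 2 + A) ^ 3 + B * x ^ 2 * (x ^ 2 + A) ^ 2 + A * x ^ 4 := by
    linear_combination (x ^ 2 + A) ^ 2 * e + (A * x ^ 3 * y + A * x ^ 4 * y + A ^ 2 * x * y +
      A ^ 2 * x ^ 2 + 2 * A ^ 2 * x ^ 2 * y + A ^ 2 * x ^ 3 + A ^ 2 * x ^ 4 + A ^ 3 * x +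
      2 * A ^ 3 * x ^ 2 + A ^ 3 * y + A ^ 4) * h2'
  have e1 : (((x ^ 2 + A) * (y + A) + A * x) / x ^ 2) ^ 2 +
      (x ^ 2 + A) / x * (((x ^ 2 + A) * (y + A) + A * x) / x ^ 2) =
      (((x ^ 2 + A) * (y + A) + A * x) ^ 2 + x * (x ^ 2 + A) * ((x ^ 2 + A) * (y + A) + A * x)) /
        x ^ 4 := by
    field_simp
  have e2 : ((x ^ 2 + A) / x) ^ 3 + B * ((x ^ 2 + A) / x) ^ 2 + A =
      (x * (x ^ 2 + A) ^ 3 + B * x ^ 2 * (x ^ 2 + A) ^ 2 + A * x ^ 4) / x ^ 4 := by
    field_simp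
  rw [e1, e2, key]

private noncomputable def E5_Ff (h2 : (2 : K) = 0) (ha : a ≠ 0) : Pt a2 a L → Pt a2 (a ^ 2) L
  | .zero => .zero
  | .some x y h => .some (x ^ 2) (y ^ 2 + algebraMap K L a2 * x ^ 2) (E5_nsF h2 ha h)

private noncomputable def E5_Vf [DecidableEq L] (h2 : (2 : K) = 0) (ha : a ≠ 0) :
    Pt a2 (a ^ 2) L → Pt a2 a L
  | .zero => .zero
  | .some x y h => if hx : x = 0 then .zero else
      .some ((x ^ 2 + algebraMap K L a) / x)
        (((x ^ 2 + algebraMap K L a) * (y + algebraMap K L a) + algebraMap K L a * x) / x ^ 2)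
        (E5_nsV h2 ha h hx)

private theorem E5_Ff_zero (h2 : (2 : K) = 0) (ha : a ≠ 0) :
    E5_Ff (L := L) (a2 := a2) h2 ha (0 : Pt a2 a L) = 0 := rfl

private theorem E5_Vf_zero [DecidableEq L] (h2 : (2 : K) = 0) (ha : a ≠ 0) :
    E5_Vf (L := L) (a2 := a2) h2 ha (0 : Pt a2 (a ^ 2) L) = 0 := rfl

private theorem E5_Ff_some (h2 : (2 : K) = 0) (ha : a ≠ 0) {x y : L}
    (h : WeierstrassCurve.Affine.Nonsingular ((Wo a2 a)⁄L) x y) :
    E5_Ff h2 ha (Affine.Point.some x y h : Pt a2 a L) =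
      Affine.Point.some (x ^ 2) (y ^ 2 + algebraMap K L a2 * x ^ 2) (E5_nsF h2 ha h) := rfl

private theorem E5_Vf_some0 [DecidableEq L] (h2 : (2 : K) = 0) (ha : a ≠ 0) {x y : L}
    (h : WeierstrassCurve.Affine.Nonsingular ((Wo a2 (a ^ 2))⁄L) x y) (hx : x = 0) :
    E5_Vf h2 ha (Affine.Point.some x y h : Pt a2 (a ^ 2) L) = 0 := by
  show (if hx : x = 0 then (Affine.Point.zero : Pt a2 a L) else
      .some ((x ^ 2 + algebraMap K L a) / x)
        (((x ^ 2 + algebraMap K L a) * (y + algebraMap K L a) + algebraMap K L a * x) / x ^ 2)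
        (E5_nsV h2 ha h hx)) = 0
  rw [dif_pos hx]
  rfl

private theorem E5_Vf_some [DecidableEq L] (h2 : (2 : K) = 0) (ha : a ≠ 0) {x y : L}
    (h : WeierstrassCurve.Affine.Nonsingular ((Wo a2 (a ^ 2))⁄L) x y) (hx : x ≠ 0) :
    E5_Vf h2 ha (Affine.Point.some x y h : Pt a2 (a ^ 2) L) =
      Affine.Point.some ((x ^ 2 + algebraMap K L a) / x)
        (((x ^ 2 + algebraMap K L a) * (y + algebraMap K L a) + algebraMap K L a * x) / x ^ 2)
        (E5_nsV h2 ha h hx) := by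
  show (if hx : x = 0 then (Affine.Point.zero : Pt a2 a L) else
      .some ((x ^ 2 + algebraMap K L a) / x)
        (((x ^ 2 + algebraMap K L a) * (y + algebraMap K L a) + algebraMap K L a * x) / x ^ 2)
        (E5_nsV h2 ha h hx)) = _
  rw [dif_neg hx]

private theorem E5_Fneg [DecidableEq L] (h2 : (2 : K) = 0) (ha : a ≠ 0) (P : Pt a2 a L) :
    E5_Ff h2 ha (-P) = -E5_Ff h2 ha P := by
  have h2' : (2 : L) = 0 := E5_c2 h2
  rcases P with _ | ⟨x, y, h⟩
  · rfl
  · obtain ⟨h', e'⟩ := neg_f h2 h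
    rw [e', E5_Ff_some, E5_Ff_some]
    obtain ⟨h'', e''⟩ := neg_f h2 (E5_nsF h2 ha h)
    rw [e'']
    apply E5_ext _ _ rfl
    linear_combination (x * y) * h2'

private theorem E5_Fadd [DecidableEq L] (h2 : (2 : K) = 0) (ha : a ≠ 0) (P Q : Pt a2 a L) :
    E5_Ff h2 ha (P + Q) = E5_Ff h2 ha P + E5_Ff h2 ha Q := by
  have h2' : (2 : L) = 0 := E5_c2 h2
  rcases P with _ | ⟨x1, y1, h1⟩
  · show E5_Ff h2 ha (0 + Q) = 0 + E5_Ff h2 ha Q
    rw [zero_add, zero_add]
  rcases Q with _ | ⟨x2, y2, h3⟩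
  · show E5_Ff h2 ha (_ + 0) = _ + 0
    rw [add_zero, add_zero]
  by_cases hne : x1 = x2
  · subst hne
    rcases eq_or_neg h2 h3 h1 with hq | hq
    · rw [hq]
      by_cases hx : x1 = 0
      · rw [dbl_zero h2 h1 hx, E5_Ff_zero, E5_Ff_some, dbl_zero h2 _ (by rw [hx]; ring)]
      · obtain ⟨h', e'⟩ := dbl_f h2 h1 hx _ _ rfl rfl
        rw [e', E5_Ff_some, E5_Ff_some]
        obtain ⟨h'', e''⟩ := dbl_f h2 (E5_nsF h2 ha h1) (pow_ne_zero 2 hx)
          ((x1 + y1 / x1) ^ 2 + algebraMap K L a2)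
          (((x1 + y1 / x1) ^ 2 + (x1 + y1 / x1) + algebraMap K L a2) ^ 2) (by
            have : x1 ^ 2 + (y1 ^ 2 + algebraMap K L a2 * x1 ^ 2) / x1 ^ 2 =
                (x1 + y1 / x1) ^ 2 + algebraMap K L a2 - y1 * 2 := by
              field_simp
              ring
            rw [this, h2', mul_zero, sub_zero]) (by
            generalize x1 + y1 / x1 = l
            generalize algebraMap K L a2 = B
            linear_combination (B * l - B + l ^ 3) * h2')
        rw [e'']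
        apply E5_ext _ _ rfl
        generalize x1 + y1 / x1 = l
        generalize algebraMap K L a2 = B
        generalize l ^ 2 + l + B = x3
        linear_combination (l * x1 ^ 2 * x3 + l * x3 ^ 2 + x1 ^ 2 * x3) * h2'
    · rw [hq, add_neg_cancel, E5_Fneg, add_neg_cancel, E5_Ff_zero]
  · obtain ⟨h', e'⟩ := add_f h2 h1 h3 hne _ _ rfl rfl
    rw [e', E5_Ff_some, E5_Ff_some, E5_Ff_some]
    have hs : x1 + x2 ≠ 0 := by
      intro hc
      apply hne
      linear_combination hc - x2 * h2'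
    have hs2 : x1 ^ 2 + x2 ^ 2 = (x1 + x2) ^ 2 := by
      linear_combination (-(x1 * x2)) * h2'
    have hne2 : x1 ^ 2 ≠ x2 ^ 2 := by
      intro hc
      apply pow_ne_zero 2 hs
      rw [← hs2]
      linear_combination hc + x2 ^ 2 * h2'
    obtain ⟨h'', e''⟩ := add_f h2 (E5_nsF h2 ha h1) (E5_nsF h2 ha h3) hne2
      (((y1 + y2) / (x1 + x2)) ^ 2 + algebraMap K L a2)
      ((((y1 + y2) / (x1 + x2)) ^ 2 + (y1 + y2) / (x1 + x2) + x1 + x2 + algebraMap K L a2) ^ 2) (by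
        rw [hs2, eq_div_iff (pow_ne_zero 2 hs), add_mul, ← mul_pow, div_mul_cancel₀ _ hs]
        linear_combination (y1 * y2 + algebraMap K L a2 * x1 * x2) * h2') (by
        generalize (y1 + y2) / (x1 + x2) = l
        generalize algebraMap K L a2 = B
        linear_combination (-B + B * l + B * x1 + B * x2 + l * x1 + l * x2 + l ^ 2 * x1 +
          l ^ 2 * x2 + l ^ 3 + x1 * x2) * h2')
    rw [e'']
    apply E5_ext _ _ rfl
    generalize (y1 + y2) / (x1 + x2) = l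
    generalize algebraMap K L a2 = B
    generalize l ^ 2 + l + x1 + x2 + B = x3
    linear_combination (-(B * x1 ^ 2) + l * x1 * x3 + l * x1 * y1 + l * x3 * y1 + l * x3 ^ 2 +
      l ^ 2 * x1 * x3 + x3 * y1) * h2'

/-- Additivity of `F`: as in `WeierstrassCurve.Affine.Point.map` (the slope `l` becomes
`l² + a₂`), cases `add_f`, `dbl_f`, opposite points. -/
theorem exists_F (h2 : (2 : K) = 0) (ha : a ≠ 0) (L : Type u) [Field L] [Algebra K L]
    [DecidableEq L] : ∃ F : Pt a2 a L →+ Pt a2 (a ^ 2) L, Fform a2 a L F :=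
  ⟨{ toFun := E5_Ff h2 ha
     map_zero' := rfl
     map_add' := E5_Fadd h2 ha }, fun _ _ h => ⟨E5_nsF h2 ha h, rfl⟩⟩

/-- `V F = 2` -/
private theorem E5_VF [DecidableEq L] (h2 : (2 : K) = 0) (ha : a ≠ 0) (P : Pt a2 a L) :
    E5_Vf h2 ha (E5_Ff h2 ha P) = P + P := by
  have h2' : (2 : L) = 0 := E5_c2 h2
  rcases P with _ | ⟨x, y, h⟩
  · rfl
  by_cases hx : x = 0
  · rw [E5_Ff_some, E5_Vf_some0 h2 ha _ (by rw [hx]; ring), dbl_zero h2 h hx]
  · rw [E5_Ff_some, E5_Vf_some h2 ha _ (pow_ne_zero 2 hx)]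
    have e := eqn h2 h
    have hX : ((x ^ 2) ^ 2 + algebraMap K L a) / x ^ 2 =
        (x + y / x) ^ 2 + (x + y / x) + algebraMap K L a2 := by
      generalize algebraMap K L a2 = B at *
      generalize algebraMap K L a = A at *
      rw [div_eq_iff (pow_ne_zero 2 hx)]
      have e1 : ((x + y / x) ^ 2 + (x + y / x) + B) * x ^ 2 =
          (x ^ 2 + y) ^ 2 + x * (x ^ 2 + y) + B * x ^ 2 := by
        field_simp
      rw [e1]
      linear_combination (-1 : L) * e - (x ^ 2 * y + x ^ 3 + B * x ^ 2) * h2'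
    obtain ⟨h', e'⟩ := dbl_f h2 h hx (x + y / x) (((x ^ 2) ^ 2 + algebraMap K L a) / x ^ 2) rfl hX
    rw [e']
    apply E5_ext _ _ rfl
    generalize algebraMap K L a2 = B at *
    generalize algebraMap K L a = A at *
    rw [div_eq_iff (pow_ne_zero 2 (pow_ne_zero 2 hx))]
    have e1 : (x ^ 2 + (x + y / x + 1) * (((x ^ 2) ^ 2 + A) / x ^ 2)) * (x ^ 2) ^ 2 =
        x ^ 6 + (x ^ 3 + x * y + x ^ 2) * (x ^ 4 + A) := by
      field_simp
    rw [e1]
    linear_combination (x ^ 4 + A) * e + (A * B * x ^ 2 - A * x * y + A * x ^ 4 + A ^ 2 +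
      B * x ^ 6 - x ^ 5 * y - x ^ 6) * h2'

/-- `V` commutes with homomorphisms -/
private theorem E5_Vmp [DecidableEq L] [DecidableEq M] (h2 : (2 : K) = 0) (ha : a ≠ 0)
    (φ : L →ₐ[K] M) (P : Pt a2 (a ^ 2) L) :
    E5_Vf h2 ha (mp φ P) = mp φ (E5_Vf h2 ha P) := by
  rcases P with _ | ⟨x, y, h⟩
  · rfl
  by_cases hx : x = 0
  · rw [E5_Vf_some0 h2 ha h hx, _root_.map_zero, Affine.Point.map_some,
      E5_Vf_some0 h2 ha _ (by rw [hx, _root_.map_zero])]
  · rw [E5_Vf_some h2 ha h hx, Affine.Point.map_some, Affine.Point.map_some,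
      E5_Vf_some h2 ha _ (by rw [Ne, map_eq_zero]; exact hx)]
    apply E5_ext
    · simp
    · simp

/-- over an algebraically closed field `F` is surjective -/
private theorem E5_surj [IsAlgClosed L] (h2 : (2 : K) = 0) (ha : a ≠ 0) (Q : Pt a2 (a ^ 2) L) :
    ∃ P : Pt a2 a L, E5_Ff h2 ha P = Q := by
  have h2' : (2 : L) = 0 := E5_c2 h2
  rcases Q with _ | ⟨X, Y, h⟩
  · exact ⟨0, rfl⟩
  · obtain ⟨x, hx⟩ := IsAlgClosed.exists_pow_nat_eq X (n := 2) (by norm_num)
    obtain ⟨y, hy⟩ := IsAlgClosed.exists_pow_nat_eq (Y + algebraMap K L a2 * X) (n := 2) (by norm_num)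
    have e := eqn h2 h
    have hns : WeierstrassCurve.Affine.Nonsingular ((Wo a2 a)⁄L) x y := by
      rw [nonsing_iff h2 ha]
      rw [map_pow] at e
      generalize algebraMap K L a2 = B at *
      generalize algebraMap K L a = A at *
      have hY : Y = y ^ 2 - B * X := by linear_combination (-1 : L) * hy
      rw [hY, ← hx] at e
      have e1 : (y ^ 2 + x * y - (x ^ 3 + B * x ^ 2 + A)) ^ 2 = 0 := by
        linear_combination e + (A * B * x ^ 2 - A * x * y + A * x ^ 3 - A * y ^ 2 + A ^ 2 -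
          B * x ^ 3 * y + B * x ^ 4 + B * x ^ 5 + x * y ^ 3 - x ^ 3 * y ^ 2 - x ^ 4 * y + x ^ 6) * h2'
      have e2 := pow_eq_zero_iff (two_ne_zero) |>.1 e1
      linear_combination e2
    refine ⟨Affine.Point.some x y hns, ?_⟩
    rw [E5_Ff_some]
    apply E5_ext _ _ hx
    rw [hy, hx]
    linear_combination (algebraMap K L a2 * X) * h2'

private theorem E5_Vadd [DecidableEq L] (h2 : (2 : K) = 0) (ha : a ≠ 0)
    (P Q : Pt a2 (a ^ 2) L) : E5_Vf h2 ha (P + Q) = E5_Vf h2 ha P + E5_Vf h2 ha Q := by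
  classical
  let φ : L →ₐ[K] AlgebraicClosure L := IsScalarTower.toAlgHom K L (AlgebraicClosure L)
  have key : ∀ P Q : Pt a2 (a ^ 2) (AlgebraicClosure L),
      E5_Vf h2 ha (P + Q) = E5_Vf h2 ha P + E5_Vf h2 ha Q := by
    intro P Q
    obtain ⟨P, rfl⟩ := E5_surj h2 ha P
    obtain ⟨Q, rfl⟩ := E5_surj h2 ha Q
    rw [← E5_Fadd, E5_VF, E5_VF, E5_VF]
    abel
  apply Affine.Point.map_injective (W' := Wo a2 a) φ
  show mp φ _ = mp φ _
  rw [map_add, ← E5_Vmp, ← E5_Vmp, ← E5_Vmp, map_add, key]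

/-- Additivity of `V`: over an algebraic closure `Ω` of `L` every point of `E_{a²}` is `F P`
(roots of `x` and of `y + a₂ x`), `V (F P) = 2 P` (formula `dbl_f`), so `V` is additive there,
and `mp` into `Ω` is injective. -/
theorem exists_V (h2 : (2 : K) = 0) (ha : a ≠ 0) (L : Type u) [Field L] [Algebra K L]
    [DecidableEq L] : ∃ V : Pt a2 (a ^ 2) L →+ Pt a2 a L, Vform a2 a L V ∧
      ∀ F : Pt a2 a L →+ Pt a2 (a ^ 2) L, Fform a2 a L F → ∀ P, V (F P) = P + P := by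
  refine ⟨{ toFun := E5_Vf h2 ha
            map_zero' := rfl
            map_add' := E5_Vadd h2 ha }, ⟨?_, ?_⟩, ?_⟩
  · intro y h
    exact E5_Vf_some0 h2 ha h rfl
  · intro x y h hx
    exact ⟨E5_nsV h2 ha h hx, E5_Vf_some h2 ha h hx⟩
  · intro F hF P
    show E5_Vf h2 ha (F P) = P + P
    rw [← E5_VF h2 ha P]
    congr 1
    rcases P with _ | ⟨x, y, h⟩
    · exact _root_.map_zero F
    · obtain ⟨h', e⟩ := hF x y h
      rw [e, E5_Ff_some]

/-- `V` commutes with homomorphisms of fields -/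
theorem V_mp [DecidableEq L] [DecidableEq M] (V : Pt a2 (a ^ 2) L →+ Pt a2 a L)
    (hV : Vform a2 a L V) (V' : Pt a2 (a ^ 2) M →+ Pt a2 a M) (hV' : Vform a2 a M V')
    (φ : L →ₐ[K] M) (P : Pt a2 (a ^ 2) L) : V' (mp φ P) = mp φ (V P) := by
  rcases P with _ | ⟨x, y, h⟩
  · show V' (mp φ 0) = mp φ (V 0)
    rw [_root_.map_zero, _root_.map_zero, _root_.map_zero, _root_.map_zero]
  by_cases hx : x = 0
  · subst hx
    rw [hV.1, _root_.map_zero, Affine.Point.map_some]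
    have : ∀ (z w : M) (h : WeierstrassCurve.Affine.Nonsingular ((Wo a2 (a ^ 2))⁄M) z w), z = 0 →
        V' (Affine.Point.some z w h) = 0 := by
      intro z w h hz
      subst hz
      exact hV'.1 _ _
    exact this _ _ _ (_root_.map_zero φ)
  · obtain ⟨h', e⟩ := hV.2 x y h hx
    rw [e, Affine.Point.map_some, Affine.Point.map_some]
    obtain ⟨h'', e''⟩ := hV'.2 (φ x) (φ y) ((Wo a2 (a ^ 2)).baseChange_nonsingular φ.injective .. |>.mpr h)
      (by rw [Ne, map_eq_zero]; exact hx)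
    rw [e'']
    apply E5_ext
    · simp
    · simp

/-- `F` commutes with homomorphisms of fields -/
theorem F_mp [DecidableEq L] [DecidableEq M] (F : Pt a2 a L →+ Pt a2 (a ^ 2) L)
    (hF : Fform a2 a L F) (F' : Pt a2 a M →+ Pt a2 (a ^ 2) M) (hF' : Fform a2 a M F')
    (φ : L →ₐ[K] M) (P : Pt a2 a L) : F' (mp φ P) = mp φ (F P) := by
  rcases P with _ | ⟨x, y, h⟩
  · show F' (mp φ 0) = mp φ (F 0)
    rw [_root_.map_zero, _root_.map_zero, _root_.map_zero, _root_.map_zero]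
  · obtain ⟨h', e⟩ := hF x y h
    rw [e, Affine.Point.map_some, Affine.Point.map_some]
    obtain ⟨h'', e''⟩ := hF' (φ x) (φ y) ((Wo a2 a).baseChange_nonsingular φ.injective .. |>.mpr h)
    rw [e'']
    apply E5_ext
    · simp
    · simp

/-- the kernel of `V` contains `(0, a)` -/
theorem V_T [DecidableEq K] [DecidableEq L] (V : Pt a2 (a ^ 2) L →+ Pt a2 a L)
    (hV : Vform a2 a L V) (hT : WeierstrassCurve.Affine.Nonsingular ((Wo a2 (a ^ 2))⁄K) 0 a) :
    V (bs (Affine.Point.some 0 a hT : Pt a2 (a ^ 2) K)) = 0 := by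
  have : ∀ (z w : L) (h : WeierstrassCurve.Affine.Nonsingular ((Wo a2 (a ^ 2))⁄L) z w), z = 0 →
      V (Affine.Point.some z w h) = 0 := by
    intro z w h hz
    subst hz
    exact hV.1 _ _
  rw [Affine.Point.map_some]
  exact this _ _ _ (_root_.map_zero _)

end MP2619.NP
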