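import Pool.Agent.Lib.MP_2619d0_ag.NP.E4
import Pool.Agent.Lib.MP_2619d0_ag.NP.E5

/-!
Row E6: descent along `V`.
-/

set_option autoImplicit false

namespace MP2619.NP

universe u

open IntermediateField WeierstrassCurve

variable {K L : Type u} [Field K] [Field L] [Algebra K L] {a2 b b2 b6 : K}

private theorem E6_nonsing (h2 : (2 : K) = 0) (hb : b ≠ 0) :
    WeierstrassCurve.Affine.Nonsingular ((Wo a2 (b ^ 2))⁄K) 0 b := by
  rw [nonsing_iff h2 (pow_ne_zero 2 hb)]
  simp

/-- a field which is not algebraic over `K` has infinite degree over algebraic subfields -/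
private theorem E6_finrank_zero (hL : ¬ Algebra.IsAlgebraic K L) (F : IntermediateField K L)
    (hF : Algebra.IsAlgebraic K F) : Module.finrank F L = 0 := by
  apply Module.finrank_of_not_finite
  intro h
  apply hL
  have : Algebra.IsAlgebraic F L := Algebra.IsAlgebraic.of_finite F L
  exact Algebra.IsAlgebraic.trans K F L

/-- `x² = u x + v` over `F`, `x ∉ F`: `[F(x) : F] = 2` -/
private theorem E6_quad (F : IntermediateField K L) (x u v : L) (hu : u ∈ F) (hv : v ∈ F)
    (hx : x ^ 2 = u * x + v) (hxF : x ∉ F) (htop : F ⊔ adjoin K {x} = ⊤) :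
    Module.finrank F L = 2 := by
  let p : Polynomial F := Polynomial.X ^ 2 - Polynomial.C ⟨u, hu⟩ * Polynomial.X - Polynomial.C ⟨v, hv⟩
  have hpm : p.Monic := by
    simp only [p]
    monicity!
  have hpd : p.natDegree = 2 := by
    simp only [p]
    compute_degree!
  have hpx : Polynomial.aeval x p = 0 := by
    simp only [p, map_sub, map_mul, map_pow, Polynomial.aeval_X, Polynomial.aeval_C]
    change x ^ 2 - u * x - v = 0
    rw [hx]; ring
  have hint : IsIntegral F x := ⟨p, hpm, hpx⟩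
  have hmin : (minpoly F x).natDegree ≤ 2 := by
    have := Polynomial.natDegree_le_of_dvd (minpoly.dvd F x hpx) hpm.ne_zero
    omega
  have hne1 : (minpoly F x).natDegree ≠ 1 := by
    intro h1
    obtain ⟨z, hz⟩ := minpoly.natDegree_eq_one_iff.mp h1
    exact hxF (hz ▸ z.2)
  have hpos : 0 < (minpoly F x).natDegree := minpoly.natDegree_pos hint
  have hadj : F⟮x⟯ = ⊤ := by
    apply IntermediateField.restrictScalars_injective K
    rw [IntermediateField.restrictScalars_top, eq_top_iff, ← htop]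
    apply sup_le
    · intro z hz
      exact (F⟮x⟯).algebraMap_mem ⟨z, hz⟩
    · rw [adjoin_simple_le_iff]
      exact mem_adjoin_simple_self F x
  have h3 : Module.finrank F F⟮x⟯ = (minpoly F x).natDegree :=
    IntermediateField.adjoin.finrank hint
  rw [hadj, IntermediateField.finrank_top'] at h3
  omega

/-- the coordinates of `V P` -/
private theorem E6_pf_V [DecidableEq L] (V : Pt a2 (b ^ 2) L →+ Pt a2 b L) (hV : Vform a2 b L V)
    {x y : L} (h : WeierstrassCurve.Affine.Nonsingular ((Wo a2 (b ^ 2))⁄L) x y) (hx : x ≠ 0) :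
    pf (V (Affine.Point.some x y h : Pt a2 (b ^ 2) L)) = {(x ^ 2 + algebraMap K L b) / x,
      ((x ^ 2 + algebraMap K L b) * (y + algebraMap K L b) + algebraMap K L b * x) / x ^ 2} := by
  obtain ⟨h', e⟩ := hV.2 x y h hx
  rw [e]
  rfl

private theorem E6_two (h2 : (2 : K) = 0) : (2 : L) = 0 := by
  have := congrArg (algebraMap K L) h2
  rwa [map_ofNat, map_zero] at this

/-- an element of the field of a fixed point is fixed -/
private theorem E6_fix [DecidableEq L] (τ : L →ₐ[K] L) (c : Pt b2 b6 L) (hc : mp τ c = c) {z : L}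
    (hz : z ∈ adjoin K (pf c)) : τ z = z := by
  induction hz using IntermediateField.adjoin_induction with
  | mem z hz =>
    match c, hc with
    | .zero, _ => exact absurd hz (by simp [pf])
    | .some x y h, hc =>
      have h1 : mp τ (Affine.Point.some x y h : Pt b2 b6 L)
        = Affine.Point.some (τ x) (τ y) _ := Affine.Point.map_some τ h
      rw [h1] at hc
      injection hc with e1 e2
      rcases hz with rfl | rfl
      · exact e1
      · exact e2
  | algebraMap z => exact τ.commutes z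
  | add x y _ _ h1 h2 => rw [map_add, h1, h2]
  | inv x _ h1 => rw [map_inv₀, h1]
  | mul x y _ _ h1 h2 => rw [map_mul, h1, h2]

/-- a point with fixed coordinates is fixed -/
private theorem E6_fix' [DecidableEq L] (τ : L →ₐ[K] L) (c : Pt b2 b6 L)
    (hc : ∀ z ∈ pf c, τ z = z) : mp τ c = c := by
  match c, hc with
  | .zero, _ => rfl
  | .some x y h, hc =>
    have h1 : mp τ (Affine.Point.some x y h : Pt b2 b6 L)
      = Affine.Point.some (τ x) (τ y) _ := Affine.Point.map_some τ h
    rw [h1, Affine.Point.some.injEq]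
    exact ⟨hc x (Or.inl rfl), hc y (Or.inr rfl)⟩

/-- `[L : K(V P)] = 2` for a generic point -/
private theorem E6_gen [DecidableEq K] [DecidableEq L] (h2 : (2 : K) = 0) (hb : b ≠ 0)
    (P : Pt a2 (b ^ 2) L) (hP : IsGen P) (V : Pt a2 (b ^ 2) L →+ Pt a2 b L)
    (hV : Vform a2 b L V) : pdeg K (V P) = 2 := by
  have h2L : (2 : L) = 0 := E6_two h2
  have hT := E6_nonsing (a2 := a2) h2 hb
  have hQ : ¬ Algebra.IsAlgebraic K
      (adjoin K (pf (P + bs (Affine.Point.some 0 b hT : Pt a2 (b ^ 2) K)))) := by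
    rw [adjoin_add_bs, hP.top]
    intro h
    apply hP.nalg
    exact (IntermediateField.topEquiv (F := K) (E := L)).isAlgebraic_iff.mp h
  obtain ⟨τ, hτ⟩ := exists_hom h2 P hP _ hQ
  have hfix : mp τ (V P) = V P := by
    rw [← V_mp V hV V hV τ P, hτ, map_add, V_T V hV hT, add_zero]
  obtain ⟨x, y, h, rfl, hx, htop⟩ := gen_some h2 P hP
  have hx0 : x ≠ 0 := by
    rintro rfl
    exact hx (isAlgebraic_zero)
  have hb0 : x ^ 2 + algebraMap K L b ≠ 0 := by
    intro h0
    apply hx
    refine ⟨Polynomial.X ^ 2 + Polynomial.C b, ?_, ?_⟩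
    · exact (Polynomial.monic_X_pow_add_C b two_ne_zero).ne_zero
    · simpa using h0
  have hpf := E6_pf_V V hV h hx0
  set X : L := (x ^ 2 + algebraMap K L b) / x with hX
  set Y : L := ((x ^ 2 + algebraMap K L b) * (y + algebraMap K L b) + algebraMap K L b * x) / x ^ 2
    with hY
  have hXF : X ∈ adjoin K (pf (V (Affine.Point.some x y h : Pt a2 (b ^ 2) L))) := by
    rw [hpf]; exact subset_adjoin K _ (Or.inl rfl)
  have hYF : Y ∈ adjoin K (pf (V (Affine.Point.some x y h : Pt a2 (b ^ 2) L))) := by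
    rw [hpf]; exact subset_adjoin K _ (Or.inr rfl)
  set F := adjoin K (pf (V (Affine.Point.some x y h : Pt a2 (b ^ 2) L))) with hF
  have hyx : y = (Y * x ^ 2 - algebraMap K L b * x) / (x ^ 2 + algebraMap K L b)
      - algebraMap K L b := by
    rw [hY]
    field_simp
    ring
  have hxy : ∀ G : IntermediateField K L, F ≤ G → x ∈ G → y ∈ G := by
    intro G hG hxG
    have hbG : algebraMap K L b ∈ G := G.algebraMap_mem b
    rw [hyx]
    exact sub_mem (div_mem (sub_mem (mul_mem (hG hYF) (pow_mem hxG 2)) (mul_mem hbG hxG))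
      (add_mem (pow_mem hxG 2) hbG)) hbG
  change Module.finrank F L = 2
  refine E6_quad F x X (-algebraMap K L b) hXF (neg_mem (F.algebraMap_mem b)) ?_ ?_ ?_
  · rw [hX]
    field_simp
    ring
  · intro hxF
    have hyF := hxy F le_rfl hxF
    have h3 : mp τ (Affine.Point.some x y h : Pt a2 (b ^ 2) L) = Affine.Point.some x y h := by
      apply E6_fix'
      intro z hz
      rcases hz with rfl | rfl
      · exact E6_fix τ _ hfix hxF
      · exact E6_fix τ _ hfix hyF
    rw [h3] at hτ
    have h4 : (bs (Affine.Point.some 0 b hT : Pt a2 (b ^ 2) K) : Pt a2 (b ^ 2) L) = 0 := by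
      simpa using hτ.symm
    have h5 : (bs (Affine.Point.some 0 b hT : Pt a2 (b ^ 2) K) : Pt a2 (b ^ 2) L)
      = Affine.Point.some _ _ _ := Affine.Point.map_some (Algebra.ofId K L) hT
    rw [h5] at h4
    exact absurd h4 (by simp)
  · rw [eq_top_iff, ← htop, adjoin_le_iff]
    have hxs : x ∈ F ⊔ adjoin K {x} :=
      (le_sup_right : adjoin K {x} ≤ F ⊔ adjoin K {x}) (mem_adjoin_simple_self K x)
    rintro z (rfl | rfl)
    · exact hxs
    · exact hxy _ le_sup_left hxs

private theorem E6_pf_V_le [DecidableEq L] (V : Pt a2 (b ^ 2) L →+ Pt a2 b L) (hV : Vform a2 b L V)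
    (c : Pt a2 (b ^ 2) L) : adjoin K (pf (V c)) ≤ adjoin K (pf c) := by
  rw [adjoin_le_iff]
  match c with
  | .zero =>
    have h : V (Affine.Point.zero : Pt a2 (b ^ 2) L) = 0 := map_zero V
    rw [h]
    intro z hz
    exact absurd hz (by rintro ⟨⟩)
  | .some x y h =>
    by_cases hx : x = 0
    · subst hx
      rw [hV.1 y h]
      intro z hz
      exact absurd hz (by rintro ⟨⟩)
    · rw [E6_pf_V V hV h hx]
      have hxG : x ∈ adjoin K (pf (Affine.Point.some x y h : Pt a2 (b ^ 2) L)) :=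
        subset_adjoin K _ (Or.inl rfl)
      have hyG : y ∈ adjoin K (pf (Affine.Point.some x y h : Pt a2 (b ^ 2) L)) :=
        subset_adjoin K _ (Or.inr rfl)
      have hbG : algebraMap K L b ∈ adjoin K (pf (Affine.Point.some x y h : Pt a2 (b ^ 2) L)) :=
        IntermediateField.algebraMap_mem _ b
      rintro z (rfl | rfl)
      · exact div_mem (add_mem (pow_mem hxG 2) hbG) hxG
      · exact div_mem (add_mem (mul_mem (add_mem (pow_mem hxG 2) hbG) (add_mem hyG hbG))
          (mul_mem hbG hxG)) (pow_mem hxG 2)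

/-- `[K(P) : K(V P)] = 2` -/
theorem pdeg_V [DecidableEq L] (h2 : (2 : K) = 0) (hb : b ≠ 0)
    (hL : ¬ Algebra.IsAlgebraic K L) (V : Pt a2 (b ^ 2) L →+ Pt a2 b L) (hV : Vform a2 b L V)
    (c : Pt a2 (b ^ 2) L) : pdeg K (V c) = 2 * pdeg K c := by
  let _ : DecidableEq K := Classical.decEq K
  by_cases hc : Algebra.IsAlgebraic K (adjoin K (pf c))
  · have h1 : pdeg K c = 0 := E6_finrank_zero hL _ hc
    have h3 : pdeg K (V c) = 0 := by
      apply E6_finrank_zero hL
      have hle := E6_pf_V_le V hV c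
      exact Algebra.IsAlgebraic.of_injective (IntermediateField.inclusion hle)
        (IntermediateField.inclusion_injective hle)
    rw [h1, h3]
  · obtain ⟨P0, hP0, hmp⟩ := gen_self c hc
    obtain ⟨V0, hV0, -⟩ := exists_V (a2 := a2) h2 hb (adjoin K (pf c))
    have h1 := V_mp V0 hV0 V hV (adjoin K (pf c)).val P0
    rw [hmp] at h1
    have h3 : pdeg K (V c) = Module.finrank (adjoin K (pf c)).val.fieldRange L * pdeg K (V0 P0) := by
      rw [h1, pdeg_mp]
    have h4 : pdeg K c = Module.finrank (adjoin K (pf c)).val.fieldRange L * pdeg K P0 := by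
      conv_lhs => rw [← hmp]
      rw [pdeg_mp]
    rw [h3, h4, E6_gen h2 hb P0 hP0 V0 hV0, pdeg_gen P0 hP0]
    ring

/-- `V P` is a generic point over its field, `[L : K(V P)] = 2`, and the points which are invariant
under the translation `τ` are points over `K(V P)` (`fix_tau`) -/
theorem V_invariant [DecidableEq K] [DecidableEq L] (h2 : (2 : K) = 0) (hb : b ≠ 0)
    (P : Pt a2 (b ^ 2) L) (hP : IsGen P) (V : Pt a2 (b ^ 2) L →+ Pt a2 b L)
    (hV : Vform a2 b L V) (hT : WeierstrassCurve.Affine.Nonsingular ((Wo a2 (b ^ 2))⁄K) 0 b)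
    (τ : L →ₐ[K] L) (hτ : mp τ P = P + bs (Affine.Point.some 0 b hT : Pt a2 (b ^ 2) K)) :
    Module.finrank (adjoin K (pf (V P))) L = 2 ∧
      (∃ P1 : Pt a2 b (adjoin K (pf (V P))), IsGen P1 ∧ mp (adjoin K (pf (V P))).val P1 = V P) ∧
      ∀ c : Pt b2 b6 L, mp τ c = c →
        ∃ c1 : Pt b2 b6 (adjoin K (pf (V P))), mp (adjoin K (pf (V P))).val c1 = c := by
  have h1 : Module.finrank (adjoin K (pf (V P))) L = 2 := E6_gen h2 hb P hP V hV
  refine ⟨h1, ?_, ?_⟩
  · apply gen_self
    intro h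
    have := E6_finrank_zero hP.nalg _ h
    omega
  · intro c hc
    apply exists_of_mem
    obtain ⟨x, y, h, rfl, hx, htop⟩ := gen_some h2 P hP
    have hx0 : x ≠ 0 := by
      rintro rfl
      exact hx (isAlgebraic_zero)
    intro z hz
    have h3 := fix_tau h2 hb h hP hT τ hτ z (E6_fix τ c hc (subset_adjoin K _ hz))
    rw [E6_pf_V V hV h hx0]
    exact h3

/-- Sketch: `τ c = c + e`, `2e = 0`, so `V e = 0`, `V c` and `V P` are points over
`K(V P) = L₁`, and `2 * pdeg c = pdeg (V c) = 2 * pdeg c₁`. -/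
theorem V_descent [DecidableEq K] [DecidableEq L] (h2 : (2 : K) = 0) (hb : b ≠ 0)
    (P c : Pt a2 (b ^ 2) L) (hP : IsGen P) :
    ∃ (L1 : Type u) (_ : Field L1) (_ : Algebra K L1) (_ : DecidableEq L1)
      (P1 c1 : Pt a2 b L1), IsGen P1 ∧ pdeg K c1 = pdeg K c ∧
        pdeg K (c1 + P1) = pdeg K (c + P) := by
  have hT := E6_nonsing (a2 := a2) h2 hb
  have hQ : ¬ Algebra.IsAlgebraic K
      (adjoin K (pf (P + bs (Affine.Point.some 0 b hT : Pt a2 (b ^ 2) K)))) := by
    rw [adjoin_add_bs, hP.top]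
    intro h
    apply hP.nalg
    exact (IntermediateField.topEquiv (F := K) (E := L)).isAlgebraic_iff.mp h
  obtain ⟨τ, hτ⟩ := exists_hom h2 P hP _ hQ
  obtain ⟨V, hV, -⟩ := exists_V (a2 := a2) h2 hb L
  obtain ⟨e, he, hce⟩ := tau_const h2 hb (pow_ne_zero 2 hb) P hP hT τ hτ c
  have hVe : V (bs e) = 0 := by
    rcases two_torsion h2 e he with rfl | ⟨β, h, hβ, rfl⟩
    · rw [map_zero, map_zero]
    · have h5 : (bs (Affine.Point.some 0 β h : Pt a2 (b ^ 2) K) : Pt a2 (b ^ 2) L)
        = Affine.Point.some _ _ _ := Affine.Point.map_some (Algebra.ofId K L) h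
      rw [h5]
      have h0 : (Algebra.ofId K L) 0 = 0 := map_zero _
      have h6 : ∀ (z : L) (w : L) (hz : z = 0) (h : _), V (Affine.Point.some z w h) = 0 := by
        rintro z w rfl h
        exact hV.1 w h
      exact h6 _ _ h0 _
  obtain ⟨hfin, ⟨P1, hP1, hmpP⟩, hinv⟩ := V_invariant (b2 := a2) (b6 := b) h2 hb P hP V hV hT τ hτ
  have hVc : mp τ (V c) = V c := by
    rw [← V_mp V hV V hV τ c, hce, map_add, hVe, add_zero]
  obtain ⟨c1, hc1⟩ := hinv (V c) hVc
  have hfr : Module.finrank (adjoin K (pf (V P))).val.fieldRange L = 2 := by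
    rw [IntermediateField.fieldRange_val]
    exact hfin
  have key : ∀ (d : Pt a2 (b ^ 2) L) (d1 : Pt a2 b (adjoin K (pf (V P)))),
      mp (adjoin K (pf (V P))).val d1 = V d → pdeg K d1 = pdeg K d := by
    intro d d1 hd
    have h6 := pdeg_V h2 hb hP.nalg V hV d
    rw [← hd, pdeg_mp, hfr] at h6
    omega
  refine ⟨adjoin K (pf (V P)), inferInstance, inferInstance, inferInstance, P1, c1, hP1,
    key c c1 hc1, key (c + P) (c1 + P1) ?_⟩
  rw [map_add, map_add, hc1, hmpP]

end MP2619.NP
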