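import Pool.Agent.Lib.MP_2619d0_ag.NP.E6
import Pool.Agent.Lib.MP_2619d0_ag.NP.EB

/-!
Row E7: reduction to a point `c` with `c(-P) = -c(P)`, when `a` is not a square in `K`.
-/

set_option autoImplicit false

namespace MP2619.NP

universe u

open IntermediateField WeierstrassCurve

variable {K L : Type u} [Field K] [Field L] [Algebra K L] {a2 a : K}

private theorem e7_two (h2 : (2 : K) = 0) : (2 : L) = 0 := by
  have := congrArg (algebraMap K L) h2
  rwa [map_ofNat, map_zero] at this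

/-- the squares of the elements of `K(S)` -/
private theorem e7_sq (h2 : (2 : K) = 0) (M : IntermediateField K L) (S : Set L)
    (hS : adjoin K S = ⊤) (h : ∀ s ∈ S, s ^ 2 ∈ M) (z : L) : z ^ 2 ∈ M := by
  have hz : z ∈ adjoin K S := by rw [hS]; trivial
  have h2L : (2 : L) = 0 := e7_two h2
  induction hz using adjoin_induction with
  | mem x hx => exact h x hx
  | algebraMap x => rw [← map_pow]; exact M.algebraMap_mem _
  | add x y _ _ hx hy =>
    have : (x + y) ^ 2 = x ^ 2 + y ^ 2 := by linear_combination (x * y) * h2L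
    rw [this]; exact M.add_mem hx hy
  | inv x _ hx => rw [inv_pow]; exact M.inv_mem hx
  | mul x y _ _ hx hy => rw [mul_pow]; exact M.mul_mem hx hy

private theorem e7_V [DecidableEq L] (V : Pt a2 (a ^ 2) L →+ Pt a2 a L) (hV : Vform a2 a L V)
    (M : IntermediateField K L) (Q : Pt a2 (a ^ 2) L) (hQ : pf Q ⊆ M) : pf (V Q) ⊆ M := by
  rcases Q with _ | ⟨X, Y, h⟩
  · have : V Affine.Point.zero = 0 := map_zero V
    rw [this]; intro z hz; exact hz.elim
  · by_cases hX : X = 0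
    · subst hX
      rw [hV.1]; intro z hz; exact hz.elim
    · obtain ⟨h', e⟩ := hV.2 X Y h hX
      rw [e]
      have hXM : X ∈ M := hQ (by simp [pf])
      have hYM : Y ∈ M := hQ (by simp [pf])
      have haM : algebraMap K L a ∈ M := M.algebraMap_mem a
      intro z hz
      simp only [pf, Set.mem_insert_iff, Set.mem_singleton_iff] at hz
      have h1 : X ^ 2 + algebraMap K L a ∈ M := M.add_mem (pow_mem hXM 2) haM
      rcases hz with rfl | rfl
      · exact M.div_mem h1 hXM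
      · exact M.div_mem (M.add_mem (M.mul_mem h1 (M.add_mem hYM haM)) (M.mul_mem haM hXM))
          (pow_mem hXM 2)

private theorem e7_sqF [DecidableEq L] (h2 : (2 : K) = 0) (P : Pt a2 a L) (hP : IsGen P)
    (F : Pt a2 a L →+ Pt a2 (a ^ 2) L) (hF : Fform a2 a L F) (z : L) :
    z ^ 2 ∈ adjoin K (pf (F P)) := by
  refine e7_sq h2 _ (pf P) hP.top ?_ z
  rcases P with _ | ⟨x, y, h⟩
  · intro s hs; exact hs.elim
  · obtain ⟨h', e⟩ := hF x y h
    rw [e]
    have hx : x ^ 2 ∈ adjoin K (pf (Affine.Point.some (x ^ 2) (y ^ 2 + algebraMap K L a2 * x ^ 2) h' :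
        Pt a2 (a ^ 2) L)) := subset_adjoin K _ (by simp [pf])
    have hy : y ^ 2 + algebraMap K L a2 * x ^ 2 ∈ adjoin K (pf (Affine.Point.some (x ^ 2)
        (y ^ 2 + algebraMap K L a2 * x ^ 2) h' : Pt a2 (a ^ 2) L)) := subset_adjoin K _ (by simp [pf])
    intro s hs
    simp only [pf, Set.mem_insert_iff, Set.mem_singleton_iff] at hs
    rcases hs with rfl | rfl
    · exact hx
    · have h3 := sub_mem hy (mul_mem (IntermediateField.algebraMap_mem _ a2) hx)
      rwa [add_sub_cancel_right] at h3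

/-- `2c` is a point over `K(F P)` (`L² ⊆ K(F P)`, `2c = V (F c)`) -/
theorem two_mem [DecidableEq L] (h2 : (2 : K) = 0) (ha : a ≠ 0)
    (P : Pt a2 a L) (hP : IsGen P) (F : Pt a2 a L →+ Pt a2 (a ^ 2) L) (hF : Fform a2 a L F)
    (c : Pt a2 a L) : pf (c + c) ⊆ adjoin K (pf (F P)) := by
  obtain ⟨V, hV, hVF⟩ := exists_V (a2 := a2) h2 ha L
  rw [← hVF F hF c]
  refine e7_V V hV _ (F c) ?_
  have hsq := e7_sqF h2 P hP F hF
  rcases c with _ | ⟨x, y, h⟩
  · have : F Affine.Point.zero = 0 := map_zero F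
    rw [this]; intro z hz; exact hz.elim
  · obtain ⟨h', e⟩ := hF x y h
    rw [e]
    intro z hz
    simp only [pf, Set.mem_insert_iff, Set.mem_singleton_iff] at hz
    rcases hz with rfl | rfl
    · exact hsq x
    · exact add_mem (hsq y) (mul_mem (IntermediateField.algebraMap_mem _ _) (hsq x))

/-- A point over `K(F P)` is a point over `K(2P) = K(V F P)`: `F P` is a generic point of
`E_{a²}` over its field, `tau_const` with `b = a` (`e = 0` since `a` is not a square),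
`V_invariant`. -/
theorem factor_two [DecidableEq K] [DecidableEq L] (h2 : (2 : K) = 0)
    (ha : ∀ z : K, z ^ 2 ≠ a) (P : Pt a2 a L) (hP : IsGen P)
    (F : Pt a2 a L →+ Pt a2 (a ^ 2) L) (hF : Fform a2 a L F) (d : Pt a2 a L)
    (hd : pf d ⊆ adjoin K (pf (F P))) : pf d ⊆ adjoin K (pf (P + P)) := by
  have ha0 : a ≠ 0 := fun h => ha 0 (by rw [h]; ring)
  have hsq := e7_sqF h2 P hP F hF
  have hMalg : ¬ Algebra.IsAlgebraic K (adjoin K (pf (F P))) := by
    intro hM
    apply hP.nalg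
    have hLM : Algebra.IsAlgebraic (adjoin K (pf (F P))) L := by
      refine ⟨fun z => ?_⟩
      refine ⟨Polynomial.X ^ 2 - Polynomial.C (⟨z ^ 2, hsq z⟩ : adjoin K (pf (F P))), ?_, ?_⟩
      · exact Polynomial.X_pow_sub_C_ne_zero (by norm_num) _
      · simp
    exact Algebra.IsAlgebraic.trans K (adjoin K (pf (F P))) L
  obtain ⟨P0, hP0, hP0F⟩ := gen_self (F P) hMalg
  obtain ⟨d0, hd0⟩ := exists_of_mem (adjoin K (pf (F P))) d hd
  have hT : WeierstrassCurve.Affine.Nonsingular ((Wo a2 (a ^ 2))⁄K) 0 a := by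
    rw [nonsing_iff h2 (pow_ne_zero 2 ha0)]
    simp
  have hQ : ¬ Algebra.IsAlgebraic K (adjoin K (pf (P0 +
      bs (Affine.Point.some 0 a hT : Pt a2 (a ^ 2) K)))) := by
    rw [adjoin_add_bs, hP0.top]
    intro h
    apply hP0.nalg
    exact (IntermediateField.topEquiv (F := K) (E := adjoin K (pf (F P)))).isAlgebraic_iff.1 h
  obtain ⟨τ, hτ⟩ := exists_hom h2 P0 hP0 _ hQ
  obtain ⟨e, he, hτd⟩ := tau_const (b2 := a2) (b6 := a) h2 ha0 ha0 P0 hP0 hT τ hτ d0
  have he0 : e = 0 := by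
    rcases two_torsion h2 e he with h | ⟨β, h, hβ, _⟩
    · exact h
    · exact absurd hβ (ha β)
  rw [he0, map_zero, add_zero] at hτd
  obtain ⟨V0, hV0, hVF0⟩ := exists_V (a2 := a2) h2 ha0 (adjoin K (pf (F P)))
  obtain ⟨V, hV, hVF⟩ := exists_V (a2 := a2) h2 ha0 L
  obtain ⟨c1, hc1⟩ := (V_invariant (b2 := a2) (b6 := a) h2 ha0 P0 hP0 V0 hV0 hT τ hτ).2.2 d0 hτd
  have h1 : pf d0 ⊆ (adjoin K (pf (V0 P0)) : Set (adjoin K (pf (F P)))) := by
    rw [← hc1, pf_mp]
    rintro _ ⟨w, _, rfl⟩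
    exact w.2
  rw [← hVF F hF P, ← hP0F, V_mp V0 hV0 V hV, pf_mp, ← adjoin_map, ← hd0, pf_mp]
  rintro _ ⟨w, hw, rfl⟩
  exact ⟨w, h1 hw, rfl⟩

/-- Sketch: `κ = c + σ c` (`sigma_const`), `2c - κ` is a point over `K(2P)`, so
`2c - κ = φ c₂` with `φ : L → L`, `φ P = 2P` (`exists_hom`). `φ σ = σ φ` (`hom_ext`), so
`φ (σ c₂) = σ (2c - κ) = κ - 2c = -φ c₂`.
`4 pdeg c₂ = pdeg (φ c₂) = pdeg (2c - κ) = pdeg (2c) = 4 pdeg c` (`pdeg_mp_gen`, `pdeg_double`,
`adjoin_add_bs`), and the same for `c + P`: `φ (c₂ + P) = 2(c + P) - κ`. -/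
theorem odd_reduction [DecidableEq K] [DecidableEq L] (h2 : (2 : K) = 0)
    (ha : ∀ z : K, z ^ 2 ≠ a) (P c : Pt a2 a L) (hP : IsGen P) (σ : L →ₐ[K] L)
    (hσ : mp σ P = -P) :
    ∃ c2 : Pt a2 a L, mp σ c2 = -c2 ∧ pdeg K c2 = pdeg K c ∧
      pdeg K (c2 + P) = pdeg K (c + P) := by
  have ha0 : a ≠ 0 := fun h => ha 0 (by rw [h]; ring)
  obtain ⟨F, hF⟩ := exists_F (a2 := a2) h2 ha0 L
  obtain ⟨κ, hκ⟩ := sigma_const h2 ha0 P hP σ hσ c
  have hdb : ∀ Q : Pt a2 a L, pdeg K (Q + Q) = 4 * pdeg K Q := pdeg_double h2 ha0 hP.nalg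
  have hPP : pdeg K (P + P) = 4 := by rw [hdb, pdeg_gen P hP]
  have hnal : ¬ Algebra.IsAlgebraic K (adjoin K (pf (P + P))) := by
    intro hM
    apply hP.nalg
    have hfin : FiniteDimensional (adjoin K (pf (P + P))) L := by
      apply FiniteDimensional.of_finrank_pos
      change 0 < pdeg K (P + P)
      rw [hPP]; norm_num
    exact Algebra.IsAlgebraic.trans K (adjoin K (pf (P + P))) L
  obtain ⟨φ, hφ⟩ := exists_hom h2 P hP (P + P) hnal
  have hrange : φ.fieldRange = adjoin K (pf (P + P)) := by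
    rw [← hφ, pf_mp, ← adjoin_map, hP.top, ← AlgHom.fieldRange_eq_map]
  have hsh : ∀ Q : Pt a2 a L, pdeg K (Q - bs κ) = pdeg K Q := by
    intro Q
    have : Q - bs κ = Q + bs (-κ) := by rw [map_neg, sub_eq_add_neg]
    rw [this]
    unfold pdeg
    rw [adjoin_add_bs]
  have hmem : pf (c + c - bs κ) ⊆ (adjoin K (pf (P + P)) : Set L) := by
    refine factor_two h2 ha P hP F hF _ ?_
    have e1 : c + c - bs κ = c + c + bs (-κ) := by rw [map_neg, sub_eq_add_neg]
    rw [e1]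
    refine (subset_adjoin K _).trans ?_
    rw [adjoin_add_bs]
    exact adjoin_le_iff.2 (two_mem h2 ha0 P hP F hF c)
  obtain ⟨d0, hd0⟩ := exists_of_mem φ.fieldRange (c + c - bs κ) (by rw [hrange]; exact hmem)
  let E : L ≃ₐ[K] φ.fieldRange := φ.equivFieldRange
  have hE : φ.fieldRange.val.comp (E : L →ₐ[K] φ.fieldRange) = φ := by
    ext x; rfl
  set c2 : Pt a2 a L := mp (E.symm : φ.fieldRange →ₐ[K] L) d0 with hc2
  have hφc2 : mp φ c2 = c + c - bs κ := by
    rw [← hd0, hc2]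
    have : φ.comp (E.symm : φ.fieldRange →ₐ[K] L) = φ.fieldRange.val := by
      ext x
      have h1 : (E (E.symm x) : L) = φ (E.symm x) := rfl
      change φ (E.symm x) = (x : L)
      rw [← h1, AlgEquiv.apply_symm_apply]
    rw [Affine.Point.map_map, this]
  have hcomm : φ.comp σ = σ.comp φ := by
    apply hom_ext P hP
    rw [← Affine.Point.map_map, ← Affine.Point.map_map, hσ, hφ, map_neg, hφ, map_add, hσ]
    abel
  have hodd : mp σ c2 = -c2 := by
    apply Affine.Point.map_injective (W' := Wo a2 a) φ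
    change mp φ (mp σ c2) = mp φ (-c2)
    rw [Affine.Point.map_map, hcomm, ← Affine.Point.map_map, map_neg, hφc2, map_sub, map_add,
      mp_ofId]
    have : mp σ c = bs κ - c := by rw [← hκ]; abel
    rw [this]
    abel
  refine ⟨c2, hodd, ?_, ?_⟩
  · have h1 := pdeg_mp_gen P hP φ c2
    rw [hφc2, hφ, hPP, hsh, hdb] at h1
    omega
  · have h1 := pdeg_mp_gen P hP φ (c2 + P)
    have e1 : mp φ (c2 + P) = (c + P) + (c + P) - bs κ := by
      rw [map_add, hφc2, hφ]; abel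
    rw [e1, hφ, hPP, hsh, hdb] at h1
    omega

end MP2619.NP
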